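import Pool.Agent.Lib.MP_d439b2_co.CR.SpecC

/-!
# MP_d439b2_co, CR, ACl: the part with small cliques has few stable classes
-/

set_option autoImplicit false

namespace Pool.Agent.MPd439b2.CR

open Pool.Agent.MPd439b2 Pool.Agent.MPd439b2.A0 Pool.Agent.MPd439b2.Rep Pool.Agent.MPd439b2.R3

/-- a long sequence of different vertices of `A` which are pairwise adjacent is impossible -/
private theorem no_clique {V : Type} {G : SimpleGraph V} {A : Set V} {R : ℕ}
    (hR : ∀ K : Finset V, (K : Set V) ⊆ A → Clq G K → K.card < R) (x : ℕ → V)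
    (hA : ∀ i < R, x i ∈ A) (hne : ∀ i < R, ∀ j < R, i < j → x i ≠ x j)
    (hadj : ∀ i < R, ∀ j < R, i < j → G.Adj (x i) (x j)) : False := by
  classical
  have hinj : Set.InjOn x (Finset.range R : Finset ℕ) := by
    intro i hi j hj h
    rw [Finset.mem_coe, Finset.mem_range] at hi hj
    rcases lt_trichotomy i j with h1 | h1 | h1
    · exact absurd h (hne i hi j hj h1)
    · exact h1
    · exact absurd h.symm (hne j hj i hi h1)
  have h1 := hR ((Finset.range R).image x) (by
    intro v hv
    rw [Finset.mem_coe, Finset.mem_image] at hv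
    obtain ⟨i, hi, rfl⟩ := hv
    exact hA i (Finset.mem_range.mp hi)) (by
    intro u hu v hv huv
    obtain ⟨i, hi, rfl⟩ := Finset.mem_image.mp hu
    obtain ⟨j, hj, rfl⟩ := Finset.mem_image.mp hv
    rw [Finset.mem_range] at hi hj
    rcases lt_trichotomy i j with h1 | h1 | h1
    · exact hadj i hi j hj h1
    · subst h1
      exact absurd rfl huv
    · exact (hadj j hj i hi h1).symm)
  rw [Finset.card_image_of_injOn hinj, Finset.card_range] at h1
  exact lt_irrefl _ h1

/-- the combinatorial core: many stable vertices with different rows -/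
private theorem core {V : Type} {G : SimpleGraph V} {A : Set V} {m R m₁ m₂ M : ℕ}
    (hm₂ : m₂ = m₁ + m)
    (hRam : ∀ χ : ℕ → ℕ → Bool, ∃ (s : ℕ → ℕ) (c : Bool),
      (∀ k l, k < l → l < max m R + 2 → s k < s l) ∧ (∀ k < max m R + 2, s k < m₁) ∧
        ∀ k l, k < l → l < max m R + 2 → χ (s k) (s l) = c)
    (hRows : ∀ (x : ℕ → V) (y : ℕ → ℕ → V),
      (∀ i j, i < j → j < M → (G.Adj (y i j) (x i) ↔ ¬ G.Adj (y i j) (x j))) →
      ∃ (φ : ℕ → ℕ) (z : ℕ → V), (∀ k l, k < l → l < m₂ → φ k < φ l) ∧ (∀ k < m₂, φ k < M) ∧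
        (∀ k < m₂, ∃ i j, i < j ∧ j < M ∧ z k = y i j) ∧
        ((∀ k < m₂, ∀ l < m₂, (G.Adj (z k) (x (φ l)) ↔ k = l)) ∨
         (∀ k < m₂, ∀ l < m₂, (G.Adj (z k) (x (φ l)) ↔ k ≠ l)) ∨
         (∀ k < m₂, ∀ l < m₂, (G.Adj (z k) (x (φ l)) ↔ l ≤ k)) ∨
         (∀ k < m₂, ∀ l < m₂, (G.Adj (z k) (x (φ l)) ↔ k ≤ l))))
    (hM : NoTP G m false false false) (hC : NoTP G m false false true) (hF : F1 G m)
    (hR : ∀ K : Finset V, (K : Set V) ⊆ A → Clq G K → K.card < R)
    (x : ℕ → V) (hst : ∀ i < M, ∀ j < M, ¬ G.Adj (x i) (x j))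
    (hrow : ∀ i < M, ∀ j < M, i < j → ∃ y ∈ A, (G.Adj y (x i) ↔ ¬ G.Adj y (x j))) : False := by
  classical
  have h1 : ∀ i j, ∃ y, i < j → j < M → (y ∈ A ∧ (G.Adj y (x i) ↔ ¬ G.Adj y (x j))) := by
    intro i j
    by_cases h : i < j ∧ j < M
    · obtain ⟨y, hy, hy'⟩ := hrow i (by omega) j h.2 h.1
      exact ⟨y, fun _ _ => ⟨hy, hy'⟩⟩
    · exact ⟨x 0, fun h2 h3 => absurd ⟨h2, h3⟩ h⟩
  choose y hy using h1
  obtain ⟨φ, z, hφ, hφM, hz, hcases⟩ := hRows x y (fun i j hij hj => (hy i j hij hj).2)
  have hxne : ∀ i < M, ∀ j < M, i ≠ j → x i ≠ x j := by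
    intro i hi j hj hij heq
    rcases lt_or_gt_of_ne hij with h2 | h2
    · obtain ⟨w, _, hw⟩ := hrow i hi j hj h2
      rw [heq] at hw
      by_cases h3 : G.Adj w (x j)
      · exact (hw.mp h3) h3
      · exact h3 (hw.mpr h3)
    · obtain ⟨w, _, hw⟩ := hrow j hj i hi h2
      rw [heq] at hw
      by_cases h3 : G.Adj w (x j)
      · exact (hw.mp h3) h3
      · exact h3 (hw.mpr h3)
  have hzA : ∀ k < m₂, z k ∈ A := by
    intro k hk
    obtain ⟨i, j, hij, hj, h2⟩ := hz k hk
    rw [h2]
    exact (hy i j hij hj).1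
  have hzx : ∀ k < m₂, ∀ t < M, z k ≠ x t := by
    intro k hk t ht heq
    obtain ⟨i, j, hij, hj, h2⟩ := hz k hk
    have h3 := (hy i j hij hj).2
    rw [← h2, heq] at h3
    exact hst t ht i (by omega) (h3.mpr (hst t ht j hj))
  have hφne : ∀ k < m₂, ∀ l < m₂, k ≠ l → x (φ k) ≠ x (φ l) := by
    intro k hk l hl hkl
    apply hxne _ (hφM k hk) _ (hφM l hl)
    rcases lt_or_gt_of_ne hkl with h2 | h2
    · exact (hφ k l h2 hl).ne
    · exact (hφ l k h2 hk).ne'
  -- the vertices `z` can be taken stable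
  have stab : (∀ k < m₂, ∀ l < m₂, k ≠ l → z k ≠ z l) → ∃ s : ℕ → ℕ, (∀ i < m, s i < m₂) ∧
      (∀ i < m, ∀ j < m, i ≠ j → s i ≠ s j) ∧ (∀ i < m, ∀ j < m, (s i ≤ s j ↔ i ≤ j)) ∧
      ∀ i < m, ∀ j < m, i ≠ j → ¬ G.Adj (z (s i)) (z (s j)) := by
    intro hzne
    obtain ⟨s, c, hs, hsm, hc⟩ := hRam (fun k l => decide (G.Adj (z k) (z l)))
    have hsne : ∀ k < max m R + 2, ∀ l < max m R + 2, k ≠ l → s k ≠ s l := by
      intro k hk l hl hkl
      rcases lt_or_gt_of_ne hkl with h2 | h2
      · exact (hs k l h2 hl).ne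
      · exact (hs l k h2 hk).ne'
    have hRle : R ≤ max m R := le_max_right m R
    have hmle : m ≤ max m R := le_max_left m R
    have hsm₂ : ∀ k < max m R + 2, s k < m₂ := by
      intro k hk
      have := hsm k hk
      omega
    cases c with
    | true =>
      exfalso
      apply no_clique hR (fun k => z (s k)) (fun i hi => hzA _ (hsm₂ i (by omega)))
      · intro i hi j hj hij
        exact hzne _ (hsm₂ i (by omega)) _ (hsm₂ j (by omega))
          (hsne i (by omega) j (by omega) hij.ne)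
      · intro i hi j hj hij
        exact of_decide_eq_true (hc i j hij (by omega))
    | false =>
      refine ⟨s, fun i hi => hsm₂ i (by omega), fun i hi j hj hij => hsne i (by omega) j (by omega) hij,
        ?_, ?_⟩
      · intro i hi j hj
        constructor
        · intro h2
          by_contra h3
          have := hs j i (by omega) (by omega)
          omega
        · intro h2
          rcases Nat.eq_or_lt_of_le h2 with h3 | h3
          · rw [h3]
          · exact (hs i j h3 (by omega)).le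
      · intro i hi j hj hij hadj
        rcases lt_or_gt_of_ne hij with h2 | h2
        · exact absurd hadj (of_decide_eq_false (hc i j h2 (by omega)))
        · exact absurd hadj.symm (of_decide_eq_false (hc j i h2 (by omega)))
  -- matchings and co-matchings
  have pat : ∀ e : Bool, (∀ k < m₂, ∀ l < m₂, k ≠ l → z k ≠ z l) →
      (∀ k < m₂, ∀ l < m₂, (G.Adj (z k) (x (φ l)) ↔ (k = l ↔ e = false))) →
      NoTP G m false false e → False := by
    intro e hzne h hno
    obtain ⟨s, hb, hsne, -, hnz⟩ := stab hzne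
    refine hno (fun l => x (φ (s l))) (fun k => z (s k)) ⟨?_, ?_, ?_, ?_, ?_, ?_⟩
    · intro i hi j hj
      exact (hzx _ (hb j hj) _ (hφM _ (hb i hi))).symm
    · intro i hi j hj hij
      exact hφne _ (hb i hi) _ (hb j hj) (hsne i hi j hj hij)
    · intro i hi j hj hij
      exact hzne _ (hb i hi) _ (hb j hj) (hsne i hi j hj hij)
    · intro i hi j hj hij
      exact iff_of_false (hst _ (hφM _ (hb i hi)) _ (hφM _ (hb j hj))) (by simp)
    · intro i hi j hj hij
      exact iff_of_false (hnz i hi j hj hij) (by simp)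
    · intro i hi j hj
      rw [G.adj_comm, h _ (hb j hj) _ (hb i hi)]
      have h2 : s j = s i ↔ i = j := by
        constructor
        · intro h3
          by_contra h4
          exact hsne i hi j hj h4 h3.symm
        · intro h3
          rw [h3]
      rw [h2]
  -- half graphs
  have half : (∀ k < m₂, ∀ l < m₂, k ≠ l → z k ≠ z l) →
      ((∀ k < m₂, ∀ l < m₂, (G.Adj (z k) (x (φ l)) ↔ l ≤ k)) ∨
        (∀ k < m₂, ∀ l < m₂, (G.Adj (z k) (x (φ l)) ↔ k ≤ l))) → False := by
    intro hzne hh
    obtain ⟨s, hb, hsne, hsle, hnz⟩ := stab hzne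
    apply hF
    rcases hh with hh | hh
    · refine ⟨fun l => x (φ (s l)), fun k => z (s k), fun i hi j hj => ⟨?_, fun hij =>
        ⟨?_, ?_, ?_, ?_⟩, ?_⟩⟩
      · exact (hzx _ (hb j hj) _ (hφM _ (hb i hi))).symm
      · exact hφne _ (hb i hi) _ (hb j hj) (hsne i hi j hj hij)
      · exact hzne _ (hb i hi) _ (hb j hj) (hsne i hi j hj hij)
      · exact hst _ (hφM _ (hb i hi)) _ (hφM _ (hb j hj))
      · exact hnz i hi j hj hij
      · rw [G.adj_comm, hh _ (hb j hj) _ (hb i hi)]
        exact hsle i hi j hj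
    · refine ⟨fun k => z (s k), fun l => x (φ (s l)), fun i hi j hj => ⟨?_, fun hij =>
        ⟨?_, ?_, ?_, ?_⟩, ?_⟩⟩
      · exact hzx _ (hb i hi) _ (hφM _ (hb j hj))
      · exact hzne _ (hb i hi) _ (hb j hj) (hsne i hi j hj hij)
      · exact hφne _ (hb i hi) _ (hb j hj) (hsne i hi j hj hij)
      · exact hnz i hi j hj hij
      · exact hst _ (hφM _ (hb i hi)) _ (hφM _ (hb j hj))
      · rw [hh _ (hb i hi) _ (hb j hj)]
        exact hsle i hi j hj
  rcases hcases with h | h | h | h
  · refine pat false ?_ ?_ hM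
    · intro k hk l hl hkl heq
      have h2 := (h k hk k hk).mpr rfl
      rw [heq] at h2
      exact hkl ((h l hl k hk).mp h2).symm
    · intro k hk l hl
      rw [h k hk l hl]
      simp
  · refine pat true ?_ ?_ hC
    · intro k hk l hl hkl heq
      have h2 := (h l hl k hk).mpr (Ne.symm hkl)
      rw [← heq] at h2
      exact ((h k hk k hk).mp h2) rfl
    · intro k hk l hl
      rw [h k hk l hl]
      simp
  · apply half _ (Or.inl h)
    intro k hk l hl hkl heq
    rcases lt_or_gt_of_ne hkl with h2 | h2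
    · have h3 := (h l hl l hl).mpr le_rfl
      rw [← heq, h k hk l hl] at h3
      omega
    · have h3 := (h k hk k hk).mpr le_rfl
      rw [heq, h l hl k hk] at h3
      omega
  · apply half _ (Or.inr h)
    intro k hk l hl hkl heq
    rcases lt_or_gt_of_ne hkl with h2 | h2
    · have h3 := (h k hk k hk).mpr le_rfl
      rw [heq, h l hl k hk] at h3
      omega
    · have h3 := (h l hl l hl).mpr le_rfl
      rw [← heq, h k hk l hl] at h3
      omega

theorem aCl (h1 : R3.S_Rows) (h2 : W.S_RamC) : S_ACl := by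
  classical
  intro m R
  obtain ⟨m₁, hm₁⟩ := h2 Bool (max m R + 2)
  obtain ⟨M, hM⟩ := h1 (m₁ + m)
  obtain ⟨M', hM'⟩ := h2 Bool (max M R + 1)
  refine ⟨M' + 1, ?_⟩
  intro V _ G A hMat hCom hF hR
  let r : V → Set V := fun v => {z | z ∈ A ∧ G.Adj v z}
  by_cases hcard : (r '' A).ncard ≤ M'
  · -- few rows
    have hfin : (r '' A).Finite := Set.toFinite _
    haveI : Fintype (r '' A) := hfin.fintype
    have h3 : Fintype.card (r '' A) ≤ Fintype.card (Fin (M' + 1)) := by
      rw [Fintype.card_fin, ← Nat.card_eq_fintype_card, Nat.card_coe_set_eq]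
      omega
    obtain ⟨e⟩ := Function.Embedding.nonempty_of_card_le h3
    refine ⟨fun v => if h : r v ∈ r '' A then e ⟨r v, h⟩ else 0, ?_⟩
    intro x hx y hy hxy hadj
    have hx' : r x ∈ r '' A := ⟨x, hx, rfl⟩
    have hy' : r y ∈ r '' A := ⟨y, hy, rfl⟩
    have h4 : e ⟨r x, hx'⟩ = e ⟨r y, hy'⟩ := by
      have h5 : (fun v => if h : r v ∈ r '' A then e ⟨r v, h⟩ else 0) x =
        (fun v => if h : r v ∈ r '' A then e ⟨r v, h⟩ else 0) y := hxy
      simp only [hx', hy', dif_pos] at h5
      exact h5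
    have h6 : r x = r y := by
      have := e.injective h4
      exact congrArg Subtype.val this
    have h8 : y ∈ r x := ⟨hy, hadj⟩
    rw [h6] at h8
    exact G.loopless.irrefl _ h8.2
  · exfalso
    rw [not_le] at hcard
    obtain ⟨F, hFs, hFc⟩ := Set.exists_subset_card_eq hcard.le
    have hFf : F.Finite := Set.toFinite _
    have hcF : hFf.toFinset.card = M' := by
      rw [← Set.ncard_eq_toFinset_card F hFf, hFc]
    let e := Finset.equivFinOfCardEq hcF
    have h3 : ∀ i : ℕ, ∃ v : V, i < M' → (v ∈ A ∧ ∃ h : i < M', r v = (e.symm ⟨i, h⟩).1) := by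
      intro i
      by_cases hi : i < M'
      · have h4 : (e.symm ⟨i, hi⟩).1 ∈ F := hFf.mem_toFinset.mp (e.symm ⟨i, hi⟩).2
        obtain ⟨v, hv, hv'⟩ := hFs h4
        exact ⟨v, fun _ => ⟨hv, hi, hv'⟩⟩
      · have hne : (r '' A).Nonempty := by
          rw [← Set.ncard_pos (Set.toFinite _)]
          omega
        obtain ⟨_, v, _, _⟩ := hne
        exact ⟨v, fun h => absurd h hi⟩
    choose x hx using h3
    have hrne : ∀ i < M', ∀ j < M', i ≠ j → r (x i) ≠ r (x j) := by
      intro i hi j hj hij heq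
      obtain ⟨_, h4, h5⟩ := hx i hi
      obtain ⟨_, h6, h7⟩ := hx j hj
      rw [h5, h7] at heq
      have h8 := e.symm.injective (Subtype.ext heq)
      have h9 : i = j := congrArg Fin.val h8
      exact hij h9
    obtain ⟨s, c, hs, hsM, hc⟩ := hM' (fun i j => decide (G.Adj (x i) (x j)))
    have hMle : M ≤ max M R := le_max_left M R
    have hRle : R ≤ max M R := le_max_right M R
    cases c with
    | true =>
      apply no_clique hR (fun k => x (s k)) (fun i hi => (hx _ (hsM i (by omega))).1)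
      · intro i hi j hj hij heq
        exact hrne _ (hsM i (by omega)) _ (hsM j (by omega)) (hs i j hij (by omega)).ne
          (congrArg r heq)
      · intro i hi j hj hij
        exact of_decide_eq_true (hc i j hij (by omega))
    | false =>
      apply core rfl hm₁ (fun x y => hM V G x y) hMat hCom hF hR (fun k => x (s k))
      · intro i hi j hj hadj
        rcases lt_trichotomy i j with h4 | h4 | h4
        · exact absurd hadj (of_decide_eq_false (hc i j h4 (by omega)))
        · subst h4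
          exact G.loopless.irrefl _ hadj
        · exact absurd hadj.symm (of_decide_eq_false (hc j i h4 (by omega)))
      · intro i hi j hj hij
        by_contra hcon
        push Not at hcon
        apply hrne _ (hsM i (by omega)) _ (hsM j (by omega)) (hs i j hij (by omega)).ne
        ext z
        constructor
        · rintro ⟨hz, hz'⟩
          refine ⟨hz, ?_⟩
          by_contra h5
          have h6 := hcon z hz
          rcases h6 with ⟨h7, h8⟩ | ⟨h7, h8⟩
          · exact h5 h8.symm
          · exact h7 hz'.symm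
        · rintro ⟨hz, hz'⟩
          refine ⟨hz, ?_⟩
          by_contra h5
          have h6 := hcon z hz
          rcases h6 with ⟨h7, h8⟩ | ⟨h7, h8⟩
          · exact h5 h7.symm
          · exact h8 hz'.symm

end Pool.Agent.MPd439b2.CR
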