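import Pool.Agent.Lib.MP_d439b2_co.CR.SpecC
import Pool.Agent.Lib.MP_d439b2_co.Rep.RowX4

/-!
# MP_d439b2_co, CR, BCl: the part without large stable sets is a union of few cliques
-/

set_option autoImplicit false

namespace Pool.Agent.MPd439b2.CR

open Pool.Agent.MPd439b2 Pool.Agent.MPd439b2.A0 Pool.Agent.MPd439b2.Rep

theorem bCl (h1 : S_Pex) (h2 : R3.S_FF) (h3 : R3.S_BClass) : S_BCl := by
  classical
  intro hF m k
  obtain ⟨M, hM⟩ := Rep.typed (max (max m k) 49 + 1)
  obtain ⟨m₁, hm₁⟩ := h2 M
  obtain ⟨n, hn⟩ := h3 (max M m₁) k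
  refine ⟨n + 1, fun V _ G B hFr hNo hst => ?_⟩
  have hm : m ≤ max (max m k) 49 + 1 := by omega
  have hk : k ≤ max (max m k) 49 + 1 := by omega
  have h49 : (4 + 3) ^ 2 ≤ max (max m k) 49 + 1 := by omega
  generalize max (max m k) 49 + 1 = m₀ at hM hm hk h49
  have hFr' : Rep.Fr K401 (JP 4) (G.induce (B : Set V)) := fr_induce (B : Set V) hFr
  have hfacts : R3.Facts (G.induce (B : Set V)) := hF _ _ hFr'
  -- no long stable sequences
  have nost : ∀ a : ℕ → ↥(B : Set V), (∀ i < m₀, ∀ j < m₀, i ≠ j → a i ≠ a j) →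
      (∀ i < m₀, ∀ j < m₀, i ≠ j → ¬ (G.induce (B : Set V)).Adj (a i) (a j)) → False := by
    intro a ha hna
    have hinj : Set.InjOn (fun i => (a i).1) (Finset.range k : Finset ℕ) := by
      intro i hi j hj hij
      rw [Finset.mem_coe, Finset.mem_range] at hi hj
      by_contra hne
      exact ha i (by omega) j (by omega) hne (Subtype.ext hij)
    have h4 := hst ((Finset.range k).image (fun i => (a i).1)) (by
      intro v hv
      obtain ⟨i, _, rfl⟩ := Finset.mem_image.mp hv
      exact Finset.mem_coe.mp (a i).2) (by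
      intro u hu v hv
      obtain ⟨i, hi, rfl⟩ := Finset.mem_image.mp hu
      obtain ⟨j, hj, rfl⟩ := Finset.mem_image.mp hv
      rw [Finset.mem_range] at hi hj
      by_cases hij : i = j
      · subst hij
        exact G.loopless.irrefl _
      · exact hna i (by omega) j (by omega) hij)
    rw [Finset.card_image_of_injOn hinj, Finset.card_range] at h4
    exact lt_irrefl _ h4
  have hMat : ¬ X2.MatP (G.induce (B : Set V)) M := by
    rintro ⟨a, b, hab⟩
    obtain ⟨s, t, a', b', hT⟩ := hM _ (G.induce (B : Set V)) false a b (by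
      intro i hi j hj
      obtain ⟨x1, x2, x3⟩ := hab i hi j hj
      exact ⟨x1, x2, by rw [x3]; simp⟩)
    cases s with
    | false => exact nost a' hT.ia fun i hi j hj hij => by rw [hT.aa i hi j hj hij]; simp
    | true =>
      cases t with
      | false => exact nost b' hT.ib fun i hi j hj hij => by rw [hT.bb i hi j hj hij]; simp
      | true => exact (h1 4 m₀ _ _ hFr' h49).1 a' b' hT
  have hCom : ¬ X2.ComP (G.induce (B : Set V)) M := by
    rintro ⟨a, b, hab⟩
    obtain ⟨s, t, a', b', hT⟩ := hM _ (G.induce (B : Set V)) true a b (by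
      intro i hi j hj
      obtain ⟨x1, x2, x3⟩ := hab i hi j hj
      exact ⟨x1, x2, by rw [x3]; simp⟩)
    cases s with
    | false => exact nost a' hT.ia fun i hi j hj hij => by rw [hT.aa i hi j hj hij]; simp
    | true =>
      cases t with
      | false => exact nost b' hT.ib fun i hi j hj hij => by rw [hT.bb i hi j hj hij]; simp
      | true =>
        have hT' := hT.mono hm
        refine hNo (fun i => (a' i).1) (fun i => (b' i).1) ⟨?_, ?_, ?_, ?_, ?_, ?_⟩
        · exact fun i hi j hj h => hT'.dis i hi j hj (Subtype.ext h)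
        · exact fun i hi j hj hij h => hT'.ia i hi j hj hij (Subtype.ext h)
        · exact fun i hi j hj hij h => hT'.ib i hi j hj hij (Subtype.ext h)
        · exact fun i hi j hj hij => hT'.aa i hi j hj hij
        · exact fun i hi j hj hij => hT'.bb i hi j hj hij
        · exact fun i hi j hj => hT'.ab i hi j hj
  have hF2 := (hm₁ _ _ hfacts hCom).2.1
  have hle1 : M ≤ max M m₁ := le_max_left _ _
  have hle2 : m₁ ≤ max M m₁ := le_max_right _ _
  have : Fintype ↥(B : Set V) := Fintype.ofFinite _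
  obtain ⟨c', ρ, hc'⟩ := hn _ (G.induce (B : Set V)) Finset.univ
    (by
      rintro ⟨a, b, hab⟩
      exact hMat ⟨a, b, fun i hi j hj => hab i (by omega) j (by omega)⟩)
    (by
      rintro ⟨a, b, hab⟩
      exact hCom ⟨a, b, fun i hi j hj => hab i (by omega) j (by omega)⟩)
    (by
      rintro ⟨x, u, w, h⟩
      exact hF2 ⟨x, u, w, fun i hi j hj => h i (by omega) j (by omega)⟩)
    (by
      intro T _ hT
      have h4 := hst (T.map ⟨Subtype.val, Subtype.val_injective⟩) (by
        intro v hv
        obtain ⟨x, _, rfl⟩ := Finset.mem_map.mp hv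
        exact Finset.mem_coe.mp x.2) (by
        intro u hu v hv
        obtain ⟨x, hx, rfl⟩ := Finset.mem_map.mp hu
        obtain ⟨y, hy, rfl⟩ := Finset.mem_map.mp hv
        exact hT x hx y hy)
      rwa [Finset.card_map] at h4)
  refine ⟨fun x => if h : x ∈ B then (c' ⟨x, Finset.mem_coe.mpr h⟩).castSucc else Fin.last n, ?_⟩
  intro x hx y hy hxy hne
  simp only [dif_pos hx, dif_pos hy] at hxy
  have h5 := Fin.castSucc_injective n hxy
  exact (hc' (c' ⟨y, Finset.mem_coe.mpr hy⟩)).cl ⟨x, Finset.mem_coe.mpr hx⟩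
    ⟨Finset.mem_univ _, h5⟩ ⟨y, Finset.mem_coe.mpr hy⟩ ⟨Finset.mem_univ _, rfl⟩
    (fun h => hne (congrArg Subtype.val h))

end Pool.Agent.MPd439b2.CR
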