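import Pool.Agent.Lib.MP_d439b2_co.CR.SpecB

/-!
# MP_d439b2_co, CR, B2: at most one bad member
-/

set_option autoImplicit false

namespace Pool.Agent.MPd439b2.CR

open Pool.Agent.MPd439b2 Pool.Agent.MPd439b2.A0 Pool.Agent.MPd439b2.Rep

namespace BdAux

/-- different members have different components -/
theorem ne_of_dis {V : Type} {G : SimpleGraph V} {P M M' C C' : Set V} (hM : mi G P C = M)
    (hM' : mi G P C' = M') (hne : M.Nonempty) (hd : Disjoint M M') : C ≠ C' := by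
  rintro rfl
  obtain ⟨v, hv⟩ := hne
  rw [← hM', hM] at hd
  exact Set.disjoint_left.mp hd hv hv

end BdAux

open BdAux in
theorem bd (h1 : S_Bd1) : S_Bd := by
  intro V G P hZ M hM hdis hb0 hb1
  obtain ⟨C', R, z, hC', hzC', hRC', hzR, hR, hz, ⟨x, hxM, hzx⟩, hR0, hRi⟩ :=
    h1 V G P hZ M hM hdis hb0
  obtain ⟨C'', R', z', hC'', hzC'', hRC'', hzR', hR', hz', -, hR0', hRi'⟩ :=
    h1 V G P hZ (fun i => M (Equiv.swap 0 1 i)) (fun i => hM _)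
      (fun i j hij => hdis _ _ (fun h => hij ((Equiv.swap 0 1).injective h)))
      (by
        show Bad G P (M (Equiv.swap 0 1 0))
        rw [Equiv.swap_apply_left]
        exact hb1)
  have e0 : Equiv.swap (0 : Fin 4) 1 0 = 1 := Equiv.swap_apply_left _ _
  have e1 : Equiv.swap (0 : Fin 4) 1 1 = 0 := Equiv.swap_apply_right _ _
  have e2 : Equiv.swap (0 : Fin 4) 1 2 = 2 := by decide
  have e3 : Equiv.swap (0 : Fin 4) 1 3 = 3 := by decide
  simp only [e0] at hz' hR0'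
  obtain ⟨⟨v0, hv0⟩, C0, hC0, hM0⟩ := hM 0
  obtain ⟨⟨v1, hv1⟩, C1, hC1, hM1⟩ := hM 1
  obtain ⟨⟨v2, hv2⟩, C2, hC2, hM2⟩ := hM 2
  obtain ⟨⟨v3, hv3⟩, C3, hC3, hM3⟩ := hM 3
  have hP : ∀ i, ∀ v ∈ M i, v ∈ P := fun i v hv => (hM i).sub hv
  have hout : ∀ i j, i ≠ j → ∀ v ∈ M i, v ∉ M j := fun i j hij v hv h =>
    Set.disjoint_left.mp (hdis i j hij) hv h
  have hz2 : G.Adj z v2 := hz v2 (hP 2 v2 hv2) (hout 2 0 (by decide) v2 hv2)
  have hz3 : G.Adj z v3 := hz v3 (hP 3 v3 hv3) (hout 3 0 (by decide) v3 hv3)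
  have hz'2 : G.Adj z' v2 := hz' v2 (hP 2 v2 hv2) (hout 2 1 (by decide) v2 hv2)
  have hz'3 : G.Adj z' v3 := hz' v3 (hP 3 v3 hv3) (hout 3 1 (by decide) v3 hv3)
  have hne2 : C' ≠ C2 := by
    rintro rfl
    rw [← hM2] at hv2
    exact hv2.2 z hzC' hz2.symm
  have hne3 : C' ≠ C3 := by
    rintro rfl
    rw [← hM3] at hv3
    exact hv3.2 z hzC' hz3.symm
  by_cases hCC : C' = C''
  · subst hCC
    have hzz : z ≠ z' := by
      rintro rfl
      exact hzx (hz' x (hP 0 x hxM) (hout 0 1 (by decide) x hxM))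
    have h23 : C2 ≠ C3 := ne_of_dis hM2 hM3 ⟨v2, hv2⟩ (hdis 2 3 (by decide))
    refine hZ.z1 C' C2 C3 {z} {z'} hC'.1 hC2.1 hC3.1 hC'.2.1 hC2.2.1 hC3.2.1
      (hC'.sp hC2 hne2) (hC'.sp hC3 hne3) (hC2.sp hC3 h23) ?_
      (Set.singleton_subset_iff.mpr hzC') (Set.singleton_subset_iff.mpr hzC'')
      (Conn.singleton G z) (Conn.singleton G z') ?_ ?_ ?_ ?_ ?_
    · rw [hM2, hM3]
      exact hdis 2 3 (by decide)
    · rw [Set.disjoint_left]
      rintro v rfl h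
      exact hzz h
    · rw [hM2]
      exact ⟨z, rfl, v2, hv2, hz2⟩
    · rw [hM3]
      exact ⟨z, rfl, v3, hv3, hz3⟩
    · rw [hM2]
      exact ⟨z', rfl, v2, hv2, hz'2⟩
    · rw [hM3]
      exact ⟨z', rfl, v3, hv3, hz'3⟩
  · have hsp : Sp G R R' := (hC'.sp hC'' hCC).mono hRC' hRC''
    have m1 : v1 ∈ mi G P R := ⟨hP 1 v1 hv1, fun r hr h => hRi 1 (by decide) v1 hv1 r hr h.symm⟩
    have m2 : v2 ∈ mi G P R := ⟨hP 2 v2 hv2, fun r hr h => hRi 2 (by decide) v2 hv2 r hr h.symm⟩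
    have m2' : v2 ∈ mi G P R' := ⟨hP 2 v2 hv2, fun r hr h =>
      hRi' 2 (by decide) v2 (by
        show v2 ∈ M (Equiv.swap 0 1 2)
        rw [e2]
        exact hv2) r hr h.symm⟩
    have m0' : v0 ∈ mi G P R' := ⟨hP 0 v0 hv0, fun r hr h =>
      hRi' 1 (by decide) v0 (by
        show v0 ∈ M (Equiv.swap 0 1 1)
        rw [e1]
        exact hv0) r hr h.symm⟩
    rcases hZ.z2 R R' (hRC'.trans hC'.1) (hRC''.trans hC''.1) hR hR' hsp ⟨v2, m2, m2'⟩ with h | h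
    · obtain ⟨r, hr, hrv⟩ := hR0' v1 hv1
      exact (h m1).2 r hr hrv.symm
    · obtain ⟨r, hr, hrv⟩ := hR0 v0 hv0
      exact (h m0').2 r hr hrv.symm

end Pool.Agent.MPd439b2.CR
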