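import Pool.Agent.Lib.MP_d439b2_co.CR.SpecB

/-!
# MP_d439b2_co, CR, Bd1: one bad member
-/

set_option autoImplicit false

namespace Pool.Agent.MPd439b2.CR

open Pool.Agent.MPd439b2 Pool.Agent.MPd439b2.A0 Pool.Agent.MPd439b2.Rep

theorem bd1 : S_Bd1 := by
  intro V G P hZ M hM hdis hbad
  obtain ⟨z, hzP, hzi, ⟨x, hx, hzx⟩, x', hx', hzx'⟩ := hbad
  choose hne C hC hCM using hM
  obtain ⟨C', hC', hzC'⟩ := exists_cmp (G := G) (Q := Pᶜ) hzP
  have hMP : ∀ i, M i ⊆ P := fun i => by rw [← hCM i]; exact mi_sub _ _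
  have hCne : ∀ i j, i ≠ j → C i ≠ C j := by
    intro i j hij h
    obtain ⟨v, hv⟩ := hne i
    have h1 : v ∈ M j := by rw [← hCM j, ← h, hCM i]; exact hv
    exact Set.disjoint_left.mp (hdis i j hij) hv h1
  -- (1)
  have h10 : C' ≠ C 0 := by
    intro h
    exact hzi ⟨C', hC', hzC', by rw [h, hCM]; exact hne 0, by rw [h, hCM]⟩
  have h11 : Disjoint (mi G P C') (M 0) := by
    rcases hZ.lam hC' (hC 0) with h | h | h
    · rw [hCM] at h
      by_cases h2 : (mi G P C').Nonempty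
      · exact absurd ⟨C', hC', hzC', h2, h⟩ hzi
      · rw [Set.not_nonempty_iff_eq_empty] at h2
        rw [h2]
        exact Set.empty_disjoint _
    · rw [hCM] at h
      exact absurd hzx.symm ((h hx).2 z hzC')
    · rwa [hCM] at h
  -- (2)
  have hA : ∀ v ∈ P, v ∉ M 0 → G.Adj z v := by
    intro v hv hv0
    have h1 := hZ.z2 {z} (C 0) (Set.singleton_subset_iff.2 hzP) (hC 0).1 (Conn.singleton G z)
      (hC 0).2.1 ((hC'.sp (hC 0) h10).mono (Set.singleton_subset_iff.2 hzC') subset_rfl)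
      ⟨x', mem_mi_singleton.2 ⟨hMP 0 hx', fun h => hzx' h.symm⟩, by rw [hCM]; exact hx'⟩
    rw [hCM] at h1
    rcases h1 with h1 | h1
    · by_contra h2
      exact hv0 (h1 (mem_mi_singleton.2 ⟨hv, fun h => h2 h.symm⟩))
    · exact absurd hzx.symm (mem_mi_singleton.1 (h1 hx)).2
  have hzM : ∀ i, i ≠ 0 → ∀ v ∈ M i, G.Adj z v := fun i hi v hv =>
    hA v (hMP i hv) fun h => Set.disjoint_left.mp (hdis i 0 hi) hv h
  have hCi : ∀ i, C' ≠ C i := by
    intro i
    by_cases hi : i = 0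
    · rw [hi]; exact h10
    · intro h
      obtain ⟨v, hv⟩ := hne i
      have h1 : v ∈ mi G P C' := by rw [h, hCM]; exact hv
      exact h1.2 z hzC' (hzM i hi v hv).symm
  -- (3)
  obtain ⟨y, hy, hxy⟩ := not_mi (G := G) (C := C') (hMP 0 hx')
    fun h => Set.disjoint_left.mp h11 h hx'
  have hyz : y ≠ z := by
    rintro rfl
    exact hzx' hxy.symm
  have hyP : ({y} : Set V) ⊆ Pᶜ := Set.singleton_subset_iff.2 (hC'.1 hy)
  have hyC : ({y} : Set V) ⊆ C' := Set.singleton_subset_iff.2 hy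
  have hzC : ({z} : Set V) ⊆ C' := Set.singleton_subset_iff.2 hzC'
  have hdzy : Disjoint ({z} : Set V) {y} := Set.disjoint_singleton.2 hyz.symm
  have z1 : ∀ i j, i ≠ j → Tch G {z} (M i) → Tch G {z} (M j) → Tch G {y} (M i) →
      ¬ Tch G {y} (M j) := by
    intro i j hij
    have := hZ.z1 C' (C i) (C j) {z} {y} hC'.1 (hC i).1 (hC j).1 hC'.2.1 (hC i).2.1 (hC j).2.1
      (hC'.sp (hC i) (hCi i)) (hC'.sp (hC j) (hCi j)) ((hC i).sp (hC j) (hCne i j hij))
      (by rw [hCM, hCM]; exact hdis i j hij) hzC hyC (Conn.singleton G z) (Conn.singleton G y) hdzy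
    rwa [hCM, hCM] at this
  have tz : ∀ i, i ≠ 0 → Tch G {z} (M i) := by
    intro i hi
    obtain ⟨v, hv⟩ := hne i
    exact ⟨z, rfl, v, hv, hzM i hi v hv⟩
  have tz0 : Tch G {z} (M 0) := ⟨z, rfl, x, hx, hzx⟩
  have ty0 : Tch G {y} (M 0) := ⟨y, rfl, x', hx', hxy.symm⟩
  refine ⟨C', {y}, z, hC', hzC', hyC, fun h => hyz (Set.mem_singleton_iff.1 h).symm,
    Conn.singleton G y, hA, ⟨x', hx', hzx'⟩, ?_, ?_⟩
  · -- (4)
    intro v hv
    by_contra hno
    push Not at hno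
    have h1 := hZ.z2 {y} (C 0) hyP (hC 0).1 (Conn.singleton G y) (hC 0).2.1
      ((hC'.sp (hC 0) h10).mono hyC subset_rfl)
      ⟨v, mem_mi_singleton.2 ⟨hMP 0 hv, fun h => hno y rfl h.symm⟩, by rw [hCM]; exact hv⟩
    rw [hCM] at h1
    rcases h1 with h1 | h1
    · have ty : ∀ i, i ≠ 0 → Tch G {y} (M i) := by
        intro i hi
        obtain ⟨u, hu⟩ := hne i
        refine ⟨y, rfl, u, hu, ?_⟩
        by_contra h2
        exact Set.disjoint_left.mp (hdis i 0 hi) hu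
          (h1 (mem_mi_singleton.2 ⟨hMP i hu, fun h => h2 h.symm⟩))
      exact z1 1 2 (by decide) (tz 1 (by decide)) (tz 2 (by decide)) (ty 1 (by decide))
        (ty 2 (by decide))
    · exact (mem_mi_singleton.1 (h1 hx')).2 hxy
  · -- (5)
    intro i hi v hv r hr h
    rw [Set.mem_singleton_iff] at hr
    subst hr
    exact z1 0 i hi.symm tz0 (tz i hi) ty0 ⟨r, rfl, v, hv, h⟩

end Pool.Agent.MPd439b2.CR
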