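import Pool.Agent.Lib.MP_d439b2_co.CR.SpecA

/-!
# MP_d439b2_co, CR: cleaning a thick spider (helper9)
-/

set_option autoImplicit false

namespace Pool.Agent.MPd439b2.CR

open Pool.Agent.MPd439b2 Pool.Agent.MPd439b2.A0

namespace ClAux

variable {V : Type} {G : SimpleGraph V}

theorem ne1 {x y z : V} (h1 : G.Adj x z) (h2 : ¬ G.Adj y z) : x ≠ y := fun h => h2 (h ▸ h1)

theorem ne2 {x y z : V} (h1 : ¬ G.Adj x z) (h2 : G.Adj y z) : x ≠ y := fun h => h1 (h ▸ h2)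

/-- a model with `A = {a}`, `B = {b, b'}`, `C = {c, c'}`, `D = {d}`, `P = {p}`, `Q = {q}` -/
theorem m1 (h1 : S_M1) (hK : ¬ IMS K401 G Set.univ) (a b b' c c' d p q : V)
    (hb : b = b' ∨ G.Adj b b') (hc : c = c' ∨ G.Adj c c')
    (ab : a ≠ b) (ab' : a ≠ b') (ac : a ≠ c) (ac' : a ≠ c')
    (bc : b ≠ c) (bc' : b ≠ c') (b'c : b' ≠ c) (b'c' : b' ≠ c') (bd : b ≠ d) (b'd : b' ≠ d)
    (bp : b ≠ p) (b'p : b' ≠ p) (bq : b ≠ q) (b'q : b' ≠ q) (cd : c ≠ d) (c'd : c' ≠ d)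
    (cp : c ≠ p) (c'p : c' ≠ p) (cq : c ≠ q) (c'q : c' ≠ q)
    (tab : G.Adj a b ∨ G.Adj a b') (tac : G.Adj a c ∨ G.Adj a c') (tad : G.Adj a d)
    (tbc : G.Adj b c ∨ G.Adj b c' ∨ G.Adj b' c ∨ G.Adj b' c') (tbd : G.Adj b d ∨ G.Adj b' d)
    (tcd : G.Adj c d ∨ G.Adj c' d) (tap : G.Adj a p) (tbq : G.Adj b q ∨ G.Adj b' q)
    (naq : ¬ G.Adj a q) (nbp : ¬ G.Adj b p) (nb'p : ¬ G.Adj b' p) (ncp : ¬ G.Adj c p)
    (nc'p : ¬ G.Adj c' p) (ncq : ¬ G.Adj c q) (nc'q : ¬ G.Adj c' q) (ndp : ¬ G.Adj d p)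
    (ndq : ¬ G.Adj d q) (npq : ¬ G.Adj p q) : False := by
  have ad : a ≠ d := tad.ne
  have ap : a ≠ p := tap.ne
  have aq : a ≠ q := ne1 tap (fun h => npq h.symm)
  have pq : p ≠ q := fun h => naq (h ▸ tap)
  have dp : d ≠ p := by
    rintro rfl
    rcases tcd with h | h
    · exact ncp h
    · exact nc'p h
  have dq : d ≠ q := by
    rintro rfl
    rcases tcd with h | h
    · exact ncq h
    · exact nc'q h
  have cb : Conn G {b, b'} := by
    rcases hb with rfl | hb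
    · simpa using Conn.singleton G b
    · exact Conn.pair hb
  have cc : Conn G {c, c'} := by
    rcases hc with rfl | hc
    · simpa using Conn.singleton G c
    · exact Conn.pair hc
  have mb : b ∈ ({b, b'} : Set V) := Or.inl rfl
  have mb' : b' ∈ ({b, b'} : Set V) := Or.inr rfl
  have mc : c ∈ ({c, c'} : Set V) := Or.inl rfl
  have mc' : c' ∈ ({c, c'} : Set V) := Or.inr rfl
  refine hK (h1 V G {a} {b, b'} {c, c'} {d} {p} {q} (Conn.singleton G a) cb cc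
    (Conn.singleton G d) (Conn.singleton G p) (Conn.singleton G q) ?_ ?_ ?_ ?_ ?_ ?_ ?_ ?_ ?_ ?_ ?_ ?_
    ?_ ?_ ?_ ?_ ?_ ?_ ?_ ?_ ?_ ?_ ?_ ?_ ?_ ?_ ?_ ?_ ?_ ?_)
  · simp [ab, ab']
  · simp [ac, ac']
  · simp [ad]
  · simp [ap]
  · simp [aq]
  · simp [bc, bc', b'c, b'c', Ne.symm]
  · simp [bd.symm, b'd.symm]
  · simp [bp.symm, b'p.symm]
  · simp [bq.symm, b'q.symm]
  · simp [cd.symm, c'd.symm]
  · simp [cp.symm, c'p.symm]
  · simp [cq.symm, c'q.symm]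
  · simp [dp]
  · simp [dq]
  · simp [pq]
  · rcases tab with h | h
    · exact Tch.of_adj h rfl mb
    · exact Tch.of_adj h rfl mb'
  · rcases tac with h | h
    · exact Tch.of_adj h rfl mc
    · exact Tch.of_adj h rfl mc'
  · exact Tch.of_adj tad rfl rfl
  · rcases tbc with h | h | h | h
    · exact Tch.of_adj h mb mc
    · exact Tch.of_adj h mb mc'
    · exact Tch.of_adj h mb' mc
    · exact Tch.of_adj h mb' mc'
  · rcases tbd with h | h
    · exact Tch.of_adj h mb rfl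
    · exact Tch.of_adj h mb' rfl
  · rcases tcd with h | h
    · exact Tch.of_adj h mc rfl
    · exact Tch.of_adj h mc' rfl
  · exact Tch.of_adj tap rfl rfl
  · rcases tbq with h | h
    · exact Tch.of_adj h mb rfl
    · exact Tch.of_adj h mb' rfl
  · rintro ⟨x, rfl, y, rfl, h⟩
    exact naq h
  · rintro ⟨x, rfl | rfl, y, rfl, h⟩
    · exact nbp h
    · exact nb'p h
  · rintro ⟨x, rfl | rfl, y, rfl, h⟩
    · exact ncp h
    · exact nc'p h
  · rintro ⟨x, rfl | rfl, y, rfl, h⟩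
    · exact ncq h
    · exact nc'q h
  · rintro ⟨x, rfl, y, rfl, h⟩
    exact ndp h
  · rintro ⟨x, rfl, y, rfl, h⟩
    exact ndq h
  · rintro ⟨x, rfl, y, rfl, h⟩
    exact npq h

theorem sne {N : ℕ} {k s : ℕ → V} (hS : Spd G N k s) {a b : ℕ} (ha : a < N) (hb : b < N)
    (hab : a ≠ b) : s a ≠ s b := by
  intro h
  have h1 := (hS.ks a ha b hb).2 hab
  rw [← h] at h1
  exact (hS.ks a ha a ha).1 h1 rfl

/-- a vertex that sees two of the stable vertices misses at most one -/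
theorem two (h1 : S_M1) (hK : ¬ IMS K401 G Set.univ) {N : ℕ} {k s : ℕ → V} (hS : Spd G N k s)
    {v : V} {a b c d : ℕ} (ha : a < N) (hb : b < N) (hc : c < N) (hd : d < N) (hab : a ≠ b)
    (hcd : c ≠ d) (va : G.Adj v (s a)) (vb : G.Adj v (s b)) (vc : ¬ G.Adj v (s c))
    (vd : ¬ G.Adj v (s d)) : False := by
  have hac : a ≠ c := by rintro rfl; exact vc va
  have had : a ≠ d := by rintro rfl; exact vd va
  have hbc : b ≠ c := by rintro rfl; exact vc vb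
  have hbd : b ≠ d := by rintro rfl; exact vd vb
  have ss := hS.ss
  have ks : ∀ i < N, ∀ j < N, i ≠ j → G.Adj (k i) (s j) := fun i hi j hj h => (hS.ks i hi j hj).2 h
  have kn : ∀ i < N, ¬ G.Adj (k i) (s i) := fun i hi h => (hS.ks i hi i hi).1 h rfl
  exact m1 h1 hK (k c) (k d) (k d) v (s a) (s b) (s d) (s c) (Or.inl rfl) (Or.inr va)
    (hS.kk c hc d hd hcd).ne (hS.kk c hc d hd hcd).ne
    (ne1 (ks c hc d hd hcd) vd) (ks c hc a ha hac.symm).ne
    (ne1 (ks d hd c hc hcd.symm) vc) (ks d hd a ha had.symm).ne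
    (ne1 (ks d hd c hc hcd.symm) vc) (ks d hd a ha had.symm).ne
    (ks d hd b hb hbd.symm).ne (ks d hd b hb hbd.symm).ne
    (ne1 (ks d hd a ha had.symm) (ss d hd a ha)) (ne1 (ks d hd a ha had.symm) (ss d hd a ha))
    (ks d hd c hc hcd.symm).ne (ks d hd c hc hcd.symm).ne
    vb.ne (sne hS ha hb hab)
    (ne1 va (ss d hd a ha)) (sne hS ha hd had) (ne1 va (ss c hc a ha)) (sne hS ha hc hac)
    (Or.inl (hS.kk c hc d hd hcd)) (Or.inr (ks c hc a ha hac.symm)) (ks c hc b hb hbc.symm)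
    (Or.inr (Or.inl (ks d hd a ha had.symm))) (Or.inl (ks d hd b hb hbd.symm)) (Or.inl vb)
    (ks c hc d hd hcd) (Or.inl (ks d hd c hc hcd.symm)) (kn c hc) (kn d hd) (kn d hd) vd
    (ss a ha d hd) vc (ss a ha c hc) (ss b hb d hd) (ss b hb c hc) (ss d hd c hc)

/-- `z` sees only `s i` -/
def Pv (G : SimpleGraph V) (N : ℕ) (s : ℕ → V) (i : ℕ) (z : V) : Prop :=
  G.Adj z (s i) ∧ ∀ j < N, j ≠ i → ¬ G.Adj z (s j)

/-- a private neighbour of `s i` sees at most one `k a`, `a ≠ i` -/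
theorem two_a (h1 : S_M1) (hK : ¬ IMS K401 G Set.univ) {N : ℕ} {k s : ℕ → V} (hS : Spd G N k s)
    {z : V} {i a b : ℕ} (hi : i < N) (ha : a < N) (hb : b < N) (hab : a ≠ b) (hai : a ≠ i)
    (hbi : b ≠ i) (hz : Pv G N s i z) (za : G.Adj z (k a)) (zb : G.Adj z (k b)) : False := by
  have ss := hS.ss
  have ks : ∀ i < N, ∀ j < N, i ≠ j → G.Adj (k i) (s j) := fun i hi j hj h => (hS.ks i hi j hj).2 h
  have kn : ∀ i < N, ¬ G.Adj (k i) (s i) := fun i hi h => (hS.ks i hi i hi).1 h rfl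
  have zi := hz.1
  have zsa := hz.2 a ha hai
  have zsb := hz.2 b hb hbi
  exact m1 h1 hK (k a) (k b) (k b) z z (s i) (s b) (s a) (Or.inl rfl) (Or.inl rfl)
    (hS.kk a ha b hb hab).ne (hS.kk a ha b hb hab).ne za.ne' za.ne'
    zb.ne' zb.ne' zb.ne' zb.ne' (ks b hb i hi hbi).ne (ks b hb i hi hbi).ne
    (ne1 (ks b hb a ha hab.symm) (ss b hb a ha)) (ne1 (ks b hb a ha hab.symm) (ss b hb a ha))
    (ks b hb a ha hab.symm).ne (ks b hb a ha hab.symm).ne zi.ne zi.ne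
    (ne1 zi (ss b hb i hi)) (ne1 zi (ss b hb i hi)) (ne1 zi (ss a ha i hi)) (ne1 zi (ss a ha i hi))
    (Or.inl (hS.kk a ha b hb hab)) (Or.inl za.symm) (ks a ha i hi hai)
    (Or.inl zb.symm) (Or.inl (ks b hb i hi hbi)) (Or.inl zi)
    (ks a ha b hb hab) (Or.inl (ks b hb a ha hab.symm)) (kn a ha) (kn b hb) (kn b hb) zsb zsb
    zsa zsa (ss i hi b hb) (ss i hi a ha) (ss b hb a ha)

/-- private neighbours are adjacent -/
theorem two_b (h1 : S_M1) (hK : ¬ IMS K401 G Set.univ) {N : ℕ} {k s : ℕ → V} (hS : Spd G N k s)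
    (hN : 10 ≤ N) {z w : V} {i j : ℕ} (hi : i < N) (hj : j < N) (hij : i ≠ j) (hz : Pv G N s i z)
    (hw : Pv G N s j w) : G.Adj z w := by
  classical
  by_contra hzw
  have ss := hS.ss
  have ks : ∀ i < N, ∀ j < N, i ≠ j → G.Adj (k i) (s j) := fun i hi j hj h => (hS.ks i hi j hj).2 h
  have one : ∀ (z : V) (i : ℕ), i < N → Pv G N s i z →
      ((Finset.range N).filter fun a => a ≠ i ∧ G.Adj z (k a)).card ≤ 1 := by
    intro z i hi hz
    rw [Finset.card_le_one]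
    intro a ha b hb
    rw [Finset.mem_filter, Finset.mem_range] at ha hb
    by_contra hab
    exact two_a h1 hK hS hi ha.1 hb.1 hab ha.2.1 hb.2.1 hz ha.2.2 hb.2.2
  have o1 := one z i hi hz
  have o2 := one w j hj hw
  set S1 := (Finset.range N).filter fun a => a ≠ i ∧ G.Adj z (k a) with hS1
  set S2 := (Finset.range N).filter fun a => a ≠ j ∧ G.Adj w (k a) with hS2
  have hcard : 2 < (Finset.range N \ (({i, j} ∪ S1) ∪ S2)).card := by
    have e1 := Finset.le_card_sdiff (({i, j} ∪ S1) ∪ S2) (Finset.range N)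
    have e2 := Finset.card_union_le ({i, j} ∪ S1) S2
    have e3 := Finset.card_union_le {i, j} S1
    have e4 : ({i, j} : Finset ℕ).card ≤ 2 := Finset.card_le_two
    rw [Finset.card_range] at e1
    omega
  obtain ⟨c, hc, d, hd, e, he, hcd, hce, hde⟩ := Finset.two_lt_card.1 hcard
  have ext : ∀ c, c ∈ Finset.range N \ (({i, j} ∪ S1) ∪ S2) →
      c < N ∧ c ≠ i ∧ c ≠ j ∧ ¬ G.Adj z (k c) ∧ ¬ G.Adj w (k c) := by
    intro c hc
    rw [Finset.mem_sdiff, Finset.mem_union, Finset.mem_union, Finset.mem_insert,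
      Finset.mem_singleton, Finset.mem_range] at hc
    obtain ⟨h2, h3⟩ := hc
    push Not at h3
    obtain ⟨⟨⟨h4, h5⟩, h6⟩, h7⟩ := h3
    refine ⟨h2, h4, h5, fun h => h6 ?_, fun h => h7 ?_⟩
    · rw [hS1, Finset.mem_filter, Finset.mem_range]
      exact ⟨h2, h4, h⟩
    · rw [hS2, Finset.mem_filter, Finset.mem_range]
      exact ⟨h2, h5, h⟩
  obtain ⟨cN, ci, cj, zc, wc⟩ := ext c hc
  obtain ⟨dN, di, dj, zd, wd⟩ := ext d hd
  obtain ⟨eN, ei, ej, ze, we⟩ := ext e he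
  have zi := hz.1
  have wj := hw.1
  have zj := hz.2 j hj hij.symm
  have wi := hw.2 i hi hij
  refine m1 h1 hK (s i) (k c) (s j) (k d) (k d) (k e) z w (Or.inr (ks c cN j hj cj)) (Or.inl rfl)
    (ks c cN i hi ci).ne' (sne hS hi hj hij) (ks d dN i hi di).ne' (ks d dN i hi di).ne'
    (hS.kk c cN d dN hcd).ne (hS.kk c cN d dN hcd).ne (ks d dN j hj dj).ne' (ks d dN j hj dj).ne'
    (hS.kk c cN e eN hce).ne (ks e eN j hj ej).ne'
    (ne1 (ks c cN j hj cj) zj) (ne1 (ks c cN j hj cj).symm (fun h => zc h)) ?_ ?_ ?_ ?_ ?_ ?_ ?_ ?_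
    (Or.inl (ks c cN i hi ci).symm) (Or.inl (ks d dN i hi di).symm) (ks e eN i hi ei).symm
    (Or.inl (hS.kk c cN d dN hcd)) (Or.inl (hS.kk c cN e eN hce)) (Or.inl (hS.kk d dN e eN hde))
    zi.symm (Or.inr wj.symm) (fun h => wi h.symm) (fun h => zc h.symm) (fun h => zj h.symm)
    (fun h => zd h.symm) (fun h => zd h.symm) (fun h => wd h.symm) (fun h => wd h.symm)
    (fun h => ze h.symm) (fun h => we h.symm) hzw
  · exact ne1 (ks c cN i hi ci) wi
  · exact wj.ne'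
  · exact (hS.kk d dN e eN hde).ne
  · exact (hS.kk d dN e eN hde).ne
  · exact ne1 (ks d dN j hj dj) zj
  · exact ne1 (ks d dN j hj dj) zj
  · exact ne1 (ks d dN i hi di) wi
  · exact ne1 (ks d dN i hi di) wi

/-- no four private neighbours -/
theorem two_c (h1 : S_M1) (hK : ¬ IMS K401 G Set.univ) {N : ℕ} {k s : ℕ → V} (hS : Spd G N k s)
    (hN : 10 ≤ N) {z w x y : V} {i j c d : ℕ} (hi : i < N) (hj : j < N) (hc : c < N) (hd : d < N)
    (hij : i ≠ j) (hic : i ≠ c) (hid : i ≠ d) (hjc : j ≠ c) (hjd : j ≠ d) (hcd : c ≠ d)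
    (hz : Pv G N s i z) (hw : Pv G N s j w) (hx : Pv G N s c x) (hy : Pv G N s d y) : False := by
  have ss := hS.ss
  have zw := two_b h1 hK hS hN hi hj hij hz hw
  have zx := two_b h1 hK hS hN hi hc hic hz hx
  have zy := two_b h1 hK hS hN hi hd hid hz hy
  have wx := two_b h1 hK hS hN hj hc hjc hw hx
  have wy := two_b h1 hK hS hN hj hd hjd hw hy
  have xy := two_b h1 hK hS hN hc hd hcd hx hy
  exact m1 h1 hK z w w x x y (s i) (s j) (Or.inl rfl) (Or.inl rfl)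
    zw.ne zw.ne zx.ne zx.ne wx.ne wx.ne wx.ne wx.ne wy.ne wy.ne
    (ne1 hw.1 (ss i hi j hj)) (ne1 hw.1 (ss i hi j hj)) hw.1.ne hw.1.ne xy.ne xy.ne
    (ne1 hx.1 (ss i hi c hc)) (ne1 hx.1 (ss i hi c hc)) (ne1 hx.1 (ss j hj c hc))
    (ne1 hx.1 (ss j hj c hc))
    (Or.inl zw) (Or.inl zx) zy (Or.inl wx) (Or.inl wy) (Or.inl xy) hz.1 (Or.inl hw.1)
    (hz.2 j hj hij.symm) (hw.2 i hi hij) (hw.2 i hi hij) (hx.2 i hi hic) (hx.2 i hi hic)
    (hx.2 j hj hjc) (hx.2 j hj hjc) (hy.2 i hi hid) (hy.2 j hj hjd) (ss i hi j hj)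

/-- enumeration of a finite set -/
theorem enum (S : Finset ℕ) (m : ℕ) (h : m ≤ S.card) :
    ∃ σ : ℕ → ℕ, (∀ k < m, σ k ∈ S) ∧ ∀ k < m, ∀ l < m, σ k = σ l → k = l := by
  refine ⟨fun k => if hk : k < S.card then (S.equivFin.symm ⟨k, hk⟩ : ℕ) else 0, ?_, ?_⟩
  · intro k hk
    simp only [dif_pos (lt_of_lt_of_le hk h)]
    exact (S.equivFin.symm ⟨k, lt_of_lt_of_le hk h⟩).2
  · intro k hk l hl hkl
    simp only [dif_pos (lt_of_lt_of_le hk h), dif_pos (lt_of_lt_of_le hl h)] at hkl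
    have h1 := S.equivFin.symm.injective (Subtype.ext hkl)
    exact congrArg Fin.val h1

end ClAux

open ClAux in
/-- **Cl.** -/
theorem cl (h1 : S_M1) : S_Cl := by
  intro n V G k s hK hS
  classical
  have hN : 10 ≤ n + 10 := by omega
  set J := (Finset.range (n + 10)).filter fun i => ∃ z, Pv G (n + 10) s i z with hJ
  have hJc : J.card ≤ 3 := by
    by_contra hlt
    push Not at hlt
    obtain ⟨σ, hσ, hσi⟩ := enum J 4 hlt
    have hz : ∀ i < 4, σ i < n + 10 ∧ ∃ z, Pv G (n + 10) s (σ i) z := by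
      intro i hi
      have := Finset.mem_filter.1 (hσ i hi)
      exact ⟨Finset.mem_range.1 this.1, this.2⟩
    obtain ⟨b0, z0, p0⟩ := hz 0 (by norm_num)
    obtain ⟨b1, z1, p1⟩ := hz 1 (by norm_num)
    obtain ⟨b2, z2, p2⟩ := hz 2 (by norm_num)
    obtain ⟨b3, z3, p3⟩ := hz 3 (by norm_num)
    have q : ∀ i < 4, ∀ j < 4, i ≠ j → σ i ≠ σ j := fun i hi j hj hij h => hij (hσi i hi j hj h)
    exact two_c h1 hK hS hN b0 b1 b2 b3 (q 0 (by norm_num) 1 (by norm_num) (by norm_num))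
      (q 0 (by norm_num) 2 (by norm_num) (by norm_num))
      (q 0 (by norm_num) 3 (by norm_num) (by norm_num))
      (q 1 (by norm_num) 2 (by norm_num) (by norm_num))
      (q 1 (by norm_num) 3 (by norm_num) (by norm_num))
      (q 2 (by norm_num) 3 (by norm_num) (by norm_num)) p0 p1 p2 p3
  have hcard : n ≤ (Finset.range (n + 10) \ J).card := by
    have e1 := Finset.le_card_sdiff J (Finset.range (n + 10))
    rw [Finset.card_range] at e1
    omega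
  obtain ⟨φ, hφ, hφi⟩ := enum _ _ hcard
  have hφN : ∀ i < n, φ i < n + 10 := fun i hi =>
    Finset.mem_range.1 (Finset.mem_sdiff.1 (hφ i hi)).1
  have hφJ : ∀ i < n, ¬ ∃ z, Pv G (n + 10) s (φ i) z := by
    intro i hi hex
    refine (Finset.mem_sdiff.1 (hφ i hi)).2 ?_
    rw [hJ, Finset.mem_filter, Finset.mem_range]
    exact ⟨hφN i hi, hex⟩
  refine ⟨φ, hφN, hφi, ⟨⟨?_, ?_, ?_⟩, ?_⟩⟩
  · intro i hi j hj hij
    exact hS.kk _ (hφN i hi) _ (hφN j hj) fun h => hij (hφi i hi j hj h)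
  · intro i hi j hj
    exact hS.ss _ (hφN i hi) _ (hφN j hj)
  · intro i hi j hj
    rw [hS.ks _ (hφN i hi) _ (hφN j hj)]
    exact ⟨fun h h' => h (by rw [h']), fun h h' => h (hφi i hi j hj h')⟩
  · intro v i hi hv j hj l hl hjl
    by_contra hcon
    push Not at hcon
    refine hφJ i hi ⟨v, hv, fun b hb hbi hvb => ?_⟩
    exact two h1 hK hS (hφN i hi) hb (hφN j hj) (hφN l hl) hbi.symm
      (fun h => hjl (hφi j hj l hl h)) hv hvb hcon.1 hcon.2

end Pool.Agent.MPd439b2.CR
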