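import Pool.Agent.Lib.MP_d439b2_co.CR.SpecC

/-!
# MP_d439b2_co, CR/Com: induced subgraphs as `G.comap g`, `g` injective (helper85)
-/

set_option autoImplicit false

namespace Pool.Agent.MPd439b2.CR

open Pool.Agent.MPd439b2 Pool.Agent.MPd439b2.A0 Pool.Agent.MPd439b2.Rep

variable {V W : Type} {G : SimpleGraph V} {g : W → V}

theorem ims_comap {I : Type} {H : SimpleGraph I} (hg : Function.Injective g)
    (h : IMS H (G.comap g) Set.univ) : IMS H G Set.univ :=
  ims_univ_iff.mpr (FDAux.indMinor_trans (ims_univ_iff.mp h)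
    (FDAux.indMinor_of_indSub ⟨g, hg, fun _ _ => Iff.rfl⟩))

theorem fr_comap {I I' : Type} {H : SimpleGraph I} {J : SimpleGraph I'} (hg : Function.Injective g)
    (h : Rep.Fr H J G) : Rep.Fr H J (G.comap g) :=
  ⟨fun h' => h.1 (ims_comap hg h'), fun h' => h.2 (ims_comap hg h')⟩

theorem tp_comap (hg : Function.Injective g) {m : ℕ} {s t e : Bool} {a b : ℕ → W}
    (h : TP (G.comap g) m s t e a b) : TP G m s t e (fun i => g (a i)) (fun i => g (b i)) where
  dis i hi j hj h' := h.dis i hi j hj (hg h')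
  ia i hi j hj hij h' := h.ia i hi j hj hij (hg h')
  ib i hi j hj hij h' := h.ib i hi j hj hij (hg h')
  aa i hi j hj hij := h.aa i hi j hj hij
  bb i hi j hj hij := h.bb i hi j hj hij
  ab i hi j hj := h.ab i hi j hj

theorem noTP_comap (hg : Function.Injective g) {m : ℕ} {s t e : Bool}
    (h : NoTP G m s t e) : NoTP (G.comap g) m s t e := fun _ _ h' => h _ _ (tp_comap hg h')

/-- restriction of a tangle to a smaller order -/
theorem tan_mono' [Finite V] {c c' : ℕ} {T : Set (Set V)} (h : Tan G c T)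
    (hc : c' ≤ c) (h1 : 1 ≤ c') : Tan G c' {X | X ∈ T ∧ LK.cr G X ≤ c'} where
  ord X hX := hX.2
  dec X hX := by
    rcases h.dec X (hX.trans hc) with h2 | h2
    · exact Or.inl ⟨h2, hX⟩
    · exact Or.inr ⟨h2, by rw [cr_compl]; exact hX⟩
  cov X hX Y hY U hU := h.cov X hX.1 Y hY.1 U hU.1
  sing v := ⟨h.sing v, by
    have h2 := rk_card G ({v} : Set V) ({v} : Set V)ᶜ
    rw [Set.ncard_singleton] at h2
    exact h2.trans h1⟩

end Pool.Agent.MPd439b2.CR
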