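import Pool.Agent.Lib.MP_d439b2_co.CR.SpecA

/-!
# MP_d439b2_co, CR/Cr: a crown with a stable side contains `J_t`
-/

set_option autoImplicit false

namespace Pool.Agent.MPd439b2.CR

open Pool.Agent.MPd439b2 Pool.Agent.MPd439b2.A0

namespace CrX

/-- the index of the vertex `x` in the set `i` (`0`: no vertex) -/
def al (i : ℕ) : ℕ := if i = 0 then 1 else if i = 1 then 2 else if i = 2 then 0 else i

/-- the index of the set `C` in the set `i` (`0`: no set) -/
def om (i : ℕ) : ℕ :=
  if i = 0 then 2 else if i = 1 then 0 else if i = 2 then 1 else if i % 2 = 1 then i + 1 else i - 1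

theorem al_lt {t i : ℕ} (h : i < 2 * t + 3) : al i < 2 * t + 3 := by
  unfold al
  split_ifs <;> omega

theorem om_lt {t i : ℕ} (h : i < 2 * t + 3) : om i < 2 * t + 3 := by
  unfold om
  split_ifs <;> omega

theorem al_inj {i j : ℕ} (h0 : al i ≠ 0) (h : al i = al j) : i = j := by
  unfold al at h0 h
  split_ifs at h0 h <;> omega

theorem om_inj {i j : ℕ} (h0 : om i ≠ 0) (h : om i = om j) : i = j := by
  unfold om at h0 h
  split_ifs at h0 h <;> omega

theorem ao (i : ℕ) : al i ≠ om i := by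
  unfold al om
  split_ifs <;> omega

theorem ed {i j : ℕ} (hij : i < j) :
    ((al i ≠ 0 ∧ om j ≠ 0 ∧ al i ≠ om j) ∨ (al j ≠ 0 ∧ om i ≠ 0 ∧ al j ≠ om i)) ↔
      ¬ ((i = 0 ∧ j ≤ 2) ∨ (3 ≤ i ∧ i % 2 = 1 ∧ j = i + 1)) := by
  unfold al om
  split_ifs <;> omega

variable {V : Type} {G : SimpleGraph V}

/-- the branch sets -/
def Br (x : ℕ → V) (C : ℕ → Set V) (i : ℕ) : Set V :=
  {v | (al i ≠ 0 ∧ v = x (al i)) ∨ (om i ≠ 0 ∧ v ∈ C (om i))}

end CrX

open CrX in
theorem cr (hMJ : S_MJ) : S_Cr := by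
  intro t V G x C hC hsp hxC hxx hxy
  have hne : ∀ a < 2 * t + 3, ∀ b < 2 * t + 3, x a = x b → a = b := by
    intro a ha b hb h
    by_contra hab
    have h1 := (hxy a ha b hb).2 hab
    rw [h] at h1
    exact (hxy b hb b hb).1 h1 rfl
  refine hMJ t V G (Br x C) ?_ ?_
  · intro i hi
    have h1 := al_lt hi
    have h2 := om_lt hi
    by_cases h3 : al i = 0
    · have h4 : om i ≠ 0 := fun h => ao i (h3.trans h.symm)
      have h5 : Br x C i = C (om i) := by
        ext v
        constructor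
        · rintro (h | h)
          · exact absurd h3 h.1
          · exact h.2
        · intro h
          exact Or.inr ⟨h4, h⟩
      rw [h5]
      exact hC _ h2
    · by_cases h4 : om i = 0
      · have h5 : Br x C i = {x (al i)} := by
          ext v
          constructor
          · rintro (h | h)
            · exact h.2
            · exact absurd h4 h.1
          · intro h
            exact Or.inl ⟨h3, h⟩
        rw [h5]
        exact Conn.singleton G _
      · have h5 : Br x C i = insert (x (al i)) (C (om i)) := by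
          ext v
          constructor
          · rintro (h | h)
            · exact Or.inl h.2
            · exact Or.inr h.2
          · rintro (h | h)
            · exact Or.inl ⟨h3, h⟩
            · exact Or.inr ⟨h4, h⟩
        rw [h5]
        refine (hC _ h2).insert ?_
        obtain ⟨y, hy, hxy'⟩ := (hxy _ h1 _ h2).2 (ao i)
        exact ⟨y, hy, hxy'.symm⟩
  · intro i j hij hj
    have hi : i < 2 * t + 3 := lt_trans hij hj
    refine ⟨?_, ?_⟩
    · rw [Set.disjoint_left]
      rintro v (⟨h1, h2⟩ | ⟨h1, h2⟩) (⟨h3, h4⟩ | ⟨h3, h4⟩)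
      · have h5 := al_inj h1 (hne _ (al_lt hi) _ (al_lt hj) (h2.symm.trans h4))
        omega
      · rw [h2] at h4
        exact hxC _ (al_lt hi) _ (om_lt hj) h4
      · rw [h4] at h2
        exact hxC _ (al_lt hj) _ (om_lt hi) h2
      · by_cases h5 : om i = om j
        · have h6 := om_inj h1 h5
          omega
        · exact Set.disjoint_left.1 (hsp _ (om_lt hi) _ (om_lt hj) h5).1 h2 h4
    · rw [← ed hij]
      constructor
      · rintro ⟨u, (⟨h1, h2⟩ | ⟨h1, h2⟩), v, (⟨h3, h4⟩ | ⟨h3, h4⟩), huv⟩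
        · rw [h2, h4] at huv
          exact absurd huv (hxx _ (al_lt hi) _ (al_lt hj))
        · rw [h2] at huv
          exact Or.inl ⟨h1, h3, (hxy _ (al_lt hi) _ (om_lt hj)).1 ⟨v, h4, huv⟩⟩
        · rw [h4] at huv
          exact Or.inr ⟨h3, h1, (hxy _ (al_lt hj) _ (om_lt hi)).1 ⟨u, h2, huv.symm⟩⟩
        · by_cases h5 : om i = om j
          · have h6 := om_inj h1 h5
            omega
          · exact absurd huv ((hsp _ (om_lt hi) _ (om_lt hj) h5).not_adj h2 h4)
      · rintro (⟨h1, h2, h3⟩ | ⟨h1, h2, h3⟩)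
        · obtain ⟨y, hy, hy'⟩ := (hxy _ (al_lt hi) _ (om_lt hj)).2 h3
          exact ⟨x (al i), Or.inl ⟨h1, rfl⟩, y, Or.inr ⟨h2, hy⟩, hy'⟩
        · obtain ⟨y, hy, hy'⟩ := (hxy _ (al_lt hj) _ (om_lt hi)).2 h3
          exact ⟨y, Or.inr ⟨h2, hy⟩, x (al j), Or.inl ⟨h1, rfl⟩, hy'.symm⟩

end Pool.Agent.MPd439b2.CR
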