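import Pool.Agent.Lib.MP_d439b2_co.CR.SpecB
import Pool.Agent.Lib.MP_d439b2_co.Rep.Cut

/-!
# MP_d439b2_co, CR, Cut: the cut-rank after the replacement of cells by vertices
-/

set_option autoImplicit false

namespace Pool.Agent.MPd439b2.CR

open Pool.Agent.MPd439b2 Pool.Agent.MPd439b2.A0 Pool.Agent.MPd439b2.Rep

private theorem agree {V : Type} {G : SimpleGraph V} {P : Set V} {c : ℕ} {F : Set (Set V)}
    (hF : Fam G P c F) {M : Set V} (hM : M ∈ F) {v r u : V} (hv : v ∈ M) (hr : r ∈ M)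
    (hu : u ∈ P → ∃ M' ∈ F, M' ≠ M ∧ u ∈ M') (hu' : u ∉ P → u ∉ ins G P M) :
    G.Adj v u ↔ G.Adj r u := by
  by_cases hP : u ∈ P
  · obtain ⟨M', hM', hne, huM'⟩ := hu hP
    exact iff_of_true (hF.com M hM M' hM' hne.symm v hv u huM')
      (hF.com M hM M' hM' hne.symm r hr u huM')
  · have h1 := hF.con M hM
    constructor
    · intro h2
      by_contra h3
      exact h1 ⟨u, hP, hu' hP, ⟨v, hv, h2.symm⟩, ⟨r, hr, fun h4 => h3 h4.symm⟩⟩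
    · intro h2
      by_contra h3
      exact h1 ⟨u, hP, hu' hP, ⟨r, hr, h2.symm⟩, ⟨v, hv, fun h4 => h3 h4.symm⟩⟩

/-- the inner vertices of the cells of one part against a set that avoids these cells -/
private theorem inner {V : Type} [Finite V] {G : SimpleGraph V} {P : Set V} {c : ℕ} {F : Set (Set V)}
    (hF : Fam G P c F) {I I' : Set (Set V)} (hI : I ⊆ F) (hI' : I' ⊆ F) (hd : Disjoint I I')
    {Y : Set V} (hY1 : ∀ y ∈ Y, y ∈ P → (∀ M ∈ F, y ∉ M) ∨ ∃ M ∈ I', y ∈ M)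
    (hY2 : ∀ y ∈ Y, y ∉ P → ∀ M ∈ I, y ∉ ins G P M) :
    LK.rk G {z | ∃ M ∈ I, z ∈ ins G P M} Y ≤ 2 * c := by
  have h1 : Y ⊆ ((P \ ⋃₀ F) ∪ ⋃₀ I') ∪ (Y ∩ Pᶜ) := by
    intro y hy
    by_cases hP : y ∈ P
    · rcases hY1 y hy hP with h | ⟨M, hM, hyM⟩
      · exact Or.inl (Or.inl ⟨hP, fun ⟨M, hM, hyM⟩ => h M hM hyM⟩)
      · exact Or.inl (Or.inr ⟨M, hM, hyM⟩)
    · exact Or.inr ⟨hy, hP⟩
  have h2 : LK.rk G {z | ∃ M ∈ I, z ∈ ins G P M} (P \ ⋃₀ F) ≤ c := by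
    refine (rk_mono G ?_ subset_rfl).trans hF.row
    rintro z ⟨M, hM, hz⟩
    exact ⟨M, hI hM, Or.inr hz⟩
  have h3 : LK.rk G {z | ∃ M ∈ I, z ∈ ins G P M} (⋃₀ I') ≤ c := hF.phi I hI I' hI' hd
  have h4 : LK.rk G {z | ∃ M ∈ I, z ∈ ins G P M} (Y ∩ Pᶜ) = 0 := by
    apply rk_anti
    rintro z ⟨M, hM, hz⟩ w ⟨hw, hwP⟩
    exact ins_not_adj' hz hwP (hY2 w hw hwP M hM)
  have h5 := rk_mono G (subset_refl {z | ∃ M ∈ I, z ∈ ins G P M}) h1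
  have h6 := rk_union_right G {z | ∃ M ∈ I, z ∈ ins G P M} ((P \ ⋃₀ F) ∪ ⋃₀ I') (Y ∩ Pᶜ)
  have h7 := rk_union_right G {z | ∃ M ∈ I, z ∈ ins G P M} (P \ ⋃₀ F) (⋃₀ I')
  omega

/-- the members of one part are replaced by their chosen vertices -/
private theorem repl {V : Type} [Finite V] (hDup : S_Dup) {G : SimpleGraph V} {P : Set V} {c : ℕ}
    {F : Set (Set V)} {q : Set V → V} (hF : Fam G P c F) (hq : ∀ M ∈ F, q M ∈ M)
    {I : Set (Set V)} (hI : I ⊆ F) {R C : Set V} (hR : ∀ M ∈ I, q M ∈ R)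
    (hC1 : ∀ M ∈ I, ∀ u ∈ C, u ∈ P → (∀ M' ∈ F, u ∉ M') ∨ ∃ M' ∈ F, M' ≠ M ∧ u ∈ M')
    (hC2 : ∀ M ∈ I, ∀ u ∈ C, u ∉ P → u ∉ ins G P M) :
    LK.rk G (R ∪ ⋃₀ I) C ≤ LK.rk G R C + c := by
  have h1 := hDup V G R (q '' I) (⋃₀ I) C (P \ ⋃₀ F) (by
    rintro _ ⟨M, hM, rfl⟩
    exact hR M hM) (by
    rintro v ⟨M, hM, hv⟩
    refine ⟨q M, ⟨M, hM, rfl⟩, fun u hu => ?_⟩
    refine agree hF (hI hM) hv (hq M (hI hM)) (fun hP => ?_) (hC2 M hM u hu.1)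
    rcases hC1 M hM u hu.1 hP with h | h
    · exfalso
      exact hu.2 ⟨hP, fun ⟨M', hM', huM'⟩ => h M' hM' huM'⟩
    · exact h)
  have h2 : LK.rk G (⋃₀ I ∪ q '' I) (C ∩ (P \ ⋃₀ F)) ≤ c := by
    refine (rk_mono G ?_ Set.inter_subset_right).trans hF.row
    rintro z (⟨M, hM, hz⟩ | ⟨M, hM, rfl⟩)
    · exact ⟨M, hI hM, Or.inl hz⟩
    · exact ⟨M, hI hM, Or.inl (hq M (hI hM))⟩
  omega

theorem cut (h1 : S_Dup) : S_Cut := by
  intro c V _ G P F q hF hq X hX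
  set A : Set V := {v | ∀ M ∈ F, v ∈ cel G P M → v = q M} with hA
  set J : Set (Set V) := {M | M ∈ F ∧ q M ∈ X} with hJ
  set J' : Set (Set V) := {M | M ∈ F ∧ q M ∉ X} with hJ'
  have hJF : J ⊆ F := fun M h => h.1
  have hJF' : J' ⊆ F := fun M h => h.1
  have hdis : Disjoint J J' := Set.disjoint_left.mpr fun M h h' => h'.2 h.2
  have hMP : ∀ M ∈ F, M ⊆ P := fun M hM => (hF.df.1 M hM).sub
  have hqP : ∀ M ∈ F, q M ∈ P := fun M hM => hMP M hM (hq M hM)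
  -- the chosen vertices are in `A`
  have hqA : ∀ M ∈ F, q M ∈ A := by
    intro M hM M' hM' hcel
    by_cases h : M = M'
    · rw [h]
    · exfalso
      exact Set.disjoint_left.mp (cel_disj (hMP M hM) (hMP M' hM') (hF.df.2 M hM M' hM' h))
        (Or.inl (hq M hM)) hcel
  -- vertices of `A`
  have hAP : ∀ u ∈ A, u ∈ P → (∀ M ∈ F, u ∉ M) ∨ ∃ M ∈ F, u = q M := by
    intro u hu _
    by_cases h : ∃ M ∈ F, u ∈ M
    · obtain ⟨M, hM, huM⟩ := h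
      exact Or.inr ⟨M, hM, hu M hM (Or.inl huM)⟩
    · push Not at h
      exact Or.inl h
  have hAQ : ∀ u ∈ A, u ∉ P → ∀ M ∈ F, u ∉ ins G P M := by
    intro u hu huP M hM h
    exact huP (hu M hM (Or.inr h) ▸ hqP M hM)
  set Xp : Set V := X ∪ {v | ∃ M ∈ F, q M ∈ X ∧ v ∈ cel G P M} with hXp
  have hXpsub : Xp ⊆ (X ∪ ⋃₀ J) ∪ {z | ∃ M ∈ J, z ∈ ins G P M} := by
    rintro v (hv | ⟨M, hM, hqM, hv | hv⟩)
    · exact Or.inl (Or.inl hv)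
    · exact Or.inl (Or.inr ⟨M, ⟨hM, hqM⟩, hv⟩)
    · exact Or.inr ⟨M, ⟨hM, hqM⟩, hv⟩
  have hYsub : Xpᶜ ⊆ ((A \ X) ∪ ⋃₀ J') ∪ {z | ∃ M ∈ J', z ∈ ins G P M} := by
    intro v hv
    by_cases h : ∃ M ∈ F, v ∈ cel G P M
    · obtain ⟨M, hM, hcel⟩ := h
      have hqM : q M ∉ X := fun h2 => hv (Or.inr ⟨M, hM, h2, hcel⟩)
      rcases hcel with h3 | h3
      · exact Or.inl (Or.inr ⟨M, ⟨hM, hqM⟩, h3⟩)
      · exact Or.inr ⟨M, ⟨hM, hqM⟩, h3⟩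
    · push Not at h
      refine Or.inl (Or.inl ⟨fun M hM hcel => absurd hcel (h M hM), fun h2 => hv (Or.inl h2)⟩)
  -- step 1: inner vertices of `J` against the complement
  have s1 : LK.rk G {z | ∃ M ∈ J, z ∈ ins G P M} Xpᶜ ≤ 2 * c := by
    refine inner hF hJF hJF' hdis ?_ ?_
    · intro y hy _
      by_cases h : ∃ M ∈ F, y ∈ M
      · obtain ⟨M, hM, hyM⟩ := h
        exact Or.inr ⟨M, ⟨hM, fun h2 => hy (Or.inr ⟨M, hM, h2, Or.inl hyM⟩)⟩, hyM⟩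
      · push Not at h
        exact Or.inl h
    · intro y hy _ M hM h
      exact hy (Or.inr ⟨M, hM.1, hM.2, Or.inr h⟩)
  -- step 2: inner vertices of `J'` against `R₁`
  have s2 : LK.rk G (X ∪ ⋃₀ J) {z | ∃ M ∈ J', z ∈ ins G P M} ≤ 2 * c := by
    rw [rk_symm]
    refine inner hF hJF' hJF hdis.symm ?_ ?_
    · rintro y (hy | ⟨M, hM, hyM⟩) hyP
      · rcases hAP y (hX hy) hyP with h | ⟨M, hM, h⟩
        · exact Or.inl h
        · refine Or.inr ⟨M, ⟨hM, h ▸ hy⟩, ?_⟩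
          rw [h]
          exact hq M hM
      · exact Or.inr ⟨M, hM, hyM⟩
    · rintro y (hy | ⟨M, hM, hyM⟩) hyP M' hM'
      · exact hAQ y (hX hy) hyP M' hM'.1
      · exact absurd (hMP M hM.1 hyM) hyP
  -- step 3
  have s3 : LK.rk G (X ∪ ⋃₀ J) ((A \ X) ∪ ⋃₀ J') ≤ LK.rk G X ((A \ X) ∪ ⋃₀ J') + c := by
    refine repl h1 hF hq hJF (fun M hM => hM.2) ?_ ?_
    · rintro M hM u (hu | ⟨M', hM', huM'⟩) huP
      · rcases hAP u hu.1 huP with h | ⟨M', hM', h⟩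
        · exact Or.inl h
        · refine Or.inr ⟨M', hM', ?_, ?_⟩
          · rintro rfl
            exact hu.2 (h ▸ hM.2)
          · rw [h]
            exact hq M' hM'
      · refine Or.inr ⟨M', hM'.1, ?_, huM'⟩
        rintro rfl
        exact hM'.2 hM.2
    · rintro M hM u (hu | ⟨M', hM', huM'⟩) huP
      · exact hAQ u hu.1 huP M hM.1
      · exact absurd (hMP M' hM'.1 huM') huP
  -- step 4
  have s4 : LK.rk G ((A \ X) ∪ ⋃₀ J') X ≤ LK.rk G (A \ X) X + c := by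
    refine repl h1 hF hq hJF' (fun M hM => ⟨hqA M hM.1, hM.2⟩) ?_ ?_
    · intro M hM u hu huP
      rcases hAP u (hX hu) huP with h | ⟨M', hM', h⟩
      · exact Or.inl h
      · refine Or.inr ⟨M', hM', ?_, ?_⟩
        · rintro rfl
          exact hM.2 (h ▸ hu)
        · rw [h]
          exact hq M' hM'
    · intro M hM u hu huP
      exact hAQ u (hX hu) huP M hM.1
  unfold LK.cr
  have t1 := rk_mono G hXpsub (subset_refl Xpᶜ)
  have t2 := rk_union G (X ∪ ⋃₀ J) {z | ∃ M ∈ J, z ∈ ins G P M} Xpᶜ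
  have t3 := rk_mono G (subset_refl (X ∪ ⋃₀ J)) hYsub
  have t4 := rk_union_right G (X ∪ ⋃₀ J) ((A \ X) ∪ ⋃₀ J') {z | ∃ M ∈ J', z ∈ ins G P M}
  have t5 := rk_symm G X ((A \ X) ∪ ⋃₀ J')
  have t6 := rk_symm G X (A \ X)
  omega

end Pool.Agent.MPd439b2.CR
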