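import Pool.Agent.Lib.MP_d439b2_co.Basic

/-!
# MP_d439b2_co, CR: the thick spider is harmless for `K4:0,1` (note 2828 of helper53, refereed in 2847), definitions

`P` = the vertices that see one of the stable vertices of a (clean) thick spider, `Q = Pᶜ`.  A member is a
non-empty set `M ⊆ P` of the form `mi G P C`, `C` a component of `G[Q]`; its cell consists of `M` and of the
components `C'` of `G[Q]` with `mi G P C'` non-empty and contained in `M`.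
-/

set_option autoImplicit false

namespace Pool.Agent.MPd439b2.CR

open Pool.Agent.MPd439b2

variable {V : Type} {G : SimpleGraph V}

/-- a thick spider with `n` legs: the `k i` form a clique, the `s i` are stable, `k i ~ s j` iff `i ≠ j` -/
structure Spd (G : SimpleGraph V) (n : ℕ) (k s : ℕ → V) : Prop where
  kk : ∀ i < n, ∀ j < n, i ≠ j → G.Adj (k i) (k j)
  ss : ∀ i < n, ∀ j < n, ¬ G.Adj (s i) (s j)
  ks : ∀ i < n, ∀ j < n, (G.Adj (k i) (s j) ↔ i ≠ j)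

/-- a clean thick spider: a vertex that sees one of the `s i` misses at most one of them -/
structure Cln (G : SimpleGraph V) (n : ℕ) (k s : ℕ → V) : Prop where
  sp : Spd G n k s
  one : ∀ v, ∀ i < n, G.Adj v (s i) → ∀ j < n, ∀ l < n, j ≠ l → G.Adj v (s j) ∨ G.Adj v (s l)

/-- the vertices that see one of the `s i` -/
def PP (G : SimpleGraph V) (n : ℕ) (s : ℕ → V) : Set V := {v | ∃ i < n, G.Adj v (s i)}

/-- the vertices of `P` without neighbours in `C` -/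
def mi (G : SimpleGraph V) (P C : Set V) : Set V := {v | v ∈ P ∧ ∀ y ∈ C, ¬ G.Adj v y}

/-- `A` and `B` are disjoint and do not touch -/
def Sp (G : SimpleGraph V) (A B : Set V) : Prop := Disjoint A B ∧ ¬ Tch G A B

/-- `C` is a component of `G[Q]` -/
def Cmp (G : SimpleGraph V) (Q C : Set V) : Prop := C ⊆ Q ∧ Conn G C ∧ ∀ u ∈ Q, u ∉ nb G C

/-- a member -/
def Mem (G : SimpleGraph V) (P M : Set V) : Prop := M.Nonempty ∧ ∃ C, Cmp G Pᶜ C ∧ mi G P C = M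

/-- the vertices outside `P` that are inside the cell of `M` -/
def ins (G : SimpleGraph V) (P M : Set V) : Set V :=
  {z | ∃ C, Cmp G Pᶜ C ∧ z ∈ C ∧ (mi G P C).Nonempty ∧ mi G P C ⊆ M}

/-- the cell of `M` -/
def cel (G : SimpleGraph V) (P M : Set V) : Set V := M ∪ ins G P M

/-- components `C a`, `a < N`, with non-empty, pairwise disjoint sets `mi G P (C a)` -/
structure Sys (G : SimpleGraph V) (P : Set V) (N : ℕ) (C : ℕ → Set V) : Prop where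
  cmp : ∀ a < N, Cmp G Pᶜ (C a)
  ne : ∀ a < N, (mi G P (C a)).Nonempty
  dis : ∀ a < N, ∀ b < N, a ≠ b → Disjoint (mi G P (C a)) (mi G P (C b))

/-- helpers: vertices `a i` outside `P`, isolated in `G[Pᶜ]`, outside three given connected sets and complete to
at most four given vertices of `P` -/
def Hlp (G : SimpleGraph V) (P : Set V) : Prop := ∀ F : Finset V, (F : Set V) ⊆ P → F.card ≤ 4 →
  ∀ Y : Fin 3 → Set V, (∀ i, Conn G (Y i)) → (∀ i, Y i ⊆ Pᶜ) →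
    ∃ a : Fin 3 → V, Function.Injective a ∧ (∀ i, a i ∉ P) ∧ (∀ i, ∀ y, y ∉ P → ¬ G.Adj (a i) y) ∧
      (∀ i j, a i ∉ Y j) ∧ ∀ i, ∀ v ∈ F, G.Adj (a i) v

/-- Z1: two disjoint connected subsets of `C` do not both touch both of `mi E`, `mi E'` -/
def Z1p (G : SimpleGraph V) (P : Set V) : Prop := ∀ C E E' A B : Set V, C ⊆ Pᶜ → E ⊆ Pᶜ → E' ⊆ Pᶜ →
  Conn G C → Conn G E → Conn G E' → Sp G C E → Sp G C E' → Sp G E E' →
  Disjoint (mi G P E) (mi G P E') → A ⊆ C → B ⊆ C → Conn G A → Conn G B → Disjoint A B →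
  Tch G A (mi G P E) → Tch G A (mi G P E') → Tch G B (mi G P E) → ¬ Tch G B (mi G P E')

/-- Z2: non-touching connected sets with a common missed vertex are comparable -/
def Z2p (G : SimpleGraph V) (P : Set V) : Prop := ∀ Y Y' : Set V, Y ⊆ Pᶜ → Y' ⊆ Pᶜ → Conn G Y →
  Conn G Y' → Sp G Y Y' → (mi G P Y ∩ mi G P Y').Nonempty →
  mi G P Y ⊆ mi G P Y' ∨ mi G P Y' ⊆ mi G P Y

/-- Z3: an excluded configuration -/
def Z3p (G : SimpleGraph V) (P : Set V) : Prop := ∀ (R : Set V) (z z' u q₁ q₂ q₃ : V), R ⊆ Pᶜ →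
  Conn G R → z ∉ P → z' ∉ P → z ∉ R → z' ∉ R → z ≠ z' → ¬ G.Adj z z' → (∃ r ∈ R, G.Adj z r) →
  (∀ r ∈ R, ¬ G.Adj z' r) → u ∈ P → q₁ ∈ P → q₂ ∈ P → q₃ ∈ P → q₁ ≠ q₂ → q₁ ≠ q₃ → q₂ ≠ q₃ →
  G.Adj z' u → ¬ G.Adj z u → ¬ G.Adj z q₁ → ¬ G.Adj z q₂ → ¬ G.Adj z q₃ → ¬ G.Adj z' q₁ →
  ¬ G.Adj z' q₂ → ¬ G.Adj z' q₃ → (∃ r ∈ R, G.Adj q₁ r) → (∃ r ∈ R, G.Adj q₂ r) →
  ¬ ∃ r ∈ R, G.Adj q₃ r

/-- the three facts Z1, Z2, Z3 -/
structure ZZ (G : SimpleGraph V) (P : Set V) : Prop where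
  z1 : Z1p G P
  z2 : Z2p G P
  z3 : Z3p G P

/-- a vertex outside `P` and outside the cell of `M` which is not constant on `M` -/
def Bad (G : SimpleGraph V) (P M : Set V) : Prop :=
  ∃ z, z ∉ P ∧ z ∉ ins G P M ∧ (∃ x ∈ M, G.Adj z x) ∧ ∃ x ∈ M, ¬ G.Adj z x

/-- a family of pairwise disjoint members -/
def DF (G : SimpleGraph V) (P : Set V) (F : Set (Set V)) : Prop :=
  (∀ M ∈ F, Mem G P M) ∧ ∀ M ∈ F, ∀ M' ∈ F, M ≠ M' → Disjoint M M'

/-! ### basic facts -/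

theorem Sp.symm {A B : Set V} (h : Sp G A B) : Sp G B A := ⟨h.1.symm, fun h1 => h.2 h1.symm⟩

theorem Sp.mono {A B A' B' : Set V} (h : Sp G A B) (hA : A' ⊆ A) (hB : B' ⊆ B) : Sp G A' B' :=
  ⟨h.1.mono hA hB, fun h1 => h.2 (h1.mono hA hB)⟩

theorem Sp.not_adj {A B : Set V} (h : Sp G A B) {a b : V} (ha : a ∈ A) (hb : b ∈ B) : ¬ G.Adj a b :=
  fun h1 => h.2 ⟨a, ha, b, hb, h1⟩

theorem Sp.ne {A B : Set V} (h : Sp G A B) {a b : V} (ha : a ∈ A) (hb : b ∈ B) : a ≠ b :=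
  fun h1 => Set.disjoint_left.mp h.1 ha (h1 ▸ hb)

/-- a connected set that meets `C`, inside `Q`, is contained in the component `C` of `G[Q]` -/
theorem Cmp.sub {Q C A : Set V} (h : Cmp G Q C) (hA : Conn G A) (hAQ : A ⊆ Q) (hne : (A ∩ C).Nonempty) :
    A ⊆ C := by
  have h1 : A ∩ C = A := by
    refine hA.eq_of_nb Set.inter_subset_left hne (fun v hv hn => ?_)
    obtain ⟨h2, a, ha, hav⟩ := hn
    refine h.2.2 v (hAQ hv) ⟨fun h3 => h2 ⟨hv, h3⟩, a, ha.2, hav⟩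
  intro a ha
  rw [← h1] at ha
  exact ha.2

theorem Cmp.mem_of_adj {Q C : Set V} (h : Cmp G Q C) {z w : V} (hz : z ∈ C) (hw : w ∈ Q)
    (ha : G.Adj z w) : w ∈ C := by
  by_contra h1
  exact h.2.2 w hw ⟨h1, z, hz, ha⟩

theorem Cmp.eq {Q C C' : Set V} (h : Cmp G Q C) (h' : Cmp G Q C') (hne : (C ∩ C').Nonempty) : C = C' :=
  Set.Subset.antisymm (h'.sub h.2.1 h.1 hne) (h.sub h'.2.1 h'.1 (by rwa [Set.inter_comm]))

/-- different components are disjoint and do not touch -/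
theorem Cmp.sp {Q C C' : Set V} (h : Cmp G Q C) (h' : Cmp G Q C') (hne : C ≠ C') : Sp G C C' := by
  have h1 : Disjoint C C' := by
    rw [Set.disjoint_iff_inter_eq_empty]
    by_contra h2
    exact hne (h.eq h' (Set.nonempty_iff_ne_empty.mpr h2))
  refine ⟨h1, ?_⟩
  rintro ⟨a, ha, b, hb, hab⟩
  exact Set.disjoint_left.mp h1 (h.mem_of_adj ha (h'.1 hb) hab) hb

theorem exists_cmp {Q : Set V} {z : V} (hz : z ∈ Q) : ∃ C, Cmp G Q C ∧ z ∈ C := by
  obtain ⟨C, h1, h2, h3, h4⟩ := exists_comp G hz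
  exact ⟨C, ⟨h1, h3, h4⟩, h2⟩

theorem mi_sub (P C : Set V) : mi G P C ⊆ P := fun _ h => h.1

theorem mi_anti {P C C' : Set V} (h : C ⊆ C') : mi G P C' ⊆ mi G P C :=
  fun _ h1 => ⟨h1.1, fun y hy => h1.2 y (h hy)⟩

theorem mem_mi {P C : Set V} {v : V} : v ∈ mi G P C ↔ v ∈ P ∧ ∀ y ∈ C, ¬ G.Adj v y := Iff.rfl

theorem not_mi {P C : Set V} {v : V} (hv : v ∈ P) (h : v ∉ mi G P C) : ∃ y ∈ C, G.Adj v y := by
  by_contra h1
  push Not at h1
  exact h ⟨hv, h1⟩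

theorem mem_mi_singleton {P : Set V} {v z : V} : v ∈ mi G P {z} ↔ v ∈ P ∧ ¬ G.Adj v z :=
  ⟨fun h => ⟨h.1, h.2 z rfl⟩, fun h => ⟨h.1, fun y hy => by rw [Set.mem_singleton_iff.mp hy]; exact h.2⟩⟩

theorem ins_compl (P M : Set V) : ins G P M ⊆ Pᶜ := by
  rintro z ⟨C, h1, h2, -⟩
  exact h1.1 h2

theorem ins_mono {P M M' : Set V} (h : M ⊆ M') : ins G P M ⊆ ins G P M' := by
  rintro z ⟨C, h1, h2, h3, h4⟩
  exact ⟨C, h1, h2, h3, h4.trans h⟩

theorem cel_mono {P M M' : Set V} (h : M ⊆ M') : cel G P M ⊆ cel G P M' :=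
  Set.union_subset_union h (ins_mono h)

theorem Mem.sub {P M : Set V} (h : Mem G P M) : M ⊆ P := by
  obtain ⟨-, C, -, rfl⟩ := h
  exact mi_sub P C

/-- the cells of disjoint members are disjoint -/
theorem cel_disj {P M M' : Set V} (hM : M ⊆ P) (hM' : M' ⊆ P) (h : Disjoint M M') :
    Disjoint (cel G P M) (cel G P M') := by
  rw [Set.disjoint_left]
  rintro z (h1 | h1) (h2 | h2)
  · exact Set.disjoint_left.mp h h1 h2
  · exact ins_compl P M' h2 (hM h1)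
  · exact ins_compl P M h1 (hM' h2)
  · obtain ⟨C, c1, c2, c3, c4⟩ := h1
    obtain ⟨C', d1, d2, -, d4⟩ := h2
    have h3 : C = C' := c1.eq d1 ⟨z, c2, d2⟩
    subst h3
    obtain ⟨v, hv⟩ := c3
    exact Set.disjoint_left.mp h (c4 hv) (d4 hv)

/-- no edges between the inner vertices of the cells of disjoint members -/
theorem ins_not_adj {P M M' : Set V} (h : Disjoint M M') {z w : V} (hz : z ∈ ins G P M)
    (hw : w ∈ ins G P M') : ¬ G.Adj z w := by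
  intro ha
  obtain ⟨C, c1, c2, c3, c4⟩ := hz
  obtain ⟨C', d1, d2, -, d4⟩ := hw
  have h3 : C = C' := c1.eq d1 ⟨w, c1.mem_of_adj c2 (d1.1 d2) ha, d2⟩
  subst h3
  obtain ⟨v, hv⟩ := c3
  exact Set.disjoint_left.mp h (c4 hv) (d4 hv)

/-- no edges between an inner vertex and a vertex outside `P` which is not an inner vertex -/
theorem ins_not_adj' {P M : Set V} {z w : V} (hz : z ∈ ins G P M) (hw : w ∉ P) (hwM : w ∉ ins G P M) :
    ¬ G.Adj z w := by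
  intro ha
  obtain ⟨C, c1, c2, c3, c4⟩ := hz
  exact hwM ⟨C, c1, c1.mem_of_adj c2 hw ha, c3, c4⟩

theorem Sys.sp {P : Set V} {N : ℕ} {C : ℕ → Set V} (h : Sys G P N C) {a b : ℕ} (ha : a < N) (hb : b < N)
    (hab : a ≠ b) : Sp G (C a) (C b) := by
  refine (h.cmp a ha).sp (h.cmp b hb) (fun h1 => ?_)
  obtain ⟨v, hv⟩ := h.ne a ha
  exact Set.disjoint_left.mp (h.dis a ha b hb hab) hv (h1 ▸ hv)

/-- members are nested or disjoint -/
theorem ZZ.lam {P : Set V} (h : ZZ G P) {C C' : Set V} (hC : Cmp G Pᶜ C) (hC' : Cmp G Pᶜ C') :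
    mi G P C ⊆ mi G P C' ∨ mi G P C' ⊆ mi G P C ∨ Disjoint (mi G P C) (mi G P C') := by
  by_cases h1 : C = C'
  · subst h1
    exact Or.inl subset_rfl
  by_cases h2 : (mi G P C ∩ mi G P C').Nonempty
  · rcases h.z2 C C' hC.1 hC'.1 hC.2.1 hC'.2.1 (hC.sp hC' h1) h2 with h3 | h3
    · exact Or.inl h3
    · exact Or.inr (Or.inl h3)
  · exact Or.inr (Or.inr (Set.disjoint_iff_inter_eq_empty.mpr (Set.not_nonempty_iff_eq_empty.mp h2)))

theorem ZZ.lam_mem {P : Set V} (h : ZZ G P) {M M' : Set V} (hM : Mem G P M) (hM' : Mem G P M') :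
    M ⊆ M' ∨ M' ⊆ M ∨ Disjoint M M' := by
  obtain ⟨-, C, hC, rfl⟩ := hM
  obtain ⟨-, C', hC', rfl⟩ := hM'
  exact h.lam hC hC'

end Pool.Agent.MPd439b2.CR
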