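import Pool.Agent.Lib.MP_d439b2_co.CR.SpecB

/-!
# MP_d439b2_co, CR, Dup: duplication of rows
-/

set_option autoImplicit false

namespace Pool.Agent.MPd439b2.CR

open Pool.Agent.MPd439b2 Pool.Agent.MPd439b2.A0

theorem dup : S_Dup := by
  classical
  intro V _ G R R' N C D hR' h
  unfold LK.rk
  have key : Submodule.span (ZMod 2) (LK.row G C '' (R ∪ N)) ≤
      Submodule.span (ZMod 2) (LK.row G C '' R) ⊔
        Submodule.span (ZMod 2) (LK.row G (C ∩ D) '' (N ∪ R')) := by
    rw [Submodule.span_le]
    rintro _ ⟨v, hv, rfl⟩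
    rcases hv with hv | hv
    · exact Submodule.mem_sup_left (Submodule.subset_span ⟨v, hv, rfl⟩)
    · obtain ⟨r, hr, hagree⟩ := h v hv
      have h1 : LK.row G C r ∈ Submodule.span (ZMod 2) (LK.row G C '' R) :=
        Submodule.subset_span ⟨r, hR' hr, rfl⟩
      have h2 : LK.row G (C ∩ D) v ∈ Submodule.span (ZMod 2) (LK.row G (C ∩ D) '' (N ∪ R')) :=
        Submodule.subset_span ⟨v, Or.inl hv, rfl⟩
      have h3 : LK.row G (C ∩ D) r ∈ Submodule.span (ZMod 2) (LK.row G (C ∩ D) '' (N ∪ R')) :=
        Submodule.subset_span ⟨r, Or.inr hr, rfl⟩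
      have h4 : LK.row G C v = LK.row G C r + (LK.row G (C ∩ D) v - LK.row G (C ∩ D) r) := by
        funext y
        simp only [Pi.add_apply, Pi.sub_apply, LK.row]
        by_cases hC : y ∈ C
        · by_cases hD : y ∈ D
          · have e1 : y ∈ C ∩ D := ⟨hC, hD⟩
            simp only [hC, e1, true_and]
            ring
          · have e1 : y ∉ C ∩ D := fun e => hD e.2
            have e2 := hagree y ⟨hC, hD⟩
            simp only [hC, e1, true_and, false_and, if_false, sub_zero, add_zero, e2]
        · have e1 : y ∉ C ∩ D := fun e => hC e.1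
          simp only [hC, e1, false_and, if_false, sub_zero, add_zero]
      rw [h4]
      exact Submodule.add_mem_sup h1 (Submodule.sub_mem _ h2 h3)
  exact (Submodule.finrank_mono key).trans (Submodule.finrank_add_le_finrank_add_finrank _ _)

end Pool.Agent.MPd439b2.CR
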