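import Pool.Agent.Lib.MP_d439b2_co.CR.SpecB

/-!
# MP_d439b2_co, CR, B3: the members are complete to each other
-/

set_option autoImplicit false

namespace Pool.Agent.MPd439b2.CR

open Pool.Agent.MPd439b2 Pool.Agent.MPd439b2.A0 Pool.Agent.MPd439b2.Rep

namespace EdgAux

/-- `r` disjoint pairs of members with non-edges -/
def Pr {V : Type} (G : SimpleGraph V) (F : Set (Set V)) (r : ℕ) : Prop :=
  ∃ (A A' : ℕ → Set V) (x x' : ℕ → V),
    (∀ a < r, A a ∈ F ∧ A' a ∈ F ∧ x a ∈ A a ∧ x' a ∈ A' a ∧ ¬ G.Adj (x a) (x' a)) ∧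
    (∀ a < r, ∀ b < r, a ≠ b → A a ≠ A b ∧ A' a ≠ A' b) ∧ ∀ a < r, ∀ b < r, A a ≠ A' b

theorem pr_zero {V : Type} [Nonempty V] (G : SimpleGraph V) (F : Set (Set V)) : Pr G F 0 :=
  ⟨fun _ => ∅, fun _ => ∅, fun _ => Classical.arbitrary V, fun _ => Classical.arbitrary V,
    fun a ha => absurd ha (Nat.not_lt_zero a), fun a ha => absurd ha (Nat.not_lt_zero a),
    fun a ha => absurd ha (Nat.not_lt_zero a)⟩

theorem pr_max {V : Type} [Nonempty V] (G : SimpleGraph V) (F : Set (Set V)) (N : ℕ)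
    (h : ¬ Pr G F N) : ∃ r < N, Pr G F r ∧ ¬ Pr G F (r + 1) := by
  by_contra h1
  push Not at h1
  have h2 : ∀ r ≤ N, Pr G F r := by
    intro r
    induction r with
    | zero => exact fun _ => pr_zero G F
    | succ r ih => exact fun hr => h1 r (by omega) (ih (by omega))
  exact h (h2 N le_rfl)

theorem pr_succ {V : Type} (G : SimpleGraph V) (F : Set (Set V)) (r : ℕ) (A A' : ℕ → Set V)
    (x x' : ℕ → V)
    (h1 : ∀ a < r, A a ∈ F ∧ A' a ∈ F ∧ x a ∈ A a ∧ x' a ∈ A' a ∧ ¬ G.Adj (x a) (x' a))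
    (h2 : ∀ a < r, ∀ b < r, a ≠ b → A a ≠ A b ∧ A' a ≠ A' b) (h3 : ∀ a < r, ∀ b < r, A a ≠ A' b)
    {M M' : Set V} (hM : M ∈ F) (hM' : M' ∈ F) (hne : M ≠ M') {y y' : V} (hy : y ∈ M)
    (hy' : y' ∈ M') (hyy : ¬ G.Adj y y') (hMA : ∀ a < r, M ≠ A a ∧ M ≠ A' a)
    (hMA' : ∀ a < r, M' ≠ A a ∧ M' ≠ A' a) : Pr G F (r + 1) := by
  refine ⟨fun a => if a < r then A a else M, fun a => if a < r then A' a else M',
    fun a => if a < r then x a else y, fun a => if a < r then x' a else y', ?_, ?_, ?_⟩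
  · intro a ha
    by_cases har : a < r
    · simp only [if_pos har]
      exact h1 a har
    · simp only [if_neg har]
      exact ⟨hM, hM', hy, hy', hyy⟩
  · intro a ha b hb hab
    by_cases har : a < r
    · by_cases hbr : b < r
      · simp only [if_pos har, if_pos hbr]
        exact h2 a har b hbr hab
      · simp only [if_pos har, if_neg hbr]
        exact ⟨(hMA a har).1.symm, (hMA' a har).2.symm⟩
    · by_cases hbr : b < r
      · simp only [if_neg har, if_pos hbr]
        exact ⟨(hMA b hbr).1, (hMA' b hbr).2⟩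
      · exact absurd (show a = b by omega) hab
  · intro a ha b hb
    by_cases har : a < r
    · by_cases hbr : b < r
      · simp only [if_pos har, if_pos hbr]
        exact h3 a har b hbr
      · simp only [if_pos har, if_neg hbr]
        exact (hMA' a har).1.symm
    · by_cases hbr : b < r
      · simp only [if_neg har, if_pos hbr]
        exact (hMA b hbr).2
      · simp only [if_neg har, if_neg hbr]
        exact hne

end EdgAux

open EdgAux in
theorem edg (h1 : S_TvP) : S_Edg := by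
  intro t
  obtain ⟨N, hN⟩ := h1 t
  refine ⟨N + N, fun V _ G P hJ F hF => ?_⟩
  classical
  rcases isEmpty_or_nonempty V with hV | hV
  · refine ⟨F, subset_rfl, ?_, fun M _ M' _ _ x => (hV.false x).elim⟩
    rw [Set.diff_self, Set.ncard_empty]
    exact Nat.zero_le _
  have hnot : ¬ Pr G F N := by
    rintro ⟨A, A', x, x', k1, k2, k3⟩
    have hC : ∀ a, ∃ C, a < N → (Cmp G Pᶜ C ∧ mi G P C = A a) := by
      intro a
      by_cases ha : a < N
      · obtain ⟨-, C, h1, h2⟩ := hF.1 (A a) (k1 a ha).1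
        exact ⟨C, fun _ => ⟨h1, h2⟩⟩
      · exact ⟨∅, fun h => absurd h ha⟩
    choose C hC using hC
    have hdisj : ∀ a < N, ∀ b < N, a ≠ b → Disjoint (A a) (A b) := fun a ha b hb hab =>
      hF.2 _ (k1 a ha).1 _ (k1 b hb).1 (k2 a ha b hb hab).1
    obtain ⟨a, ha, hadj⟩ := hN V G P C x x' hJ
      ⟨fun a ha => (hC a ha).1, fun a ha => by
        rw [(hC a ha).2]
        exact ⟨x a, (k1 a ha).2.2.1⟩, fun a ha b hb hab => by
        rw [(hC a ha).2, (hC b hb).2]
        exact hdisj a ha b hb hab⟩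
      (fun a ha => by
        rw [(hC a ha).2]
        exact (k1 a ha).2.2.1)
      (fun a ha => (hF.1 _ (k1 a ha).2.1).sub (k1 a ha).2.2.2.1)
      (fun a ha b hb h => by
        rw [(hC b hb).2] at h
        exact Set.disjoint_left.mp (hF.2 _ (k1 b hb).1 _ (k1 a ha).2.1 (k3 b hb a ha)) h
          (k1 a ha).2.2.2.1)
      (fun a ha b hb h => by
        by_contra hab
        refine Set.disjoint_left.mp
          (hF.2 _ (k1 a ha).2.1 _ (k1 b hb).2.1 (k2 a ha b hb hab).2) (k1 a ha).2.2.2.1 ?_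
        rw [h]
        exact (k1 b hb).2.2.2.1)
    exact (k1 a ha).2.2.2.2 hadj
  obtain ⟨r, hrN, ⟨A, A', x, x', k1, k2, k3⟩, hr⟩ := pr_max G F N hnot
  set S : Finset (Set V) := (Finset.range r).image A ∪ (Finset.range r).image A' with hS
  refine ⟨F \ S, Set.diff_subset, ?_, ?_⟩
  · have h2 : F \ (F \ (S : Set (Set V))) ⊆ (S : Set (Set V)) := by
      rintro M ⟨hM, hM'⟩
      by_contra h
      exact hM' ⟨hM, h⟩
    refine (Set.ncard_le_ncard h2 (Finset.finite_toSet S)).trans ?_
    rw [Set.ncard_coe_finset]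
    refine (Finset.card_union_le _ _).trans ?_
    have h3 := Finset.card_image_le (s := Finset.range r) (f := A)
    have h4 := Finset.card_image_le (s := Finset.range r) (f := A')
    rw [Finset.card_range] at h3 h4
    omega
  · intro M hM M' hM' hne y hy y' hy'
    by_contra hyy
    have hout : ∀ M, M ∉ (S : Set (Set V)) → ∀ a < r, M ≠ A a ∧ M ≠ A' a := by
      intro M hM a ha
      constructor
      · rintro rfl
        apply hM
        rw [hS]
        exact Finset.mem_coe.mpr (Finset.mem_union_left _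
          (Finset.mem_image_of_mem _ (Finset.mem_range.mpr ha)))
      · rintro rfl
        apply hM
        rw [hS]
        exact Finset.mem_coe.mpr (Finset.mem_union_right _
          (Finset.mem_image_of_mem _ (Finset.mem_range.mpr ha)))
    exact hr (pr_succ G F r A A' x x' k1 k2 k3 hM.1 hM'.1 hne hy hy' hyy (hout M hM.2)
      (hout M' hM'.2))

end Pool.Agent.MPd439b2.CR
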