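import Pool.Agent.Lib.MP_d439b2_co.CR.SpecB

/-!
# MP_d439b2_co, CR: good subfamilies (helper9)
-/

set_option autoImplicit false

namespace Pool.Agent.MPd439b2.CR

open Pool.Agent.MPd439b2 Pool.Agent.MPd439b2.A0 Pool.Agent.MPd439b2.Rep

namespace FamAux

variable {V : Type}

theorem rk_empty [Finite V] (G : SimpleGraph V) {A B : Set V} (hA : ∀ v, v ∉ A) (n : ℕ) :
    LK.rk G A B ≤ n := by
  refine rk_tr G ?_
  have : Tr G A B = ∅ := by
    ext T
    constructor
    · rintro ⟨a, ha, _⟩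
      exact absurd ha (hA a)
    · intro h
      exact absurd h (Set.notMem_empty _)
  rw [this]
  simp

theorem DF.mono' {G : SimpleGraph V} {P : Set V} {F F' : Set (Set V)} (h : DF G P F)
    (hF : F' ⊆ F) : DF G P F' :=
  ⟨fun M hM => h.1 M (hF hM), fun M hM M' hM' => h.2 M (hF hM) M' (hF hM')⟩

/-- at most one member is bad -/
theorem bad1 [Finite V] (h2 : S_Bd) {G : SimpleGraph V} {P : Set V} (hZ : ZZ G P)
    {F : Set (Set V)} (hF : DF G P F) (h4 : 4 ≤ F.ncard) {A B : Set V} (hA : A ∈ F) (hB : B ∈ F)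
    (hAB : A ≠ B) (bA : Bad G P A) : ¬ Bad G P B := by
  have c1 : ({A, B} : Set (Set V)).ncard ≤ 2 := by
    have := Set.ncard_insert_le A {B}
    rw [Set.ncard_singleton] at this
    exact this
  obtain ⟨C, hC, hCn⟩ := Set.exists_mem_notMem_of_ncard_lt_ncard
    (show ({A, B} : Set (Set V)).ncard < F.ncard by omega) (Set.toFinite _)
  have c2 : ({C, A, B} : Set (Set V)).ncard ≤ 3 := by
    have := Set.ncard_insert_le C {A, B}
    omega
  obtain ⟨D, hD, hDn⟩ := Set.exists_mem_notMem_of_ncard_lt_ncard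
    (show ({C, A, B} : Set (Set V)).ncard < F.ncard by omega) (Set.toFinite _)
  simp only [Set.mem_insert_iff, Set.mem_singleton_iff, not_or] at hCn hDn
  have dis := hF.2
  have dAB := dis A hA B hB hAB
  have dAC := dis A hA C hC (Ne.symm hCn.1)
  have dAD := dis A hA D hD (Ne.symm hDn.2.1)
  have dBC := dis B hB C hC (Ne.symm hCn.2)
  have dBD := dis B hB D hD (Ne.symm hDn.2.2)
  have dCD := dis C hC D hD (Ne.symm hDn.1)
  refine h2 V G P hZ ![A, B, C, D] ?_ ?_ bA
  · intro i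
    fin_cases i
    · exact hF.1 A hA
    · exact hF.1 B hB
    · exact hF.1 C hC
    · exact hF.1 D hD
  · intro i j hij
    fin_cases i <;> fin_cases j <;> first
      | exact absurd rfl hij
      | exact dAB
      | exact dAB.symm
      | exact dAC
      | exact dAC.symm
      | exact dAD
      | exact dAD.symm
      | exact dBC
      | exact dBC.symm
      | exact dBD
      | exact dBD.symm
      | exact dCD
      | exact dCD.symm

end FamAux

open FamAux in
/-- **Fam.** -/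
theorem fam (h1 : S_Tv) (h2 : S_Bd) (h3 : S_Edg) (h4 : S_RwF) (h5 : S_Phi) : S_Fam := by
  intro t
  obtain ⟨ρ, hρ⟩ := h1 t
  obtain ⟨f₁, hf₁⟩ := h3 t
  obtain ⟨f₂, hf₂⟩ := h4 ρ
  obtain ⟨c₁, hc₁⟩ := h5 t
  refine ⟨f₁ + f₂ + 4, max ρ c₁, ?_⟩
  intro V _ G P hZ hJ F hF
  by_cases hsmall : F.ncard ≤ 3
  · refine ⟨∅, Set.empty_subset _, ?_, ⟨⟨?_, ?_⟩, ?_, ?_, ?_, ?_⟩⟩
    · rw [Set.sdiff_empty]
      omega
    · exact fun M hM => absurd hM (Set.notMem_empty _)
    · exact fun M hM => absurd hM (Set.notMem_empty _)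
    · exact fun M hM => absurd hM (Set.notMem_empty _)
    · exact fun M hM => absurd hM (Set.notMem_empty _)
    · refine rk_empty G ?_ _
      rintro v ⟨M, hM, _⟩
      exact Set.notMem_empty _ hM
    · intro I hI I' hI' _
      refine rk_empty G ?_ _
      rintro v ⟨M, hM, _⟩
      exact Set.notMem_empty _ (hI hM)
  · let F1 : Set (Set V) := {M | M ∈ F ∧ ¬ Bad G P M}
    have hF1 : F1 ⊆ F := fun M hM => hM.1
    have hn1 : (F \ F1).ncard ≤ 1 := by
      rw [Set.ncard_le_one_iff (Set.toFinite _)]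
      rintro A B ⟨hA, hA'⟩ ⟨hB, hB'⟩
      by_contra hAB
      have bA : Bad G P A := by
        by_contra h
        exact hA' ⟨hA, h⟩
      have bB : Bad G P B := by
        by_contra h
        exact hB' ⟨hB, h⟩
      exact bad1 h2 hZ hF (by omega) hA hB hAB bA bB
    obtain ⟨F2, hF2, hn2, hcom⟩ := hf₁ V G P hJ F1 (DF.mono' hF hF1)
    have hD2 : DF G P F2 := DF.mono' hF (hF2.trans hF1)
    obtain ⟨F', hF', hn3, hTr⟩ := hf₂ V G P F2 (cel G P) hD2.2 (fun M x hM hne hx =>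
      hρ V G P hZ hJ M x (fun a ha => hD2.1 _ (hM a ha))
        (fun a ha b hb hab => hD2.2 _ (hM a ha) _ (hM b hb) (hne a ha b hb hab)) hx)
    have hD' : DF G P F' := DF.mono' hD2 hF'
    have hcom' : ∀ M ∈ F', ∀ M' ∈ F', M ≠ M' → ∀ x ∈ M, ∀ x' ∈ M', G.Adj x x' :=
      fun M hM M' hM' => hcom M (hF' hM) M' (hF' hM')
    have hcon' : ∀ M ∈ F', ¬ Bad G P M := fun M hM => (hF2 (hF' hM)).2
    refine ⟨F', hF'.trans (hF2.trans hF1), ?_, ⟨hD', hcom', hcon', ?_, ?_⟩⟩
    · have hsub : F \ F' ⊆ ((F \ F1) ∪ (F1 \ F2)) ∪ (F2 \ F') := by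
        rintro M ⟨hM, hM'⟩
        by_cases m1 : M ∈ F1
        · by_cases m2 : M ∈ F2
          · exact Or.inr ⟨m2, hM'⟩
          · exact Or.inl (Or.inr ⟨m1, m2⟩)
        · exact Or.inl (Or.inl ⟨hM, m1⟩)
      have u1 := Set.ncard_le_ncard hsub (Set.toFinite _)
      have u2 := Set.ncard_union_le ((F \ F1) ∪ (F1 \ F2)) (F2 \ F')
      have u3 := Set.ncard_union_le (F \ F1) (F1 \ F2)
      omega
    · exact le_trans (rk_tr G hTr) (le_max_left _ _)
    · intro I hI I' hI' hd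
      exact le_trans (hc₁ V G P hZ hJ F' hD' hcom' hcon' I hI I' hI' hd) (le_max_right _ _)

end Pool.Agent.MPd439b2.CR
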