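import Pool.Agent.Lib.MP_d439b2_co.CR.SpecA

/-!
# MP_d439b2_co, CR/Hp: helper vertices for a clean spider (helper37)
-/

set_option autoImplicit false

namespace Pool.Agent.MPd439b2.CR

open Pool.Agent.MPd439b2 Pool.Agent.MPd439b2.A0

theorem hp : S_Hp := by
  classical
  intro V G n k s hn hcl F hF hF4 Y hY hYP
  have hinj : ∀ i < n, ∀ j < n, s i = s j → i = j := by
    intro i hi j hj hij
    by_contra hne
    have h1 := (hcl.sp.ks i hi j hj).2 hne
    rw [← hij] at h1
    exact (hcl.sp.ks i hi i hi).1 h1 rfl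
  have hsP : ∀ i < n, s i ∉ PP G n s := by
    rintro i hi ⟨j, hj, h⟩
    exact hcl.sp.ss i hi j hj h
  have hsY : ∀ i < n, ∀ y, y ∉ PP G n s → ¬ G.Adj (s i) y :=
    fun i hi y hy h => hy ⟨i, hi, h.symm⟩
  -- the bad indices
  let B₁ : Finset ℕ := F.biUnion fun v => (Finset.range n).filter fun i => ¬ G.Adj v (s i)
  let B₂ : Finset ℕ := (Finset.univ : Finset (Fin 3)).biUnion fun j =>
    (Finset.range n).filter fun i => s i ∈ Y j
  have hB₁ : B₁.card ≤ 4 := by
    refine (Finset.card_biUnion_le_card_mul _ _ 1 ?_).trans (by omega)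
    intro v hv
    obtain ⟨i₀, hi₀, ha⟩ := hF hv
    rw [Finset.card_le_one]
    intro i hi j hj
    rw [Finset.mem_filter, Finset.mem_range] at hi hj
    by_contra hne
    rcases hcl.one v i₀ hi₀ ha i hi.1 j hj.1 hne with h | h
    · exact hi.2 h
    · exact hj.2 h
  have hB₂ : B₂.card ≤ 3 := by
    refine (Finset.card_biUnion_le_card_mul _ _ 1 ?_).trans (by simp)
    intro j _
    rw [Finset.card_le_one]
    intro i hi i' hi'
    rw [Finset.mem_filter, Finset.mem_range] at hi hi'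
    have hsing : ({s i} : Set V) = Y j := by
      by_contra hne
      obtain ⟨b, hb, a, ha, hab⟩ := (hY j).2 {s i} (Set.singleton_subset_iff.2 hi.2)
        (Set.singleton_nonempty _) hne
      rw [Set.mem_singleton_iff.1 hb] at hab
      exact hsY i hi.1 a (hYP j ha.1) hab
    have h2 := hi'.2
    rw [← hsing, Set.mem_singleton_iff] at h2
    exact (hinj i' hi'.1 i hi.1 h2).symm
  have hcard : 3 ≤ (Finset.range n \ (B₁ ∪ B₂)).card := by
    have h1 := Finset.le_card_sdiff (B₁ ∪ B₂) (Finset.range n)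
    have h2 := Finset.card_union_le B₁ B₂
    rw [Finset.card_range] at h1
    omega
  obtain ⟨T, hT, hT3⟩ := Finset.exists_subset_card_eq hcard
  have hTm : ∀ i : Fin 3, T.orderEmbOfFin hT3 i < n ∧ T.orderEmbOfFin hT3 i ∉ B₁ ∧
      T.orderEmbOfFin hT3 i ∉ B₂ := by
    intro i
    have h := hT (T.orderEmbOfFin_mem hT3 i)
    rw [Finset.mem_sdiff, Finset.mem_range, Finset.mem_union, not_or] at h
    exact h
  refine ⟨fun i => s (T.orderEmbOfFin hT3 i), ?_, ?_, ?_, ?_, ?_⟩
  · intro i j hij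
    exact (T.orderEmbOfFin hT3).injective (hinj _ (hTm i).1 _ (hTm j).1 hij)
  · exact fun i => hsP _ (hTm i).1
  · exact fun i y hy => hsY _ (hTm i).1 y hy
  · intro i j hij
    exact (hTm i).2.2 (Finset.mem_biUnion.2 ⟨j, Finset.mem_univ j,
      Finset.mem_filter.2 ⟨Finset.mem_range.2 (hTm i).1, hij⟩⟩)
  · intro i v hv
    by_contra hna
    exact (hTm i).2.1 (Finset.mem_biUnion.2 ⟨v, hv,
      Finset.mem_filter.2 ⟨Finset.mem_range.2 (hTm i).1, fun h => hna h.symm⟩⟩)

end Pool.Agent.MPd439b2.CR
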