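import Pool.Agent.Lib.MP_d439b2_co.CR.SpecB

/-!
# MP_d439b2_co, CR, Ind: the rank in an induced subgraph
-/

set_option autoImplicit false

namespace Pool.Agent.MPd439b2.CR

open Pool.Agent.MPd439b2 Pool.Agent.MPd439b2.A0

theorem ind : S_Ind := by
  classical
  intro V W _ _ G f hf X Y
  unfold LK.rk
  have hinj : Function.Injective (Function.ExtendByZero.linearMap (ZMod 2) f) := by
    intro a b hab
    exact Function.extend_injective hf 0 hab
  have h1 : Submodule.map (Function.ExtendByZero.linearMap (ZMod 2) f)
      (Submodule.span (ZMod 2) (LK.row (G.comap f) Y '' X)) =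
      Submodule.span (ZMod 2) (LK.row G (f '' Y) '' (f '' X)) := by
    rw [Submodule.map_span, Set.image_image, Set.image_image]
    have h2 : ∀ x, Function.ExtendByZero.linearMap (ZMod 2) f (LK.row (G.comap f) Y x) =
        LK.row G (f '' Y) (f x) := by
      intro x
      funext v
      show Function.extend f (LK.row (G.comap f) Y x) 0 v = _
      by_cases hv : ∃ w, f w = v
      · obtain ⟨w, rfl⟩ := hv
        rw [hf.extend_apply]
        unfold LK.row
        refine if_congr ?_ rfl rfl
        rw [hf.mem_set_image, SimpleGraph.comap_adj]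
      · rw [Function.extend_apply' _ _ _ hv]
        unfold LK.row
        rw [if_neg]
        · rfl
        · rintro ⟨⟨w, -, hw⟩, -⟩
          exact hv ⟨w, hw⟩
    simp only [h2]
  rw [← h1]
  exact (Submodule.equivMapOfInjective _ hinj _).finrank_eq

end Pool.Agent.MPd439b2.CR
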