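import Pool.Agent.Lib.MP_d439b2_co.CR.SpecA

/-!
# MP_d439b2_co, CR/JL: a crown with a clique and private non-neighbours contains `J_t`
-/

set_option autoImplicit false

namespace Pool.Agent.MPd439b2.CR

open Pool.Agent.MPd439b2 Pool.Agent.MPd439b2.A0

namespace JLX

/-- the index of the vertex `x` of the set `i`, `i` odd -/
def xi (i : ℕ) : ℕ := if i = 1 then 0 else (i + 1) / 2

theorem xi_lt {t i : ℕ} (h : i < 2 * t + 3) (h1 : i % 2 = 1) : xi i < t + 2 := by
  unfold xi
  split_ifs <;> omega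

theorem xi_inj {i j : ℕ} (h1 : i % 2 = 1) (h2 : j % 2 = 1) (h : xi i = xi j) : i = j := by
  unfold xi at h
  split_ifs at h <;> omega

theorem xi_half {i j : ℕ} (h1 : i % 2 = 1) (h2 : j % 2 = 0) :
    xi i = j / 2 ↔ ((j = 0 ∧ i = 1) ∨ (3 ≤ i ∧ j = i + 1)) := by
  unfold xi
  split_ifs <;> omega

variable {V : Type} {G : SimpleGraph V}

/-- the branch sets -/
def Br (x u : ℕ → V) (C : ℕ → Set V) (i : ℕ) : Set V :=
  {v | (i % 2 = 1 ∧ v = x (xi i)) ∨ (i % 2 = 0 ∧ v ∈ C (i / 2)) ∨
    (i % 2 = 0 ∧ 4 ≤ i ∧ v = u (i / 2))}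

theorem mem_odd {x u : ℕ → V} {C : ℕ → Set V} {i : ℕ} (h : i % 2 = 1) {v : V} :
    v ∈ Br x u C i ↔ v = x (xi i) := by
  constructor
  · rintro (h1 | h1 | h1)
    · exact h1.2
    · omega
    · omega
  · intro h1
    exact Or.inl ⟨h, h1⟩

theorem mem_ev {x u : ℕ → V} {C : ℕ → Set V} {i : ℕ} (h : i % 2 = 0) {v : V} :
    v ∈ Br x u C i ↔ v ∈ C (i / 2) ∨ (4 ≤ i ∧ v = u (i / 2)) := by
  constructor
  · rintro (h1 | h1 | h1)
    · omega
    · exact Or.inl h1.2
    · exact Or.inr h1.2
  · rintro (h1 | h1)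
    · exact Or.inr (Or.inl ⟨h, h1⟩)
    · exact Or.inr (Or.inr ⟨h, h1⟩)

end JLX

open JLX in
theorem jL (hMJ : S_MJ) : S_JL := by
  intro t V G x u C hC hsp hxC hxx hxy huC hxu huu
  have hne : ∀ a < t + 2, ∀ b < t + 2, x a = x b → a = b := by
    intro a ha b hb h
    by_contra hab
    have h1 := hxx a ha b hb hab
    rw [h] at h1
    exact G.loopless.irrefl _ h1
  have hux : ∀ a < t + 2, ∀ b < t + 2, u a ≠ x b := by
    intro a ha b hb h
    have h1 := huC a ha b hb
    rw [h] at h1
    exact (hxy b hb b hb).1 h1 rfl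
  have hCC : ∀ i j, i < 2 * t + 3 → j < 2 * t + 3 → i % 2 = 0 → j % 2 = 0 → i ≠ j →
      Sp G (C (i / 2)) (C (j / 2)) := by
    intro i j hi hj h1 h2 h3
    exact hsp _ (by omega) _ (by omega) (by omega)
  -- a vertex `x` and an even set
  have k1 : ∀ i j, i < 2 * t + 3 → j < 2 * t + 3 → i % 2 = 1 → j % 2 = 0 →
      x (xi i) ∉ Br x u C j := by
    intro i j hi hj h1 h2 h3
    rw [mem_ev h2] at h3
    rcases h3 with h3 | ⟨-, h3⟩
    · exact (hxC _ (xi_lt hi h1) _ (by omega)).1 h3
    · exact hux _ (by omega) _ (xi_lt hi h1) h3.symm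
  have k2 : ∀ i j, i < 2 * t + 3 → j < 2 * t + 3 → i % 2 = 1 → j % 2 = 0 →
      ((∃ v ∈ Br x u C j, G.Adj (x (xi i)) v) ↔ ¬ ((j = 0 ∧ i = 1) ∨ (3 ≤ i ∧ j = i + 1))) := by
    intro i j hi hj h1 h2
    rw [← xi_half h1 h2]
    constructor
    · rintro ⟨v, hv, hxv⟩ he
      rw [mem_ev h2] at hv
      rcases hv with hv | ⟨-, hv⟩
      · exact (hxy _ (xi_lt hi h1) _ (by omega)).1 ⟨v, hv, hxv⟩ he
      · rw [hv, ← he] at hxv
        exact hxu _ (xi_lt hi h1) hxv
    · intro he
      obtain ⟨v, hv, hv'⟩ := (hxy _ (xi_lt hi h1) (j / 2) (by omega)).2 he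
      exact ⟨v, (mem_ev h2).2 (Or.inl hv), hv'⟩
  refine hMJ t V G (Br x u C) ?_ ?_
  · intro i hi
    rcases Nat.mod_two_eq_zero_or_one i with h | h
    · by_cases h4 : 4 ≤ i
      · have h5 : Br x u C i = insert (u (i / 2)) (C (i / 2)) := by
          ext v
          rw [mem_ev h, Set.mem_insert_iff, or_comm, and_iff_right h4]
        rw [h5]
        refine (hC _ (by omega)).insert ?_
        obtain ⟨y, hy, hy'⟩ := huC (i / 2) (by omega) (i / 2) (by omega)
        exact ⟨y, hy, hy'.symm⟩
      · have h5 : Br x u C i = C (i / 2) := by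
          ext v
          rw [mem_ev h]
          exact or_iff_left (fun h6 => h4 h6.1)
        rw [h5]
        exact hC _ (by omega)
    · have h5 : Br x u C i = {x (xi i)} := by
        ext v
        rw [mem_odd h]
        rfl
      rw [h5]
      exact Conn.singleton G _
  · intro i j hij hj
    have hi : i < 2 * t + 3 := lt_trans hij hj
    rcases Nat.mod_two_eq_zero_or_one i with h1 | h1 <;>
      rcases Nat.mod_two_eq_zero_or_one j with h2 | h2
    · -- even, even
      refine ⟨?_, ?_⟩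
      · rw [Set.disjoint_left]
        intro v h3 h4
        rw [mem_ev h1] at h3
        rw [mem_ev h2] at h4
        rcases h3 with h3 | ⟨-, h3⟩ <;> rcases h4 with h4 | ⟨-, h4⟩
        · exact Set.disjoint_left.1 (hCC i j hi hj h1 h2 (by omega)).1 h3 h4
        · rw [h4] at h3
          exact (hxC (j / 2) (by omega) _ (by omega)).2 h3
        · rw [h3] at h4
          exact (hxC (i / 2) (by omega) _ (by omega)).2 h4
        · have h5 := huu _ (by omega) _ (by omega) (h3.symm.trans h4)
          omega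
      · constructor
        · rintro ⟨v, hv, w, hw, hvw⟩ hb
          have hi0 : i = 0 := by omega
          have hj2 : j = 2 := by omega
          subst hi0
          subst hj2
          rw [mem_ev h1] at hv
          rw [mem_ev h2] at hw
          rcases hv with hv | ⟨h3, -⟩
          · rcases hw with hw | ⟨h3, -⟩
            · exact (hCC 0 2 hi hj h1 h2 (by omega)).not_adj hv hw hvw
            · omega
          · omega
        · intro hb
          have h4 : 4 ≤ j := by omega
          obtain ⟨y, hy, hy'⟩ := huC (j / 2) (by omega) (i / 2) (by omega)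
          exact ⟨y, (mem_ev h1).2 (Or.inl hy), u (j / 2), (mem_ev h2).2 (Or.inr ⟨h4, rfl⟩), hy'.symm⟩
    · -- even, odd
      refine ⟨?_, ?_⟩
      · rw [Set.disjoint_left]
        intro v h3 h4
        rw [mem_odd h2] at h4
        rw [h4] at h3
        exact k1 j i hj hi h2 h1 h3
      · have h3 := k2 j i hj hi h2 h1
        have h4 : Tch G (Br x u C i) (Br x u C j) ↔ ∃ v ∈ Br x u C i, G.Adj (x (xi j)) v := by
          constructor
          · rintro ⟨v, hv, w, hw, hvw⟩
            rw [mem_odd h2] at hw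
            rw [hw] at hvw
            exact ⟨v, hv, hvw.symm⟩
          · rintro ⟨v, hv, hvw⟩
            exact ⟨v, hv, x (xi j), (mem_odd h2).2 rfl, hvw.symm⟩
        rw [h4, h3]
        omega
    · -- odd, even
      refine ⟨?_, ?_⟩
      · rw [Set.disjoint_left]
        intro v h3 h4
        rw [mem_odd h1] at h3
        rw [h3] at h4
        exact k1 i j hi hj h1 h2 h4
      · have h3 := k2 i j hi hj h1 h2
        have h4 : Tch G (Br x u C i) (Br x u C j) ↔ ∃ v ∈ Br x u C j, G.Adj (x (xi i)) v := by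
          constructor
          · rintro ⟨v, hv, w, hw, hvw⟩
            rw [mem_odd h1] at hv
            rw [hv] at hvw
            exact ⟨w, hw, hvw⟩
          · rintro ⟨v, hv, hvw⟩
            exact ⟨x (xi i), (mem_odd h1).2 rfl, v, hv, hvw⟩
        rw [h4, h3]
        omega
    · -- odd, odd
      have hne' : xi i ≠ xi j := fun h => by
        have := xi_inj h1 h2 h
        omega
      refine ⟨?_, ?_⟩
      · rw [Set.disjoint_left]
        intro v h3 h4
        rw [mem_odd h1] at h3
        rw [mem_odd h2] at h4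
        exact hne' (hne _ (xi_lt hi h1) _ (xi_lt hj h2) (h3.symm.trans h4))
      · refine iff_of_true ?_ (by omega)
        exact ⟨x (xi i), (mem_odd h1).2 rfl, x (xi j), (mem_odd h2).2 rfl,
          hxx _ (xi_lt hi h1) _ (xi_lt hj h2) hne'⟩

end Pool.Agent.MPd439b2.CR
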