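import Pool.Agent.Lib.MP_d439b2_co.CR.SpecA

/-!
# MP_d439b2_co, CR/JX: crowns with private non-neighbours
-/

set_option autoImplicit false

namespace Pool.Agent.MPd439b2.CR

open Pool.Agent.MPd439b2 Pool.Agent.MPd439b2.A0

theorem jX (hR : W.S_RamC) (hCr : S_Cr) (hJL : S_JL) : S_JX := by
  classical
  intro t
  obtain ⟨N, hN⟩ := hR Prop (2 * t + 3)
  refine ⟨N, fun V G x u C hC hsp hxC hxy huC hxu huu => ?_⟩
  obtain ⟨s, c, hs, hsN, hsc⟩ := hN (fun a b => G.Adj (x a) (x b))
  have hinj : ∀ a < 2 * t + 3, ∀ b < 2 * t + 3, s a = s b → a = b := by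
    intro a ha b hb h
    by_contra hab
    rcases lt_or_gt_of_ne hab with h1 | h1
    · exact absurd h (hs a b h1 hb).ne
    · exact absurd h.symm (hs b a h1 ha).ne
  have hne : ∀ a < 2 * t + 3, ∀ b < 2 * t + 3, a ≠ b → s a ≠ s b :=
    fun a ha b hb h h1 => h (hinj a ha b hb h1)
  have hxy' : ∀ a < 2 * t + 3, ∀ b < 2 * t + 3, ((∃ y ∈ C (s b), G.Adj (x (s a)) y) ↔ a ≠ b) := by
    intro a ha b hb
    rw [hxy _ (hsN a ha) _ (hsN b hb)]
    exact ⟨fun h h1 => h (h1 ▸ rfl), fun h => hne a ha b hb h⟩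
  by_cases hc : c
  · -- a clique
    refine hJL t V G (fun a => x (s a)) (fun a => u (s a)) (fun a => C (s a)) ?_ ?_ ?_ ?_ ?_ ?_ ?_ ?_
    · exact fun a ha => hC _ (hsN a (by omega))
    · exact fun a ha b hb h => hsp _ (hsN a (by omega)) _ (hsN b (by omega))
        (hne a (by omega) b (by omega) h)
    · exact fun a ha b hb => hxC _ (hsN a (by omega)) _ (hsN b (by omega))
    · intro a ha b hb h
      rcases lt_or_gt_of_ne h with h1 | h1
      · have h2 := hsc a b h1 (by omega)
        exact h2 ▸ hc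
      · have h2 := hsc b a h1 (by omega)
        exact G.symm.symm _ _ (h2 ▸ hc)
    · exact fun a ha b hb => hxy' a (by omega) b (by omega)
    · exact fun a ha b hb => huC _ (hsN a (by omega)) _ (hsN b (by omega))
    · exact fun a ha => hxu _ (hsN a (by omega))
    · exact fun a ha b hb h => hinj a (by omega) b (by omega)
        (huu _ (hsN a (by omega)) _ (hsN b (by omega)) h)
  · -- a stable set
    refine hCr t V G (fun a => x (s a)) (fun a => C (s a)) ?_ ?_ ?_ ?_ ?_
    · exact fun a ha => hC _ (hsN a ha)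
    · exact fun a ha b hb h => hsp _ (hsN a ha) _ (hsN b hb) (hne a ha b hb h)
    · exact fun a ha b hb => (hxC _ (hsN a ha) _ (hsN b hb)).1
    · intro a ha b hb h
      by_cases hab : a = b
      · subst hab
        exact G.loopless.irrefl _ h
      rcases lt_or_gt_of_ne hab with h1 | h1
      · have h2 := hsc a b h1 hb
        exact hc (h2 ▸ h)
      · have h2 := hsc b a h1 ha
        exact hc (h2 ▸ G.symm.symm _ _ h)
    · exact hxy'

end Pool.Agent.MPd439b2.CR
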