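import Pool.Agent.Lib.MP_d439b2_co.CR.SpecA

/-!
# MP_d439b2_co, CR/KK: a matching of two cliques contains `J_t`
-/

set_option autoImplicit false

namespace Pool.Agent.MPd439b2.CR

open Pool.Agent.MPd439b2 Pool.Agent.MPd439b2.A0

namespace KKX

/-- the sets of vertices `x` -/
def isX (i : ℕ) : Prop := i % 2 = 1 ∨ i = 2

/-- the row of the set `i` -/
def ci (i : ℕ) : ℕ := if i = 1 then 0 else if i = 2 then 1 else (i + 1) / 2

/-- the columns of `Z c` -/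
def PX (c d : ℕ) : Prop := (2 ≤ d ∧ d ≠ c) ∨ (2 ≤ c ∧ d = 0)

/-- the rows of `W' d` -/
def PY (d c : ℕ) : Prop := (2 ≤ c ∧ c ≠ d) ∨ (2 ≤ d ∧ c ≤ 1)

theorem ci_lt {t i : ℕ} (h : i < 2 * t + 3) (h1 : isX i) : ci i < t + 3 := by
  unfold ci
  unfold isX at h1
  split_ifs <;> omega

theorem ci_inj {i j : ℕ} (h1 : isX i) (h2 : isX j) (h : ci i = ci j) : i = j := by
  unfold ci at h
  unfold isX at h1 h2
  split_ifs at h <;> omega

theorem common {i j : ℕ} (h1 : isX i) (h2 : ¬ isX j) :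
    (PX (ci i) (j / 2) ∧ PY (j / 2) (ci i)) ↔ ¬ ((j = 0 ∧ i ≤ 2) ∨ (3 ≤ i ∧ i % 2 = 1 ∧ j = i + 1)) := by
  unfold PX PY ci
  unfold isX at h1 h2
  split_ifs <;> omega

theorem idx_lt {t c d : ℕ} (hc : c < t + 3) (hd : d < t + 3) : c * (t + 3) + d < (t + 3) ^ 2 := by
  have h1 : c * (t + 3) + d < (c + 1) * (t + 3) := by
    rw [Nat.add_mul, Nat.one_mul]
    omega
  refine lt_of_lt_of_le h1 ?_
  rw [pow_two]
  exact Nat.mul_le_mul_right _ hc

theorem idx_inj {t c d c' d' : ℕ} (hd : d < t + 3) (hd' : d' < t + 3)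
    (h : c * (t + 3) + d = c' * (t + 3) + d') : c = c' ∧ d = d' := by
  have h1 : (c * (t + 3) + d) / (t + 3) = c := by
    rw [Nat.add_comm, Nat.add_mul_div_right _ _ (by omega), Nat.div_eq_of_lt hd, Nat.zero_add]
  have h2 : (c' * (t + 3) + d') / (t + 3) = c' := by
    rw [Nat.add_comm, Nat.add_mul_div_right _ _ (by omega), Nat.div_eq_of_lt hd', Nat.zero_add]
  have h3 : c = c' := by rw [← h1, ← h2, h]
  subst h3
  exact ⟨rfl, Nat.add_left_cancel h⟩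

variable {V : Type} {G : SimpleGraph V}

/-- the branch sets -/
def Br (t : ℕ) (x y : ℕ → V) (i : ℕ) : Set V :=
  {v | (isX i ∧ ∃ d < t + 3, PX (ci i) d ∧ v = x (ci i * (t + 3) + d)) ∨
    (¬ isX i ∧ ∃ c < t + 3, PY (i / 2) c ∧ v = y (c * (t + 3) + i / 2))}

theorem mem_x {t : ℕ} {x y : ℕ → V} {i : ℕ} (h : isX i) {v : V} :
    v ∈ Br t x y i ↔ ∃ d < t + 3, PX (ci i) d ∧ v = x (ci i * (t + 3) + d) := by
  constructor
  · rintro (h1 | h1)
    · exact h1.2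
    · exact absurd h h1.1
  · intro h1
    exact Or.inl ⟨h, h1⟩

theorem mem_y {t : ℕ} {x y : ℕ → V} {i : ℕ} (h : ¬ isX i) {v : V} :
    v ∈ Br t x y i ↔ ∃ c < t + 3, PY (i / 2) c ∧ v = y (c * (t + 3) + i / 2) := by
  constructor
  · rintro (h1 | h1)
    · exact absurd h1.1 h
    · exact h1.2
  · intro h1
    exact Or.inr ⟨h, h1⟩

theorem conn_clique {A : Set V} (hne : A.Nonempty) (h : ∀ a ∈ A, ∀ b ∈ A, a ≠ b → G.Adj a b) :
    Conn G A := by
  refine ⟨hne, fun B hB hBne hBA => ?_⟩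
  obtain ⟨b, hb⟩ := hBne
  obtain ⟨a, ha, haB⟩ : ∃ a ∈ A, a ∉ B := by
    by_contra h1
    push Not at h1
    exact hBA (Set.Subset.antisymm hB h1)
  exact ⟨b, hb, a, ⟨ha, haB⟩, h b (hB hb) a ha (fun h1 => haB (h1 ▸ hb))⟩

end KKX

open KKX in
theorem kK (hMJ : S_MJ) : S_KK := by
  intro t V G x y hxy hcl hm
  have hx : ∀ a < (t + 3) ^ 2, ∀ b < (t + 3) ^ 2, x a = x b → a = b := by
    intro a ha b hb h
    by_contra hab
    have h1 := (hcl a ha b hb hab).1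
    rw [h] at h1
    exact G.loopless.irrefl _ h1
  have hy : ∀ a < (t + 3) ^ 2, ∀ b < (t + 3) ^ 2, y a = y b → a = b := by
    intro a ha b hb h
    by_contra hab
    have h1 := (hcl a ha b hb hab).2
    rw [h] at h1
    exact G.loopless.irrefl _ h1
  -- two sets of the same type
  have sx : ∀ i j, i < 2 * t + 3 → j < 2 * t + 3 → isX i → isX j → ∀ v ∈ Br t x y i,
      ∀ w ∈ Br t x y j, (i = j ∧ v = w) ∨ G.Adj v w := by
    intro i j hi hj h1 h2 v hv w hw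
    obtain ⟨d, hd, -, rfl⟩ := (mem_x h1).1 hv
    obtain ⟨d', hd', -, rfl⟩ := (mem_x h2).1 hw
    by_cases h : ci i * (t + 3) + d = ci j * (t + 3) + d'
    · obtain ⟨h3, h4⟩ := idx_inj hd hd' h
      exact Or.inl ⟨ci_inj h1 h2 h3, by rw [h]⟩
    · exact Or.inr (hcl _ (idx_lt (ci_lt hi h1) hd) _ (idx_lt (ci_lt hj h2) hd') h).1
  have sy : ∀ i j, i < 2 * t + 3 → j < 2 * t + 3 → ¬ isX i → ¬ isX j → ∀ v ∈ Br t x y i,
      ∀ w ∈ Br t x y j, (i = j ∧ v = w) ∨ G.Adj v w := by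
    intro i j hi hj h1 h2 v hv w hw
    obtain ⟨d, hd, -, rfl⟩ := (mem_y h1).1 hv
    obtain ⟨d', hd', -, rfl⟩ := (mem_y h2).1 hw
    by_cases h : d * (t + 3) + i / 2 = d' * (t + 3) + j / 2
    · obtain ⟨h3, h4⟩ := idx_inj (by omega) (by omega) h
      refine Or.inl ⟨?_, by rw [h]⟩
      unfold isX at h1 h2
      omega
    · exact Or.inr (hcl _ (idx_lt hd (by omega)) _ (idx_lt hd' (by omega)) h).2
  -- all sets are not empty
  have ne : ∀ i, i < 2 * t + 3 → (Br t x y i).Nonempty := by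
    intro i hi
    by_cases h1 : isX i
    · by_cases h2 : 2 ≤ ci i
      · exact ⟨_, (mem_x h1).2 ⟨0, by omega, Or.inr ⟨h2, rfl⟩, rfl⟩⟩
      · exact ⟨_, (mem_x h1).2 ⟨2, by omega, Or.inl ⟨le_rfl, by omega⟩, rfl⟩⟩
    · by_cases h2 : 2 ≤ i / 2
      · exact ⟨_, (mem_y h1).2 ⟨0, by omega, Or.inr ⟨h2, by omega⟩, rfl⟩⟩
      · exact ⟨_, (mem_y h1).2 ⟨2, by omega, Or.inl ⟨le_rfl, by omega⟩, rfl⟩⟩
  -- an `x` set and a `y` set
  have dxy : ∀ i j, i < 2 * t + 3 → j < 2 * t + 3 → isX i → ¬ isX j →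
      Disjoint (Br t x y i) (Br t x y j) := by
    intro i j hi hj h1 h2
    rw [Set.disjoint_left]
    intro v hv hv'
    obtain ⟨d, hd, -, rfl⟩ := (mem_x h1).1 hv
    obtain ⟨d', hd', -, h3⟩ := (mem_y h2).1 hv'
    exact hxy _ (idx_lt (ci_lt hi h1) hd) _ (idx_lt hd' (by omega)) h3
  have txy : ∀ i j, i < 2 * t + 3 → j < 2 * t + 3 → isX i → ¬ isX j →
      (Tch G (Br t x y i) (Br t x y j) ↔
        ¬ ((j = 0 ∧ i ≤ 2) ∨ (3 ≤ i ∧ i % 2 = 1 ∧ j = i + 1))) := by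
    intro i j hi hj h1 h2
    rw [← common h1 h2]
    constructor
    · rintro ⟨v, hv, w, hw, hvw⟩
      obtain ⟨d, hd, h3, rfl⟩ := (mem_x h1).1 hv
      obtain ⟨c, hc, h4, rfl⟩ := (mem_y h2).1 hw
      have h5 := (hm _ (idx_lt (ci_lt hi h1) hd) _ (idx_lt hc (by omega))).1 hvw
      obtain ⟨h6, h7⟩ := idx_inj hd (by omega) h5
      rw [← h7, h6]
      rw [h6] at h3
      rw [← h7] at h4
      exact ⟨h3, h4⟩
    · rintro ⟨h3, h4⟩
      have h5 : j / 2 < t + 3 := by omega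
      exact ⟨_, (mem_x h1).2 ⟨j / 2, h5, h3, rfl⟩, _, (mem_y h2).2 ⟨ci i, ci_lt hi h1, h4, rfl⟩,
        (hm _ (idx_lt (ci_lt hi h1) h5) _ (idx_lt (ci_lt hi h1) h5)).2 rfl⟩
  refine hMJ t V G (Br t x y) ?_ ?_
  · intro i hi
    refine conn_clique (ne i hi) (fun a ha b hb hab => ?_)
    by_cases h1 : isX i
    · exact (sx i i hi hi h1 h1 a ha b hb).resolve_left (fun h => hab h.2)
    · exact (sy i i hi hi h1 h1 a ha b hb).resolve_left (fun h => hab h.2)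
  · intro i j hij hj
    have hi : i < 2 * t + 3 := lt_trans hij hj
    by_cases h1 : isX i <;> by_cases h2 : isX j
    · have h3 : ∀ v ∈ Br t x y i, ∀ w ∈ Br t x y j, G.Adj v w := fun v hv w hw =>
        (sx i j hi hj h1 h2 v hv w hw).resolve_left (fun h => hij.ne h.1)
      refine ⟨?_, ?_⟩
      · rw [Set.disjoint_left]
        intro v hv hv'
        exact G.loopless.irrefl _ (h3 v hv v hv')
      · obtain ⟨v, hv⟩ := ne i hi
        obtain ⟨w, hw⟩ := ne j hj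
        refine iff_of_true ⟨v, hv, w, hw, h3 v hv w hw⟩ ?_
        unfold isX at h1 h2
        omega
    · refine ⟨dxy i j hi hj h1 h2, ?_⟩
      rw [txy i j hi hj h1 h2]
      unfold isX at h1 h2
      omega
    · refine ⟨(dxy j i hj hi h2 h1).symm, ?_⟩
      rw [tch_comm, txy j i hj hi h2 h1]
      unfold isX at h1 h2
      omega
    · have h3 : ∀ v ∈ Br t x y i, ∀ w ∈ Br t x y j, G.Adj v w := fun v hv w hw =>
        (sy i j hi hj h1 h2 v hv w hw).resolve_left (fun h => hij.ne h.1)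
      refine ⟨?_, ?_⟩
      · rw [Set.disjoint_left]
        intro v hv hv'
        exact G.loopless.irrefl _ (h3 v hv v hv')
      · obtain ⟨v, hv⟩ := ne i hi
        obtain ⟨w, hw⟩ := ne j hj
        refine iff_of_true ⟨v, hv, w, hw, h3 v hv w hw⟩ ?_
        unfold isX at h1 h2
        omega

end Pool.Agent.MPd439b2.CR
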