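import Pool.Agent.Lib.MP_d439b2_co.CR.SpecA
import Pool.Agent.Lib.MP_d439b2_co.A0.PB

/-!
# MP_d439b2_co, CR/MJ: a builder for models of `J_t`
-/

set_option autoImplicit false

namespace Pool.Agent.MPd439b2.CR

open Pool.Agent.MPd439b2 Pool.Agent.MPd439b2.A0

namespace MJx

open Pool.Agent.MPd439b2.A0.aPBAux

/-- the index of a vertex of `J_t` -/
def ix {t : ℕ} : Option Lf ⊕ (Fin t × Bool) → ℕ
  | Sum.inl none => 0
  | Sum.inl (some y) => if y = l1 then 1 else 2
  | Sum.inr (q, false) => 2 * q.val + 3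
  | Sum.inr (q, true) => 2 * q.val + 4

theorem ix_n {t : ℕ} : ix (t := t) (Sum.inl none) = 0 := rfl

theorem ix_l1 {t : ℕ} : ix (t := t) (Sum.inl (some l1)) = 1 := by
  simp [ix]

theorem ix_l2 {t : ℕ} : ix (t := t) (Sum.inl (some l2)) = 2 := by
  simp [ix, Ne.symm l12]

theorem ix_f {t : ℕ} (q : Fin t) : ix (Sum.inr (q, false)) = 2 * q.val + 3 := rfl

theorem ix_t {t : ℕ} (q : Fin t) : ix (Sum.inr (q, true)) = 2 * q.val + 4 := rfl

theorem ix_lt {t : ℕ} : ∀ u : Option Lf ⊕ (Fin t × Bool), ix u < 2 * t + 3 := by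
  refine cas _ ?_ ?_ ?_ (fun q => ?_) (fun q => ?_)
  · rw [ix_n]; omega
  · rw [ix_l1]; omega
  · rw [ix_l2]; omega
  · rw [ix_f]; have := q.2; omega
  · rw [ix_t]; have := q.2; omega

theorem ix_inj {t : ℕ} : ∀ u u' : Option Lf ⊕ (Fin t × Bool), ix u = ix u' → u = u' := by
  refine cas _ (cas _ ?_ ?_ ?_ (fun q => ?_) fun q => ?_) (cas _ ?_ ?_ ?_ (fun q => ?_) fun q => ?_)
    (cas _ ?_ ?_ ?_ (fun q => ?_) fun q => ?_)
    (fun r => cas _ ?_ ?_ ?_ (fun q => ?_) fun q => ?_)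
    (fun r => cas _ ?_ ?_ ?_ (fun q => ?_) fun q => ?_) <;>
  simp only [ix_n, ix_l1, ix_l2, ix_f, ix_t] <;> intro h2 <;>
  first
  | rfl
  | omega
  | (have h3 : r = q := Fin.ext (by omega)
     rw [h3])

/-- the pairs of indices without an edge -/
def Bp (i j : ℕ) : Prop := (i = 0 ∧ j ≤ 2) ∨ (3 ≤ i ∧ i % 2 = 1 ∧ j = i + 1)

theorem adj {t : ℕ} : ∀ u u' : Option Lf ⊕ (Fin t × Bool), ix u < ix u' →
    ((JP t).Adj u u' ↔ ¬ Bp (ix u) (ix u')) := by
  have g01 : (ix (t := t) (Sum.inl none) < ix (t := t) (Sum.inl (some l1)) →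
      ((JP t).Adj (Sum.inl none) (Sum.inl (some l1)) ↔
        ¬ Bp (ix (t := t) (Sum.inl none)) (ix (t := t) (Sum.inl (some l1))))) := by
    intro _
    refine iff_of_false (fun h => h.2 spid01) ?_
    unfold Bp
    rw [ix_n, ix_l1]
    omega
  have g02 : (ix (t := t) (Sum.inl none) < ix (t := t) (Sum.inl (some l2)) →
      ((JP t).Adj (Sum.inl none) (Sum.inl (some l2)) ↔
        ¬ Bp (ix (t := t) (Sum.inl none)) (ix (t := t) (Sum.inl (some l2))))) := by
    intro _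
    refine iff_of_false (fun h => h.2 spid02) ?_
    unfold Bp
    rw [ix_n, ix_l2]
    omega
  have g12 : (ix (t := t) (Sum.inl (some l1)) < ix (t := t) (Sum.inl (some l2)) →
      ((JP t).Adj (Sum.inl (some l1)) (Sum.inl (some l2)) ↔
        ¬ Bp (ix (t := t) (Sum.inl (some l1))) (ix (t := t) (Sum.inl (some l2))))) := by
    intro _
    refine iff_of_true ⟨fun h => l12 (Option.some.inj h), spid12⟩ ?_
    unfold Bp
    rw [ix_l1, ix_l2]
    omega
  have hx : ∀ x : Option Lf, ix (t := t) (Sum.inl x) ≤ 2 := by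
    intro x
    rcases x with _ | y
    · rw [ix_n]
      omega
    · rcases lf y with h | h
      · rw [h, ix_l1]
        omega
      · rw [h, ix_l2]
  have hz : ∀ z : Fin t × Bool, 3 ≤ ix (t := t) (Sum.inr z) := by
    intro z
    obtain ⟨q, _ | _⟩ := z
    · rw [ix_f]
      omega
    · rw [ix_t]
      omega
  have gir : ∀ (x : Option Lf) (z : Fin t × Bool), (ix (t := t) (Sum.inl x) < ix (t := t) (Sum.inr z) →
      ((JP t).Adj (Sum.inl x) (Sum.inr z) ↔ ¬ Bp (ix (t := t) (Sum.inl x)) (ix (t := t) (Sum.inr z)))) := by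
    intro x z _
    refine iff_of_true trivial ?_
    have h1 := hx x
    have h2 := hz z
    unfold Bp
    omega
  have gri : ∀ (x : Option Lf) (z : Fin t × Bool), (ix (t := t) (Sum.inr z) < ix (t := t) (Sum.inl x) →
      ((JP t).Adj (Sum.inr z) (Sum.inl x) ↔ ¬ Bp (ix (t := t) (Sum.inr z)) (ix (t := t) (Sum.inl x)))) := by
    intro x z h
    have h1 := hx x
    have h2 := hz z
    omega
  have grr : ∀ (z z' : Fin t × Bool), (ix (t := t) (Sum.inr z) < ix (t := t) (Sum.inr z') →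
      ((JP t).Adj (Sum.inr z) (Sum.inr z') ↔
        ¬ Bp (ix (t := t) (Sum.inr z)) (ix (t := t) (Sum.inr z')))) := by
    intro z z' hlt
    have h0 : (JP t).Adj (Sum.inr z) (Sum.inr z') ↔ z.1 ≠ z'.1 := Iff.rfl
    rw [h0, Ne, Fin.ext_iff]
    unfold Bp
    obtain ⟨q, _ | _⟩ := z <;> obtain ⟨q', _ | _⟩ := z' <;>
    simp only [ix_f, ix_t] at hlt ⊢ <;> omega
  refine cas _ (cas _ ?_ g01 g02 (fun q => gir _ _) fun q => gir _ _)
    (cas _ ?_ ?_ g12 (fun q => gir _ _) fun q => gir _ _)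
    (cas _ ?_ ?_ ?_ (fun q => gir _ _) fun q => gir _ _)
    (fun r => cas _ (gri _ _) (gri _ _) (gri _ _) (fun q => grr _ _) fun q => grr _ _)
    (fun r => cas _ (gri _ _) (gri _ _) (gri _ _) (fun q => grr _ _) fun q => grr _ _) <;>
  intro h <;> exfalso <;> simp only [ix_n, ix_l1, ix_l2] at h <;> omega

end MJx

open MJx in
theorem mJ : S_MJ := by
  intro t V G X hc hX
  have key : ∀ u u' : Option A0.aPBAux.Lf ⊕ (Fin t × Bool), ix u < ix u' →
      Disjoint (X (ix u)) (X (ix u')) ∧ ((JP t).Adj u u' ↔ Tch G (X (ix u)) (X (ix u'))) := by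
    intro u u' h
    obtain ⟨h1, h2⟩ := hX (ix u) (ix u') h (ix_lt u')
    exact ⟨h1, (adj u u' h).trans h2.symm⟩
  have lt : ∀ u u' : Option A0.aPBAux.Lf ⊕ (Fin t × Bool), u ≠ u' → ix u < ix u' ∨ ix u' < ix u := by
    intro u u' h
    have h1 : ix u ≠ ix u' := fun h2 => h (ix_inj u u' h2)
    omega
  refine ⟨fun u => X (ix u), fun _ => Set.subset_univ _, fun u => hc _ (ix_lt u), ?_, ?_⟩
  · intro u u' hne
    rcases lt u u' hne with h | h
    · exact (key u u' h).1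
    · exact (key u' u h).1.symm
  · intro u u' hne
    rcases lt u u' hne with h | h
    · exact (key u u' h).2
    · rw [SimpleGraph.adj_comm, (key u' u h).2]
      exact ⟨fun h1 => h1.symm, fun h1 => h1.symm⟩

end Pool.Agent.MPd439b2.CR
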