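import Pool.Agent.Lib.MP_d439b2_co.CR.SpecB

/-!
# MP_d439b2_co, CR/New: the components of a new spider (note 2828 of helper53)
-/

set_option autoImplicit false

namespace Pool.Agent.MPd439b2.CR

open Pool.Agent.MPd439b2 Pool.Agent.MPd439b2.A0 Pool.Agent.MPd439b2.Rep

namespace newAux

variable {V : Type} {G : SimpleGraph V} {n : ℕ} {k s : ℕ → V}

theorem k_mem (hn : 12 ≤ n) (h : Cln G n k s) {l : ℕ} (hl : l < n) : k l ∈ PP G n s := by
  by_cases h1 : l = 0
  · exact ⟨1, by omega, (h.sp.ks l hl 1 (by omega)).mpr (by omega)⟩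
  · exact ⟨0, by omega, (h.sp.ks l hl 0 (by omega)).mpr h1⟩

theorem s_cmp (h : Cln G n k s) {l : ℕ} (hl : l < n) : Cmp G (PP G n s)ᶜ {s l} := by
  refine ⟨?_, Conn.singleton G _, ?_⟩
  · rintro v hv ⟨i, hi, h1⟩
    rw [Set.mem_singleton_iff] at hv
    subst hv
    exact h.sp.ss l hl i hi h1
  · rintro u hu ⟨-, a, ha, hau⟩
    rw [Set.mem_singleton_iff] at ha
    subst ha
    exact hu ⟨l, hl, hau.symm⟩

theorem k_mi (hn : 12 ≤ n) (h : Cln G n k s) {l : ℕ} (hl : l < n) : k l ∈ mi G (PP G n s) {s l} :=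
  mem_mi_singleton.mpr ⟨k_mem hn h hl, fun h1 => (h.sp.ks l hl l hl).mp h1 rfl⟩

theorem s_dis (h : Cln G n k s) {l l' : ℕ} (hl : l < n) (hl' : l' < n) (hne : l ≠ l') :
    Disjoint (mi G (PP G n s) {s l}) (mi G (PP G n s) {s l'}) := by
  rw [Set.disjoint_left]
  intro v h1 h2
  rw [mem_mi_singleton] at h1 h2
  obtain ⟨⟨i, hi, hv⟩, h3⟩ := h1
  rcases h.one v i hi hv l hl l' hl' hne with h4 | h4
  · exact h3 h4
  · exact h2.2 h4

/-- two vertices of one component do not both see `k r` and `k r'` -/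
theorem two (hn : 12 ≤ n) (h : Cln G n k s) (hZ : ZZ G (PP G n s)) {C : Set V}
    (hC : Cmp G (PP G n s)ᶜ C) {y y' : V} (hy : y ∈ C) (hy' : y' ∈ C) (hne : y ≠ y') {r r' : ℕ}
    (hr : r < n) (hr' : r' < n) (hrr : r ≠ r') (h1 : G.Adj y (k r)) (h2 : G.Adj y (k r'))
    (h3 : G.Adj y' (k r)) (h4 : G.Adj y' (k r')) : False := by
  have hsp : ∀ l < n, Sp G C {s l} := by
    intro l hl
    refine hC.sp (s_cmp h hl) (fun h5 => hne ?_)
    rw [h5, Set.mem_singleton_iff] at hy hy'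
    rw [hy, hy']
  have hss : Sp G {s r} {s r'} := by
    refine (s_cmp h hr).sp (s_cmp h hr') (fun h5 => ?_)
    have h6 : s r = s r' := Set.singleton_injective h5
    have h7 := (h.sp.ks r hr r' hr').mpr hrr
    rw [← h6] at h7
    exact (h.sp.ks r hr r hr).mp h7 rfl
  refine hZ.z1 C {s r} {s r'} {y} {y'} hC.1 (s_cmp h hr).1 (s_cmp h hr').1 hC.2.1
    (Conn.singleton G _) (Conn.singleton G _) (hsp r hr) (hsp r' hr') hss (s_dis h hr hr' hrr)
    (Set.singleton_subset_iff.mpr hy) (Set.singleton_subset_iff.mpr hy') (Conn.singleton G _)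
    (Conn.singleton G _) (Set.disjoint_singleton.mpr hne) ?_ ?_ ?_ ?_
  · exact ⟨y, rfl, k r, k_mi hn h hr, h1⟩
  · exact ⟨y, rfl, k r', k_mi hn h hr', h2⟩
  · exact ⟨y', rfl, k r, k_mi hn h hr, h3⟩
  · exact ⟨y', rfl, k r', k_mi hn h hr', h4⟩

/-- an increasing enumeration of the first `m` elements of a finite set -/
theorem enumT (T : Finset ℕ) (m : ℕ) (h : m ≤ T.card) : ∃ σ : ℕ → ℕ,
    (∀ k l, k < l → l < m → σ k < σ l) ∧ ∀ k < m, σ k ∈ T := by
  classical
  refine ⟨fun k => if h : k < T.card then T.orderEmbOfFin rfl ⟨k, h⟩ else 0, ?_, ?_⟩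
  · intro k l hkl hl
    have h1 : k < T.card := by omega
    have h2 : l < T.card := by omega
    simp only [dif_pos h1, dif_pos h2]
    exact (T.orderEmbOfFin rfl).strictMono hkl
  · intro k hk
    have h1 : k < T.card := by omega
    simp only [dif_pos h1]
    exact T.orderEmbOfFin_mem rfl _

theorem inj_of {m : ℕ} {σ : ℕ → ℕ} (h : ∀ k l, k < l → l < m → σ k < σ l) {i j : ℕ} (hi : i < m)
    (hj : j < m) (hij : i ≠ j) : σ i ≠ σ j := by
  rcases lt_or_gt_of_ne hij with h3 | h3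
  · exact (h i j h3 hj).ne
  · exact (h j i h3 hi).ne'

/-- three `z`'s are not in one component -/
theorem three (hn : 12 ≤ n) (h : Cln G n k s) (hZ : ZZ G (PP G n s)) {N : ℕ} {x z : ℕ → V}
    (hxz : Spd G N x z) (hzP : ∀ i < N, z i ∉ PP G n s) {C : Set V}
    (hC : Cmp G (PP G n s)ᶜ C) (w : Fin 3 → ℕ) (hw : ∀ p, w p < N)
    (hne : ∀ p p', p ≠ p' → w p ≠ w p') (hz : ∀ p, z (w p) ∈ C) (hx : ∀ p, x (w p) ∈ PP G n s) :
    False := by
  have hzne : ∀ p p', p ≠ p' → z (w p) ≠ z (w p') := by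
    intro p p' hp h1
    have h2 := (hxz.ks _ (hw p) _ (hw p')).mpr (hne p p' hp)
    rw [← h1] at h2
    exact (hxz.ks _ (hw p) _ (hw p)).mp h2 rfl
  -- disjoint missed sets
  have hd : ∀ p p', p ≠ p' → ∀ v ∈ PP G n s, G.Adj v (z (w p)) ∨ G.Adj v (z (w p')) := by
    intro p p' hp v hv
    by_contra h1
    push Not at h1
    have hsp : Sp G {z (w p)} {z (w p')} := by
      refine ⟨Set.disjoint_singleton.mpr (hzne p p' hp), ?_⟩
      rintro ⟨a, ha, b, hb, hab⟩
      rw [Set.mem_singleton_iff] at ha hb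
      subst ha hb
      exact hxz.ss _ (hw p) _ (hw p') hab
    have hxp : ∀ p, x (w p) ∈ mi G (PP G n s) {z (w p)} := fun p =>
      mem_mi_singleton.mpr ⟨hx p, fun h2 => (hxz.ks _ (hw p) _ (hw p)).mp h2 rfl⟩
    have hxq : ∀ p p', p ≠ p' → x (w p) ∉ mi G (PP G n s) {z (w p')} := fun p p' hp h2 =>
      (mem_mi_singleton.mp h2).2 ((hxz.ks _ (hw p) _ (hw p')).mpr (hne p p' hp))
    rcases hZ.z2 {z (w p)} {z (w p')} (Set.singleton_subset_iff.mpr (hzP _ (hw p)))
      (Set.singleton_subset_iff.mpr (hzP _ (hw p'))) (Conn.singleton G _) (Conn.singleton G _) hsp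
      ⟨v, mem_mi_singleton.mpr ⟨hv, h1.1⟩, mem_mi_singleton.mpr ⟨hv, h1.2⟩⟩ with h2 | h2
    · exact hxq p p' hp (h2 (hxp p))
    · exact hxq p' p hp.symm (h2 (hxp p'))
  have hpair : ∀ r : Fin 4, ∃ p : Fin 3, G.Adj (k r.val) (z (w p)) ∧ G.Adj (k r.val) (z (w (p + 1))) := by
    intro r
    have hr : k r.val ∈ PP G n s := k_mem hn h (by have := r.2; omega)
    have h01 := hd 0 1 (by decide) _ hr
    have h12 := hd 1 2 (by decide) _ hr
    have h20 := hd 2 0 (by decide) _ hr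
    by_cases h0 : G.Adj (k r.val) (z (w 0))
    · by_cases h1 : G.Adj (k r.val) (z (w 1))
      · exact ⟨0, h0, h1⟩
      · exact ⟨2, h12.resolve_left h1, h0⟩
    · exact ⟨1, h01.resolve_left h0, h20.resolve_right h0⟩
  choose c hc using hpair
  obtain ⟨r, r', hrr, heq⟩ := Fintype.exists_ne_map_eq_of_card_lt c (by simp)
  have hp1 : c r ≠ c r + 1 := by
    generalize c r = p
    revert p
    decide
  have h1 := hc r
  have h2 := hc r'
  rw [← heq] at h2
  exact two hn h hZ hC (hz (c r)) (hz (c r + 1)) (hzne _ _ hp1) (by have := r.2; omega)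
    (by have := r'.2; omega) (fun h3 => hrr (Fin.ext h3)) h1.1.symm h2.1.symm h1.2.symm h2.2.symm

end newAux

open newAux

/-- **B18.** -/
theorem new (h5 : S_Nw5) : S_New := by
  classical
  intro f V G n k s x z hn h hZ hK hxz hx hz
  set P : Set V := PP G n s with hP
  have hzP : ∀ i < 2 * f + 11, z i ∉ P := by
    rintro i hi ⟨j, hj, h1⟩
    exact hz i hi j hj h1
  have hcmp : ∀ i, ∃ C, i < 2 * f + 11 → Cmp G Pᶜ C ∧ z i ∈ C := by
    intro i
    by_cases hi : i < 2 * f + 11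
    · obtain ⟨C, h1, h2⟩ := exists_cmp (G := G) (Q := Pᶜ) (hzP i hi)
      exact ⟨C, fun _ => ⟨h1, h2⟩⟩
    · exact ⟨∅, fun h1 => absurd h1 hi⟩
  choose κ hκ using hcmp
  -- the indices with `x i ∈ P`
  set S : Finset ℕ := (Finset.range (2 * f + 11)).filter (fun i => x i ∈ P) with hS
  have hScard : 2 * f + 10 ≤ S.card := by
    have h1 : ((Finset.range (2 * f + 11)).filter (fun i => x i ∉ P)).card ≤ 1 := by
      rw [Finset.card_le_one]
      intro i hi j hj
      rw [Finset.mem_filter, Finset.mem_range] at hi hj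
      by_contra hij
      obtain ⟨C, hC, hiC⟩ := exists_cmp (G := G) (Q := Pᶜ) hi.2
      have hadj := hxz.kk i hi.1 j hj.1 hij
      have hjC : x j ∈ C := hC.mem_of_adj hiC hj.2 hadj
      have hk : ∀ i < 2 * f + 11, x i ∉ P → ∀ l < n, G.Adj (x i) (k l) := by
        intro i hi hiP l hl
        rcases hx i hi l hl with h2 | h2
        · exact absurd (h2 ▸ k_mem hn h hl) hiP
        · exact h2
      exact two hn h hZ hC hiC hjC hadj.ne (r := 0) (r' := 1) (by omega) (by omega) (by omega)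
        (hk i hi.1 hi.2 0 (by omega)) (hk i hi.1 hi.2 1 (by omega)) (hk j hj.1 hj.2 0 (by omega))
        (hk j hj.1 hj.2 1 (by omega))
    have h2 := Finset.card_filter_add_card_filter_not (s := Finset.range (2 * f + 11)) (fun i => x i ∈ P)
    rw [Finset.card_range] at h2
    rw [hS]
    omega
  have hSm : ∀ i ∈ S, i < 2 * f + 11 ∧ x i ∈ P := fun i hi => by
    rw [hS, Finset.mem_filter, Finset.mem_range] at hi
    exact hi
  -- every component contains at most two of the `z i`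
  have himg : f + 5 ≤ (S.image κ).card := by
    have h1 := Finset.card_le_mul_card_image S (f := κ) 2 (fun C _ => by
      by_contra h2
      push Not at h2
      obtain ⟨a, ha, b, hb, c, hc, hab, hac, hbc⟩ := Finset.two_lt_card.mp h2
      rw [Finset.mem_filter] at ha hb hc
      have ha' := hSm a ha.1
      have hb' := hSm b hb.1
      have hc' := hSm c hc.1
      refine three hn h hZ hxz hzP (hκ a ha'.1).1 ![a, b, c] ?_ ?_ ?_ ?_
      · intro p
        fin_cases p
        · exact ha'.1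
        · exact hb'.1
        · exact hc'.1
      · intro p p' hpp
        fin_cases p <;> fin_cases p'
        · exact absurd rfl hpp
        · exact hab
        · exact hac
        · exact hab.symm
        · exact absurd rfl hpp
        · exact hbc
        · exact hac.symm
        · exact hbc.symm
        · exact absurd rfl hpp
      · intro p
        fin_cases p
        · exact (hκ a ha'.1).2
        · show z b ∈ κ a
          rw [ha.2, ← hb.2]
          exact (hκ b hb'.1).2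
        · show z c ∈ κ a
          rw [ha.2, ← hc.2]
          exact (hκ c hc'.1).2
      · intro p
        fin_cases p
        · exact ha'.2
        · exact hb'.2
        · exact hc'.2)
    omega
  have hrep : ∀ C ∈ S.image κ, ∃ i ∈ S, κ i = C := fun C hC => by
    obtain ⟨i, hi, hiC⟩ := Finset.mem_image.mp hC
    exact ⟨i, hi, hiC⟩
  choose! rep hr1 hr2 using hrep
  set T : Finset ℕ := (S.image κ).image rep with hT
  have hTc : T.card = (S.image κ).card := by
    rw [hT, Finset.card_image_of_injOn]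
    intro d hd d' hd' hdd
    rw [← hr2 d hd, ← hr2 d' hd']
    exact congrArg κ hdd
  have hTS : ∀ i ∈ T, i ∈ S := by
    intro i hi
    obtain ⟨C, hC, rfl⟩ := Finset.mem_image.mp hi
    exact hr1 C hC
  have hTi : ∀ i ∈ T, ∀ j ∈ T, κ i = κ j → i = j := by
    intro i hi j hj hij
    obtain ⟨C, hC, rfl⟩ := Finset.mem_image.mp hi
    obtain ⟨C', hC', rfl⟩ := Finset.mem_image.mp hj
    rw [hr2 C hC, hr2 C' hC'] at hij
    rw [hij]
  -- at most four free pairs
  have hbad : (T.filter (fun i => x i ∉ mi G P (κ i))).card < 5 := by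
    by_contra h1
    push Not at h1
    obtain ⟨σ, s1, s2⟩ := enumT _ 5 h1
    have s3 : ∀ i < 5, σ i ∈ T ∧ x (σ i) ∉ mi G P (κ (σ i)) := fun i hi => Finset.mem_filter.mp (s2 i hi)
    have s4 : ∀ i < 5, σ i < 2 * f + 11 ∧ x (σ i) ∈ P := fun i hi => hSm _ (hTS _ (s3 i hi).1)
    obtain ⟨i, hi, h2⟩ := h5 V G P (fun i => κ (σ i)) (fun i => x (σ i)) (fun i => z (σ i)) hZ hK
      ⟨fun i hi j hj hij => hxz.kk _ (s4 i hi).1 _ (s4 j hj).1 (inj_of s1 hi hj hij),
        fun i hi j hj => hxz.ss _ (s4 i hi).1 _ (s4 j hj).1,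
        fun i hi j hj => (hxz.ks _ (s4 i hi).1 _ (s4 j hj).1).trans
          ⟨fun h3 h4 => h3 (congrArg σ h4), fun h3 => inj_of s1 hi hj h3⟩⟩
      (fun i hi => (hκ _ (s4 i hi).1).1)
      (fun i hi j hj hij h3 => inj_of s1 hi hj hij (hTi _ (s3 i hi).1 _ (s3 j hj).1 h3))
      (fun i hi => (hκ _ (s4 i hi).1).2) (fun i hi => (s4 i hi).2)
    exact (s3 i hi).2 h2
  have hgood : f ≤ (T.filter (fun i => x i ∈ mi G P (κ i))).card := by
    have h2 := Finset.card_filter_add_card_filter_not (s := T) (fun i => x i ∈ mi G P (κ i))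
    omega
  obtain ⟨g, g1, g2⟩ := enumT _ f hgood
  have g3 : ∀ i < f, g i ∈ T ∧ x (g i) ∈ mi G P (κ (g i)) := fun i hi => Finset.mem_filter.mp (g2 i hi)
  have g4 : ∀ i < f, g i < 2 * f + 11 ∧ x (g i) ∈ P := fun i hi => hSm _ (hTS _ (g3 i hi).1)
  have g5 : ∀ i < f, ∀ j < f, i ≠ j → x (g i) ∉ mi G P (κ (g j)) := by
    intro i hi j hj hij h1
    exact h1.2 _ (hκ _ (g4 j hj).1).2
      ((hxz.ks _ (g4 i hi).1 _ (g4 j hj).1).mpr (inj_of g1 hi hj hij))
  refine ⟨g, fun i => κ (g i), fun i hi => (g4 i hi).1, ⟨fun i hi => (hκ _ (g4 i hi).1).1,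
    fun i hi => ⟨_, (g3 i hi).2⟩, fun i hi j hj hij => ?_⟩, fun i hi => (hκ _ (g4 i hi).1).2⟩
  rcases hZ.lam (hκ _ (g4 i hi).1).1 (hκ _ (g4 j hj).1).1 with h1 | h1 | h1
  · exact absurd (h1 (g3 i hi).2) (g5 i hi j hj hij)
  · exact absurd (h1 (g3 j hj).2) (g5 j hj i hi hij.symm)
  · exact h1

end Pool.Agent.MPd439b2.CR
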