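import Pool.Agent.Lib.MP_d439b2_co.CR.SpecB

/-!
# MP_d439b2_co, CR/Nsm: disjoint members that are not small are few (note 2828 of helper53)
-/

set_option autoImplicit false

namespace Pool.Agent.MPd439b2.CR

open Pool.Agent.MPd439b2 Pool.Agent.MPd439b2.A0 Pool.Agent.MPd439b2.Rep

/-- **B16.** -/
theorem nsm : S_Nsm := by
  intro f c₁ φ V _ G P T hT hφ hF F hDF hcard
  obtain ⟨F', h1, h2, h3⟩ := hF F hDF
  have h4 : 2 ≤ F'.ncard := by
    have h5 := Set.ncard_sdiff_add_ncard_of_subset h1 (Set.toFinite F)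
    omega
  obtain ⟨M, hM, M', hM', hne⟩ := (Set.one_lt_ncard_iff (Set.toFinite F')).mp (by omega : 1 < F'.ncard)
    |> fun ⟨a, b, ha, hb, hab⟩ => (⟨a, ha, b, hb, hab⟩ : ∃ a ∈ F', ∃ b ∈ F', a ≠ b)
  by_contra hno
  push Not at hno
  have key : ∀ N ∈ F', (cel G P N)ᶜ ∈ T := by
    intro N hN
    rcases hT.dec (cel G P N) ((h3 N hN).trans hφ) with h5 | h5
    · exact absurd h5 (hno N (h1 hN) (h3 N hN))
    · exact h5
  apply hT.cov _ (key M hM) _ (key M' hM') _ (key M' hM')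
  ext v
  refine iff_of_true ?_ (Set.mem_univ v)
  by_cases h5 : v ∈ cel G P M
  · exact Or.inr (fun h6 => Set.disjoint_left.mp (cel_disj (hDF.1 _ (h1 hM)).sub
      (hDF.1 _ (h1 hM')).sub (hDF.2 _ (h1 hM) _ (h1 hM') hne)) h5 h6)
  · exact Or.inl (Or.inl h5)

end Pool.Agent.MPd439b2.CR
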