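import Pool.Agent.Lib.MP_d439b2_co.CR.SpecB

set_option autoImplicit false

namespace Pool.Agent.MPd439b2.CR

open Pool.Agent.MPd439b2 Pool.Agent.MPd439b2.A0 Pool.Agent.MPd439b2.Rep

private theorem three_others : ∀ i < 5, ∀ j < 5, i ≠ j → ∃ p < 5, ∃ q < 5, ∃ r < 5,
    p ≠ q ∧ p ≠ r ∧ q ≠ r ∧ p ≠ i ∧ q ≠ i ∧ r ≠ i ∧ p ≠ j ∧ q ≠ j ∧ r ≠ j := by
  have h : ∀ i j : Fin 5, i ≠ j → ∃ p q r : Fin 5,
      p ≠ q ∧ p ≠ r ∧ q ≠ r ∧ p ≠ i ∧ q ≠ i ∧ r ≠ i ∧ p ≠ j ∧ q ≠ j ∧ r ≠ j := by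
    decide
  intro i hi j hj hij
  obtain ⟨p, q, r, h1, h2, h3, h4, h5, h6, h7, h8, h9⟩ := h ⟨i, hi⟩ ⟨j, hj⟩
    (fun h => hij (Fin.mk.inj_iff.1 h))
  have e : ∀ a b : Fin 5, a ≠ b → a.1 ≠ b.1 := fun a b hab h => hab (Fin.ext h)
  exact ⟨p, p.2, q, q.2, r, r.2, e _ _ h1, e _ _ h2, e _ _ h3, e _ _ h4, e _ _ h5, e _ _ h6,
    e _ _ h7, e _ _ h8, e _ _ h9⟩

/-- a relation on five points with at most one successor of every point cannot be total -/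
private theorem no_tour (T : ℕ → ℕ → Prop)
    (h1 : ∀ i < 5, ∀ k < 5, ∀ l < 5, i ≠ k → i ≠ l → k ≠ l → T i k → ¬ T i l)
    (h2 : ∀ i < 5, ∀ j < 5, i ≠ j → T i j ∨ T j i) : False := by
  have key : ∀ b < 5, ∀ b' < 5, b ≠ 0 → b' ≠ 0 → b ≠ b' → ¬ T 0 b → T 0 b' := by
    intro b hb b' hb' hb0 hb0' hbb hT
    by_contra hT'
    have h3 : T b 0 := (h2 0 (by norm_num) b hb (Ne.symm hb0)).resolve_left hT
    have h4 : T b' 0 := (h2 0 (by norm_num) b' hb' (Ne.symm hb0')).resolve_left hT'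
    rcases h2 b hb b' hb' hbb with h5 | h5
    · exact h1 b hb 0 (by norm_num) b' hb' hb0 hbb (Ne.symm hb0') h3 h5
    · exact h1 b' hb' 0 (by norm_num) b hb hb0' (Ne.symm hbb) (Ne.symm hb0) h4 h5
  by_cases h3 : T 0 1
  · have h4 : ¬ T 0 2 := h1 0 (by norm_num) 1 (by norm_num) 2 (by norm_num) (by norm_num)
      (by norm_num) (by norm_num) h3
    exact h1 0 (by norm_num) 1 (by norm_num) 3 (by norm_num) (by norm_num)
      (by norm_num) (by norm_num) h3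
      (key 2 (by norm_num) 3 (by norm_num) (by norm_num) (by norm_num) (by norm_num) h4)
  · exact h1 0 (by norm_num) 2 (by norm_num) 3 (by norm_num) (by norm_num) (by norm_num)
      (by norm_num)
      (key 1 (by norm_num) 2 (by norm_num) (by norm_num) (by norm_num) (by norm_num) h3)
      (key 1 (by norm_num) 3 (by norm_num) (by norm_num) (by norm_num) (by norm_num) h3)

theorem nw5 (hM : A0.S_M1) : S_Nw5 := by
  intro V G P C x z hZ hI hS hC hCne hz hx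
  by_contra hcon
  push Not at hcon
  have xz : ∀ i < 5, ∀ j < 5, i ≠ j → G.Adj (x i) (z j) := fun i hi j hj h => (hS.ks i hi j hj).2 h
  have nxz : ∀ i < 5, ¬ G.Adj (x i) (z i) := fun i hi h => (hS.ks i hi i hi).1 h rfl
  have hR : ∀ i, i < 5 → ∃ R : Set V, R ⊆ C i ∧ z i ∉ R ∧ Conn G R ∧ (∃ r ∈ R, G.Adj (x i) r) ∧
      ∃ r ∈ R, G.Adj (z i) r := by
    intro i hi
    obtain ⟨y, hy, hxy⟩ := not_mi (hx i hi) (hcon i hi)
    have hyz : y ≠ z i := by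
      rintro rfl
      exact nxz i hi hxy
    obtain ⟨R, hRs, hyR, cR, hnb⟩ := exists_comp G (A := C i \ {z i}) (v := y) ⟨hy, hyz⟩
    have hzR : z i ∉ R := fun h => (hRs h).2 rfl
    refine ⟨R, fun v hv => (hRs hv).1, hzR, cR, ⟨y, hyR, hxy⟩, ?_⟩
    have hne : R ≠ C i := fun h => hzR (h ▸ hz i hi)
    obtain ⟨b, hb, a, ha, hba⟩ := (hC i hi).2.1.2 R (fun v hv => (hRs hv).1) ⟨y, hyR⟩ hne
    have haz : a = z i := by
      by_contra h
      exact hnb a ⟨ha.1, h⟩ ⟨ha.2, b, hb, hba⟩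
    subst haz
    exact ⟨b, hb, hba.symm⟩
  choose! R hRC hzR cR hxR hzt using hR
  have sC : ∀ i < 5, ∀ j < 5, i ≠ j → Sp G (C i) (C j) := fun i hi j hj h =>
    (hC i hi).sp (hC j hj) (hCne i hi j hj h)
  have xP : ∀ i < 5, ∀ v ∈ Pᶜ, x i ≠ v := by
    intro i hi v hv h
    exact hv (h ▸ hx i hi)
  have zP : ∀ i < 5, z i ∈ Pᶜ := fun i hi => (hC i hi).1 (hz i hi)
  have zz : ∀ i < 5, ∀ j < 5, i ≠ j → z i ≠ z j := fun i hi j hj h =>
    (sC i hi j hj h).ne (hz i hi) (hz j hj)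
  have zR : ∀ i < 5, ∀ j < 5, i ≠ j → z j ∉ R i := fun i hi j hj h hm =>
    Set.disjoint_left.1 (sC i hi j hj h).1 (hRC i hi hm) (hz j hj)
  have h1 : ∀ i < 5, ∀ k < 5, ∀ l < 5, i ≠ k → i ≠ l → k ≠ l → (∃ r ∈ R i, G.Adj (x k) r) →
      ¬ ∃ r ∈ R i, G.Adj (x l) r := by
    rintro i hi k hk l hl hik hil hkl ⟨r, hr, hxr⟩ ⟨r', hr', hxr'⟩
    apply hI
    have dxR : ∀ m < 5, Disjoint ({x m} : Set V) (R i) := by
      intro m hm
      rw [Set.disjoint_singleton_left]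
      intro h
      exact (hC i hi).1 (hRC i hi h) (hx m hm)
    have dx : ∀ m < 5, ∀ v ∈ Pᶜ, Disjoint ({x m} : Set V) {v} := by
      intro m hm v hv
      rw [Set.disjoint_singleton]
      exact xP m hm v hv
    have tc : ∀ u v : V, G.Adj u v → Tch G {u} {v} := fun u v h => ⟨u, rfl, v, rfl, h⟩
    have nt : ∀ u v : V, ¬ G.Adj u v → ¬ Tch G {u} {v} := by
      rintro u v h ⟨a, ha, b, hb, hab⟩
      rw [Set.mem_singleton_iff] at ha hb
      exact h (ha ▸ hb ▸ hab)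
    have nR : ∀ m < 5, i ≠ m → ¬ Tch G (R i) {z m} := by
      rintro m hm him ⟨a, ha, b, hb, hab⟩
      rw [Set.mem_singleton_iff] at hb
      subst hb
      exact (sC i hi m hm him).not_adj (hRC i hi ha) (hz m hm) hab
    refine hM V G {x k} {x l} {z i} (R i) {z l} {z k} (Conn.singleton G _) (Conn.singleton G _)
      (Conn.singleton G _) (cR i hi) (Conn.singleton G _) (Conn.singleton G _)
      (Set.disjoint_singleton.2 (hS.kk k hk l hl hkl).ne) (dx k hk _ (zP i hi)) (dxR k hk)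
      (dx k hk _ (zP l hl)) (dx k hk _ (zP k hk)) (dx l hl _ (zP i hi)) (dxR l hl)
      (dx l hl _ (zP l hl)) (dx l hl _ (zP k hk)) (Set.disjoint_singleton_left.2 (hzR i hi))
      (Set.disjoint_singleton.2 (zz i hi l hl hil)) (Set.disjoint_singleton.2 (zz i hi k hk hik))
      (Set.disjoint_singleton_right.2 (zR i hi l hl hil))
      (Set.disjoint_singleton_right.2 (zR i hi k hk hik))
      (Set.disjoint_singleton.2 (zz l hl k hk hkl.symm))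
      (tc _ _ (hS.kk k hk l hl hkl)) (tc _ _ (xz k hk i hi hik.symm)) ⟨x k, rfl, r, hr, hxr⟩
      (tc _ _ (xz l hl i hi hil.symm)) ⟨x l, rfl, r', hr', hxr'⟩ ?_
      (tc _ _ (xz k hk l hl hkl)) (tc _ _ (xz l hl k hk hkl.symm)) (nt _ _ (nxz k hk))
      (nt _ _ (nxz l hl)) (nt _ _ (hS.ss i hi l hl)) (nt _ _ (hS.ss i hi k hk)) (nR l hl hil)
      (nR k hk hik) (nt _ _ (hS.ss l hl k hk))
    obtain ⟨r, hr, hzr⟩ := hzt i hi
    exact ⟨z i, rfl, r, hr, hzr⟩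
  refine no_tour (fun i j => ∃ r ∈ R i, G.Adj (x j) r) h1 ?_
  intro i hi j hj hij
  have hl : ∃ l < 5, l ≠ i ∧ l ≠ j ∧ (¬ ∃ r ∈ R i, G.Adj (x l) r) ∧ ¬ ∃ r ∈ R j, G.Adj (x l) r := by
    obtain ⟨p, hp, q, hq, r, hr, hpq, hpr, hqr, hpi, hqi, hri, hpj, hqj, hrj⟩ :=
      three_others i hi j hj hij
    by_contra hno
    have h3 : ∀ l < 5, l ≠ i → l ≠ j → (∃ r ∈ R i, G.Adj (x l) r) ∨ ∃ r ∈ R j, G.Adj (x l) r := by
      intro l hl hli hlj
      by_contra h4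
      rw [not_or] at h4
      exact hno ⟨l, hl, hli, hlj, h4.1, h4.2⟩
    rcases h3 p hp hpi hpj with a1 | a1 <;> rcases h3 q hq hqi hqj with a2 | a2 <;>
      rcases h3 r hr hri hrj with a3 | a3
    · exact h1 i hi p hp q hq hpi.symm hqi.symm hpq a1 a2
    · exact h1 i hi p hp q hq hpi.symm hqi.symm hpq a1 a2
    · exact h1 i hi p hp r hr hpi.symm hri.symm hpr a1 a3
    · exact h1 j hj q hq r hr hqj.symm hrj.symm hqr a2 a3
    · exact h1 i hi q hq r hr hqi.symm hri.symm hqr a2 a3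
    · exact h1 j hj p hp r hr hpj.symm hrj.symm hpr a1 a3
    · exact h1 j hj p hp q hq hpj.symm hqj.symm hpq a1 a2
    · exact h1 j hj p hp q hq hpj.symm hqj.symm hpq a1 a2
  obtain ⟨l, hl5, hli, hlj, hmi, hmj⟩ := hl
  have hmem : ∀ m < 5, (¬ ∃ r ∈ R m, G.Adj (x l) r) → x l ∈ mi G P (R m) := by
    intro m hm h
    refine ⟨hx l hl5, fun y hy hxy => h ⟨y, hy, hxy⟩⟩
  have hnm : ∀ m < 5, x m ∉ mi G P (R m) := by
    intro m hm h
    obtain ⟨r, hr, hxr⟩ := hxR m hm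
    exact h.2 r hr hxr
  rcases hZ.z2 (R i) (R j) ((hRC i hi).trans (hC i hi).1) ((hRC j hj).trans (hC j hj).1) (cR i hi)
    (cR j hj) ((sC i hi j hj hij).mono (hRC i hi) (hRC j hj)) ⟨x l, hmem i hi hmi, hmem j hj hmj⟩
    with h3 | h3
  · left
    exact not_mi (hx j hj) (fun h => hnm j hj (h3 h))
  · right
    exact not_mi (hx i hi) (fun h => hnm i hi (h3 h))

end Pool.Agent.MPd439b2.CR
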