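import Pool.Agent.Lib.MP_d439b2_co.CR.SpecC

/-!
# MP_d439b2_co, CR/Pex: excluded typed patterns (task of helper85, by helper77)
-/

set_option autoImplicit false

namespace Pool.Agent.MPd439b2.CR

open Pool.Agent.MPd439b2 Pool.Agent.MPd439b2.A0 Pool.Agent.MPd439b2.Rep

namespace pexAux

variable {V : Type} {G : SimpleGraph V}

theorem t1 {x y : V} (h : G.Adj x y) : Tch G {x} {y} := ⟨x, rfl, y, rfl, h⟩

theorem n1 {x y : V} (h : ¬ G.Adj x y) : ¬ Tch G {x} {y} := by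
  rintro ⟨z, hz, y', hy', h'⟩
  rw [Set.mem_singleton_iff] at hy' hz
  subst hz hy'
  exact h h'

theorem tff (hM1 : A0.S_M1) {m : ℕ} (hm : 4 ≤ m) (hG : ¬ IMS K401 G Set.univ) :
    NoTP G m true false false := by
  intro a b h
  have d1 : ∀ {x y : V}, x ≠ y → Disjoint ({x} : Set V) {y} := fun h => Set.disjoint_singleton.2 h
  have l0 : 0 < m := by omega
  have l1 : 1 < m := by omega
  have l2 : 2 < m := by omega
  have l3 : 3 < m := by omega
  have aa : ∀ i < m, ∀ j < m, i ≠ j → G.Adj (a i) (a j) := fun i hi j hj hij =>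
    (h.aa i hi j hj hij).2 rfl
  have nbb : ∀ i < m, ∀ j < m, i ≠ j → ¬ G.Adj (b i) (b j) := fun i hi j hj hij hh =>
    Bool.false_ne_true ((h.bb i hi j hj hij).1 hh)
  have ab : ∀ i < m, G.Adj (a i) (b i) := fun i hi =>
    (h.ab i hi i hi).2 ⟨fun _ => rfl, fun _ => rfl⟩
  have nab : ∀ i < m, ∀ j < m, i ≠ j → ¬ G.Adj (a i) (b j) := fun i hi j hj hij hh =>
    hij (((h.ab i hi j hj).1 hh).2 rfl)
  exact hG (hM1 V G {a 0} {a 1} {a 2} {a 3} {b 0} {b 1} (Conn.singleton G _) (Conn.singleton G _)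
    (Conn.singleton G _) (Conn.singleton G _) (Conn.singleton G _) (Conn.singleton G _)
    (d1 (h.ia 0 l0 1 l1 (by norm_num))) (d1 (h.ia 0 l0 2 l2 (by norm_num)))
    (d1 (h.ia 0 l0 3 l3 (by norm_num))) (d1 (h.dis 0 l0 0 l0)) (d1 (h.dis 0 l0 1 l1))
    (d1 (h.ia 1 l1 2 l2 (by norm_num))) (d1 (h.ia 1 l1 3 l3 (by norm_num)))
    (d1 (h.dis 1 l1 0 l0)) (d1 (h.dis 1 l1 1 l1)) (d1 (h.ia 2 l2 3 l3 (by norm_num)))
    (d1 (h.dis 2 l2 0 l0)) (d1 (h.dis 2 l2 1 l1)) (d1 (h.dis 3 l3 0 l0)) (d1 (h.dis 3 l3 1 l1))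
    (d1 (h.ib 0 l0 1 l1 (by norm_num)))
    (t1 (aa 0 l0 1 l1 (by norm_num))) (t1 (aa 0 l0 2 l2 (by norm_num)))
    (t1 (aa 0 l0 3 l3 (by norm_num))) (t1 (aa 1 l1 2 l2 (by norm_num)))
    (t1 (aa 1 l1 3 l3 (by norm_num))) (t1 (aa 2 l2 3 l3 (by norm_num)))
    (t1 (ab 0 l0)) (t1 (ab 1 l1)) (n1 (nab 0 l0 1 l1 (by norm_num)))
    (n1 (nab 1 l1 0 l0 (by norm_num))) (n1 (nab 2 l2 0 l0 (by norm_num)))
    (n1 (nab 2 l2 1 l1 (by norm_num))) (n1 (nab 3 l3 0 l0 (by norm_num)))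
    (n1 (nab 3 l3 1 l1 (by norm_num))) (n1 (nbb 0 l0 1 l1 (by norm_num))))

end pexAux

/-- **C1.** Excluded patterns. -/
theorem pex (hM1 : A0.S_M1) (hPB : A0.S_PB) (hKK : S_KK) : S_Pex := by
  intro t m V G hG htm
  have h9 : 9 ≤ (t + 3) ^ 2 := by nlinarith [Nat.zero_le t]
  have hm4 : 4 ≤ m := by omega
  refine ⟨?_, pexAux.tff hM1 hm4 hG.1, (pexAux.tff hM1 hm4 hG.1).swap, ?_⟩
  · intro a b h
    refine hG.2 (hKK t V G a b (fun i hi j hj => h.dis i (by omega) j (by omega))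
      (fun i hi j hj hij => ⟨(h.aa i (by omega) j (by omega) hij).2 rfl,
        (h.bb i (by omega) j (by omega) hij).2 rfl⟩) (fun i hi j hj => ?_))
    rw [h.ab i (by omega) j (by omega)]
    exact ⟨fun hh => hh.2 rfl, fun hh => ⟨fun _ => rfl, fun _ => hh⟩⟩
  · intro a b h
    have h2 : 2 * t + 3 ≤ (t + 3) ^ 2 := by nlinarith [Nat.zero_le t]
    refine hG.2 (hPB t V G a b (fun i hi j hj hh => ?_) (fun i hi j hj hh => ?_)
      (fun i hi j hj => ?_))
    · exact Bool.false_ne_true ((h.aa i (by omega) j (by omega) (fun e => by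
        subst e
        exact hh.ne rfl)).1 hh)
    · exact Bool.false_ne_true ((h.bb i (by omega) j (by omega) (fun e => by
        subst e
        exact hh.ne rfl)).1 hh)
    · rw [h.ab i (by omega) j (by omega)]
      constructor
      · intro hh e
        exact Bool.noConfusion (hh.1 e)
      · intro hh
        exact ⟨fun e => absurd e hh, fun e => Bool.noConfusion e⟩

end Pool.Agent.MPd439b2.CR
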