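import Pool.Agent.Lib.MP_d439b2_co.CR.SpecB

/-!
# MP_d439b2_co, CR, B7: inner vertices of one cell against members, half graphs
-/

set_option autoImplicit false

namespace Pool.Agent.MPd439b2.CR

open Pool.Agent.MPd439b2 Pool.Agent.MPd439b2.A0 Pool.Agent.MPd439b2.Rep

theorem phH : S_PhH := by
  intro V G P hZ D M z hM hdis hD hz hpat
  have hC : ∀ a, ∃ C, a < 5 → (Cmp G Pᶜ C ∧ z a ∈ C ∧ (mi G P C).Nonempty ∧ mi G P C ⊆ D) := by
    intro a
    by_cases ha : a < 5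
    · obtain ⟨C, h1, h2, h3, h4⟩ := hz a ha
      exact ⟨C, fun _ => ⟨h1, h2, h3, h4⟩⟩
    · exact ⟨∅, fun h => absurd h ha⟩
  choose C hC using hC
  have hE : ∀ b, ∃ (E : Set V), b < 5 → (Cmp G Pᶜ E ∧ mi G P E = M b) := by
    intro b
    by_cases hb : b < 5
    · obtain ⟨-, E, h1, h2⟩ := hM b hb
      exact ⟨E, fun _ => ⟨h1, h2⟩⟩
    · exact ⟨∅, fun h => absurd h hb⟩
  choose E hE using hE
  have hv : ∀ b, ∃ v : V, b < 5 → v ∈ M b := by
    intro b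
    by_cases hb : b < 5
    · obtain ⟨⟨v, h1⟩, -⟩ := hM b hb
      exact ⟨v, fun _ => h1⟩
    · exact ⟨z 0, fun h => absurd h hb⟩
  choose v hv using hv
  have hvP : ∀ b < 5, v b ∈ P := fun b hb => (hM b hb).sub (hv b hb)
  have hadj : ∀ a < 5, ∀ b < 5, b < a → G.Adj (z a) (v b) := fun a ha b hb hab =>
    (hpat a ha b hb (v b) (hv b hb)).mpr hab
  have hnadj : ∀ a < 5, ∀ b < 5, ¬ b < a → ¬ G.Adj (z a) (v b) := fun a ha b hb hab h =>
    hab ((hpat a ha b hb (v b) (hv b hb)).mp h)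
  have hCE : ∀ a < 5, ∀ b < 5, C a ≠ E b := by
    intro a ha b hb h
    obtain ⟨w, hw⟩ := (hC a ha).2.2.1
    have h1 := (hC a ha).2.2.2 hw
    rw [h, (hE b hb).2] at hw
    exact Set.disjoint_left.mp (hD b hb) h1 hw
  have hEE : ∀ a < 5, ∀ b < 5, a ≠ b → E a ≠ E b := by
    intro a ha b hb hab h
    have h1 := hv a ha
    have h2 := hv a ha
    rw [← (hE a ha).2, h, (hE b hb).2] at h2
    exact Set.disjoint_left.mp (hdis a ha b hb hab) h1 h2
  -- the use of Z1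
  have hZ1 : ∀ a < 5, ∀ b < 5, ∀ c < 5, b ≠ c → ∀ A B : Set V, A ⊆ C a → B ⊆ C a → Conn G A →
      Conn G B → Disjoint A B → (∃ y ∈ A, G.Adj y (v b)) → (∃ y ∈ A, G.Adj y (v c)) →
      (∃ y ∈ B, G.Adj y (v b)) → ¬ ∃ y ∈ B, G.Adj y (v c) := by
    intro a ha b hb c hc hbc A B hA hB cA cB hAB h1 h2 h3 h4
    obtain ⟨y1, hy1, hyv1⟩ := h1
    obtain ⟨y2, hy2, hyv2⟩ := h2
    obtain ⟨y3, hy3, hyv3⟩ := h3
    obtain ⟨y4, hy4, hyv4⟩ := h4
    refine hZ.z1 (C a) (E b) (E c) A B (hC a ha).1.1 (hE b hb).1.1 (hE c hc).1.1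
      (hC a ha).1.2.1 (hE b hb).1.2.1 (hE c hc).1.2.1 ((hC a ha).1.sp (hE b hb).1 (hCE a ha b hb))
      ((hC a ha).1.sp (hE c hc).1 (hCE a ha c hc)) ((hE b hb).1.sp (hE c hc).1 (hEE b hb c hc hbc))
      ?_ hA hB cA cB hAB ?_ ?_ ?_ ?_
    · rw [(hE b hb).2, (hE c hc).2]
      exact hdis b hb c hc hbc
    · rw [(hE b hb).2]
      exact ⟨y1, hy1, v b, hv b hb, hyv1⟩
    · rw [(hE c hc).2]
      exact ⟨y2, hy2, v c, hv c hc, hyv2⟩
    · rw [(hE b hb).2]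
      exact ⟨y3, hy3, v b, hv b hb, hyv3⟩
    · rw [(hE c hc).2]
      exact ⟨y4, hy4, v c, hv c hc, hyv4⟩
  -- (1)
  have h24 : C 2 ≠ C 4 := by
    intro h
    have hzz : z 2 ≠ z 4 := by
      intro h1
      exact hnadj 2 (by norm_num) 2 (by norm_num) (by norm_num)
        (h1 ▸ hadj 4 (by norm_num) 2 (by norm_num) (by norm_num))
    refine hZ1 2 (by norm_num) 0 (by norm_num) 1 (by norm_num) (by norm_num) {z 2} {z 4}
      (Set.singleton_subset_iff.mpr (hC 2 (by norm_num)).2.1)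
      (Set.singleton_subset_iff.mpr (h ▸ (hC 4 (by norm_num)).2.1))
      (Conn.singleton G _) (Conn.singleton G _) ?_
      ⟨z 2, rfl, hadj 2 (by norm_num) 0 (by norm_num) (by norm_num)⟩
      ⟨z 2, rfl, hadj 2 (by norm_num) 1 (by norm_num) (by norm_num)⟩
      ⟨z 4, rfl, hadj 4 (by norm_num) 0 (by norm_num) (by norm_num)⟩
      ⟨z 4, rfl, hadj 4 (by norm_num) 1 (by norm_num) (by norm_num)⟩
    rw [Set.disjoint_left]
    rintro w rfl h1
    exact hzz h1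
  -- (2)
  have hv4 : v 4 ∉ mi G P (C 4) := by
    intro h
    exact Set.disjoint_left.mp (hD 4 (by norm_num)) ((hC 4 (by norm_num)).2.2.2 h)
      (hv 4 (by norm_num))
  obtain ⟨y, hyC, hvy⟩ := not_mi (hvP 4 (by norm_num)) hv4
  have hyz : y ≠ z 4 := by
    rintro rfl
    exact hnadj 4 (by norm_num) 4 (by norm_num) (by norm_num) hvy.symm
  obtain ⟨R, hRsub, hyR, hRc, hRn⟩ := exists_comp G
    (show y ∈ C 4 \ {z 4} from ⟨hyC, hyz⟩)
  have hRC : R ⊆ C 4 := fun w hw => (hRsub hw).1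
  have hzR : z 4 ∉ R := fun h => (hRsub h).2 rfl
  have hone : ∀ b < 4, ∀ c < 4, b ≠ c → (∃ r ∈ R, G.Adj r (v b)) → ¬ ∃ r ∈ R, G.Adj r (v c) := by
    intro b hb c hc hbc h1 h2
    refine hZ1 4 (by norm_num) b (by omega) c (by omega) hbc {z 4} R
      (Set.singleton_subset_iff.mpr (hC 4 (by norm_num)).2.1) hRC (Conn.singleton G _) hRc ?_
      ⟨z 4, rfl, hadj 4 (by norm_num) b (by omega) (by omega)⟩
      ⟨z 4, rfl, hadj 4 (by norm_num) c (by omega) (by omega)⟩ h1 h2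
    rw [Set.disjoint_left]
    rintro w rfl h3
    exact hzR h3
  have hmi : ∀ b < 5, (¬ ∃ r ∈ R, G.Adj r (v b)) → v b ∈ mi G P R := by
    intro b hb h
    exact ⟨hvP b hb, fun r hr h1 => h ⟨r, hr, h1.symm⟩⟩
  -- (3)
  obtain ⟨c, hc2, hc4, hcR⟩ : ∃ c, 2 ≤ c ∧ c < 4 ∧ ¬ ∃ r ∈ R, G.Adj r (v c) := by
    by_cases h : ∃ r ∈ R, G.Adj r (v 2)
    · exact ⟨3, by norm_num, by norm_num, hone 2 (by norm_num) 3 (by norm_num) (by norm_num) h⟩
    · exact ⟨2, by norm_num, by norm_num, h⟩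
  have hsp : Sp G {z 2} R := ((hC 2 (by norm_num)).1.sp (hC 4 (by norm_num)).1 h24).mono
    (Set.singleton_subset_iff.mpr (hC 2 (by norm_num)).2.1) hRC
  have hmz : ∀ b < 5, ¬ b < 2 → v b ∈ mi G P {z 2} := by
    intro b hb hb2
    exact mem_mi_singleton.mpr ⟨hvP b hb, fun h =>
      hnadj 2 (by norm_num) b hb hb2 h.symm⟩
  rcases hZ.z2 {z 2} R
    (Set.singleton_subset_iff.mpr ((hC 2 (by norm_num)).1.1 (hC 2 (by norm_num)).2.1))
    (hRC.trans (hC 4 (by norm_num)).1.1) (Conn.singleton G _) hRc hsp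
    ⟨v c, hmz c (by omega) (by omega), hmi c (by omega) hcR⟩ with h | h
  · exact (h (hmz 4 (by norm_num) (by norm_num))).2 y hyR hvy
  · have hlast : ∀ b < 2, ¬ ¬ ∃ r ∈ R, G.Adj r (v b) := by
      intro b hb h1
      have h2 := h (hmi b (by omega) h1)
      exact (mem_mi_singleton.mp h2).2 (hadj 2 (by norm_num) b (by omega) hb).symm
    exact hone 0 (by norm_num) 1 (by norm_num) (by norm_num)
      (not_not.mp (hlast 0 (by norm_num))) (not_not.mp (hlast 1 (by norm_num)))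

end Pool.Agent.MPd439b2.CR
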