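import Pool.Agent.Lib.MP_d439b2_co.CR.SpecB

/-!
# MP_d439b2_co, CR/PhM: inner vertices against members, matching (helper25, task 11922)
-/

set_option autoImplicit false

namespace Pool.Agent.MPd439b2.CR

open Pool.Agent.MPd439b2 Pool.Agent.MPd439b2.A0 Pool.Agent.MPd439b2.Rep

theorem phM (h : S_KK) : S_PhM := by
  intro t V G P hZ hJ M z hM hcom hz hadj
  obtain ⟨N, hN⟩ : ∃ N, N = (t + 3) ^ 2 := ⟨_, rfl⟩
  have hN3 : 3 ≤ N := by rw [hN]; exact le_trans (by omega : 3 ≤ t + 3) (Nat.le_self_pow two_ne_zero _)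
  rw [← hN] at hM hcom hz hadj
  have hv : ∀ a, ∃ v, a < N → v ∈ M a := by
    intro a
    by_cases ha : a < N
    · obtain ⟨v, hv⟩ := (hM a ha).1
      exact ⟨v, fun _ => hv⟩
    · exact ⟨z 0, fun h => absurd h ha⟩
  choose v hv using hv
  have hvP : ∀ a < N, v a ∈ P := fun a ha => (hM a ha).sub (hv a ha)
  have hzv : ∀ a < N, ∀ b < N, (G.Adj (z a) (v b) ↔ a = b) := fun a ha b hb =>
    hadj a ha b hb (v b) (hv b hb)
  have hzz : ∀ a < N, ∀ b < N, a ≠ b → z a ≠ z b := by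
    intro a ha b hb hab h1
    have h2 := (hzv a ha a ha).2 rfl
    rw [h1] at h2
    exact hab ((hzv b hb a ha).1 h2).symm
  have hcl : ∀ a < N, ∀ b < N, a ≠ b → G.Adj (z a) (z b) := by
    intro a ha b hb hab
    by_contra hna
    obtain ⟨c, hc, hca, hcb⟩ : ∃ c < N, a ≠ c ∧ b ≠ c := by
      by_cases h0 : a ≠ 0 ∧ b ≠ 0
      · exact ⟨0, by omega, h0.1, h0.2⟩
      by_cases h1 : a ≠ 1 ∧ b ≠ 1
      · exact ⟨1, by omega, h1.1, h1.2⟩
      · exact ⟨2, by omega, by omega, by omega⟩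
    have hmem : ∀ d < N, ∀ e < N, d ≠ e → v e ∈ mi G P {z d} := fun d hd e he hde =>
      mem_mi_singleton.2 ⟨hvP e he, fun h1 => hde ((hzv d hd e he).1 h1.symm)⟩
    have hnm : ∀ d < N, v d ∉ mi G P {z d} := fun d hd h1 =>
      (mem_mi_singleton.1 h1).2 ((hzv d hd d hd).2 rfl).symm
    have hsp : Sp G {z a} {z b} := by
      refine ⟨Set.disjoint_singleton.2 (hzz a ha b hb hab), ?_⟩
      rintro ⟨x, rfl, y, rfl, h1⟩
      exact hna h1
    rcases hZ.z2 {z a} {z b} (Set.singleton_subset_iff.2 (hz a ha))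
      (Set.singleton_subset_iff.2 (hz b hb)) (Conn.singleton G _) (Conn.singleton G _) hsp
      ⟨v c, hmem a ha c hc hca, hmem b hb c hc hcb⟩ with h1 | h1
    · exact hnm b hb (h1 (hmem a ha b hb hab))
    · exact hnm a ha (h1 (hmem b hb a ha hab.symm))
  apply hJ
  refine h t V G z v ?_ ?_ ?_ <;> rw [← hN]
  · intro a ha b hb h1
    exact hz a ha (h1 ▸ hvP b hb)
  · intro a ha b hb hab
    exact ⟨hcl a ha b hb hab, hcom a ha b hb hab _ (hv a ha) _ (hv b hb)⟩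
  · exact hzv

end Pool.Agent.MPd439b2.CR
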