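import Pool.Agent.Lib.MP_d439b2_co.CR.SpecB

/-!
# MP_d439b2_co, CR/Phi: the rank of inner vertices against members (note 2828 of helper53)
-/

set_option autoImplicit false

namespace Pool.Agent.MPd439b2.CR

open Pool.Agent.MPd439b2 Pool.Agent.MPd439b2.A0 Pool.Agent.MPd439b2.Rep

namespace phiAux

/-- an increasing enumeration of the first `m` elements of a finite set -/
theorem enumT (T : Finset ℕ) (m : ℕ) (h : m ≤ T.card) : ∃ σ : ℕ → ℕ,
    (∀ k l, k < l → l < m → σ k < σ l) ∧ ∀ k < m, σ k ∈ T := by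
  classical
  refine ⟨fun k => if h : k < T.card then T.orderEmbOfFin rfl ⟨k, h⟩ else 0, ?_, ?_⟩
  · intro k l hkl hl
    have h1 : k < T.card := by omega
    have h2 : l < T.card := by omega
    simp only [dif_pos h1, dif_pos h2]
    exact (T.orderEmbOfFin rfl).strictMono hkl
  · intro k hk
    have h1 : k < T.card := by omega
    simp only [dif_pos h1]
    exact T.orderEmbOfFin_mem rfl _

/-- constant or injective -/
theorem pig {α : Type} (m : ℕ) (D : ℕ → α) : ∃ σ : ℕ → ℕ, (∀ k l, k < l → l < m → σ k < σ l) ∧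
    (∀ k < m, σ k < m * m) ∧ ((∀ k < m, ∀ l < m, D (σ k) = D (σ l)) ∨
      ∀ k < m, ∀ l < m, k ≠ l → D (σ k) ≠ D (σ l)) := by
  classical
  set S : Finset ℕ := Finset.range (m * m) with hS
  by_cases h : ∃ d, m ≤ (S.filter (fun x => D x = d)).card
  · obtain ⟨d, hd⟩ := h
    obtain ⟨σ, h1, h2⟩ := enumT _ m hd
    refine ⟨σ, h1, fun k hk => ?_, Or.inl fun k hk l hl => ?_⟩
    · have h3 := h2 k hk
      rw [Finset.mem_filter, hS, Finset.mem_range] at h3
      exact h3.1
    · rw [(Finset.mem_filter.mp (h2 k hk)).2, (Finset.mem_filter.mp (h2 l hl)).2]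
  · push Not at h
    rcases Nat.eq_zero_or_pos m with rfl | hm
    · exact ⟨fun _ => 0, fun k l _ hl => absurd hl (Nat.not_lt_zero l),
        fun k hk => absurd hk (Nat.not_lt_zero k), Or.inl fun k hk => absurd hk (Nat.not_lt_zero k)⟩
    have h1 : m ≤ (S.image D).card := by
      by_contra hlt
      push Not at hlt
      have h2 := Finset.card_le_mul_card_image S (f := D) (m - 1) (fun d _ => by
        have := h d
        omega)
      rw [hS, Finset.card_range] at h2
      have h3 : (m - 1) * (Finset.image D (Finset.range (m * m))).card ≤ (m - 1) * (m - 1) :=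
        Nat.mul_le_mul_left _ (by rw [hS] at hlt; omega)
      have h4 : (m - 1) * (m - 1) < m * m := Nat.mul_lt_mul'' (by omega) (by omega)
      omega
    have hrep : ∀ d ∈ S.image D, ∃ x ∈ S, D x = d := fun d hd => by
      obtain ⟨x, hx, hxd⟩ := Finset.mem_image.mp hd
      exact ⟨x, hx, hxd⟩
    choose! rep hr1 hr2 using hrep
    set T : Finset ℕ := (S.image D).image rep with hT
    have hTc : T.card = (S.image D).card := by
      rw [hT, Finset.card_image_of_injOn]
      intro d hd d' hd' hdd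
      rw [← hr2 d hd, ← hr2 d' hd']
      exact congrArg D hdd
    obtain ⟨σ, h2, h3⟩ := enumT T m (by rw [hTc]; exact h1)
    have h4 : ∀ k < m, ∃ d ∈ S.image D, rep d = σ k := fun k hk => Finset.mem_image.mp (h3 k hk)
    refine ⟨σ, h2, fun k hk => ?_, Or.inr fun k hk l hl hkl hD => ?_⟩
    · obtain ⟨d, hd, hd'⟩ := h4 k hk
      rw [← hd']
      exact Finset.mem_range.mp (hr1 d hd)
    · obtain ⟨d, hd, hd'⟩ := h4 k hk
      obtain ⟨d', hd1, hd1'⟩ := h4 l hl
      rw [← hd', ← hd1', hr2 d hd, hr2 d' hd1] at hD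
      subst hD
      rw [hd'] at hd1'
      rcases lt_or_gt_of_ne hkl with h5 | h5
      · have := h2 k l h5 hl
        omega
      · have := h2 l k h5 hk
        omega

/-- the properties of the three relations -/
structure Rel (R : ℕ → ℕ → Prop) : Prop where
  mono : ∀ (m : ℕ) (σ : ℕ → ℕ), (∀ k l, k < l → l < m → σ k < σ l) →
    ∀ i < m, ∀ j < m, (R (σ i) (σ j) ↔ R i j)
  row : ∀ i j, i < j → ∃ l ≤ j, ¬ (R i l ↔ R j l)
  col : ∀ i j, i < j → ∃ l ≤ j, ¬ (R l i ↔ R l j)

theorem inj_of {m : ℕ} {σ : ℕ → ℕ} (h : ∀ k l, k < l → l < m → σ k < σ l) {i j : ℕ} (hi : i < m)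
    (hj : j < m) : σ i = σ j ↔ i = j := by
  refine ⟨fun h1 => ?_, fun h1 => h1 ▸ rfl⟩
  by_contra h2
  rcases lt_or_gt_of_ne h2 with h3 | h3
  · exact absurd h1 (h i j h3 hj).ne
  · exact absurd h1.symm (h j i h3 hi).ne

theorem rel_eq : Rel (fun i j => i = j) where
  mono m σ h i hi j hj := inj_of h hi hj
  row i j h := ⟨i, h.le, by simp [h.ne']⟩
  col i j h := ⟨i, h.le, by simp [h.ne]⟩

theorem rel_ne : Rel (fun i j => i ≠ j) where
  mono m σ h i hi j hj := not_congr (inj_of h hi hj)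
  row i j h := ⟨i, h.le, by simp [h.ne']⟩
  col i j h := ⟨i, h.le, by simp [h.ne]⟩

theorem rel_le : Rel (fun i j => i ≤ j) where
  mono m σ h i hi j hj := by
    constructor
    · intro h1
      by_contra h2
      push Not at h2
      have := h j i h2 hi
      omega
    · intro h1
      rcases h1.eq_or_lt with h2 | h2
      · exact (congrArg σ h2).le
      · exact (h i j h2 hj).le
  row i j h := ⟨i, h.le, by
    intro h1
    have := h1.1 le_rfl
    omega⟩
  col i j h := ⟨j, le_rfl, by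
    intro h1
    have := h1.2 le_rfl
    omega⟩

/-- one cell or different cells -/
theorem core {V : Type} {G : SimpleGraph V} {P : Set V} {F I I' : Set (Set V)} (hDF : DF G P F)
    (hbad : ∀ M ∈ F, ¬ Bad G P M) (hI : I ⊆ F) (hI' : I' ⊆ F) (hII : Disjoint I I') {m : ℕ}
    {R : ℕ → ℕ → Prop} (hR : Rel R) {a b : ℕ → V}
    (hab : BP G {z | ∃ M ∈ I, z ∈ ins G P M} (⋃₀ I') (m * m) a b R) :
    ∃ (a b : ℕ → V) (D M : ℕ → Set V), (∀ i < m, D i ∈ I ∧ a i ∈ ins G P (D i)) ∧
      (∀ i < m, M i ∈ I' ∧ b i ∈ M i) ∧ (∀ i < m, ∀ j < m, i ≠ j → M i ≠ M j) ∧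
      (∀ i < m, ∀ j < m, D i ≠ M j) ∧
      (∀ i < m, ∀ j < m, ∀ x ∈ M j, (G.Adj (a i) x ↔ R i j)) ∧
      ((∀ k < m, ∀ l < m, D k = D l) ∨ ∀ k < m, ∀ l < m, k ≠ l → D k ≠ D l) := by
  classical
  obtain ⟨ha, hb, hadj⟩ := hab
  have ha' : ∀ i < m * m, ∃ D ∈ I, a i ∈ ins G P D := ha
  have hb' : ∀ i < m * m, ∃ M ∈ I', b i ∈ M := fun i hi => hb i hi
  choose! D hD1 hD2 using ha'
  choose! M hM1 hM2 using hb'
  obtain ⟨σ, s1, s2, s3⟩ := pig m D
  have hDM : ∀ i < m * m, ∀ j < m * m, D i ≠ M j := fun i hi j hj h =>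
    Set.disjoint_left.mp hII (hD1 i hi) (h ▸ hM1 j hj)
  have hcon : ∀ i < m * m, ∀ j < m * m, ∀ x ∈ M j, (G.Adj (a i) x ↔ R i j) := by
    intro i hi j hj x hx
    rw [← hadj i hi j hj]
    have h1 : a i ∉ P := ins_compl P _ (hD2 i hi)
    have h2 : a i ∉ ins G P (M j) := by
      intro h3
      exact Set.disjoint_left.mp (cel_disj (hDF.1 _ (hI (hD1 i hi))).sub
        (hDF.1 _ (hI' (hM1 j hj))).sub (hDF.2 _ (hI (hD1 i hi)) _ (hI' (hM1 j hj)) (hDM i hi j hj)))
        (Or.inr (hD2 i hi)) (Or.inr h3)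
    by_contra h3
    apply hbad (M j) (hI' (hM1 j hj))
    by_cases h4 : G.Adj (a i) x
    · exact ⟨a i, h1, h2, ⟨x, hx, h4⟩, b j, hM2 j hj, fun h5 => h3 (iff_of_true h4 h5)⟩
    · exact ⟨a i, h1, h2, ⟨b j, hM2 j hj, by_contra fun h5 => h3 (iff_of_false h4 h5)⟩, x, hx, h4⟩
  have hne : ∀ i j, i < j → j < m * m → M i ≠ M j := by
    intro i j hij hj h
    obtain ⟨l, hl, h1⟩ := hR.col i j hij
    apply h1
    have h2 := hcon l (by omega) j hj (b i) (h ▸ hM2 i (by omega))
    rw [← hadj l (by omega) i (by omega)]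
    exact h2
  refine ⟨fun i => a (σ i), fun i => b (σ i), fun i => D (σ i), fun i => M (σ i),
    fun i hi => ⟨hD1 _ (s2 i hi), hD2 _ (s2 i hi)⟩, fun i hi => ⟨hM1 _ (s2 i hi), hM2 _ (s2 i hi)⟩,
    fun i hi j hj hij => ?_, fun i hi j hj => hDM _ (s2 i hi) _ (s2 j hj), fun i hi j hj x hx => ?_, s3⟩
  · rcases lt_or_gt_of_ne hij with h | h
    · exact hne _ _ (s1 i j h hj) (s2 j hj)
    · exact (hne _ _ (s1 j i h hi) (s2 i hi)).symm
  · rw [hcon _ (s2 i hi) _ (s2 j hj) x hx]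
    exact hR.mono m σ s1 i hi j hj

end phiAux

open phiAux

/-- **B8.** -/
theorem phi (h1 : S_Tv) (h2 : S_PhM) (h3 : S_PhC) (h4 : S_PhH) : S_Phi := by
  classical
  intro t
  obtain ⟨ρ, hρ⟩ := h1 t
  obtain ⟨m, hm⟩ : ∃ m, m = max (max ρ ((t + 3) ^ 2)) 6 := ⟨_, rfl⟩
  have m1 : ρ ≤ m := by rw [hm]; exact (le_max_left _ _).trans (le_max_left _ _)
  have m2 : (t + 3) ^ 2 ≤ m := by rw [hm]; exact (le_max_right _ _).trans (le_max_left _ _)
  have m3 : 6 ≤ m := by rw [hm]; exact le_max_right _ _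
  obtain ⟨c, hc⟩ := rk3 (m * m)
  refine ⟨c, ?_⟩
  intro V _ G P hZ hJ F hDF hcom hbad I hI I' hI' hII
  refine hc V G _ _ ?_
  -- different cells are impossible
  have key : ∀ (R : ℕ → ℕ → Prop), Rel R → ∀ (a b : ℕ → V) (D M : ℕ → Set V),
      (∀ i < m, D i ∈ I ∧ a i ∈ ins G P (D i)) → (∀ i < m, M i ∈ I' ∧ b i ∈ M i) →
      (∀ i < m, ∀ j < m, D i ≠ M j) → (∀ i < m, ∀ j < m, ∀ x ∈ M j, (G.Adj (a i) x ↔ R i j)) →
      ¬ ∀ k < m, ∀ l < m, k ≠ l → D k ≠ D l := by
    intro R hR a b D M hD hM hDM hadj hdif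
    obtain ⟨i, hi, j, hj, hij, h5⟩ := hρ V G P hZ hJ D a
      (fun i hi => hDF.1 _ (hI (hD i (by omega)).1))
      (fun i hi j hj hij => hDF.2 _ (hI (hD i (by omega)).1) _ (hI (hD j (by omega)).1)
        (hdif i (by omega) j (by omega) hij))
      (fun i hi => Or.inr (hD i (by omega)).2)
    have h6 : ∀ l < m, (R i l ↔ R j l) := by
      intro l hl
      rw [← hadj i (by omega) l hl (b l) (hM l hl).2, ← hadj j (by omega) l hl (b l) (hM l hl).2]
      refine h5 (b l) ((hDF.1 _ (hI' (hM l hl).1)).sub (hM l hl).2) (fun k hk hb => ?_)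
      exact Set.disjoint_left.mp (hDF.2 _ (hI (hD k (by omega)).1) _ (hI' (hM l hl).1)
        (hDM k (by omega) l hl)) hb (hM l hl).2
    rcases lt_or_gt_of_ne hij with h | h
    · obtain ⟨l, hl, h7⟩ := hR.row i j h
      exact h7 (h6 l (by omega))
    · obtain ⟨l, hl, h7⟩ := hR.row j i h
      exact h7 (h6 l (by omega)).symm
  rintro ⟨a₀, b₀, hab | hab | hab⟩
  · obtain ⟨a, b, D, M, hD, hM, hMM, hDM, hadj, h | h⟩ := core hDF hbad hI hI' hII rel_eq hab
    · refine h2 t V G P hZ hJ M a (fun i hi => hDF.1 _ (hI' (hM i (by omega)).1))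
        (fun i hi j hj hij => hcom _ (hI' (hM i (by omega)).1) _ (hI' (hM j (by omega)).1)
          (hMM i (by omega) j (by omega) hij))
        (fun i hi => ins_compl P _ (hD i (by omega)).2)
        (fun i hi j hj x hx => hadj i (by omega) j (by omega) x hx)
    · exact key _ rel_eq a b D M hD hM hDM hadj h
  · obtain ⟨a, b, D, M, hD, hM, hMM, hDM, hadj, h | h⟩ := core hDF hbad hI hI' hII rel_ne hab
    · refine h3 V G P hZ (D 0) M a (fun i hi => hDF.1 _ (hI' (hM i (by omega)).1))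
        (fun i hi j hj hij => hDF.2 _ (hI' (hM i (by omega)).1) _ (hI' (hM j (by omega)).1)
          (hMM i (by omega) j (by omega) hij))
        (fun i hi => hDF.2 _ (hI (hD 0 (by omega)).1) _ (hI' (hM i (by omega)).1)
          (hDM 0 (by omega) i (by omega)))
        (fun i hi => by
          rw [h 0 (by omega) i (by omega)]
          exact (hD i (by omega)).2)
        (fun i hi j hj x hx => hadj i (by omega) j (by omega) x hx)
    · exact key _ rel_ne a b D M hD hM hDM hadj h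
  · obtain ⟨a, b, D, M, hD, hM, hMM, hDM, hadj, h | h⟩ := core hDF hbad hI hI' hII rel_le hab
    · refine h4 V G P hZ (D 0) (fun i => M (4 - i)) (fun i => a (5 - i))
        (fun i hi => hDF.1 _ (hI' (hM _ (by omega)).1))
        (fun i hi j hj hij => hDF.2 _ (hI' (hM _ (by omega)).1) _ (hI' (hM _ (by omega)).1)
          (hMM _ (by omega) _ (by omega) (by omega)))
        (fun i hi => hDF.2 _ (hI (hD 0 (by omega)).1) _ (hI' (hM _ (by omega)).1)
          (hDM 0 (by omega) _ (by omega)))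
        (fun i hi => by
          rw [h 0 (by omega) (5 - i) (by omega)]
          exact (hD _ (by omega)).2)
        (fun i hi j hj x hx => by
          rw [hadj (5 - i) (by omega) (4 - j) (by omega) x hx]
          omega)
    · exact key _ rel_le a b D M hD hM hDM hadj h

end Pool.Agent.MPd439b2.CR
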