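import Pool.Agent.Lib.MP_d439b2_co.CR.SpecC

/-!
# MP_d439b2_co, CR: few pairs of classes carry all large thick spiders (helper9)
-/

set_option autoImplicit false

namespace Pool.Agent.MPd439b2.CR

open Pool.Agent.MPd439b2 Pool.Agent.MPd439b2.A0 Pool.Agent.MPd439b2.Rep

namespace PrsAux

variable {V : Type} {G : SimpleGraph V}

/-- enumeration of a finite set -/
theorem enum (S : Finset ℕ) (m : ℕ) (h : m ≤ S.card) :
    ∃ σ : ℕ → ℕ, (∀ k < m, σ k ∈ S) ∧ ∀ k < m, ∀ l < m, σ k = σ l → k = l := by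
  refine ⟨fun k => if hk : k < S.card then (S.equivFin.symm ⟨k, hk⟩ : ℕ) else 0, ?_, ?_⟩
  · intro k hk
    simp only [dif_pos (lt_of_lt_of_le hk h)]
    exact (S.equivFin.symm ⟨k, lt_of_lt_of_le hk h⟩).2
  · intro k hk l hl hkl
    simp only [dif_pos (lt_of_lt_of_le hk h), dif_pos (lt_of_lt_of_le hl h)] at hkl
    have h1 := S.equivFin.symm.injective (Subtype.ext hkl)
    exact congrArg Fin.val h1

theorem f1 (h5 : S_PA) (hK : ¬ IMS K401 G Set.univ) {m : ℕ} (hm : 9 ≤ m) : R3.F1 G m := by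
  rintro ⟨a, b, h⟩
  refine hK (h5 V G b (fun j => a (j + 1)) ?_ ?_ ?_)
  · intro i hi j hj hadj
    by_cases hij : i = j
    · subst hij
      exact hadj.ne rfl
    · exact ((h i (by omega) j (by omega)).2.1 hij).2.2.2 hadj
  · intro i hi j hj hadj
    by_cases hij : i = j
    · subst hij
      exact hadj.ne rfl
    · exact ((h (i + 1) (by omega) (j + 1) (by omega)).2.1 (by omega)).2.2.1 hadj
  · intro i hi j hj
    rw [G.adj_comm, (h (j + 1) (by omega) i (by omega)).2.2]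
    exact Nat.succ_le_iff

end PrsAux

open PrsAux in
/-- **Prs.** -/
theorem prs (h1 : S_Spl) (h2 : S_ACl) (h3 : S_BCl) (h4 : S_Pex) (h5 : A0.S_PA) : S_Prs := by
  intro hfacts m
  obtain ⟨m₀, hm₀⟩ : ∃ m₀, m₀ = max m 49 := ⟨_, rfl⟩
  have hm1 : m ≤ m₀ := hm₀ ▸ le_max_left _ _
  have hm2 : 49 ≤ m₀ := hm₀ ▸ le_max_right _ _
  obtain ⟨k, R, hkR⟩ := h1 m₀
  obtain ⟨p, hp⟩ := h2 m₀ R
  obtain ⟨w, hw⟩ := h3 hfacts m₀ k
  refine ⟨w * p, fun n => ⟨(n + 1) * (w * p) + R + k + 1, ?_⟩⟩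
  intro V _ G hFr hN1 hN2
  classical
  obtain ⟨B, hB1, hB2⟩ := hkR V G (hN1.mono hm1) (hN2.mono hm1)
  obtain ⟨cA, hcA⟩ := hp V G {x | x ∉ B} (hN1.mono hm1)
    (h4 4 m₀ V G hFr (by norm_num; exact hm2)).2.2.2 (f1 h5 hFr.1 (by omega))
    (fun K hKB hKc => hB2 K (Finset.disjoint_left.2 fun v hv => hKB (Finset.mem_coe.2 hv)) hKc)
  obtain ⟨cB, hcB⟩ := hw V G B hFr (hN2.mono hm1) hB1
  refine ⟨fun i => {x | x ∈ B ∧ (cB x : ℕ) = i / p}, fun i => {x | x ∉ B ∧ (cA x : ℕ) = i % p},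
    ?_, ?_, ?_⟩
  · rintro i _ x ⟨hx, hxi⟩ y ⟨hy, hyi⟩ hxy
    exact hcB x hx y hy (Fin.ext (hxi.trans hyi.symm)) hxy
  · rintro i _ x ⟨hx, hxi⟩ y ⟨hy, hyi⟩
    exact hcA x hx y hy (Fin.ext (hxi.trans hyi.symm))
  · intro x z hS
    obtain ⟨L, hL⟩ : ∃ L, L = (n + 1) * (w * p) + R + k + 1 := ⟨_, rfl⟩
    rw [← hL] at hS ⊢
    have xne : ∀ i < L, ∀ j < L, i ≠ j → x i ≠ x j := fun i hi j hj hij => (hS.kk i hi j hj hij).ne
    have zne : ∀ i < L, ∀ j < L, i ≠ j → z i ≠ z j := by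
      intro i hi j hj hij h
      have h6 := (hS.ks i hi j hj).2 hij
      rw [← h] at h6
      exact (hS.ks i hi i hi).1 h6 rfl
    let I1 := (Finset.range L).filter fun i => x i ∉ B
    let I2 := (Finset.range L).filter fun i => z i ∈ B
    have c1 : I1.card < R := by
      have h6 := hB2 (I1.image x) ?_ ?_
      · rwa [Finset.card_image_of_injOn] at h6
        intro i hi j hj hij
        by_contra hne
        exact xne i (Finset.mem_range.1 (Finset.mem_filter.1 hi).1) j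
          (Finset.mem_range.1 (Finset.mem_filter.1 hj).1) hne hij
      · rw [Finset.disjoint_left]
        intro v hv
        obtain ⟨i, hi, rfl⟩ := Finset.mem_image.1 hv
        exact (Finset.mem_filter.1 hi).2
      · intro u hu v hv huv
        obtain ⟨i, hi, rfl⟩ := Finset.mem_image.1 hu
        obtain ⟨j, hj, rfl⟩ := Finset.mem_image.1 hv
        exact hS.kk i (Finset.mem_range.1 (Finset.mem_filter.1 hi).1) j
          (Finset.mem_range.1 (Finset.mem_filter.1 hj).1) fun h => huv (by rw [h])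
    have c2 : I2.card < k := by
      have h6 := hB1 (I2.image z) ?_ ?_
      · rwa [Finset.card_image_of_injOn] at h6
        intro i hi j hj hij
        by_contra hne
        exact zne i (Finset.mem_range.1 (Finset.mem_filter.1 hi).1) j
          (Finset.mem_range.1 (Finset.mem_filter.1 hj).1) hne hij
      · intro v hv
        obtain ⟨i, hi, rfl⟩ := Finset.mem_image.1 hv
        exact (Finset.mem_filter.1 hi).2
      · intro u hu v hv
        obtain ⟨i, hi, rfl⟩ := Finset.mem_image.1 hu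
        obtain ⟨j, hj, rfl⟩ := Finset.mem_image.1 hv
        exact hS.ss i (Finset.mem_range.1 (Finset.mem_filter.1 hi).1) j
          (Finset.mem_range.1 (Finset.mem_filter.1 hj).1)
    let S := (Finset.range L) \ (I1 ∪ I2)
    have hSm : ∀ i ∈ S, i < L ∧ x i ∈ B ∧ z i ∉ B := by
      intro i hi
      obtain ⟨h6, h7⟩ := Finset.mem_sdiff.1 hi
      rw [Finset.mem_union, not_or] at h7
      refine ⟨Finset.mem_range.1 h6, ?_, ?_⟩
      · by_contra h8
        exact h7.1 (Finset.mem_filter.2 ⟨h6, h8⟩)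
      · intro h8
        exact h7.2 (Finset.mem_filter.2 ⟨h6, h8⟩)
    have c3 : (n + 1) * (w * p) < S.card := by
      have e1 := Finset.le_card_sdiff (I1 ∪ I2) (Finset.range L)
      have e2 := Finset.card_union_le I1 I2
      rw [Finset.card_range] at e1
      have e3 : (n + 1) * (w * p) + R + k + 1 ≤ S.card + (I1 ∪ I2).card := by
        rw [← hL]
        exact Nat.sub_le_iff_le_add.1 e1
      omega
    let e : ℕ → ℕ := fun i => (cB (x i) : ℕ) * p + (cA (z i) : ℕ)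
    have he : ∀ i ∈ S, e i ∈ Finset.range (w * p) := by
      intro i _
      rw [Finset.mem_range]
      have g1 := (cB (x i)).2
      have g2 := (cA (z i)).2
      show (cB (x i) : ℕ) * p + (cA (z i) : ℕ) < w * p
      calc (cB (x i) : ℕ) * p + (cA (z i) : ℕ) < (cB (x i) : ℕ) * p + p := by omega
        _ = ((cB (x i) : ℕ) + 1) * p := by ring
        _ ≤ w * p := Nat.mul_le_mul_right p g1
    obtain ⟨v, hv, hfib⟩ := Finset.exists_lt_card_fiber_of_mul_lt_card_of_maps_to he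
      (n := n) (by
        rw [Finset.card_range]
        calc w * p * n ≤ (n + 1) * (w * p) := by nlinarith
          _ < S.card := c3)
    obtain ⟨σ, hσ, hσi⟩ := enum _ n hfib.le
    refine ⟨v, Finset.mem_range.1 hv, σ, ?_, hσi, ?_⟩
    · intro j hj
      exact (hSm _ (Finset.mem_filter.1 (hσ j hj)).1).1
    · intro j hj
      obtain ⟨g1, g2⟩ := Finset.mem_filter.1 (hσ j hj)
      obtain ⟨_, g3, g4⟩ := hSm _ g1
      have hp0 : 0 < p := lt_of_le_of_lt (Nat.zero_le _) (cA (z (σ j))).2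
      have g5 : (cB (x (σ j)) : ℕ) * p + (cA (z (σ j)) : ℕ) = v := g2
      refine ⟨⟨g3, ?_⟩, ⟨g4, ?_⟩⟩
      · rw [← g5, Nat.mul_comm, Nat.mul_add_div hp0, Nat.div_eq_of_lt (cA (z (σ j))).2,
          Nat.add_zero]
      · rw [← g5, Nat.mul_comm, Nat.mul_add_mod, Nat.mod_eq_of_lt (cA (z (σ j))).2]

end Pool.Agent.MPd439b2.CR
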