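import Pool.Agent.Lib.MP_d439b2_co.CR.SpecA

/-!
# MP_d439b2_co, CR/QC: inner transversals, co-matching
-/

set_option autoImplicit false

namespace Pool.Agent.MPd439b2.CR

open Pool.Agent.MPd439b2 Pool.Agent.MPd439b2.A0

theorem qC : S_QC := by
  classical
  intro V G P C z u hZ hS hz hu huC h
  have hCP : ∀ a < 5, C a ⊆ Pᶜ := fun a ha => (hS.cmp a ha).1
  obtain ⟨q, hq⟩ : ∃ q : ℕ → V, ∀ a < 5, q a ∈ mi G P (C a) := by
    have h1 : ∀ a, ∃ q : V, a < 5 → q ∈ mi G P (C a) := by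
      intro a
      by_cases ha : a < 5
      · obtain ⟨q, hq⟩ := hS.ne a ha
        exact ⟨q, fun _ => hq⟩
      · exact ⟨z 0, fun h => absurd h ha⟩
    choose q hq using h1
    exact ⟨q, fun a ha => hq a ha⟩
  have hqP : ∀ a < 5, q a ∈ P := fun a ha => (hq a ha).1
  have muz : ∀ a < 5, ∀ b < 5, (u b ∈ mi G P {z a} ↔ a = b) := by
    intro a ha b hb
    rw [mem_mi_singleton, SimpleGraph.adj_comm, h a ha b hb]
    exact ⟨fun h1 => not_not.1 h1.2, fun h1 => ⟨hu b hb, not_not.2 h1⟩⟩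
  -- (1)
  have h1 : ∀ a < 5, ∀ b < 5, a ≠ b → G.Adj (z a) (q b) := by
    intro a ha b hb hab
    by_contra hcon
    have hsp : Sp G {z a} {z b} := (hS.sp ha hb hab).mono
      (Set.singleton_subset_iff.2 (hz a ha)) (Set.singleton_subset_iff.2 (hz b hb))
    have m1 : q b ∈ mi G P {z a} := mem_mi_singleton.2 ⟨hqP b hb, fun h1 => hcon h1.symm⟩
    have m2 : q b ∈ mi G P {z b} := mi_anti (Set.singleton_subset_iff.2 (hz b hb)) (hq b hb)
    rcases hZ.z2 {z a} {z b} (Set.singleton_subset_iff.2 (hCP a ha (hz a ha)))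
      (Set.singleton_subset_iff.2 (hCP b hb (hz b hb))) (Conn.singleton G _) (Conn.singleton G _) hsp
      ⟨q b, m1, m2⟩ with h2 | h2
    · exact hab ((muz b hb a ha).1 (h2 ((muz a ha a ha).2 rfl))).symm
    · exact hab ((muz a ha b hb).1 (h2 ((muz b hb b hb).2 rfl)))
  -- (2)
  obtain ⟨y, hy⟩ : ∃ y : ℕ → V, ∀ a < 5, y a ∈ C a ∧ G.Adj (u a) (y a) := by
    have h2 : ∀ a, ∃ y : V, a < 5 → y ∈ C a ∧ G.Adj (u a) y := by
      intro a
      by_cases ha : a < 5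
      · obtain ⟨y, hy, hy'⟩ := not_mi (hu a ha) (huC a ha a ha)
        exact ⟨y, fun _ => ⟨hy, hy'⟩⟩
      · exact ⟨z 0, fun h => absurd h ha⟩
    choose y hy using h2
    exact ⟨y, fun a ha => hy a ha⟩
  have hyz : ∀ a < 5, y a ≠ z a := by
    intro a ha h2
    have h3 := (hy a ha).2
    rw [h2] at h3
    exact (h a ha a ha).1 h3.symm rfl
  -- (3)
  have h3 : ∀ a < 5, ∀ b < 5, ∀ c < 5, a ≠ b → a ≠ c → b ≠ c → G.Adj (y a) (q b) →
      ¬ G.Adj (y a) (q c) := by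
    intro a ha b hb c hc hab hac hbc h4 h5
    refine hZ.z1 (C a) (C b) (C c) {z a} {y a} (hCP a ha) (hCP b hb) (hCP c hc) (hS.cmp a ha).2.1
      (hS.cmp b hb).2.1 (hS.cmp c hc).2.1 (hS.sp ha hb hab) (hS.sp ha hc hac) (hS.sp hb hc hbc)
      (hS.dis b hb c hc hbc) (Set.singleton_subset_iff.2 (hz a ha))
      (Set.singleton_subset_iff.2 (hy a ha).1) (Conn.singleton G _) (Conn.singleton G _)
      (Set.disjoint_singleton.2 (hyz a ha).symm) ⟨z a, rfl, q b, hq b hb, h1 a ha b hb hab⟩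
      ⟨z a, rfl, q c, hq c hc, h1 a ha c hc hac⟩ ⟨y a, rfl, q b, hq b hb, h4⟩
      ⟨y a, rfl, q c, hq c hc, h5⟩
  -- (4), (5)
  obtain ⟨f, hf⟩ : ∃ f : ℕ → ℕ, ∀ a < 5, ∀ b < 5, a ≠ b → b ≠ f a → ¬ G.Adj (y a) (q b) := by
    have h4 : ∀ a, ∃ j : ℕ, a < 5 → ∀ b < 5, a ≠ b → b ≠ j → ¬ G.Adj (y a) (q b) := by
      intro a
      by_cases ha : a < 5 ∧ ∃ j < 5, a ≠ j ∧ G.Adj (y a) (q j)
      · obtain ⟨ha, j, hj, haj, hj'⟩ := ha
        exact ⟨j, fun _ b hb hab hbj => h3 a ha j hj b hb haj hab hbj.symm hj'⟩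
      · exact ⟨0, fun ha' b hb hab _ h5 => ha ⟨ha', b, hb, hab, h5⟩⟩
    choose f hf using h4
    exact ⟨f, fun a ha => hf a ha⟩
  obtain ⟨a, b, ha, hb, hab, hfa, hfb⟩ : ∃ a b, a < 5 ∧ b < 5 ∧ a ≠ b ∧ b ≠ f a ∧ a ≠ f b := by
    by_contra hcon
    push Not at hcon
    have e01 := hcon 0 1 (by omega) (by omega) (by omega)
    have e02 := hcon 0 2 (by omega) (by omega) (by omega)
    have e03 := hcon 0 3 (by omega) (by omega) (by omega)
    have e12 := hcon 1 2 (by omega) (by omega) (by omega)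
    have e13 := hcon 1 3 (by omega) (by omega) (by omega)
    have e23 := hcon 2 3 (by omega) (by omega) (by omega)
    omega
  obtain ⟨c, hc, hca, hcb, hcfa, hcfb⟩ : ∃ c < 5, c ≠ a ∧ c ≠ b ∧ c ≠ f a ∧ c ≠ f b := by
    by_contra hcon
    push Not at hcon
    have e0 := hcon 0 (by omega)
    have e1 := hcon 1 (by omega)
    have e2 := hcon 2 (by omega)
    have e3 := hcon 3 (by omega)
    have e4 := hcon 4 (by omega)
    omega
  -- (6)
  have h6 : ∀ a < 5, ∀ b < 5, a ≠ b → c ≠ a → c ≠ b → ¬ G.Adj (y a) (q b) → ¬ G.Adj (y a) (q c) →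
      u b ∈ mi G P {y a} := by
    intro a ha b hb hab hca hcb h7 h8
    have hsp : Sp G {y a} {z b} := (hS.sp ha hb hab).mono
      (Set.singleton_subset_iff.2 (hy a ha).1) (Set.singleton_subset_iff.2 (hz b hb))
    have m1 : q b ∈ mi G P {y a} := mem_mi_singleton.2 ⟨hqP b hb, fun h1 => h7 h1.symm⟩
    have m2 : q b ∈ mi G P {z b} := mi_anti (Set.singleton_subset_iff.2 (hz b hb)) (hq b hb)
    rcases hZ.z2 {y a} {z b} (Set.singleton_subset_iff.2 (hCP a ha (hy a ha).1))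
      (Set.singleton_subset_iff.2 (hCP b hb (hz b hb))) (Conn.singleton G _) (Conn.singleton G _) hsp
      ⟨q b, m1, m2⟩ with h9 | h9
    · exfalso
      have m3 : q c ∈ mi G P {y a} := mem_mi_singleton.2 ⟨hqP c hc, fun h1 => h8 h1.symm⟩
      exact (mem_mi_singleton.1 (h9 m3)).2 (h1 b hb c hc hcb.symm).symm
    · exact h9 ((muz b hb b hb).2 rfl)
  have nab := hf a ha b hb hab hfa
  have nba := hf b hb a ha hab.symm hfb
  have nac := hf a ha c hc hca.symm hcfa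
  have nbc := hf b hb c hc hcb.symm hcfb
  have u1 := h6 a ha b hb hab hca hcb nab nac
  have u2 := h6 b hb a ha hab.symm hcb hca nba nbc
  -- (7)
  have hsp : Sp G {y a} {y b} := (hS.sp ha hb hab).mono
    (Set.singleton_subset_iff.2 (hy a ha).1) (Set.singleton_subset_iff.2 (hy b hb).1)
  rcases hZ.z2 {y a} {y b} (Set.singleton_subset_iff.2 (hCP a ha (hy a ha).1))
    (Set.singleton_subset_iff.2 (hCP b hb (hy b hb).1)) (Conn.singleton G _) (Conn.singleton G _) hsp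
    ⟨q c, mem_mi_singleton.2 ⟨hqP c hc, fun h1 => nac h1.symm⟩,
      mem_mi_singleton.2 ⟨hqP c hc, fun h1 => nbc h1.symm⟩⟩ with h9 | h9
  · exact (mem_mi_singleton.1 (h9 u1)).2 (hy b hb).2
  · exact (mem_mi_singleton.1 (h9 u2)).2 (hy a ha).2

end Pool.Agent.MPd439b2.CR
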