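import Pool.Agent.Lib.MP_d439b2_co.CR.SpecA

/-!
# MP_d439b2_co, CR/QH: inner transversals, half graphs
-/

set_option autoImplicit false

namespace Pool.Agent.MPd439b2.CR

open Pool.Agent.MPd439b2 Pool.Agent.MPd439b2.A0

theorem qH : S_QH := by
  classical
  intro V G P C z u hZ hS hz hu h
  have hCP : ∀ a < 4, C a ⊆ Pᶜ := fun a ha => (hS.cmp a ha).1
  obtain ⟨q, hq⟩ : ∃ q : ℕ → V, ∀ a < 4, q a ∈ mi G P (C a) := by
    have h1 : ∀ a, ∃ q : V, a < 4 → q ∈ mi G P (C a) := by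
      intro a
      by_cases ha : a < 4
      · obtain ⟨q, hq⟩ := hS.ne a ha
        exact ⟨q, fun _ => hq⟩
      · exact ⟨z 0, fun h => absurd h ha⟩
    choose q hq using h1
    exact ⟨q, fun a ha => hq a ha⟩
  have hqP : ∀ a < 4, q a ∈ P := fun a ha => (hq a ha).1
  have muz : ∀ a < 4, ∀ b < 4, (u b ∈ mi G P {z a} ↔ a ≤ b) := by
    intro a ha b hb
    rw [mem_mi_singleton, SimpleGraph.adj_comm, h a ha b hb, not_lt]
    exact ⟨fun h1 => h1.2, fun h1 => ⟨hu b hb, h1⟩⟩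
  -- (1)
  have h1 : ∀ a < 4, ∀ b < 4, a ≤ b → ¬ G.Adj (z a) (q b) := by
    intro a ha b hb hab
    have m2 : q b ∈ mi G P {z b} := mi_anti (Set.singleton_subset_iff.2 (hz b hb)) (hq b hb)
    rcases Nat.eq_or_lt_of_le hab with rfl | hab'
    · intro h2
      exact (mem_mi_singleton.1 m2).2 h2.symm
    · have hsp : Sp G {z a} {z b} := (hS.sp ha hb hab'.ne).mono
        (Set.singleton_subset_iff.2 (hz a ha)) (Set.singleton_subset_iff.2 (hz b hb))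
      rcases hZ.z2 {z a} {z b} (Set.singleton_subset_iff.2 (hCP a ha (hz a ha)))
        (Set.singleton_subset_iff.2 (hCP b hb (hz b hb))) (Conn.singleton G _) (Conn.singleton G _) hsp
        ⟨u 3, (muz a ha 3 (by omega)).2 (by omega), (muz b hb 3 (by omega)).2 (by omega)⟩ with h2 | h2
      · have h3 := (muz b hb a ha).1 (h2 ((muz a ha a ha).2 le_rfl))
        omega
      · intro h3
        exact (mem_mi_singleton.1 (h2 m2)).2 h3.symm
  have hqq : ∀ a < 4, ∀ b < 4, a ≠ b → q a ≠ q b := by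
    intro a ha b hb hab h2
    exact Set.disjoint_left.1 (hS.dis a ha b hb hab) (hq a ha) (h2 ▸ hq b hb)
  -- (2)
  have h2 : ∀ a < 4, a ≠ 0 → ∃ R, Cmp G (C 0 \ {z 0}) R ∧ ∃ r ∈ R, G.Adj (q a) r := by
    intro a ha ha0
    have h3 : q a ∉ mi G P (C 0) := fun h4 =>
      Set.disjoint_left.1 (hS.dis 0 (by omega) a ha ha0.symm) h4 (hq a ha)
    obtain ⟨y, hy, hy'⟩ := not_mi (hqP a ha) h3
    have hyz : y ≠ z 0 := by
      rintro rfl
      exact h1 0 (by omega) a ha (by omega) hy'.symm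
    obtain ⟨R, hR, hR'⟩ := exists_cmp (G := G) (show y ∈ C 0 \ {z 0} from ⟨hy, hyz⟩)
    exact ⟨R, hR, y, hR', hy'⟩
  have cmpr : ∀ R R' : Set V, Cmp G (C 0 \ {z 0}) R → Cmp G (C 0 \ {z 0}) R' →
      mi G P R ⊆ mi G P R' ∨ mi G P R' ⊆ mi G P R := by
    intro R R' hR hR'
    have hR1 : R ⊆ C 0 := fun v hv => (hR.1 hv).1
    have hR2 : R' ⊆ C 0 := fun v hv => (hR'.1 hv).1
    by_cases he : R = R'
    · rw [he]
      exact Or.inl subset_rfl
    · exact hZ.z2 R R' (hR1.trans (hCP 0 (by omega))) (hR2.trans (hCP 0 (by omega))) hR.2.1 hR'.2.1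
        (hR.sp hR' he) ⟨q 0, mi_anti hR1 (hq 0 (by omega)), mi_anti hR2 (hq 0 (by omega))⟩
  obtain ⟨R, hR, hR1, hR2, hR3⟩ : ∃ R, Cmp G (C 0 \ {z 0}) R ∧ q 1 ∉ mi G P R ∧ q 2 ∉ mi G P R ∧
      q 3 ∉ mi G P R := by
    obtain ⟨R1, c1, r1, hr1, e1⟩ := h2 1 (by omega) (by omega)
    obtain ⟨R2, c2, r2, hr2, e2⟩ := h2 2 (by omega) (by omega)
    obtain ⟨R3, c3, r3, hr3, e3⟩ := h2 3 (by omega) (by omega)
    have n1 : q 1 ∉ mi G P R1 := fun h3 => h3.2 r1 hr1 e1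
    have n2 : q 2 ∉ mi G P R2 := fun h3 => h3.2 r2 hr2 e2
    have n3 : q 3 ∉ mi G P R3 := fun h3 => h3.2 r3 hr3 e3
    rcases cmpr R1 R2 c1 c2 with h12 | h12
    · rcases cmpr R1 R3 c1 c3 with h13 | h13
      · exact ⟨R1, c1, n1, fun h3 => n2 (h12 h3), fun h3 => n3 (h13 h3)⟩
      · exact ⟨R3, c3, fun h3 => n1 (h13 h3), fun h3 => n2 (h12 (h13 h3)), n3⟩
    · rcases cmpr R2 R3 c2 c3 with h23 | h23
      · exact ⟨R2, c2, fun h3 => n1 (h12 h3), n2, fun h3 => n3 (h23 h3)⟩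
      · exact ⟨R3, c3, fun h3 => n1 (h12 (h23 h3)), fun h3 => n2 (h23 h3), n3⟩
  have hRC : R ⊆ C 0 := fun v hv => (hR.1 hv).1
  have hRz : z 0 ∉ R := fun h3 => (hR.1 h3).2 rfl
  have hz0 : ∃ r ∈ R, G.Adj (z 0) r := by
    obtain ⟨b, hb, a, ha, hab⟩ := (hS.cmp 0 (by omega)).2.1.2 R hRC hR.2.1.1
      (fun h3 => hRz (h3 ▸ hz 0 (by omega)))
    have h3 : a = z 0 := by
      by_contra h4
      exact ha.2 (hR.mem_of_adj hb ⟨ha.1, h4⟩ hab)
    rw [h3] at hab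
    exact ⟨b, hb, hab.symm⟩
  have h01 : Sp G (C 0) (C 1) := hS.sp (by omega) (by omega) (by omega)
  refine hZ.z3 R (z 0) (z 1) (u 0) (q 1) (q 2) (q 3) (hRC.trans (hCP 0 (by omega))) hR.2.1
    (hCP 0 (by omega) (hz 0 (by omega))) (hCP 1 (by omega) (hz 1 (by omega))) hRz
    (fun h3 => Set.disjoint_left.1 h01.1 (hRC h3) (hz 1 (by omega)))
    (h01.ne (hz 0 (by omega)) (hz 1 (by omega))) (h01.not_adj (hz 0 (by omega)) (hz 1 (by omega)))
    hz0 (fun r hr h3 => h01.not_adj (hRC hr) (hz 1 (by omega)) h3.symm) (hu 0 (by omega))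
    (hqP 1 (by omega)) (hqP 2 (by omega)) (hqP 3 (by omega)) (hqq 1 (by omega) 2 (by omega) (by omega))
    (hqq 1 (by omega) 3 (by omega) (by omega)) (hqq 2 (by omega) 3 (by omega) (by omega))
    ((h 1 (by omega) 0 (by omega)).2 (by omega)) (fun h3 => by
      have := (h 0 (by omega) 0 (by omega)).1 h3
      omega) (h1 0 (by omega) 1 (by omega) (by omega)) (h1 0 (by omega) 2 (by omega) (by omega))
    (h1 0 (by omega) 3 (by omega) (by omega)) (h1 1 (by omega) 1 (by omega) (by omega))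
    (h1 1 (by omega) 2 (by omega) (by omega)) (h1 1 (by omega) 3 (by omega) (by omega))
    (not_mi (hqP 1 (by omega)) hR1) (not_mi (hqP 2 (by omega)) hR2) (not_mi (hqP 3 (by omega)) hR3)

end Pool.Agent.MPd439b2.CR
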