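import Pool.Agent.Lib.MP_d439b2_co.CR.SpecA

/-!
# MP_d439b2_co, CR/QM: inner transversals, matching
-/

set_option autoImplicit false

namespace Pool.Agent.MPd439b2.CR

open Pool.Agent.MPd439b2 Pool.Agent.MPd439b2.A0

theorem qM : S_QM := by
  intro V G P C z u hZ hS hz hu h
  have hsp : Sp G {z 0} {z 1} := (hS.sp (by omega) (by omega) (by omega : (0 : ℕ) ≠ 1)).mono
    (Set.singleton_subset_iff.2 (hz 0 (by omega))) (Set.singleton_subset_iff.2 (hz 1 (by omega)))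
  have hP : ∀ a < 3, ({z a} : Set V) ⊆ Pᶜ := fun a ha =>
    Set.singleton_subset_iff.2 ((hS.cmp a ha).1 (hz a ha))
  have m : ∀ a < 3, ∀ b < 3, (u b ∈ mi G P {z a} ↔ a ≠ b) := by
    intro a ha b hb
    rw [mem_mi_singleton, SimpleGraph.adj_comm, h a ha b hb]
    exact ⟨fun h1 => h1.2, fun h1 => ⟨hu b hb, h1⟩⟩
  rcases hZ.z2 {z 0} {z 1} (hP 0 (by omega)) (hP 1 (by omega)) (Conn.singleton G _)
    (Conn.singleton G _) hsp ⟨u 2, (m 0 (by omega) 2 (by omega)).2 (by omega),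
      (m 1 (by omega) 2 (by omega)).2 (by omega)⟩ with h1 | h1
  · have h2 := h1 ((m 0 (by omega) 1 (by omega)).2 (by omega))
    exact (m 1 (by omega) 1 (by omega)).1 h2 rfl
  · have h2 := h1 ((m 1 (by omega) 0 (by omega)).2 (by omega))
    exact (m 0 (by omega) 0 (by omega)).1 h2 rfl

end Pool.Agent.MPd439b2.CR
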