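import Pool.Agent.Lib.MP_d439b2_co.CR.Com

/-!
# MP_d439b2_co, CR/Rds: boundedly many rounds (note 2828 of helper53)
-/

set_option autoImplicit false

namespace Pool.Agent.MPd439b2.CR

open Pool.Agent.MPd439b2 Pool.Agent.MPd439b2.A0 Pool.Agent.MPd439b2.Rep

/-- **C6.** -/
theorem rds (h : S_Rnd) : S_Rds := by
  intro t
  obtain ⟨n₀, c₀, h⟩ := h t
  refine ⟨n₀, fun r => ⟨r * c₀ + 1, ?_⟩⟩
  induction r with
  | zero =>
    intro V _ G φ T B Z hFr hT hφ _ _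
    refine ⟨V, inferInstance, id, Function.injective_id,
      ⟨_, tan_mono' (G := G.comap id) (T := T) hT (by omega) (by omega)⟩,
      fun i hi => absurd hi (Nat.not_lt_zero i)⟩
  | succ r ih =>
    intro V _ G φ T B Z hFr hT hφ hB hZ
    have hmul : (r + 1) * c₀ = r * c₀ + c₀ := Nat.succ_mul r c₀
    by_cases hex : ∃ k s : ℕ → V, Spd G n₀ k s ∧ ∀ j < n₀, k j ∈ B r ∧ s j ∈ Z r
    · obtain ⟨k, s, hks, hBZ⟩ := hex
      obtain ⟨W₁, _, g₁, hg₁, ⟨T₁, hT₁⟩, hno⟩ := h V G φ T k s hFr hT (by omega) hks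
      obtain ⟨W, _, g, hg, ⟨T₂, hT₂⟩, hno2⟩ := ih W₁ (G.comap g₁) (φ - c₀) T₁ (fun i => g₁ ⁻¹' B i)
        (fun i => g₁ ⁻¹' Z i) (fr_comap hg₁ hFr) hT₁ (by omega)
        (fun i hi x hx y hy hxy => hB i (by omega) _ hx _ hy (fun h1 => hxy (hg₁ h1)))
        (fun i hi x hx y hy => hZ i (by omega) _ hx _ hy)
      refine ⟨W, inferInstance, g₁ ∘ g, hg₁.comp hg, ⟨T₂, ?_⟩, ?_⟩
      · have h1 : φ - ((r + 1) * c₀ + 1) = φ - c₀ - (r * c₀ + 1) := by omega
        rw [h1]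
        exact hT₂
      · intro i hi x z hxz hall
        rcases Nat.lt_succ_iff_lt_or_eq.mp hi with h1 | rfl
        · exact hno2 i h1 x z hxz hall
        · refine hno (fun j => g (x j)) (fun j => g (z j)) ⟨hxz.kk, hxz.ss, hxz.ks⟩ (fun a ha b hb => ?_) (fun a ha b hb => ?_)
          · by_cases h2 : g₁ (g (x a)) = k b
            · exact Or.inl h2
            · exact Or.inr (hB i hi _ (hall a ha).1 _ (hBZ b hb).1 h2)
          · exact hZ i hi _ (hall a ha).2 _ (hBZ b hb).2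
    · obtain ⟨W, _, g, hg, ⟨T₂, hT₂⟩, hno2⟩ := ih V G φ T B Z hFr hT (by omega)
        (fun i hi => hB i (by omega)) (fun i hi => hZ i (by omega))
      refine ⟨W, inferInstance, g, hg, ⟨_, tan_mono' hT₂ (by omega) (by omega)⟩, ?_⟩
      intro i hi x z hxz hall
      rcases Nat.lt_succ_iff_lt_or_eq.mp hi with h1 | rfl
      · exact hno2 i h1 x z hxz hall
      · exact hex ⟨fun j => g (x j), fun j => g (z j), ⟨hxz.kk, hxz.ss, hxz.ks⟩, hall⟩

end Pool.Agent.MPd439b2.CR
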