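import Pool.Agent.Lib.MP_d439b2_co.CR.SpecB

/-!
# MP_d439b2_co, CR/Rnd: Lemma R, one round (note 2828 of helper53)
-/

set_option autoImplicit false

namespace Pool.Agent.MPd439b2.CR

open Pool.Agent.MPd439b2 Pool.Agent.MPd439b2.A0 Pool.Agent.MPd439b2.Rep

namespace rndAux

variable {V : Type}

/-- the empty set is in every tangle -/
theorem tan_empty [Finite V] {G : SimpleGraph V} {c : ℕ} {T : Set (Set V)} (h : Tan G c T) : ∅ ∈ T := by
  rcases h.dec ∅ (by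
    have h1 := rk_card G (∅ : Set V) (∅ : Set V)ᶜ
    rw [Set.ncard_empty] at h1
    exact h1.trans (Nat.zero_le c)) with h1 | h1
  · exact h1
  · rw [Set.compl_empty] at h1
    exact absurd (by simp) (h.cov _ h1 _ h1 _ h1)

/-- restriction to a smaller order -/
theorem tan_mono [Finite V] {G : SimpleGraph V} {c c' : ℕ} {T : Set (Set V)} (h : Tan G c T)
    (hc : c' ≤ c) (h1 : 1 ≤ c') : Tan G c' {X | X ∈ T ∧ LK.cr G X ≤ c'} where
  ord X hX := hX.2
  dec X hX := by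
    rcases h.dec X (hX.trans hc) with h2 | h2
    · exact Or.inl ⟨h2, hX⟩
    · exact Or.inr ⟨h2, by rw [cr_compl]; exact hX⟩
  cov X hX Y hY U hU := h.cov X hX.1 Y hY.1 U hU.1
  sing v := ⟨h.sing v, by
    have h2 := rk_card G ({v} : Set V) ({v} : Set V)ᶜ
    rw [Set.ncard_singleton] at h2
    exact h2.trans h1⟩

/-- an enumeration of a set with at most `f` elements -/
theorem enum {α : Type} [Finite α] [Inhabited α] (S : Set α) (f : ℕ) (h : S.ncard ≤ f) :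
    ∃ e : ℕ → α, ∀ M ∈ S, ∃ i < f, e i = M := by
  classical
  have hfin : S.Finite := Set.toFinite S
  refine ⟨fun i => hfin.toFinset.toList.getD i default, fun M hM => ?_⟩
  have h1 : M ∈ hfin.toFinset.toList := by
    rw [Finset.mem_toList, Set.Finite.mem_toFinset]
    exact hM
  obtain ⟨i, hi, h2⟩ := List.getElem_of_mem h1
  refine ⟨i, ?_, ?_⟩
  · rw [Finset.length_toList, ← Set.ncard_eq_toFinset_card S hfin] at hi
    omega
  · simp only [List.getD_eq_getElem?_getD, List.getElem?_eq_getElem hi, Option.getD_some]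
    exact h2

/-- one cell of a family of disjoint members -/
theorem cel_uniq {G : SimpleGraph V} {P : Set V} {F : Set (Set V)} (hF : DF G P F) {M M' : Set V}
    (hM : M ∈ F) (hM' : M' ∈ F) {v : V} (h : v ∈ cel G P M) (h' : v ∈ cel G P M') : M = M' := by
  by_contra hne
  exact Set.disjoint_left.mp (cel_disj (hF.1 M hM).sub (hF.1 M' hM').sub (hF.2 M hM M' hM' hne)) h h'

/-- the data of one round -/
structure Dat (G : SimpleGraph V) (P : Set V) (F F' : Set (Set V)) (q : Set V → V) (π : V → V) :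
    Prop where
  df : DF G P F
  sub : F' ⊆ F
  qm : ∀ M ∈ F', q M ∈ M
  p1 : ∀ M ∈ F', ∀ v ∈ cel G P M, π v = q M
  p2 : ∀ v, (∀ M ∈ F', v ∉ cel G P M) → π v = v

namespace Dat

variable {G : SimpleGraph V} {P : Set V} {F F' : Set (Set V)} {q : Set V → V} {π : V → V}

theorem exis (hdf : DF G P F) (hs : F' ⊆ F) (hq : ∀ M ∈ F', q M ∈ M) : ∃ π, Dat G P F F' q π := by
  classical
  refine ⟨fun v => if h : ∃ M ∈ F', v ∈ cel G P M then q h.choose else v, hdf, hs, hq, ?_, ?_⟩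
  · intro M hM v hv
    have h : ∃ M ∈ F', v ∈ cel G P M := ⟨M, hM, hv⟩
    simp only [dif_pos h]
    rw [cel_uniq hdf (hs h.choose_spec.1) (hs hM) h.choose_spec.2 hv]
  · intro v hv
    have h : ¬ ∃ M ∈ F', v ∈ cel G P M := by
      rintro ⟨M, hM, h1⟩
      exact hv M hM h1
    simp only [dif_neg h]

theorem q_cel (D : Dat G P F F' q π) {M : Set V} (hM : M ∈ F') : q M ∈ cel G P M :=
  Or.inl (D.qm M hM)

theorem qA (D : Dat G P F F' q π) {M : Set V} (hM : M ∈ F') :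
    q M ∈ {v | ∀ M ∈ F', v ∈ cel G P M → v = q M} := by
  intro M' hM' h
  show q M = q M'
  rw [cel_uniq D.df (D.sub hM) (D.sub hM') (D.q_cel hM) h]

theorem inA (D : Dat G P F F' q π) (v : V) : π v ∈ {v | ∀ M ∈ F', v ∈ cel G P M → v = q M} := by
  by_cases h : ∃ M ∈ F', v ∈ cel G P M
  · obtain ⟨M, hM, hv⟩ := h
    rw [D.p1 M hM v hv]
    exact D.qA hM
  · have h1 : ∀ M ∈ F', v ∉ cel G P M := fun M hM hv => h ⟨M, hM, hv⟩
    rw [D.p2 v h1]
    intro M hM hv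
    exact absurd hv (h1 M hM)

theorem fixA (D : Dat G P F F' q π) {a : V} (ha : a ∈ {v | ∀ M ∈ F', v ∈ cel G P M → v = q M}) :
    π a = a := by
  by_cases h : ∃ M ∈ F', a ∈ cel G P M
  · obtain ⟨M, hM, hv⟩ := h
    rw [D.p1 M hM a hv]
    exact (ha M hM hv).symm
  · exact D.p2 a fun M hM hv => h ⟨M, hM, hv⟩

theorem fib_q (D : Dat G P F F' q π) {M : Set V} (hM : M ∈ F') : {v | π v = q M} = cel G P M := by
  ext v
  refine ⟨fun h => ?_, fun h => D.p1 M hM v h⟩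
  have h' : π v = q M := h
  by_cases h1 : ∃ M' ∈ F', v ∈ cel G P M'
  · obtain ⟨M', hM', hv⟩ := h1
    rw [D.p1 M' hM' v hv] at h'
    have h2 : q M' ∈ cel G P M := by
      rw [h']
      exact D.q_cel hM
    rw [← cel_uniq D.df (D.sub hM') (D.sub hM) (D.q_cel hM') h2]
    exact hv
  · rw [D.p2 v fun M hM hv => h1 ⟨M, hM, hv⟩] at h'
    rw [h']
    exact D.q_cel hM

theorem fib_o (D : Dat G P F F' q π) {a : V} (ha : ∀ M ∈ F', a ∉ cel G P M) : {v | π v = a} = {a} := by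
  ext v
  rw [Set.mem_singleton_iff]
  refine ⟨fun h => ?_, fun h => ?_⟩
  · have h' : π v = a := h
    by_cases h1 : ∃ M' ∈ F', v ∈ cel G P M'
    · obtain ⟨M', hM', hv⟩ := h1
      rw [D.p1 M' hM' v hv] at h'
      exact absurd (D.q_cel hM') (h' ▸ ha M' hM')
    · rw [D.p2 v fun M hM hv => h1 ⟨M, hM, hv⟩] at h'
      exact h'
  · subst h
    exact D.p2 v ha

theorem fib_X (D : Dat G P F F' q π) {X : Set V}
    (hX : X ⊆ {v | ∀ M ∈ F', v ∈ cel G P M → v = q M}) :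
    {v | π v ∈ X} = X ∪ {v | ∃ M ∈ F', q M ∈ X ∧ v ∈ cel G P M} := by
  ext v
  constructor
  · intro h
    have h' : π v ∈ X := h
    by_cases h1 : ∃ M' ∈ F', v ∈ cel G P M'
    · obtain ⟨M', hM', hv⟩ := h1
      rw [D.p1 M' hM' v hv] at h'
      exact Or.inr ⟨M', hM', h', hv⟩
    · rw [D.p2 v fun M hM hv => h1 ⟨M, hM, hv⟩] at h'
      exact Or.inl h'
  · rintro (h | ⟨M, hM, h, hv⟩)
    · show π v ∈ X
      rw [D.fixA (hX h)]
      exact h
    · show π v ∈ X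
      rw [D.p1 M hM v hv]
      exact h

/-- the cell of a member which is not in `F'` -/
theorem fib_M (D : Dat G P F F' q π) {M : Set V} (hM : M ∈ F) (hM' : M ∉ F') :
    {v | π v ∈ cel G P M} = cel G P M := by
  ext v
  by_cases h1 : ∃ N ∈ F', v ∈ cel G P N
  · obtain ⟨N, hN, hv⟩ := h1
    have hne : N ≠ M := fun h => hM' (h ▸ hN)
    refine iff_of_false (fun h => ?_) (fun h => hne (cel_uniq D.df (D.sub hN) hM hv h))
    have h' : π v ∈ cel G P M := h
    rw [D.p1 N hN v hv] at h'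
    exact hne (cel_uniq D.df (D.sub hN) hM (D.q_cel hN) h')
  · show π v ∈ cel G P M ↔ _
    rw [D.p2 v fun M hM hv => h1 ⟨M, hM, hv⟩]

theorem cel_sub (D : Dat G P F F' q π) {M : Set V} (hM : M ∈ F) (hM' : M ∉ F') :
    cel G P M ⊆ {v | ∀ M ∈ F', v ∈ cel G P M → v = q M} := by
  intro v hv N hN hvN
  exact absurd (cel_uniq D.df (D.sub hN) hM hvN hv ▸ hN) hM'

end Dat

end rndAux

open rndAux

/-- **B19. Lemma R, one round.** -/
theorem rnd (h1 : S_Cl) (h2 : S_Hp) (h3 : S_Z1) (h4 : S_Z2) (h5 : S_Z3) (h6 : S_Ind) (h7 : S_TnR)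
    (h8 : S_TnD) (h9 : S_Fm2) (h10 : S_Nsm) (h11 : S_New) : S_Rnd := by
  classical
  intro t
  obtain ⟨f, c₁, d, hFm⟩ := h9 t
  refine ⟨2 * (f + 2) + 30, d + c₁ + f * c₁ + 1, ?_⟩
  intro V _ G φ T k s hFr hT hφ hsp
  -- (1) the clean spider
  have hsp22 : Spd G (12 + 10) k s :=
    ⟨fun i hi j hj => hsp.kk i (by omega) j (by omega), fun i hi j hj => hsp.ss i (by omega) j (by omega),
      fun i hi j hj => hsp.ks i (by omega) j (by omega)⟩
  obtain ⟨ψ, hψ, hψi, hcl⟩ := h1 12 V G k s hFr.1 hsp22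
  set k' : ℕ → V := fun i => k (ψ i) with hk'
  set s' : ℕ → V := fun i => s (ψ i) with hs'
  set P : Set V := PP G 12 s' with hP
  have hH : Hlp G P := h2 V G 12 k' s' (by norm_num) hcl
  have hZ : ZZ G P := ⟨h3 V G P hH hFr.1, h4 V G P hH hFr.1, h5 V G P hH hFr.1⟩
  -- (2) the family of the maximal small members
  set Sm : Set (Set V) := {M | Mem G P M ∧ LK.cr G (cel G P M) ≤ c₁ ∧ cel G P M ∈ T} with hSm
  set F : Set (Set V) := {M | Maximal (· ∈ Sm) M} with hF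
  have hFS : ∀ M ∈ F, M ∈ Sm := fun M hM => hM.prop
  have hDF : DF G P F := by
    refine ⟨fun M hM => (hFS M hM).1, fun M hM M' hM' hne => ?_⟩
    rcases hZ.lam_mem (hFS M hM).1 (hFS M' hM').1 with h | h | h
    · exact absurd (Set.Subset.antisymm h (hM.le_of_ge (hFS M' hM') h)) hne
    · exact absurd (Set.Subset.antisymm (hM'.le_of_ge (hFS M hM) h) h) hne
    · exact h
  obtain ⟨F', hF'F, hcard, hcr, hcut⟩ := hFm V G P hZ hFr.2 F hDF
  set q : Set V → V := fun M => if h : M.Nonempty then h.some else k 0 with hq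
  have hqM : ∀ M ∈ F', q M ∈ M := by
    intro M hM
    have h : M.Nonempty := (hDF.1 M (hF'F hM)).1
    simp only [hq, dif_pos h]
    exact h.some_mem
  obtain ⟨π, D⟩ := Dat.exis (G := G) (P := P) (q := q) hDF hF'F hqM
  set A₀ : Set V := {v | ∀ M ∈ F', v ∈ cel G P M → v = q M} with hA₀
  have hfibT : ∀ a ∈ A₀, {v | π v = a} ∈ T := by
    intro a ha
    by_cases h : ∃ M ∈ F', a ∈ cel G P M
    · obtain ⟨M, hM, hv⟩ := h
      rw [ha M hM hv, D.fib_q hM]
      exact (hFS M (hF'F hM)).2.2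
    · rw [D.fib_o fun M hM hv => h ⟨M, hM, hv⟩]
      exact hT.sing a
  have hT₀ := h7 V G φ d T π A₀ hT (by omega) D.inA (fun a ha => D.fixA ha) hfibT (fun X hX => by
    rw [D.fib_X hX]
    exact hcut q hqM X hX)
  set T₀ : Set (Set ↥A₀) := {X | LK.cr (G.induce A₀) X ≤ φ - d ∧ {v | π v ∈ Subtype.val '' X} ∈ T} with hT₀d
  -- (3) the deleted cells
  have : Inhabited (Set V) := ⟨∅⟩
  obtain ⟨e, he⟩ := enum (F \ F') f hcard
  set E : ℕ → Set ↥A₀ := fun i => {a | e i ∈ F \ F' ∧ a.1 ∈ cel G P (e i)} with hE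
  have hcrA : ∀ X : Set ↥A₀, LK.cr (G.induce A₀) X = LK.rk G (Subtype.val '' X) (Subtype.val '' Xᶜ) :=
    fun X => h6 V ↥A₀ G Subtype.val Subtype.val_injective X Xᶜ
  have hE1 : ∀ i < f, E i ∈ T₀ ∧ LK.cr (G.induce A₀) (E i) ≤ c₁ := by
    intro i _
    by_cases hi : e i ∈ F \ F'
    · have himg : Subtype.val '' (E i) = cel G P (e i) := by
        ext v
        constructor
        · rintro ⟨a, ha, rfl⟩
          exact ha.2
        · intro hv
          exact ⟨⟨v, D.cel_sub hi.1 hi.2 hv⟩, ⟨hi, hv⟩, rfl⟩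
      have hc : LK.cr (G.induce A₀) (E i) ≤ c₁ := by
        rw [hcrA, himg]
        refine le_trans (rk_mono G subset_rfl ?_) (hFS _ hi.1).2.1
        rintro v ⟨a, ha, rfl⟩ hv
        exact ha ⟨hi, hv⟩
      refine ⟨⟨hc.trans (by omega), ?_⟩, hc⟩
      rw [himg, D.fib_M hi.1 hi.2]
      exact (hFS _ hi.1).2.2
    · have h0 : E i = ∅ := by
        ext a
        exact iff_of_false (fun h => hi h.1) (fun h => h)
      rw [h0]
      refine ⟨tan_empty hT₀, ?_⟩
      have h1 := rk_card (G.induce A₀) (∅ : Set ↥A₀) (∅ : Set ↥A₀)ᶜ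
      rw [Set.ncard_empty] at h1
      exact h1.trans (Nat.zero_le _)
  obtain ⟨T₁, hT₁⟩ := h8 ↥A₀ (G.induce A₀) (φ - d) f c₁ T₀ E hT₀ (by omega) hE1
  refine ⟨↥{v : ↥A₀ | ∀ i < f, v ∉ E i}, inferInstance, fun w => w.1.1, ?_, ?_, ?_⟩
  · intro a b hab
    exact Subtype.ext (Subtype.ext hab)
  · exact ⟨_, tan_mono (G := G.comap fun w : ↥{v : ↥A₀ | ∀ i < f, v ∉ E i} => w.1.1) hT₁
      (by omega) (by omega)⟩
  -- (4) no new spider
  intro x z hxz hx hz
  have hxz' : Spd G (2 * (f + 2) + 11) (fun i => (x i).1.1) (fun i => (z i).1.1) :=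
    ⟨fun i hi j hj => hxz.kk i (by omega) j (by omega), fun i hi j hj => hxz.ss i (by omega) j (by omega),
      fun i hi j hj => hxz.ks i (by omega) j (by omega)⟩
  obtain ⟨g, C, hg, hS, hC⟩ := h11 (f + 2) V G 12 k' s' _ _ le_rfl hcl hZ hFr.1 hxz'
    (fun i hi j hj => hx i (by omega) (ψ j) (by have := hψ j hj; omega))
    (fun i hi j hj => hz i (by omega) (ψ j) (by have := hψ j hj; omega))
  set FF : Set (Set V) := (fun i => mi G P (C i)) '' (Set.Iio (f + 2)) with hFF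
  have hFFd : DF G P FF := by
    constructor
    · rintro M ⟨i, hi, rfl⟩
      exact ⟨hS.ne i hi, C i, hS.cmp i hi, rfl⟩
    · rintro M ⟨i, hi, rfl⟩ M' ⟨j, hj, rfl⟩ hne
      refine hS.dis i hi j hj (fun h => hne ?_)
      rw [h]
  have hFFc : f + 2 ≤ FF.ncard := by
    rw [hFF, Set.ncard_image_of_injOn, Set.ncard_eq_toFinset_card', Set.toFinset_Iio, Nat.card_Iio]
    intro i hi j hj hij
    by_contra hne
    obtain ⟨v, hv⟩ := hS.ne i hi
    have hij' : mi G P (C i) = mi G P (C j) := hij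
    exact Set.disjoint_left.mp (hS.dis i hi j hj hne) hv (hij' ▸ hv)
  obtain ⟨M, ⟨i, hi, rfl⟩, hM1, hM2⟩ := h10 f c₁ φ V G P T hT (by omega) (fun F hF => by
    obtain ⟨F', a1, a2, a3, -⟩ := hFm V G P hZ hFr.2 F hF
    exact ⟨F', a1, a2, a3⟩) FF hFFd hFFc
  have hMS : mi G P (C i) ∈ Sm := ⟨⟨hS.ne i hi, C i, hS.cmp i hi, rfl⟩, hM1, hM2⟩
  obtain ⟨N, hN1, hN2⟩ := (Set.toFinite Sm).exists_le_maximal hMS
  have hNF : N ∈ F := hN2
  have hzi : (z (g i)).1.1 ∈ ins G P N := ⟨C i, hS.cmp i hi, hC i hi, hS.ne i hi, hN1⟩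
  by_cases hN : N ∈ F'
  · have h := (z (g i)).1.2 N hN (Or.inr hzi)
    have h' : (z (g i)).1.1 ∈ P := by
      rw [h]
      exact (hDF.1 N hNF).sub (hqM N hN)
    exact ins_compl P N hzi h'
  · obtain ⟨j, hj, hej⟩ := he N ⟨hNF, hN⟩
    refine (z (g i)).2 j hj ?_
    show e j ∈ F \ F' ∧ _ ∈ cel G P (e j)
    rw [hej]
    exact ⟨⟨hNF, hN⟩, Or.inr hzi⟩

end Pool.Agent.MPd439b2.CR
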