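import Pool.Agent.Lib.MP_d439b2_co.CR.SpecB

/-!
# MP_d439b2_co, CR: few rows outside a family of sets (helper9)
-/

set_option autoImplicit false

namespace Pool.Agent.MPd439b2.CR

open Pool.Agent.MPd439b2 Pool.Agent.MPd439b2.A0 Pool.Agent.MPd439b2.Rep

namespace RwFAux

variable {V : Type}

/-- the row of `x` -/
def row (G : SimpleGraph V) (U : Set V) (x : V) : Set V := {b | b ∈ U ∧ G.Adj x b}

theorem ne_row {G : SimpleGraph V} {U : Set V} {x y : V} (h : row G U x ≠ row G U y) :
    ∃ v ∈ U, ¬ (G.Adj x v ↔ G.Adj y v) := by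
  by_contra hcon
  push Not at hcon
  apply h
  ext v
  constructor
  · rintro ⟨h1, h2⟩
    exact ⟨h1, ((hcon v h1)).1 h2⟩
  · rintro ⟨h1, h2⟩
    exact ⟨h1, ((hcon v h1)).2 h2⟩

theorem last {Q : ℕ → Prop} (h0 : Q 0) {ρ : ℕ} (h1 : ¬ Q ρ) : ∃ r < ρ, Q r ∧ ¬ Q (r + 1) := by
  by_contra hcon
  push Not at hcon
  have h2 : ∀ r, r ≤ ρ → Q r := by
    intro r
    induction r with
    | zero => intro _; exact h0
    | succ r ih => intro hr; exact hcon r (by omega) (ih (by omega))
  exact h1 (h2 ρ le_rfl)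

/-- the hypothesis -/
def Hyp (G : SimpleGraph V) (P : Set V) (F : Set (Set V)) (Y : Set V → Set V) (ρ : ℕ) : Prop :=
  ∀ (M : ℕ → Set V) (x : ℕ → V), (∀ a < ρ, M a ∈ F) → (∀ a < ρ, ∀ b < ρ, a ≠ b → M a ≠ M b) →
    (∀ a < ρ, x a ∈ Y (M a)) → ∃ a < ρ, ∃ b < ρ, a ≠ b ∧
      ∀ v ∈ P, (∀ l < ρ, v ∉ M l) → (G.Adj (x a) v ↔ G.Adj (x b) v)

/-- few rows -/
def FewR (G : SimpleGraph V) (P : Set V) (Y : Set V → Set V) (ρ : ℕ) (W : Set (Set V)) : Prop :=
  (Tr G {x | ∃ M ∈ W, x ∈ Y M} (P \ ⋃₀ W)).encard ≤ ρ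

theorem step [Finite V] [Nonempty V] {G : SimpleGraph V} {P : Set V} {F : Set (Set V)}
    {Y : Set V → Set V} {ρ : ℕ} (hH : Hyp G P F Y ρ) (W : Set (Set V)) (hW : W ⊆ F)
    (hg : ¬ FewR G P Y ρ W) :
    ∃ (W' : Set (Set V)) (b : Set V) (x : V), W' ⊆ W ∧ (W \ W').ncard ≤ ρ ∧ b ∈ W ∧ b ∉ W' ∧
      x ∈ Y b ∧ ∀ M ∈ W', ∀ y ∈ Y M, row G (P \ ⋃₀ W) x ≠ row G (P \ ⋃₀ W) y := by
  classical
  let U : Set V := P \ ⋃₀ W
  let Q : ℕ → Prop := fun r => ∃ (M : ℕ → Set V) (x : ℕ → V), (∀ a < r, M a ∈ W) ∧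
    (∀ a < r, ∀ b < r, a ≠ b → M a ≠ M b) ∧ (∀ a < r, x a ∈ Y (M a)) ∧
    ∀ a < r, ∀ b < r, a ≠ b → row G U (x a) ≠ row G U (x b)
  have q0 : Q 0 := ⟨fun _ => ∅, fun _ => Classical.arbitrary V, by simp, by simp, by simp, by simp⟩
  have q1 : ¬ Q ρ := by
    rintro ⟨M, x, m1, m2, m3, m4⟩
    obtain ⟨a, ha, b, hb, hab, h⟩ := hH M x (fun a ha => hW (m1 a ha)) m2 m3
    apply m4 a ha b hb hab
    ext v
    constructor
    · rintro ⟨h1, h2⟩
      exact ⟨h1, (h v h1.1 fun l hl hv => h1.2 ⟨M l, m1 l hl, hv⟩).1 h2⟩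
    · rintro ⟨h1, h2⟩
      exact ⟨h1, (h v h1.1 fun l hl hv => h1.2 ⟨M l, m1 l hl, hv⟩).2 h2⟩
  obtain ⟨r, hr, ⟨M, x, m1, m2, m3, m4⟩, hQ⟩ := last q0 q1
  -- the sets with a new row
  let B : Set (Set V) := {N | N ∈ W ∧ ∃ y ∈ Y N, ∀ a < r, row G U y ≠ row G U (x a)}
  have hB : B ⊆ ((Finset.range r).image M : Finset (Set V)) := by
    rintro N ⟨hN, y, hy, hrow⟩
    rw [Finset.mem_coe, Finset.mem_image]
    by_contra hcon
    push Not at hcon
    have hcon' : ∀ a < r, M a ≠ N := fun a ha => hcon a (Finset.mem_range.2 ha)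
    apply hQ
    refine ⟨fun a => if a = r then N else M a, fun a => if a = r then y else x a, ?_, ?_, ?_, ?_⟩
    · intro a ha
      by_cases h : a = r
      · simp only [h, if_true]; exact hN
      · simp only [h, if_false]; exact m1 a (by omega)
    · intro a ha b hb hab
      by_cases h : a = r
      · by_cases h' : b = r
        · exact absurd (h.trans h'.symm) hab
        · simp only [h, h', if_true, if_false]
          exact (hcon' b (by omega)).symm
      · by_cases h' : b = r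
        · simp only [h, h', if_true, if_false]
          exact hcon' a (by omega)
        · simp only [h, h', if_false]
          exact m2 a (by omega) b (by omega) hab
    · intro a ha
      by_cases h : a = r
      · simp only [h, if_true]; exact hy
      · simp only [h, if_false]; exact m3 a (by omega)
    · intro a ha b hb hab
      by_cases h : a = r
      · by_cases h' : b = r
        · exact absurd (h.trans h'.symm) hab
        · simp only [h, h', if_true, if_false]
          exact hrow b (by omega)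
      · by_cases h' : b = r
        · simp only [h, h', if_true, if_false]
          exact (hrow a (by omega)).symm
        · simp only [h, h', if_false]
          exact m4 a (by omega) b (by omega) hab
  have hBc : B.ncard ≤ ρ := by
    have h1 : B.ncard ≤ (((Finset.range r).image M : Finset (Set V)) : Set (Set V)).ncard :=
      Set.ncard_le_ncard hB (Finset.finite_toSet _)
    rw [Set.ncard_coe_finset] at h1
    have h2 : ((Finset.range r).image M).card ≤ r :=
      le_trans Finset.card_image_le (by simp)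
    omega
  rcases B.eq_empty_or_nonempty with hBe | ⟨b, hb⟩
  · exfalso
    apply hg
    have hsub : Tr G {x | ∃ M ∈ W, x ∈ Y M} (P \ ⋃₀ W)
        ⊆ ((Finset.range r).image (fun a => row G U (x a)) : Finset (Set V)) := by
      rintro T ⟨y, ⟨N, hN, hy⟩, rfl⟩
      rw [Finset.mem_coe, Finset.mem_image]
      by_contra hcon
      push Not at hcon
      have h3 : N ∈ B := ⟨hN, y, hy, fun a ha h => hcon a (Finset.mem_range.2 ha) h.symm⟩
      rw [hBe] at h3
      exact h3
    have h4 := Set.encard_le_encard hsub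
    rw [Set.encard_coe_eq_coe_finsetCard] at h4
    have h5 : ((Finset.range r).image (fun a => row G U (x a))).card ≤ ρ :=
      le_trans (le_trans Finset.card_image_le (by simp)) hr.le
    exact le_trans h4 (by exact_mod_cast h5)
  · obtain ⟨hbW, y, hy, hrow⟩ := hb
    refine ⟨W \ B, b, y, Set.sdiff_subset, ?_, hbW, fun h => h.2 ⟨hbW, y, hy, hrow⟩, hy, ?_⟩
    · have h6 : W \ (W \ B) ⊆ B := by
        rintro N ⟨h1, h2⟩
        by_contra h3
        exact h2 ⟨h1, h3⟩
      exact le_trans (Set.ncard_le_ncard h6 (Set.toFinite _)) hBc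
    · rintro N ⟨hN, hNB⟩ z hz heq
      apply hNB
      refine ⟨hN, z, hz, fun a ha h => hrow a ha ?_⟩
      exact heq.trans h

end RwFAux

open RwFAux in
/-- **RwF.** -/
theorem rwF (h1 : X2.S_Ram3) : S_RwF := by
  intro ρ
  obtain ⟨L, hL⟩ := h1 Bool (ρ + 4)
  refine ⟨L * ρ, ?_⟩
  intro V _ G P F Y hdis hH
  classical
  rcases isEmpty_or_nonempty V with hV | hV
  · refine ⟨F, subset_rfl, by simp, ?_⟩
    have : Tr G {x | ∃ M ∈ F, x ∈ Y M} (P \ ⋃₀ F) = ∅ := by
      ext T
      constructor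
      · rintro ⟨a, _, _⟩
        exact hV.elim a
      · intro h
        exact absurd h (Set.notMem_empty _)
    rw [this]
    simp
  by_contra hcon
  push Not at hcon
  have hst := step (G := G) (P := P) (F := F) (Y := Y) (ρ := ρ) hH
  choose! st b x hstep using hst
  let W : ℕ → Set (Set V) := fun i => st^[i] F
  have hWs : ∀ i, W (i + 1) = st (W i) := fun i => Function.iterate_succ_apply' st i F
  have hW : ∀ i, i ≤ L → W i ⊆ F ∧ (F \ W i).ncard ≤ i * ρ ∧ ¬ FewR G P Y ρ (W i) := by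
    intro i
    induction i with
    | zero =>
      intro _
      refine ⟨subset_rfl, by simp [W], fun hg => ?_⟩
      exact absurd hg (not_le.2 (hcon F subset_rfl (by simp)))
    | succ i ih =>
      intro hi
      obtain ⟨i1, i2, i3⟩ := ih (by omega)
      obtain ⟨s1, s2, -⟩ := hstep (W i) i1 i3
      have j1 : W (i + 1) ⊆ F := by
        rw [hWs]
        exact s1.trans i1
      have j2 : (F \ W (i + 1)).ncard ≤ (i + 1) * ρ := by
        have h5 : F \ W (i + 1) ⊆ (F \ W i) ∪ (W i \ W (i + 1)) := by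
          rintro N ⟨h1, h2⟩
          by_cases h3 : N ∈ W i
          · exact Or.inr ⟨h3, h2⟩
          · exact Or.inl ⟨h1, h3⟩
        have h6 := Set.ncard_le_ncard h5 (Set.toFinite _)
        have h7 := Set.ncard_union_le (F \ W i) (W i \ W (i + 1))
        rw [hWs] at h6 h7
        rw [hWs]
        calc (F \ st (W i)).ncard ≤ _ := h6
          _ ≤ _ := h7
          _ ≤ i * ρ + ρ := add_le_add i2 s2
          _ = (i + 1) * ρ := by ring
      refine ⟨j1, j2, fun hg => ?_⟩
      exact absurd hg (not_le.2 (hcon _ j1 (le_trans j2 (Nat.mul_le_mul_right ρ hi))))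
  have hmono : ∀ i j, i ≤ j → j ≤ L → W j ⊆ W i := by
    intro i j hij
    induction j, hij using Nat.le_induction with
    | base => intro _; exact subset_rfl
    | succ j hj ih =>
      intro hjL
      obtain ⟨i1, i2, i3⟩ := hW j (by omega)
      rw [hWs]
      exact (hstep (W j) i1 i3).1.trans (ih (by omega))
  have hb : ∀ i < L, b (W i) ∈ W i ∧ b (W i) ∉ W (i + 1) ∧ x (W i) ∈ Y (b (W i)) ∧
      ∀ M ∈ W (i + 1), ∀ y ∈ Y M, row G (P \ ⋃₀ W i) (x (W i)) ≠ row G (P \ ⋃₀ W i) y := by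
    intro i hi
    obtain ⟨i1, i2, i3⟩ := hW i hi.le
    rw [hWs]
    exact (hstep (W i) i1 i3).2.2
  have hbF : ∀ i < L, b (W i) ∈ F := fun i hi => (hW i hi.le).1 (hb i hi).1
  have hbne : ∀ i j, i < j → j < L → b (W i) ≠ b (W j) := by
    intro i j hij hj h
    apply (hb i (by omega)).2.1
    rw [h]
    exact hmono (i + 1) j hij hj.le (hb j hj).1
  have hy : ∀ i j, ∃ y, i < j → j < L → y ∈ P \ ⋃₀ W i ∧
      ¬ (G.Adj (x (W i)) y ↔ G.Adj (x (W j)) y) := by
    intro i j
    by_cases hij : i < j ∧ j < L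
    · obtain ⟨hij, hj⟩ := hij
      have h3 := (hb i (by omega)).2.2.2 (b (W j)) (hmono (i + 1) j hij hj.le (hb j hj).1)
        (x (W j)) (hb j hj).2.2.1
      obtain ⟨v, hv, hne⟩ := ne_row h3
      exact ⟨v, fun _ _ => ⟨hv, hne⟩⟩
    · exact ⟨Classical.arbitrary V, fun h1 h2 => absurd ⟨h1, h2⟩ hij⟩
  choose y hy using hy
  obtain ⟨s, c, s1, s2, s3⟩ := hL (fun l i j => decide (y i j ∈ b (W l)))
  have hlarge : ∀ i j l, i < j → j < L → i ≤ l → l < L → y i j ∉ b (W l) := by
    intro i j l hij hj hil hl hmem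
    exact (hy i j hij hj).1.2 ⟨b (W l), hmono i l hil hl.le (hb l hl).1, hmem⟩
  cases c with
  | true =>
    have e1 := s3 0 2 3 (by omega) (by omega) (by omega)
    have e2 := s3 1 2 3 (by omega) (by omega) (by omega)
    simp only [decide_eq_true_eq] at e1 e2
    have h01 := s1 0 1 (by omega) (by omega)
    have hne := hbne (s 0) (s 1) h01 (s2 1 (by omega))
    exact Set.disjoint_left.1 (hdis _ (hbF _ (s2 0 (by omega))) _ (hbF _ (s2 1 (by omega))) hne)
      e1 e2
  | false =>
    have key : ∀ a e l, a < e → e < ρ → l < ρ → y (s a) (s e) ∉ b (W (s l)) := by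
      intro a e l hae he hl
      by_cases hla : l < a
      · have e1 := s3 l a e hla hae (by omega)
        simpa using e1
      · refine hlarge _ _ _ (s1 a e hae (by omega)) (s2 e (by omega)) ?_ (s2 l (by omega))
        rcases Nat.lt_or_ge a l with h | h
        · exact (s1 a l h (by omega)).le
        · have : l = a := by omega
          rw [this]
    obtain ⟨a, ha, e, he, hae, hrow⟩ := hH (fun l => b (W (s l))) (fun l => x (W (s l)))
      (fun l hl => hbF _ (s2 l (by omega)))
      (fun l hl l' hl' hne => by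
        rcases lt_or_gt_of_ne hne with h | h
        · exact hbne _ _ (s1 l l' h (by omega)) (s2 l' (by omega))
        · exact (hbne _ _ (s1 l' l h (by omega)) (s2 l (by omega))).symm)
      (fun l hl => (hb _ (s2 l (by omega))).2.2.1)
    rcases lt_or_gt_of_ne hae with h | h
    · have h8 := hy (s a) (s e) (s1 a e h (by omega)) (s2 e (by omega))
      exact h8.2 (hrow _ h8.1.1 fun l hl => key a e l h he hl)
    · have h8 := hy (s e) (s a) (s1 e a h (by omega)) (s2 a (by omega))
      exact h8.2 (hrow _ h8.1.1 fun l hl => key e a l h ha hl).symm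

end Pool.Agent.MPd439b2.CR
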