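import Pool.Agent.Lib.MP_d439b2_co.CR.Com

/-!
# MP_d439b2_co, CR/ThCp: Theorem C' for `K4:0,1` (note 2828 of helper53)
-/

set_option autoImplicit false

namespace Pool.Agent.MPd439b2.CR

open Pool.Agent.MPd439b2 Pool.Agent.MPd439b2.A0 Pool.Agent.MPd439b2.Rep

theorem spd_of_tp {V : Type} {G : SimpleGraph V} {m : ℕ} {a b : ℕ → V}
    (h : TP G m true false true a b) : Spd G m a b where
  kk i hi j hj hij := (h.aa i hi j hj hij).mpr rfl
  ss i hi j hj := by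
    by_cases hij : i = j
    · subst hij
      exact G.loopless.irrefl _
    · intro h1
      have h2 := (h.bb i hi j hj hij).mp h1
      exact Bool.false_ne_true h2
  ks i hi j hj := by
    rw [h.ab i hi j hj]
    simp

/-- **C7. Theorem C'.** -/
theorem thCp (h1 : S_Pex) (h2 : S_Prs) (h3 : S_Rds) (h4 : Rep.S_TanE) (h5 : Rep.S_TanL) : S_ThCp := by
  intro hfacts hTC m
  obtain ⟨n, hn⟩ := h3 4
  obtain ⟨r, hr⟩ := h2 hfacts m
  obtain ⟨L, hL⟩ := hr n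
  obtain ⟨c, hc⟩ := hn r
  obtain ⟨m₀, hm₀⟩ : ∃ m₀, m₀ = max (max m L) 49 := ⟨_, rfl⟩
  have e1 : m ≤ m₀ := by rw [hm₀]; exact (le_max_left _ _).trans (le_max_left _ _)
  have e2 : L ≤ m₀ := by rw [hm₀]; exact (le_max_right _ _).trans (le_max_left _ _)
  have e3 : (4 + 3) ^ 2 ≤ m₀ := by rw [hm₀]; exact le_max_right _ _
  obtain ⟨M, hM⟩ := typed m₀
  obtain ⟨N₁, hN₁⟩ := hTC M
  refine ⟨2 ^ (6 * (N₁ + c + 1) + 1), ?_⟩
  intro V _ G hFr hno1 hno2
  by_contra hLay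
  obtain ⟨T, hT⟩ := h4 V G (N₁ + c + 1) (6 * (N₁ + c + 1) + 1) (by omega) le_rfl hLay
  obtain ⟨B, Z, hB, hZ, hspi⟩ := hL V G hFr hno1 hno2
  obtain ⟨W, _, g, hg, ⟨T', hT'⟩, hnsp⟩ := hc V G (N₁ + c + 1) T B Z hFr hT (by omega) hB hZ
  refine h5 W (G.comap g) (N₁ + c + 1 - c) N₁ T' (by omega) ?_ hT'
  have hFr' := fr_comap hg hFr
  obtain ⟨x1, x2, x3, x4⟩ := h1 4 m₀ W (G.comap g) hFr' e3
  -- a thick spider with `L` legs
  have hthick : ∀ a b : ℕ → W, ¬ TP (G.comap g) m₀ true false true a b := by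
    intro a b h
    have hs : Spd (G.comap g) L a b := spd_of_tp (h.mono e2)
    obtain ⟨i, hi, σ, s1, s2, s3⟩ := hspi (fun j => g (a j)) (fun j => g (b j)) ⟨hs.kk, hs.ss, hs.ks⟩
    refine hnsp i hi (fun j => a (σ j)) (fun j => b (σ j)) ⟨?_, ?_, ?_⟩ s3
    · exact fun j hj l hl hjl => hs.kk _ (s1 j hj) _ (s1 l hl) (fun h6 => hjl (s2 j hj l hl h6))
    · exact fun j hj l hl => hs.ss _ (s1 j hj) _ (s1 l hl)
    · intro j hj l hl
      rw [hs.ks _ (s1 j hj) _ (s1 l hl)]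
      exact not_congr ⟨fun h6 => s2 j hj l hl h6, fun h6 => congrArg σ h6⟩
  refine hN₁ W (G.comap g) hFr' ?_ ?_
  · rintro ⟨a, b, hab⟩
    obtain ⟨s, t, a', b', h'⟩ := hM W (G.comap g) false a b fun i hi j hj =>
      ⟨(hab i hi j hj).1, (hab i hi j hj).2.1, by simpa using (hab i hi j hj).2.2⟩
    cases s <;> cases t
    · exact hno1 _ _ ((tp_comap hg h').mono e1)
    · exact x3 a' b' h'
    · exact x2 a' b' h'
    · exact x1 a' b' h'
  · rintro ⟨a, b, hab⟩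
    obtain ⟨s, t, a', b', h'⟩ := hM W (G.comap g) true a b fun i hi j hj =>
      ⟨(hab i hi j hj).1, (hab i hi j hj).2.1, by simpa using (hab i hi j hj).2.2⟩
    cases s <;> cases t
    · exact x4 a' b' h'
    · exact hthick b' a' h'.swap
    · exact hthick a' b' h'
    · exact hno2 _ _ ((tp_comap hg h').mono e1)

end Pool.Agent.MPd439b2.CR
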