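import Pool.Agent.Lib.MP_d439b2_co.CR.SpecB

/-!
# MP_d439b2_co, CR/TnD: a tangle after the deletion of small sets (note 2828 of helper53)
-/

set_option autoImplicit false

namespace Pool.Agent.MPd439b2.CR

open Pool.Agent.MPd439b2 Pool.Agent.MPd439b2.A0 Pool.Agent.MPd439b2.Rep

namespace tnDAux

variable {V : Type}

/-- the union of the first `j` sets -/
def Uj {V : Type} (D : ℕ → Set V) (j : ℕ) : Set V := {v | ∃ i < j, v ∈ D i}

theorem un_zero (D : ℕ → Set V) : Uj D 0 = ∅ := by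
  ext v
  exact iff_of_false (fun ⟨i, hi, _⟩ => Nat.not_lt_zero i hi) (fun h => h)

theorem un_succ (D : ℕ → Set V) (j : ℕ) : Uj D (j + 1) = Uj D j ∪ D j := by
  ext v
  constructor
  · rintro ⟨i, hi, hv⟩
    rcases Nat.lt_succ_iff_lt_or_eq.mp hi with h | rfl
    · exact Or.inl ⟨i, h, hv⟩
    · exact Or.inr hv
  · rintro (⟨i, hi, hv⟩ | hv)
    · exact ⟨i, Nat.lt_succ_of_lt hi, hv⟩
    · exact ⟨j, Nat.lt_succ_self j, hv⟩

theorem rk_un [Finite V] (G : SimpleGraph V) (D : ℕ → Set V) (c : ℕ) (B : Set V) : ∀ j : ℕ,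
    (∀ i < j, LK.rk G (D i) B ≤ c) → LK.rk G (Uj D j) B ≤ j * c := by
  intro j
  induction j with
  | zero =>
    intro _
    rw [un_zero, rk_anti G (fun a ha => absurd ha (Set.notMem_empty a))]
    exact Nat.zero_le _
  | succ j ih =>
    intro h
    rw [un_succ]
    have h1 := rk_union G (Uj D j) (D j) B
    have h2 := ih fun i hi => h i (Nat.lt_succ_of_lt hi)
    have h3 := h j (Nat.lt_succ_self j)
    rw [Nat.succ_mul]
    omega

/-- the rows of the set `X` over the sets `D i`, `j ≤ i < f` -/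
theorem rk_rest [Finite V] (G : SimpleGraph V) (D : ℕ → Set V) (c f : ℕ) (X : Set V) (j : ℕ) (hj : j ≤ f)
    (h : ∀ i < f, LK.rk G X (D i) ≤ c) :
    LK.rk G X {v | ∃ i, j ≤ i ∧ i < f ∧ v ∈ D i} ≤ (f - j) * c := by
  have h1 : {v | ∃ i, j ≤ i ∧ i < f ∧ v ∈ D i} = Uj (fun i => D (j + i)) (f - j) := by
    ext v
    constructor
    · rintro ⟨i, h1, h2, h3⟩
      refine ⟨i - j, by omega, ?_⟩
      show v ∈ D (j + (i - j))
      rwa [Nat.add_sub_cancel' h1]
    · rintro ⟨i, h1, h3⟩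
      exact ⟨j + i, by omega, by omega, h3⟩
  rw [h1, rk_symm]
  refine rk_un G _ c X (f - j) fun i hi => ?_
  rw [rk_symm]
  exact h (j + i) (by omega)

theorem step [Finite V] {G : SimpleGraph V} {f c p : ℕ} {D : ℕ → Set V} (hD : ∀ i < f, LK.cr G (D i) ≤ c)
    {X : Set V} (hX : ∀ v ∈ X, ∀ i < f, v ∉ D i)
    (hr : LK.rk G X ({v | ∀ i < f, v ∉ D i} \ X) ≤ p) {j : ℕ} (hj : j ≤ f) :
    LK.cr G (X ∪ Uj D j) ≤ p + f * c := by
  have h1 : LK.rk G (Uj D j) (X ∪ Uj D j)ᶜ ≤ j * c := by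
    refine rk_un G D c _ j fun i hi => (rk_mono G subset_rfl ?_).trans (hD i (by omega))
    intro v hv hvi
    exact hv (Or.inr ⟨i, hi, hvi⟩)
  have h2 : LK.rk G X (X ∪ Uj D j)ᶜ ≤ p + (f - j) * c := by
    have h3 : (X ∪ Uj D j)ᶜ ⊆ ({v | ∀ i < f, v ∉ D i} \ X) ∪ {v | ∃ i, j ≤ i ∧ i < f ∧ v ∈ D i} := by
      intro v hv
      by_cases h4 : ∃ i < f, v ∈ D i
      · obtain ⟨i, hi, hvi⟩ := h4
        refine Or.inr ⟨i, ?_, hi, hvi⟩
        by_contra h5
        exact hv (Or.inr ⟨i, by omega, hvi⟩)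
      · exact Or.inl ⟨fun i hi hvi => h4 ⟨i, hi, hvi⟩, fun h5 => hv (Or.inl h5)⟩
    refine (rk_mono G subset_rfl h3).trans ((rk_union_right G _ _ _).trans ?_)
    refine Nat.add_le_add hr (rk_rest G D c f X j hj fun i hi => ?_)
    refine le_trans (rk_mono G (A' := (D i)ᶜ) (fun v hv => hX v hv i hi) subset_rfl) ?_
    rw [rk_symm]
    exact hD i hi
  have h3 := rk_union G X (Uj D j) (X ∪ Uj D j)ᶜ
  have h4 : (f - j) * c + j * c = f * c := by
    rw [← Nat.add_mul, Nat.sub_add_cancel hj]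
  show LK.rk G (X ∪ Uj D j) (X ∪ Uj D j)ᶜ ≤ _
  omega

end tnDAux

open tnDAux

/-- **B14.** -/
theorem tnD (h : S_Ind) : S_TnD := by
  intro V _ G φ f c T D hT hφ hD
  set A : Set V := {v | ∀ i < f, v ∉ D i} with hA
  have hcr : ∀ X : Set ↥A, LK.cr (G.induce A) X = LK.rk G (Subtype.val '' X) (A \ Subtype.val '' X) := by
    intro X
    have h1 : LK.cr (G.induce A) X = LK.rk G (Subtype.val '' X) (Subtype.val '' Xᶜ) :=
      h V ↥A G Subtype.val Subtype.val_injective X Xᶜ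
    rw [h1]
    have h2 : Subtype.val '' Xᶜ = A \ Subtype.val '' X := by
      ext v
      constructor
      · rintro ⟨a, ha, rfl⟩
        refine ⟨a.2, ?_⟩
        rintro ⟨b, hb, hba⟩
        exact ha (Subtype.ext hba ▸ hb)
      · rintro ⟨h3, h4⟩
        exact ⟨⟨v, h3⟩, fun h5 => h4 ⟨_, h5, rfl⟩, rfl⟩
    rw [h2]
  have hsub : ∀ X : Set ↥A, ∀ v ∈ Subtype.val '' X, ∀ i < f, v ∉ D i := by
    rintro X v ⟨a, -, rfl⟩
    exact a.2
  -- the union stays in the tangle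
  have hstep : ∀ X : Set ↥A, LK.cr (G.induce A) X ≤ φ - f * c → Subtype.val '' X ∈ T → ∀ j ≤ f,
      Subtype.val '' X ∪ Uj D j ∈ T := by
    intro X hX hXT j
    induction j with
    | zero =>
      intro _
      rw [un_zero, Set.union_empty]
      exact hXT
    | succ j ih =>
      intro hj
      have h1 := ih (by omega)
      rw [hcr] at hX
      have h2 := step (fun i hi => (hD i hi).2) (hsub X) hX hj
      rcases hT.dec (Subtype.val '' X ∪ Uj D (j + 1)) (by omega) with h3 | h3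
      · exact h3
      · exfalso
        apply hT.cov _ h1 _ (hD j (by omega)).1 _ h3
        rw [un_succ, ← Set.union_assoc, Set.union_compl_self]
  refine ⟨{X | LK.cr (G.induce A) X ≤ φ - f * c ∧ Subtype.val '' X ∪ Uj D f ∈ T}, fun X hX => hX.1,
    ?_, ?_, ?_⟩
  · intro X hX
    have h0 := hX
    rw [hcr] at h0
    have h1 := step (fun i hi => (hD i hi).2) (hsub X) h0 (Nat.zero_le f)
    rw [un_zero, Set.union_empty] at h1
    rcases hT.dec _ (show LK.cr G (Subtype.val '' X) ≤ φ by omega) with h2 | h2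
    · exact Or.inl ⟨hX, hstep X hX h2 f le_rfl⟩
    · refine Or.inr ⟨by rw [cr_compl]; exact hX, ?_⟩
      have h3 : Subtype.val '' Xᶜ ∪ Uj D f = (Subtype.val '' X)ᶜ := by
        ext v
        constructor
        · rintro (⟨a, ha, rfl⟩ | ⟨i, hi, hv⟩)
          · rintro ⟨b, hb, hba⟩
            exact ha (Subtype.ext hba ▸ hb)
          · rintro ⟨b, hb, rfl⟩
            exact b.2 i hi hv
        · intro h4
          by_cases h5 : ∃ i < f, v ∈ D i
          · obtain ⟨i, hi, hv⟩ := h5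
            exact Or.inr ⟨i, hi, hv⟩
          · exact Or.inl ⟨⟨v, fun i hi hv => h5 ⟨i, hi, hv⟩⟩, fun h6 => h4 ⟨_, h6, rfl⟩, rfl⟩
      rw [h3]
      exact h2
  · intro X hX Y hY U hU hall
    apply hT.cov _ hX.2 _ hY.2 _ hU.2
    ext v
    refine iff_of_true ?_ (Set.mem_univ v)
    by_cases h5 : ∃ i < f, v ∈ D i
    · obtain ⟨i, hi, hv⟩ := h5
      exact Or.inr (Or.inr ⟨i, hi, hv⟩)
    · have h1 : (⟨v, fun i hi hv => h5 ⟨i, hi, hv⟩⟩ : ↥A) ∈ X ∪ Y ∪ U := by
        rw [hall]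
        exact Set.mem_univ _
      rcases h1 with (h1 | h1) | h1
      · exact Or.inl (Or.inl (Or.inl ⟨_, h1, rfl⟩))
      · exact Or.inl (Or.inr (Or.inl ⟨_, h1, rfl⟩))
      · exact Or.inr (Or.inl ⟨_, h1, rfl⟩)
  · intro a
    have h0 : LK.cr (G.induce A) {a} ≤ φ - f * c := by
      have h1 := rk_card (G.induce A) ({a} : Set ↥A) ({a} : Set ↥A)ᶜ
      rw [Set.ncard_singleton] at h1
      exact h1.trans (by omega)
    refine ⟨h0, hstep {a} h0 ?_ f le_rfl⟩
    rw [Set.image_singleton]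
    exact hT.sing a.1

end Pool.Agent.MPd439b2.CR
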