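import Pool.Agent.Lib.MP_d439b2_co.CR.SpecB

/-!
# MP_d439b2_co, CR/TnR: a tangle after the replacement of sets by vertices
-/

set_option autoImplicit false

namespace Pool.Agent.MPd439b2.CR

open Pool.Agent.MPd439b2 Pool.Agent.MPd439b2.A0 Pool.Agent.MPd439b2.Rep

theorem tnR (h1 : S_Ind) : S_TnR := by
  intro V _ G φ d T π A hT hd hπ hπA hsing hcut
  have hval : ∀ X : Set ↥A, Subtype.val '' Xᶜ = A \ Subtype.val '' X := by
    intro X
    ext v
    constructor
    · rintro ⟨a, ha, rfl⟩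
      refine ⟨a.2, ?_⟩
      rintro ⟨b, hb, hab⟩
      exact ha (Subtype.ext hab ▸ hb)
    · rintro ⟨hv, hnv⟩
      exact ⟨⟨v, hv⟩, fun h => hnv ⟨⟨v, hv⟩, h, rfl⟩, rfl⟩
  have hcr : ∀ X : Set ↥A, LK.cr (G.induce A) X = LK.rk G (Subtype.val '' X)
      (A \ Subtype.val '' X) := by
    intro X
    rw [← hval]
    exact h1 V ↥A G Subtype.val Subtype.val_injective X Xᶜ
  have hsub : ∀ X : Set ↥A, Subtype.val '' X ⊆ A := by
    rintro X _ ⟨a, -, rfl⟩
    exact a.2
  have hcompl : ∀ X : Set ↥A, {v | π v ∈ Subtype.val '' Xᶜ} = {v | π v ∈ Subtype.val '' X}ᶜ := by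
    intro X
    ext v
    rw [hval]
    constructor
    · intro h
      exact h.2
    · intro h
      exact ⟨hπ v, h⟩
  refine ⟨fun X hX => hX.1, ?_, ?_, ?_⟩
  · intro X hX
    have h2 : LK.cr G {v | π v ∈ Subtype.val '' X} ≤ φ := by
      have h3 := hcut (Subtype.val '' X) (hsub X)
      rw [hcr] at hX
      omega
    rcases hT.dec _ h2 with h3 | h3
    · exact Or.inl ⟨hX, h3⟩
    · refine Or.inr ⟨?_, ?_⟩
      · rw [cr_compl]
        exact hX
      · rw [hcompl]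
        exact h3
  · rintro X ⟨-, hX⟩ Y ⟨-, hY⟩ U ⟨-, hU⟩ hun
    refine hT.cov _ hX _ hY _ hU (Set.eq_univ_of_forall fun v => ?_)
    have h2 : (⟨π v, hπ v⟩ : ↥A) ∈ X ∪ Y ∪ U := by
      rw [hun]
      trivial
    rcases h2 with (h2 | h2) | h2
    · exact Or.inl (Or.inl ⟨_, h2, rfl⟩)
    · exact Or.inl (Or.inr ⟨_, h2, rfl⟩)
    · exact Or.inr ⟨_, h2, rfl⟩
  · intro a
    refine ⟨?_, ?_⟩
    · have h2 : LK.cr (G.induce A) {a} ≤ ({a} : Set ↥A).ncard := rk_card _ _ _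
      rw [Set.ncard_singleton] at h2
      omega
    · have h2 : {v | π v ∈ Subtype.val '' ({a} : Set ↥A)} = {v | π v = a.1} := by
        ext v
        rw [Set.image_singleton]
        rfl
      rw [h2]
      exact hsing a.1 a.2

end Pool.Agent.MPd439b2.CR
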