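import Pool.Agent.Lib.MP_d439b2_co.CR.SpecA

/-!
# MP_d439b2_co, CR: transversals have few rows (helper9)
-/

set_option autoImplicit false

namespace Pool.Agent.MPd439b2.CR

open Pool.Agent.MPd439b2 Pool.Agent.MPd439b2.A0

namespace TvAux

variable {V : Type} {G : SimpleGraph V}

/-- enumeration of a finite set -/
theorem enum (S : Finset ℕ) (m : ℕ) (h : m ≤ S.card) :
    ∃ σ : ℕ → ℕ, (∀ k < m, σ k ∈ S) ∧ ∀ k < m, ∀ l < m, σ k = σ l → k = l := by
  refine ⟨fun k => if hk : k < S.card then (S.equivFin.symm ⟨k, hk⟩ : ℕ) else 0, ?_, ?_⟩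
  · intro k hk
    simp only [dif_pos (lt_of_lt_of_le hk h)]
    exact (S.equivFin.symm ⟨k, lt_of_lt_of_le hk h⟩).2
  · intro k hk l hl hkl
    simp only [dif_pos (lt_of_lt_of_le hk h), dif_pos (lt_of_lt_of_le hl h)] at hkl
    have h1 := S.equivFin.symm.injective (Subtype.ext hkl)
    exact congrArg Fin.val h1

theorem sysR {P : Set V} {m N : ℕ} {C : ℕ → Set V} (h : Sys G P m C) (g : ℕ → ℕ)
    (hg : ∀ a < N, g a < m) (hgi : ∀ a < N, ∀ b < N, a ≠ b → g a ≠ g b) :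
    Sys G P N (fun a => C (g a)) :=
  ⟨fun a ha => h.cmp _ (hg a ha), fun a ha => h.ne _ (hg a ha),
    fun a ha b hb hab => h.dis _ (hg a ha) _ (hg b hb) (hgi a ha b hb hab)⟩

/-- the four patterns -/
def Pat (G : SimpleGraph V) (m : ℕ) (z X : ℕ → V) : Prop :=
  (∀ k < m, ∀ l < m, (G.Adj (z k) (X l) ↔ k = l)) ∨
  (∀ k < m, ∀ l < m, (G.Adj (z k) (X l) ↔ k ≠ l)) ∨
  (∀ k < m, ∀ l < m, (G.Adj (z k) (X l) ↔ l ≤ k)) ∨
  (∀ k < m, ∀ l < m, (G.Adj (z k) (X l) ↔ k ≤ l))

theorem pat_inj {m : ℕ} {z X : ℕ → V} (h : Pat G m z X) :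
    ∀ k < m, ∀ l < m, z k = z l → k = l := by
  have key : ∀ R : ℕ → ℕ → Prop, (∀ k < m, ∀ l < m, (G.Adj (z k) (X l) ↔ R k l)) →
      (∀ k < m, ∀ l < m, (∀ j < m, (R k j ↔ R l j)) → k = l) →
      ∀ k < m, ∀ l < m, z k = z l → k = l := by
    intro R h1 h2 k hk l hl hkl
    refine h2 k hk l hl fun j hj => ?_
    rw [← h1 k hk j hj, ← h1 l hl j hj, hkl]
  rcases h with h | h | h | h
  · refine key _ h fun k hk l hl h3 => ?_
    exact ((h3 k hk).1 rfl).symm
  · refine key _ h fun k hk l hl h3 => ?_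
    by_contra hne
    exact ((h3 k hk).2 (Ne.symm hne)) rfl
  · refine key _ h fun k hk l hl h3 => ?_
    exact le_antisymm ((h3 k hk).1 le_rfl) ((h3 l hl).2 le_rfl)
  · refine key _ h fun k hk l hl h3 => ?_
    exact le_antisymm ((h3 l hl).2 le_rfl) ((h3 k hk).1 le_rfl)

/-- the transversal is in the members -/
theorem case1 {t N₁ m : ℕ} (hN : ∀ (V : Type) (G : SimpleGraph V) (P : Set V) (C : ℕ → Set V)
    (x u : ℕ → V), ¬ IMS (JP t) G Set.univ → Sys G P N₁ C → (∀ a < N₁, x a ∈ mi G P (C a)) →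
    (∀ a < N₁, u a ∈ P) → (∀ a < N₁, ∀ b < N₁, u a ∉ mi G P (C b)) →
    (∀ a < N₁, ∀ b < N₁, u a = u b → a = b) → ∃ a < N₁, G.Adj (x a) (u a))
    (hm : N₁ + 1 ≤ m) {P : Set V} (hJ : ¬ IMS (JP t) G Set.univ) {C : ℕ → Set V} {X z : ℕ → V}
    (hC : Sys G P m C) (hX : ∀ l < m, X l ∈ mi G P (C l)) (hz : ∀ k < m, z k ∈ P)
    (hzC : ∀ k < m, ∀ l < m, z k ∉ mi G P (C l)) (hP : Pat G m z X) : False := by
  have hi := pat_inj hP
  -- general use of the hypothesis
  have use : ∀ g e : ℕ → ℕ, (∀ a < N₁, g a < m) → (∀ a < N₁, e a < m) →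
      (∀ a < N₁, ∀ b < N₁, a ≠ b → g a ≠ g b) → (∀ a < N₁, ∀ b < N₁, e a = e b → a = b) →
      (∀ a < N₁, ¬ G.Adj (z (e a)) (X (g a))) → False := by
    intro g e hg he hgi hei hno
    obtain ⟨a, ha, hadj⟩ := hN V G P (fun a => C (g a)) (fun a => X (g a)) (fun a => z (e a)) hJ
      (sysR hC g hg hgi) (fun a ha => hX _ (hg a ha)) (fun a ha => hz _ (he a ha))
      (fun a ha b hb => hzC _ (he a ha) _ (hg b hb))
      (fun a ha b hb hab => hei a ha b hb (hi _ (he a ha) _ (he b hb) hab))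
    exact hno a ha hadj.symm
  rcases hP with h | h | h | h
  · refine use (fun a => a) (fun a => a + 1) (fun a ha => by omega) (fun a ha => by omega)
      (fun a _ b _ hab => hab) (fun a _ b _ hab => by omega) fun a ha hadj => ?_
    have := (h (a + 1) (by omega) a (by omega)).1 hadj
    omega
  · refine use (fun a => a) (fun a => a) (fun a ha => by omega) (fun a ha => by omega)
      (fun a _ b _ hab => hab) (fun a _ b _ hab => by omega) fun a ha hadj => ?_
    exact (h a (by omega) a (by omega)).1 hadj rfl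
  · refine use (fun a => a + 1) (fun a => a) (fun a ha => by omega) (fun a ha => by omega)
      (fun a _ b _ hab => by omega) (fun a _ b _ hab => by omega) fun a ha hadj => ?_
    have := (h a (by omega) (a + 1) (by omega)).1 hadj
    omega
  · refine use (fun a => a) (fun a => a + 1) (fun a ha => by omega) (fun a ha => by omega)
      (fun a _ b _ hab => hab) (fun a _ b _ hab => by omega) fun a ha hadj => ?_
    have := (h (a + 1) (by omega) a (by omega)).1 hadj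
    omega

/-- the transversal is in the components -/
theorem case2 (h3 : S_QM) (h4 : S_QC) (h5 : S_QH) {m : ℕ} (hm : 7 ≤ m) {P : Set V}
    (hZ : ZZ G P) {C : ℕ → Set V} {X z : ℕ → V} (hC : Sys G P m C) (hX : ∀ l < m, X l ∈ C l)
    (hz : ∀ k < m, z k ∈ P) (hzC : ∀ k < m, ∀ l < m, z k ∉ mi G P (C l)) (hP : Pat G m z X) :
    False := by
  rcases hP with h | h | h | h
  · refine h3 V G P C X z hZ (sysR hC (fun a => a) (fun a ha => by omega) fun a _ b _ hab => hab)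
      (fun a ha => hX a (by omega)) (fun a ha => hz a (by omega)) fun a ha b hb => ?_
    rw [G.adj_comm, h b (by omega) a (by omega)]
    exact eq_comm
  · refine h4 V G P C X z hZ (sysR hC (fun a => a) (fun a ha => by omega) fun a _ b _ hab => hab)
      (fun a ha => hX a (by omega)) (fun a ha => hz a (by omega))
      (fun a ha b hb => hzC a (by omega) b (by omega)) fun a ha b hb => ?_
    rw [G.adj_comm, h b (by omega) a (by omega)]
    exact ne_comm
  · refine h5 V G P (fun a => C (m - 1 - a)) (fun a => X (m - 1 - a)) (fun b => z (m - 2 - b)) hZ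
      (sysR hC (fun a => m - 1 - a) (fun a ha => by omega) fun a ha b hb hab => by omega)
      (fun a ha => hX _ (by omega)) (fun a ha => hz _ (by omega)) fun a ha b hb => ?_
    rw [G.adj_comm, h _ (by omega) _ (by omega)]
    omega
  · refine h5 V G P C X (fun b => z (b + 1)) hZ
      (sysR hC (fun a => a) (fun a ha => by omega) fun a _ b _ hab => hab)
      (fun a ha => hX a (by omega)) (fun a ha => hz _ (by omega)) fun a ha b hb => ?_
    rw [G.adj_comm, h _ (by omega) _ (by omega)]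
    omega

end TvAux

open TvAux in
/-- **Tv.** -/
theorem tv (h1 : R3.S_Rows) (h2 : S_TvP) (h3 : S_QM) (h4 : S_QC) (h5 : S_QH) : S_Tv := by
  intro t
  obtain ⟨N₁, hN₁⟩ := h2 t
  obtain ⟨M', hM'⟩ := h1 (N₁ + 7)
  refine ⟨2 * M', ?_⟩
  intro V G P hZ hJ M x hM hdis hx
  classical
  by_contra hcon
  push Not at hcon
  have hy : ∀ a b, ∃ v, a < 2 * M' → b < 2 * M' → a ≠ b → v ∈ P ∧ (∀ l < 2 * M', v ∉ M l) ∧
      (G.Adj v (x a) ↔ ¬ G.Adj v (x b)) := by
    intro a b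
    by_cases hab : a < 2 * M' ∧ b < 2 * M' ∧ a ≠ b
    · obtain ⟨v, hv, hvM, hne⟩ := hcon a hab.1 b hab.2.1 hab.2.2
      refine ⟨v, fun _ _ _ => ⟨hv, hvM, ?_⟩⟩
      rw [G.adj_comm v (x a), G.adj_comm v (x b)]
      tauto
    · exact ⟨x 0, fun h6 h7 h8 => absurd ⟨h6, h7, h8⟩ hab⟩
  choose y hy using hy
  -- the use of S_Rows for an injective sequence
  have main : ∀ ι : ℕ → ℕ, (∀ k < M', ι k < 2 * M') →
      (∀ k < M', ∀ l < M', ι k = ι l → k = l) →
      ∃ (φ : ℕ → ℕ) (z : ℕ → V), (∀ k < N₁ + 7, φ k < M') ∧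
        (∀ k < N₁ + 7, ∀ l < N₁ + 7, k ≠ l → ι (φ k) ≠ ι (φ l)) ∧
        (∀ k < N₁ + 7, z k ∈ P ∧ ∀ l < 2 * M', z k ∉ M l) ∧
        Pat G (N₁ + 7) z (fun l => x (ι (φ l))) := by
    intro ι hι hιi
    obtain ⟨φ, z, p1, p2, p3, p4⟩ := hM' V G (fun i => x (ι i)) (fun i j => y (ι i) (ι j))
      (fun i j hij hj => (hy (ι i) (ι j) (hι i (by omega)) (hι j hj)
        (fun h => by have := hιi i (by omega) j hj h; omega)).2.2)
    refine ⟨φ, z, p2, ?_, ?_, p4⟩
    · intro k hk l hl hkl h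
      have h6 := hιi _ (p2 k hk) _ (p2 l hl) h
      rcases lt_or_gt_of_ne hkl with h7 | h7
      · exact absurd h6 (p1 k l h7 hl).ne
      · exact absurd h6 (p1 l k h7 hk).ne'
    · intro k hk
      obtain ⟨i, j, hij, hj, hzk⟩ := p3 k hk
      have h6 := hy (ι i) (ι j) (hι i (by omega)) (hι j hj)
        (fun h => by have := hιi i (by omega) j hj h; omega)
      rw [hzk]
      exact ⟨h6.1, h6.2.1⟩
  -- the two kinds of indices
  have hcard : ((Finset.range (2 * M')).filter fun a => x a ∈ M a).card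
      + ((Finset.range (2 * M')).filter fun a => ¬ x a ∈ M a).card = 2 * M' := by
    rw [Finset.card_filter_add_card_filter_not, Finset.card_range]
  by_cases hc : M' ≤ ((Finset.range (2 * M')).filter fun a => x a ∈ M a).card
  · obtain ⟨ι, hι, hιi⟩ := enum _ _ hc
    have hι' : ∀ k < M', ι k < 2 * M' ∧ x (ι k) ∈ M (ι k) := fun k hk => by
      have := Finset.mem_filter.1 (hι k hk)
      exact ⟨Finset.mem_range.1 this.1, this.2⟩
    obtain ⟨φ, z, p1, p2, p3, p4⟩ := main ι (fun k hk => (hι' k hk).1) hιi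
    have hC : ∀ l, ∃ C, l < N₁ + 7 → Cmp G Pᶜ C ∧ mi G P C = M (ι (φ l)) := by
      intro l
      by_cases hl : l < N₁ + 7
      · obtain ⟨_, C, hC, hCM⟩ := hM _ (hι' _ (p1 l hl)).1
        exact ⟨C, fun _ => ⟨hC, hCM⟩⟩
      · exact ⟨∅, fun h => absurd h hl⟩
    choose C hC using hC
    refine case1 (m := N₁ + 7) hN₁ (by omega) hJ (C := C) (X := fun l => x (ι (φ l))) (z := z)
      ⟨fun a ha => (hC a ha).1, fun a ha => ?_, fun a ha b hb hab => ?_⟩ (fun l hl => ?_)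
      (fun k hk => (p3 k hk).1) (fun k hk l hl => ?_) p4
    · rw [(hC a ha).2]
      exact (hM _ (hι' _ (p1 a ha)).1).1
    · rw [(hC a ha).2, (hC b hb).2]
      exact hdis _ (hι' _ (p1 a ha)).1 _ (hι' _ (p1 b hb)).1 (p2 a ha b hb hab)
    · rw [(hC l hl).2]
      exact (hι' _ (p1 l hl)).2
    · rw [(hC l hl).2]
      exact (p3 k hk).2 _ (hι' _ (p1 l hl)).1
  · have hc' : M' ≤ ((Finset.range (2 * M')).filter fun a => ¬ x a ∈ M a).card := by omega
    obtain ⟨ι, hι, hιi⟩ := enum _ _ hc'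
    have hι' : ∀ k < M', ι k < 2 * M' ∧ x (ι k) ∈ ins G P (M (ι k)) := fun k hk => by
      have h6 := Finset.mem_filter.1 (hι k hk)
      have h7 := Finset.mem_range.1 h6.1
      exact ⟨h7, (hx _ h7).resolve_left h6.2⟩
    obtain ⟨φ, z, p1, p2, p3, p4⟩ := main ι (fun k hk => (hι' k hk).1) hιi
    have hC : ∀ l, ∃ C, l < N₁ + 7 → Cmp G Pᶜ C ∧ x (ι (φ l)) ∈ C ∧ (mi G P C).Nonempty ∧
        mi G P C ⊆ M (ι (φ l)) := by
      intro l
      by_cases hl : l < N₁ + 7
      · obtain ⟨C, hC⟩ := (hι' _ (p1 l hl)).2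
        exact ⟨C, fun _ => hC⟩
      · exact ⟨∅, fun h => absurd h hl⟩
    choose C hC using hC
    refine case2 h3 h4 h5 (m := N₁ + 7) (by omega) hZ (C := C) (X := fun l => x (ι (φ l))) (z := z)
      ⟨fun a ha => (hC a ha).1, fun a ha => (hC a ha).2.2.1, fun a ha b hb hab => ?_⟩
      (fun l hl => (hC l hl).2.1) (fun k hk => (p3 k hk).1) (fun k hk l hl hmem => ?_) p4
    · exact (hdis _ (hι' _ (p1 a ha)).1 _ (hι' _ (p1 b hb)).1 (p2 a ha b hb hab)).mono
        (hC a ha).2.2.2 (hC b hb).2.2.2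
    · exact (p3 k hk).2 _ (hι' _ (p1 l hl)).1 ((hC l hl).2.2.2 hmem)

end Pool.Agent.MPd439b2.CR
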