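import Pool.Agent.Lib.MP_d439b2_co.CR.SpecA

/-!
# MP_d439b2_co, CR/TvP: transversals in the members
-/

set_option autoImplicit false

namespace Pool.Agent.MPd439b2.CR

open Pool.Agent.MPd439b2 Pool.Agent.MPd439b2.A0

theorem tvP (hJX : S_JX) : S_TvP := by
  intro t
  obtain ⟨N, hN⟩ := hJX t
  refine ⟨N, fun V G P C x u hJ hS hx hu huC huu => ?_⟩
  by_contra hcon
  push Not at hcon
  refine hJ (hN V G x u C (fun a ha => (hS.cmp a ha).2.1) (fun a ha b hb h => hS.sp ha hb h)
    ?_ ?_ ?_ hcon huu)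
  · intro a ha b hb
    refine ⟨fun h => (hS.cmp b hb).1 h (mi_sub P _ (hx a ha)), fun h => (hS.cmp b hb).1 h (hu a ha)⟩
  · intro a ha b hb
    constructor
    · rintro ⟨y, hy, hxy⟩ rfl
      exact (hx a ha).2 y hy hxy
    · intro hab
      have h1 : x a ∉ mi G P (C b) := fun h => Set.disjoint_left.1 (hS.dis a ha b hb hab) (hx a ha) h
      exact not_mi (mi_sub P _ (hx a ha)) h1
  · exact fun a ha b hb => not_mi (hu a ha) (huC a ha b hb)

end Pool.Agent.MPd439b2.CR
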