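import Pool.Agent.Lib.MP_d439b2_co.CR.SpecA

set_option autoImplicit false

namespace Pool.Agent.MPd439b2.CR

open Pool.Agent.MPd439b2 Pool.Agent.MPd439b2.A0

private theorem z1core (hM : A0.S_M1) {V : Type} {G : SimpleGraph V} {P : Set V} (hH : Hlp G P)
    (hI : ¬ IMS K401 G Set.univ) {C E E' A B : Set V} (hC : C ⊆ Pᶜ) (hE : E ⊆ Pᶜ) (hE' : E' ⊆ Pᶜ)
    (cC : Conn G C) (cE : Conn G E) (cE' : Conn G E') (sCE : Sp G C E) (sCE' : Sp G C E')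
    (sEE' : Sp G E E') (dm : Disjoint (mi G P E) (mi G P E')) (hA : A ⊆ C) (hB : B ⊆ C)
    (cA : Conn G A) (cB : Conn G B) (dAB : Disjoint A B) (tAB : Tch G A B)
    (tAE : Tch G A (mi G P E)) (tAE' : Tch G A (mi G P E')) (tBE : Tch G B (mi G P E))
    (tBE' : Tch G B (mi G P E')) : False := by
  classical
  obtain ⟨p₁, hp₁, x₁, hx₁, h1⟩ := tAE
  obtain ⟨p₂, hp₂, x₂, hx₂, h2⟩ := tBE
  obtain ⟨r₁, hr₁, w₁, hw₁, h3⟩ := tAE'
  obtain ⟨r₂, hr₂, w₂, hw₂, h4⟩ := tBE'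
  obtain ⟨a, ainj, aP, aiso, aY, aF⟩ := hH {x₁, x₂, w₁, w₂} (by
      intro v hv
      simp only [Finset.coe_insert, Finset.coe_singleton, Set.mem_insert_iff,
        Set.mem_singleton_iff] at hv
      rcases hv with rfl | rfl | rfl | rfl
      exacts [hx₁.1, hx₂.1, hw₁.1, hw₂.1]) Finset.card_le_four ![C, E, E']
    (by
      intro i
      fin_cases i
      exacts [cC, cE, cE']) (by
      intro i
      fin_cases i
      exacts [hC, hE, hE'])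
  have aC : ∀ i, a i ∉ C := fun i => aY i 0
  have aE : ∀ i, a i ∉ E := fun i => aY i 1
  have aE' : ∀ i, a i ∉ E' := fun i => aY i 2
  have ax₁ : ∀ i, G.Adj (a i) x₁ := fun i => aF i x₁ (by simp)
  have ax₂ : ∀ i, G.Adj (a i) x₂ := fun i => aF i x₂ (by simp)
  have aw₁ : ∀ i, G.Adj (a i) w₁ := fun i => aF i w₁ (by simp)
  have aw₂ : ∀ i, G.Adj (a i) w₂ := fun i => aF i w₂ (by simp)
  have hAP : A ⊆ Pᶜ := hA.trans hC
  have hBP : B ⊆ Pᶜ := hB.trans hC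
  -- the sets
  set X : Set V := insert x₁ (insert x₂ {a 0}) with hXd
  set W : Set V := insert w₁ (insert w₂ {a 1}) with hWd
  have memX : ∀ v ∈ X, v ∈ mi G P E ∨ v = a 0 := by
    rintro v (rfl | rfl | h)
    · exact Or.inl hx₁
    · exact Or.inl hx₂
    · exact Or.inr h
  have memW : ∀ v ∈ W, v ∈ mi G P E' ∨ v = a 1 := by
    rintro v (rfl | rfl | h)
    · exact Or.inl hw₁
    · exact Or.inl hw₂
    · exact Or.inr h
  have cX : Conn G X := (((Conn.singleton G (a 0)).insert ⟨a 0, rfl, ax₂ 0⟩)).insert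
    ⟨a 0, Or.inr rfl, ax₁ 0⟩
  have cW : Conn G W := (((Conn.singleton G (a 1)).insert ⟨a 1, rfl, aw₂ 1⟩)).insert
    ⟨a 1, Or.inr rfl, aw₁ 1⟩
  have x₁X : x₁ ∈ X := Or.inl rfl
  have x₂X : x₂ ∈ X := Or.inr (Or.inl rfl)
  have a0X : a 0 ∈ X := Or.inr (Or.inr rfl)
  have w₁W : w₁ ∈ W := Or.inl rfl
  have w₂W : w₂ ∈ W := Or.inr (Or.inl rfl)
  have a1W : a 1 ∈ W := Or.inr (Or.inr rfl)
  -- a 0 ≠ a 1
  have ha01 : a 0 ≠ a 1 := fun h => absurd (ainj h) (by decide)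
  have dXW : Disjoint X W := by
    rw [Set.disjoint_left]
    intro v hv hv'
    rcases memX v hv with h | h <;> rcases memW v hv' with h' | h'
    · exact Set.disjoint_left.1 dm h h'
    · exact aP 1 (h' ▸ h.1)
    · exact aP 0 (h ▸ h'.1)
    · exact ha01 (h.symm.trans h')
  have dX : ∀ Y : Set V, Y ⊆ Pᶜ → a 0 ∉ Y → Disjoint X Y := by
    intro Y hY ha
    rw [Set.disjoint_left]
    intro v hv hv'
    rcases memX v hv with h | h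
    · exact hY hv' h.1
    · exact ha (h ▸ hv')
  have dW : ∀ Y : Set V, Y ⊆ Pᶜ → a 1 ∉ Y → Disjoint W Y := by
    intro Y hY ha
    rw [Set.disjoint_left]
    intro v hv hv'
    rcases memW v hv with h | h
    · exact hY hv' h.1
    · exact ha (h ▸ hv')
  apply hI
  refine hM V G X W A B E' E cX cW cA cB cE' cE dXW (dX A hAP fun h => aC 0 (hA h))
    (dX B hBP fun h => aC 0 (hB h)) (dX E' hE' (aE' 0)) (dX E hE (aE 0))
    (dW A hAP fun h => aC 1 (hA h)) (dW B hBP fun h => aC 1 (hB h)) (dW E' hE' (aE' 1))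
    (dW E hE (aE 1)) dAB (sCE'.1.mono_left hA) (sCE.1.mono_left hA) (sCE'.1.mono_left hB)
    (sCE.1.mono_left hB) sEE'.1.symm ?_ ?_ ?_ ?_ ?_ tAB ?_ ?_ ?_ ?_ ?_ ?_ ?_ ?_ ?_
  · exact ⟨a 0, a0X, w₁, w₁W, aw₁ 0⟩
  · exact ⟨x₁, x₁X, p₁, hp₁, h1.symm⟩
  · exact ⟨x₂, x₂X, p₂, hp₂, h2.symm⟩
  · exact ⟨w₁, w₁W, r₁, hr₁, h3.symm⟩
  · exact ⟨w₂, w₂W, r₂, hr₂, h4.symm⟩
  · obtain ⟨y, hy, hxy⟩ := not_mi hx₁.1 (fun h => Set.disjoint_left.1 dm hx₁ h)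
    exact ⟨x₁, x₁X, y, hy, hxy⟩
  · obtain ⟨y, hy, hxy⟩ := not_mi hw₁.1 (fun h => Set.disjoint_left.1 dm h hw₁)
    exact ⟨w₁, w₁W, y, hy, hxy⟩
  · rintro ⟨v, hv, y, hy, hvy⟩
    rcases memX v hv with h | h
    · exact h.2 y hy hvy
    · exact aiso 0 y (hE hy) (h ▸ hvy)
  · rintro ⟨v, hv, y, hy, hvy⟩
    rcases memW v hv with h | h
    · exact h.2 y hy hvy
    · exact aiso 1 y (hE' hy) (h ▸ hvy)
  · exact fun h => sCE'.2 (h.mono hA subset_rfl)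
  · exact fun h => sCE.2 (h.mono hA subset_rfl)
  · exact fun h => sCE'.2 (h.mono hB subset_rfl)
  · exact fun h => sCE.2 (h.mono hB subset_rfl)
  · exact sEE'.symm.2

theorem z1 (hM : A0.S_M1) : S_Z1 := by
  intro V G P hH hI C E E' A B hC hE hE' cC cE cE' sCE sCE' sEE' dm hA hB cA cB dAB tAE tAE' tBE tBE'
  -- the component of an element of `A` in `C \ B`
  obtain ⟨a, ha⟩ := cA.1
  have haCB : a ∈ C \ B := ⟨hA ha, Set.disjoint_left.1 dAB ha⟩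
  obtain ⟨C₀, hC₀, haC₀, cC₀, hnb⟩ := exists_comp G haCB
  have hAC₀ : A ⊆ C₀ := by
    have h1 : A ∩ C₀ = A := by
      refine cA.eq_of_nb Set.inter_subset_left ⟨a, ha, haC₀⟩ (fun v hv hn => ?_)
      obtain ⟨h2, b, hb, hbv⟩ := hn
      exact hnb v ⟨hA hv, Set.disjoint_left.1 dAB hv⟩ ⟨fun h3 => h2 ⟨hv, h3⟩, b, hb.2, hbv⟩
    rw [← h1]
    exact Set.inter_subset_right
  have hC₀C : C₀ ⊆ C := fun v hv => (hC₀ hv).1
  have dC₀B : Disjoint C₀ B := by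
    rw [Set.disjoint_left]
    exact fun v hv => (hC₀ hv).2
  have hne : C₀ ≠ C := by
    intro h
    obtain ⟨b, hb⟩ := cB.1
    exact Set.disjoint_left.1 dC₀B (h ▸ hB hb) hb
  have tC₀B : Tch G C₀ B := by
    obtain ⟨b, hb, c, hc, hbc⟩ := cC.2 C₀ hC₀C ⟨a, haC₀⟩ hne
    refine ⟨b, hb, c, ?_, hbc⟩
    by_contra hcB
    exact hnb c ⟨hc.1, hcB⟩ ⟨hc.2, b, hb, hbc⟩
  exact z1core hM hH hI hC hE hE' cC cE cE' sCE sCE' sEE' dm hC₀C hB cC₀ cB dC₀B tC₀B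
    (tAE.mono hAC₀ subset_rfl) (tAE'.mono hAC₀ subset_rfl) tBE tBE'

end Pool.Agent.MPd439b2.CR
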