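import Pool.Agent.Lib.MP_d439b2_co.CR.SpecA

/-!
# MP_d439b2_co, CR/Z2: comparable sets of missed vertices (helper37)
-/

set_option autoImplicit false

namespace Pool.Agent.MPd439b2.CR

open Pool.Agent.MPd439b2 Pool.Agent.MPd439b2.A0

namespace Z2Aux

variable {V : Type} {G : SimpleGraph V}

theorem ntch_pair {x y : V} {B : Set V} (hx : ∀ b ∈ B, ¬ G.Adj x b) (hy : ∀ b ∈ B, ¬ G.Adj y b) :
    ¬ Tch G {x, y} B := by
  rintro ⟨a, ha, b, hb, h⟩
  rcases ha with rfl | rfl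
  · exact hx b hb h
  · exact hy b hb h

theorem ntch_sing {x : V} {B : Set V} (hx : ∀ b ∈ B, ¬ G.Adj x b) : ¬ Tch G {x} B := by
  rintro ⟨a, ha, b, hb, h⟩
  rcases ha with rfl
  exact hx b hb h

end Z2Aux

open Z2Aux

theorem z2 (h1 : A0.S_M1) : S_Z2 := by
  classical
  intro V G P hH hfr Y Y' hYP hYP' hY hY' hsp hne
  obtain ⟨p, hp, hp'⟩ := hne
  by_contra hcon
  rw [not_or, Set.not_subset, Set.not_subset] at hcon
  obtain ⟨⟨w, hw, hw'⟩, v, hv', hv⟩ := hcon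
  obtain ⟨y, hy, hvy⟩ := not_mi hv'.1 hv
  obtain ⟨y', hy', hwy⟩ := not_mi hw.1 hw'
  have hvw : v ≠ w := fun h => hv (h ▸ hw)
  have hvp : v ≠ p := fun h => hv (h ▸ hp)
  have hwp : w ≠ p := fun h => hw' (h ▸ hp')
  obtain ⟨a, ha1, ha2, ha3, ha4, ha5⟩ := hH {v, w, p} (by
      intro x hx
      simp only [Finset.coe_insert, Finset.coe_singleton, Set.mem_insert_iff,
        Set.mem_singleton_iff] at hx
      rcases hx with rfl | rfl | rfl
      · exact hv'.1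
      · exact hw.1
      · exact hp.1) (by
      have := Finset.card_le_three (a := v) (b := w) (c := p)
      omega) ![Y, Y', Y'] (by
      intro i; fin_cases i
      · exact hY
      · exact hY'
      · exact hY') (by
      intro i; fin_cases i
      · exact hYP
      · exact hYP'
      · exact hYP')
  have av : ∀ i, G.Adj (a i) v := fun i => ha5 i v (by simp)
  have aw : ∀ i, G.Adj (a i) w := fun i => ha5 i w (by simp)
  have ap : ∀ i, G.Adj (a i) p := fun i => ha5 i p (by simp)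
  have aY : ∀ i, a i ∉ Y := fun i => ha4 i 0
  have aY' : ∀ i, a i ∉ Y' := fun i => ha4 i 1
  have naY : ∀ i, ∀ b ∈ Y, ¬ G.Adj (a i) b := fun i b hb => ha3 i b (hYP hb)
  have naY' : ∀ i, ∀ b ∈ Y', ¬ G.Adj (a i) b := fun i b hb => ha3 i b (hYP' hb)
  have vY : v ∉ Y := fun h => hYP h hv'.1
  have vY' : v ∉ Y' := fun h => hYP' h hv'.1
  have wY : w ∉ Y := fun h => hYP h hw.1
  have wY' : w ∉ Y' := fun h => hYP' h hw.1
  have pY : p ∉ Y := fun h => hYP h hp.1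
  have pY' : p ∉ Y' := fun h => hYP' h hp.1
  have va : ∀ i, v ≠ a i := fun i => (av i).ne'
  have wa : ∀ i, w ≠ a i := fun i => (aw i).ne'
  have pa : ∀ i, p ≠ a i := fun i => (ap i).ne'
  have av' : ∀ i, a i ≠ v := fun i => (av i).ne
  have aw' : ∀ i, a i ≠ w := fun i => (aw i).ne
  have ap' : ∀ i, a i ≠ p := fun i => (ap i).ne
  have a01 : a 0 ≠ a 1 := fun h => absurd (ha1 h) (by decide)
  have a02 : a 0 ≠ a 2 := fun h => absurd (ha1 h) (by decide)
  have a12 : a 1 ≠ a 2 := fun h => absurd (ha1 h) (by decide)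
  have hwv := hvw.symm
  have hpv := hvp.symm
  have hpw := hwp.symm
  have a10 := a01.symm
  have a20 := a02.symm
  have a21 := a12.symm
  refine hfr (h1 V G {v, a 0} {w} {p, a 1} {a 2} Y Y' (Conn.pair (av 0).symm)
    (Conn.singleton G w) (Conn.pair (ap 1).symm) (Conn.singleton G _) hY hY'
    ?_ ?_ ?_ ?_ ?_ ?_ ?_ ?_ ?_ ?_ ?_ ?_ ?_ ?_ hsp.1
    ?_ ?_ ?_ ?_ ?_ ?_ ?_ ?_ ?_ ?_ ?_ ?_ ?_ ?_ hsp.2)
  · simp [hvw, hwv, aw', wa]
  · simp [hvp, hpv, va, av', ap', pa, a01, a10]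
  · simp [va, av', a02, a20]
  · simp [vY, aY]
  · simp [vY', aY']
  · simp [hwp, hpw, wa, aw']
  · simp [wa, aw']
  · simp [wY]
  · simp [wY']
  · simp [pa, ap', a12, a21]
  · simp [pY, aY]
  · simp [pY', aY']
  · simp [aY]
  · simp [aY']
  · exact ⟨a 0, by simp, w, by simp, aw 0⟩
  · exact ⟨a 0, by simp, p, by simp, ap 0⟩
  · exact ⟨v, by simp, a 2, by simp, (av 2).symm⟩
  · exact ⟨w, by simp, a 1, by simp, (aw 1).symm⟩
  · exact ⟨w, by simp, a 2, by simp, (aw 2).symm⟩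
  · exact ⟨p, by simp, a 2, by simp, (ap 2).symm⟩
  · exact ⟨v, by simp, y, hy, hvy⟩
  · exact ⟨w, by simp, y', hy', hwy⟩
  · exact ntch_pair hv'.2 (naY' 0)
  · exact ntch_sing hw.2
  · exact ntch_pair hp.2 (naY 1)
  · exact ntch_pair hp'.2 (naY' 1)
  · exact ntch_sing (naY 2)
  · exact ntch_sing (naY' 2)

end Pool.Agent.MPd439b2.CR
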