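import Pool.Agent.Lib.MP_d439b2_co.CR.SpecA

/-!
# MP_d439b2_co, CR, A5: Z3
-/

set_option autoImplicit false

namespace Pool.Agent.MPd439b2.CR

open Pool.Agent.MPd439b2 Pool.Agent.MPd439b2.A0

theorem z3 (h1 : A0.S_M1) : S_Z3 := by
  intro V G P hH hK R z z' u q₁ q₂ q₃ hR hRc hz hz' hzR hz'R hzz hnzz hzr hz'r hu h₁ h₂ h₃ h12 h13
    h23 hz'u hzu hz1 hz2 hz3 hz'1 hz'2 hz'3 hr1 hr2 hr3
  classical
  obtain ⟨a, hai, haP, hano, haY, haF⟩ := hH {u, q₁, q₂, q₃}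
    (by
      intro v hv
      simp only [Finset.coe_insert, Finset.coe_singleton, Set.mem_insert_iff,
        Set.mem_singleton_iff] at hv
      rcases hv with rfl | rfl | rfl | rfl <;> assumption)
    Finset.card_le_four ![R, {z}, {z'}]
    (by
      intro i
      fin_cases i
      · exact hRc
      · exact Conn.singleton G z
      · exact Conn.singleton G z')
    (by
      intro i
      fin_cases i
      · exact hR
      · exact Set.singleton_subset_iff.mpr hz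
      · exact Set.singleton_subset_iff.mpr hz')
  have haR : ∀ i, a i ∉ R := fun i => haY i 0
  have haz : ∀ i, a i ≠ z := fun i => haY i 1
  have haz' : ∀ i, a i ≠ z' := fun i => haY i 2
  have hau : ∀ i, G.Adj (a i) u := fun i => haF i u (by simp)
  have ha1 : ∀ i, G.Adj (a i) q₁ := fun i => haF i q₁ (by simp)
  have ha2 : ∀ i, G.Adj (a i) q₂ := fun i => haF i q₂ (by simp)
  have ha3 : ∀ i, G.Adj (a i) q₃ := fun i => haF i q₃ (by simp)
  have hPne : ∀ v ∈ P, ∀ w, w ∉ P → v ≠ w := fun v hv w hw h => hw (h ▸ hv)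
  have ha01 : a 0 ≠ a 1 := fun h => absurd (hai h) (by decide)
  have hu2 : u ≠ q₂ := fun h => hz'2 (h ▸ hz'u)
  have hu3 : u ≠ q₃ := fun h => hz'3 (h ▸ hz'u)
  have hRP : ∀ v ∈ P, v ∉ R := fun v hv h => hR h hv
  apply hK
  have cB : Conn G {u, a 0, q₁} := (Conn.pair (ha1 0)).insert ⟨a 0, by simp, hau 0⟩
  have cC : Conn G {q₂, a 1} := Conn.pair (ha2 1).symm
  obtain ⟨r0, hr0, hzr0⟩ := hzr
  obtain ⟨r1, hr1', hqr1⟩ := hr1
  obtain ⟨r2, hr2', hqr2⟩ := hr2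
  obtain ⟨r3, hr3', hqr3⟩ := hr3
  refine h1 V G R {u, a 0, q₁} {q₂, a 1} {q₃} {z} {z'} hRc cB cC (Conn.singleton G _)
    (Conn.singleton G _) (Conn.singleton G _) ?_ ?_ ?_ ?_ ?_ ?_ ?_ ?_ ?_ ?_ ?_ ?_ ?_ ?_ ?_
    ?_ ?_ ?_ ?_ ?_ ?_ ?_ ?_ ?_ ?_ ?_ ?_ ?_ ?_ ?_
  · rw [Set.disjoint_right]
    rintro v (rfl | rfl | rfl)
    · exact hRP _ hu
    · exact haR 0
    · exact hRP _ h₁
  · rw [Set.disjoint_right]
    rintro v (rfl | rfl)
    · exact hRP _ h₂
    · exact haR 1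
  · rw [Set.disjoint_right]
    rintro v rfl
    exact hRP _ h₃
  · rw [Set.disjoint_right]
    rintro v rfl
    exact hzR
  · rw [Set.disjoint_right]
    rintro v rfl
    exact hz'R
  · rw [Set.disjoint_left]
    rintro v (rfl | rfl | rfl) (h | h)
    · exact hu2 h
    · exact hPne _ hu _ (haP 1) h
    · exact hPne _ h₂ _ (haP 0) h.symm
    · exact ha01 h
    · exact h12 h
    · exact hPne _ h₁ _ (haP 1) h
  · rw [Set.disjoint_left]
    rintro v (rfl | rfl | rfl) h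
    · exact hu3 h
    · exact hPne _ h₃ _ (haP 0) (Eq.symm h)
    · exact h13 h
  · rw [Set.disjoint_left]
    rintro v (rfl | rfl | rfl) h
    · exact hPne _ hu _ hz h
    · exact haz 0 h
    · exact hPne _ h₁ _ hz h
  · rw [Set.disjoint_left]
    rintro v (rfl | rfl | rfl) h
    · exact hPne _ hu _ hz' h
    · exact haz' 0 h
    · exact hPne _ h₁ _ hz' h
  · rw [Set.disjoint_left]
    rintro v (rfl | rfl) h
    · exact h23 h
    · exact hPne _ h₃ _ (haP 1) (Eq.symm h)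
  · rw [Set.disjoint_left]
    rintro v (rfl | rfl) h
    · exact hPne _ h₂ _ hz h
    · exact haz 1 h
  · rw [Set.disjoint_left]
    rintro v (rfl | rfl) h
    · exact hPne _ h₂ _ hz' h
    · exact haz' 1 h
  · rw [Set.disjoint_left]
    rintro v rfl h
    exact hPne _ h₃ _ hz h
  · rw [Set.disjoint_left]
    rintro v rfl h
    exact hPne _ h₃ _ hz' h
  · rw [Set.disjoint_left]
    rintro v rfl h
    exact hzz h
  · exact ⟨r1, hr1', q₁, by simp, hqr1.symm⟩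
  · exact ⟨r2, hr2', q₂, by simp, hqr2.symm⟩
  · exact ⟨r3, hr3', q₃, by simp, hqr3.symm⟩
  · exact ⟨a 0, by simp, q₂, by simp, ha2 0⟩
  · exact ⟨a 0, by simp, q₃, by simp, ha3 0⟩
  · exact ⟨a 1, by simp, q₃, by simp, ha3 1⟩
  · exact ⟨r0, hr0, z, by simp, hzr0.symm⟩
  · exact ⟨u, by simp, z', by simp, hz'u.symm⟩
  · rintro ⟨x, hx, y, rfl, hxy⟩
    exact hz'r x hx hxy.symm
  · rintro ⟨x, (rfl | rfl | rfl), y, rfl, hxy⟩
    · exact hzu hxy.symm
    · exact hano 0 _ hz hxy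
    · exact hz1 hxy.symm
  · rintro ⟨x, (rfl | rfl), y, rfl, hxy⟩
    · exact hz2 hxy.symm
    · exact hano 1 _ hz hxy
  · rintro ⟨x, (rfl | rfl), y, rfl, hxy⟩
    · exact hz'2 hxy.symm
    · exact hano 1 _ hz' hxy
  · rintro ⟨x, rfl, y, rfl, hxy⟩
    exact hz3 hxy.symm
  · rintro ⟨x, rfl, y, rfl, hxy⟩
    exact hz'3 hxy.symm
  · rintro ⟨x, rfl, y, rfl, hxy⟩
    exact hnzz hxy

end Pool.Agent.MPd439b2.CR
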