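import Pool.Agent.Lib.MP_d439b2_co.CR.ACl
import Pool.Agent.Lib.MP_d439b2_co.CR.BCl
import Pool.Agent.Lib.MP_d439b2_co.CR.Bd
import Pool.Agent.Lib.MP_d439b2_co.CR.Bd1
import Pool.Agent.Lib.MP_d439b2_co.CR.Cl
import Pool.Agent.Lib.MP_d439b2_co.CR.Cr
import Pool.Agent.Lib.MP_d439b2_co.CR.Cut
import Pool.Agent.Lib.MP_d439b2_co.CR.Dup
import Pool.Agent.Lib.MP_d439b2_co.CR.Edg
import Pool.Agent.Lib.MP_d439b2_co.CR.Fam
import Pool.Agent.Lib.MP_d439b2_co.CR.Fm2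
import Pool.Agent.Lib.MP_d439b2_co.CR.Hp
import Pool.Agent.Lib.MP_d439b2_co.CR.Ind
import Pool.Agent.Lib.MP_d439b2_co.CR.JL
import Pool.Agent.Lib.MP_d439b2_co.CR.JX
import Pool.Agent.Lib.MP_d439b2_co.CR.KK
import Pool.Agent.Lib.MP_d439b2_co.CR.MJ
import Pool.Agent.Lib.MP_d439b2_co.CR.New
import Pool.Agent.Lib.MP_d439b2_co.CR.Nsm
import Pool.Agent.Lib.MP_d439b2_co.CR.Nw5
import Pool.Agent.Lib.MP_d439b2_co.CR.Pex
import Pool.Agent.Lib.MP_d439b2_co.CR.PhC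
import Pool.Agent.Lib.MP_d439b2_co.CR.PhH
import Pool.Agent.Lib.MP_d439b2_co.CR.PhM
import Pool.Agent.Lib.MP_d439b2_co.CR.Phi
import Pool.Agent.Lib.MP_d439b2_co.CR.Prs
import Pool.Agent.Lib.MP_d439b2_co.CR.QC
import Pool.Agent.Lib.MP_d439b2_co.CR.QH
import Pool.Agent.Lib.MP_d439b2_co.CR.QM
import Pool.Agent.Lib.MP_d439b2_co.CR.Rds
import Pool.Agent.Lib.MP_d439b2_co.CR.Rnd
import Pool.Agent.Lib.MP_d439b2_co.CR.RwF
import Pool.Agent.Lib.MP_d439b2_co.CR.Spl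
import Pool.Agent.Lib.MP_d439b2_co.CR.ThCp
import Pool.Agent.Lib.MP_d439b2_co.CR.TnD
import Pool.Agent.Lib.MP_d439b2_co.CR.TnR
import Pool.Agent.Lib.MP_d439b2_co.CR.Tv
import Pool.Agent.Lib.MP_d439b2_co.CR.TvP
import Pool.Agent.Lib.MP_d439b2_co.CR.Z1
import Pool.Agent.Lib.MP_d439b2_co.CR.Z2
import Pool.Agent.Lib.MP_d439b2_co.CR.Z3
import Pool.Agent.Lib.MP_d439b2_co.A0.M1
import Pool.Agent.Lib.MP_d439b2_co.A0.PA
import Pool.Agent.Lib.MP_d439b2_co.A0.PB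
import Pool.Agent.Lib.MP_d439b2_co.R3.Final
import Pool.Agent.Lib.MP_d439b2_co.Rep.RowX3
import Pool.Agent.Lib.MP_d439b2_co.F9.BaseP

/-!
# MP_d439b2_co, CR/Final: Theorem C' for `K4:0,1` without hypotheses (note 2828 of helper53; Spec by helper85)
-/

set_option autoImplicit false

namespace Pool.Agent.MPd439b2.CR

open Pool.Agent.MPd439b2 Pool.Agent.MPd439b2.A0 Pool.Agent.MPd439b2.Rep

theorem jXF : S_JX := jX W.ramC (cr mJ) (jL mJ)

theorem kKF : S_KK := kK mJ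

theorem tvPF : S_TvP := tvP jXF

theorem tvF : S_Tv := tv (R3.rows R3.ram3F) tvPF qM qC qH

theorem famF : S_Fam := fam tvF (bd bd1) (edg tvPF) (rwF R3.ram3F) (phi tvF (phM kKF) phC phH)

/-- **Lemma R**, one round -/
theorem rndF : S_Rnd :=
  rnd (cl aM1) hp (z1 aM1) (z2 aM1) (z3 aM1) ind (tnR ind) (tnD ind) (fm2 famF (cut dup)) nsm
    (new (nw5 aM1))

theorem pexF : S_Pex := pex aM1 aPB kKF

theorem bClF : S_BCl := bCl pexF (R3.fF W.ramC) (R3.bClass (R3.antiC R3.ram3F) W.dil W.ramC)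

theorem prsF : S_Prs :=
  prs (spl R3.pairs W.ramC) (aCl (R3.rows R3.ram3F) W.ramC) bClF pexF (aPA aM1)

/-- **Theorem C'** for `K4:0,1`: without large induced matchings with stable sides and without large
co-matchings between two cliques the layouts are bounded -/
theorem thCpF (m : ℕ) : ∃ N : ℕ, ∀ (V : Type) [Finite V] (G : SimpleGraph V), Rep.Fr K401 (JP 4) G →
    NoTP G m false false false → NoTP G m true true true → Lay G N Set.univ :=
  thCp pexF prsF (rds rndF) (tanE a2_holds a6_holds) (tanL LK.a1)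
    (fun _ _ hF => R3.facts0 hF.1 hF.2)
    (fun m => by
      obtain ⟨N, hN⟩ := R3.thmC0F m
      exact ⟨N, fun V _ G hF h1 h2 => hN V G hF.1 hF.2 h1 h2⟩) m

/-- Theorem C' in the form of `Rep/RowX3.lean` -/
theorem bltF : BLT (F9.KF 4 2 ![{0}, {1}]) J4 {(false, false, false), (true, true, true)} := by
  intro m
  obtain ⟨N, hN⟩ := thCpF m
  refine ⟨N, fun V _ G hF hT => hN V G ⟨fun h => hF.1 ?_, hF.2⟩ ?_ ?_⟩
  · rw [F9.kf1]
    exact h
  · exact hT (false, false, false) (by simp)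
  · exact hT (true, true, true) (by simp)

end Pool.Agent.MPd439b2.CR
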