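import Pool.Agent.Lib.MP_d439b2_co.CR.SpecB

set_option autoImplicit false

namespace Pool.Agent.MPd439b2.CR

open Pool.Agent.MPd439b2 Pool.Agent.MPd439b2.A0 Pool.Agent.MPd439b2.Rep

theorem fm2 (hF : S_Fam) (hC : S_Cut) : S_Fm2 := by
  classical
  intro t
  obtain ⟨f, c, h⟩ := hF t
  refine ⟨f, 6 * c + 1, 6 * c, ?_⟩
  intro V _ G P hZ hI F hDF
  obtain ⟨F', hF', hcard, hFam⟩ := h V G P hZ hI F hDF
  refine ⟨F', hF', hcard, ?_, fun q hq X hX => hC c V G P F' q hFam hq X hX⟩
  intro M hM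
  have hne : ∀ N ∈ F', N.Nonempty := fun N hN => (hFam.df.1 N hN).1
  obtain ⟨v₀, hv₀⟩ := hne M hM
  let q : Set V → V := fun N => if h : N.Nonempty then h.some else v₀
  have hq : ∀ N ∈ F', q N ∈ N := by
    intro N hN
    have h1 : q N = (hne N hN).some := dif_pos (hne N hN)
    rw [h1]
    exact (hne N hN).some_mem
  have hsub : ∀ N ∈ F', N ⊆ P := fun N hN => (hFam.df.1 N hN).sub
  have hdis : ∀ N ∈ F', N ≠ M → q M ∉ cel G P N := by
    intro N hN hNM hmem
    have h1 := hFam.df.2 N hN M hM hNM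
    exact Set.disjoint_left.1 (cel_disj (hsub N hN) (hsub M hM) h1) hmem (Or.inl (hq M hM))
  have hX : ({q M} : Set V) ⊆ {v | ∀ N ∈ F', v ∈ cel G P N → v = q N} := by
    intro v hv
    rw [Set.mem_singleton_iff] at hv
    subst hv
    intro N hN hmem
    by_cases hNM : N = M
    · rw [hNM]
    · exact absurd hmem (hdis N hN hNM)
  have h1 := hC c V G P F' q hFam hq {q M} hX
  have h2 : ({q M} : Set V) ∪ {v | ∃ N ∈ F', q N ∈ ({q M} : Set V) ∧ v ∈ cel G P N} = cel G P M := by
    ext v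
    constructor
    · rintro (hv | ⟨N, hN, hqN, hv⟩)
      · rw [Set.mem_singleton_iff] at hv
        rw [hv]
        exact Or.inl (hq M hM)
      · by_cases hNM : N = M
        · rw [← hNM]
          exact hv
        · exfalso
          rw [Set.mem_singleton_iff] at hqN
          exact hdis N hN hNM (Or.inl (hqN ▸ hq N hN))
    · intro hv
      exact Or.inr ⟨M, hM, rfl, hv⟩
  rw [h2] at h1
  have h3 := rk_card G ({q M} : Set V) ({v | ∀ N ∈ F', v ∈ cel G P N → v = q N} \ {q M})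
  rw [Set.ncard_singleton] at h3
  omega

end Pool.Agent.MPd439b2.CR
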