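import Pool.Agent.Lib.MP_d439b2_co.CR.SpecB

/-!
# MP_d439b2_co, CR, PhC: inner vertices of one cell against members, co-matching
-/

set_option autoImplicit false

namespace Pool.Agent.MPd439b2.CR

open Pool.Agent.MPd439b2 Pool.Agent.MPd439b2.A0 Pool.Agent.MPd439b2.Rep

theorem phC : S_PhC := by
  intro V G P hZ D M z hM hdis hD hz hall
  have hM' : ∀ a : ℕ, ∃ E : Set V, a < 5 → Cmp G Pᶜ E ∧ mi G P E = M a := by
    intro a
    by_cases ha : a < 5
    · obtain ⟨-, E, hE, hEM⟩ := hM a ha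
      exact ⟨E, fun _ => ⟨hE, hEM⟩⟩
    · exact ⟨∅, fun h => absurd h ha⟩
  choose E hE using hM'
  have hz' : ∀ a : ℕ, ∃ C : Set V, a < 5 → Cmp G Pᶜ C ∧ z a ∈ C ∧ (mi G P C).Nonempty ∧
      mi G P C ⊆ D := by
    intro a
    by_cases ha : a < 5
    · obtain ⟨C, h⟩ := hz a ha
      exact ⟨C, fun _ => h⟩
    · exact ⟨∅, fun h => absurd h ha⟩
  choose C hC using hz'
  have hv' : ∀ a : ℕ, ∃ v : V, a < 5 → v ∈ M a := by
    intro a
    by_cases ha : a < 5
    · obtain ⟨v, hv⟩ := (hM a ha).1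
      exact ⟨v, fun _ => hv⟩
    · exact ⟨z 0, fun h => absurd h ha⟩
  choose v hv using hv'
  have hvP : ∀ a < 5, v a ∈ P := fun a ha => (hM a ha).sub (hv a ha)
  have hEE : ∀ a < 5, ∀ b < 5, a ≠ b → E a ≠ E b := by
    intro a ha b hb hab h
    refine Set.disjoint_left.mp (hdis a ha b hb hab) (hv a ha) ?_
    rw [← (hE b hb).2, ← h, (hE a ha).2]
    exact hv a ha
  have hCE : ∀ a < 5, ∀ b < 5, C a ≠ E b := by
    intro a ha b hb h
    obtain ⟨-, -, ⟨u, hu⟩, hsub⟩ := hC a ha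
    refine Set.disjoint_left.mp (hD b hb) (hsub hu) ?_
    rw [h, (hE b hb).2] at hu
    exact hu
  -- Z1 for singletons
  have z1 : ∀ a < 5, ∀ i < 5, ∀ j < 5, i ≠ j → ∀ p ∈ C a, ∀ q ∈ C a, p ≠ q →
      G.Adj p (v i) → G.Adj p (v j) → G.Adj q (v i) → ¬ G.Adj q (v j) := by
    intro a ha i hi j hj hij p hp q hq hpq h1 h2 h3 h4
    have hCa := (hC a ha).1
    have := hZ.z1 (C a) (E i) (E j) {p} {q} hCa.1 (hE i hi).1.1 (hE j hj).1.1 hCa.2.1
      (hE i hi).1.2.1 (hE j hj).1.2.1 (hCa.sp (hE i hi).1 (hCE a ha i hi))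
      (hCa.sp (hE j hj).1 (hCE a ha j hj)) ((hE i hi).1.sp (hE j hj).1 (hEE i hi j hj hij))
      (by rw [(hE i hi).2, (hE j hj).2]; exact hdis i hi j hj hij)
      (Set.singleton_subset_iff.2 hp) (Set.singleton_subset_iff.2 hq) (Conn.singleton G p)
      (Conn.singleton G q) (Set.disjoint_singleton.2 hpq)
    rw [(hE i hi).2, (hE j hj).2] at this
    exact this ⟨p, rfl, _, hv i hi, h1⟩ ⟨p, rfl, _, hv j hj, h2⟩ ⟨q, rfl, _, hv i hi, h3⟩
      ⟨q, rfl, _, hv j hj, h4⟩
  have hza : ∀ a < 5, ∀ b < 5, (G.Adj (z a) (v b) ↔ a ≠ b) := fun a ha b hb =>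
    hall a ha b hb _ (hv b hb)
  have hzz : ∀ a < 5, ∀ b < 5, a ≠ b → z a ≠ z b := by
    intro a ha b hb hab h
    have h1 := (hza b hb a ha).2 hab.symm
    rw [← h] at h1
    exact (hza a ha a ha).1 h1 rfl
  -- (1)
  have hCC : ∀ a < 3, ∀ b < 3, a ≠ b → C a ≠ C b := by
    intro a ha b hb hab h
    refine z1 a (by omega) 3 (by omega) 4 (by omega) (by omega) (z a) (hC a (by omega)).2.1 (z b)
      (by rw [h]; exact (hC b (by omega)).2.1) (hzz a (by omega) b (by omega) hab)
      ((hza a (by omega) 3 (by omega)).2 (by omega)) ((hza a (by omega) 4 (by omega)).2 (by omega))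
      ((hza b (by omega) 3 (by omega)).2 (by omega)) ((hza b (by omega) 4 (by omega)).2 (by omega))
  -- (2)
  have hy' : ∀ a : ℕ, ∃ y : V, a < 5 → y ∈ C a ∧ G.Adj (v a) y := by
    intro a
    by_cases ha : a < 5
    · obtain ⟨y, hy, hay⟩ := not_mi (G := G) (C := C a) (hvP a ha)
        fun h => Set.disjoint_left.mp (hD a ha) ((hC a ha).2.2.2 h) (hv a ha)
      exact ⟨y, fun _ => ⟨hy, hay⟩⟩
    · exact ⟨z 0, fun h => absurd h ha⟩
  choose y hy using hy'
  have hyz : ∀ a < 5, z a ≠ y a := by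
    intro a ha h
    have h1 := (hy a ha).2.symm
    rw [← h] at h1
    exact (hza a ha a ha).1 h1 rfl
  -- (3)
  have h3 : ∀ a < 5, ∀ b < 5, ∀ c < 5, a ≠ b → a ≠ c → b ≠ c → G.Adj (y a) (v b) →
      ¬ G.Adj (y a) (v c) := by
    intro a ha b hb c hc hab hac hbc
    exact z1 a ha b hb c hc hbc (z a) (hC a ha).2.1 (y a) (hy a ha).1 (hyz a ha)
      ((hza a ha b hb).2 hab) ((hza a ha c hc).2 hac)
  -- (4)
  have hcmp : ∀ a < 3, ∀ b < 3, ∀ c < 5, a ≠ b → ¬ G.Adj (y a) (v c) → ¬ G.Adj (y b) (v c) →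
      mi G P {y a} ⊆ mi G P {y b} ∨ mi G P {y b} ⊆ mi G P {y a} := by
    intro a ha b hb c hc hab h1 h2
    refine hZ.z2 {y a} {y b} (Set.singleton_subset_iff.2 ((hC a (by omega)).1.1 (hy a (by omega)).1))
      (Set.singleton_subset_iff.2 ((hC b (by omega)).1.1 (hy b (by omega)).1))
      (Conn.singleton G _) (Conn.singleton G _)
      (((hC a (by omega)).1.sp (hC b (by omega)).1 (hCC a ha b hb hab)).mono
        (Set.singleton_subset_iff.2 (hy a (by omega)).1)
        (Set.singleton_subset_iff.2 (hy b (by omega)).1))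
      ⟨v c, mem_mi_singleton.2 ⟨hvP c hc, fun h => h1 h.symm⟩,
        mem_mi_singleton.2 ⟨hvP c hc, fun h => h2 h.symm⟩⟩
  have hcmp' : ∀ a < 3, ∀ b < 3, ∀ c < 3, a ≠ b → a ≠ c → b ≠ c →
      mi G P {y a} ⊆ mi G P {y b} ∨ mi G P {y b} ⊆ mi G P {y a} := by
    intro a ha b hb c hc hab hac hbc
    have k := fun x (hx : x < 5) => hcmp a ha b hb x hx hab
    by_cases a1 : G.Adj (y a) (v c)
    · have a2 := h3 a (by omega) c (by omega) 3 (by omega) hac (by omega) (by omega) a1
      have a3 := h3 a (by omega) c (by omega) 4 (by omega) hac (by omega) (by omega) a1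
      by_cases b1 : G.Adj (y b) (v 3)
      · exact k 4 (by omega) a3
          (h3 b (by omega) 3 (by omega) 4 (by omega) (by omega) (by omega) (by omega) b1)
      · exact k 3 (by omega) a2 b1
    · by_cases b1 : G.Adj (y b) (v c)
      · have b2 := h3 b (by omega) c (by omega) 3 (by omega) hbc (by omega) (by omega) b1
        have b3 := h3 b (by omega) c (by omega) 4 (by omega) hbc (by omega) (by omega) b1
        by_cases a2 : G.Adj (y a) (v 3)
        · exact k 4 (by omega)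
            (h3 a (by omega) 3 (by omega) 4 (by omega) (by omega) (by omega) (by omega) a2) b3
        · exact k 3 (by omega) a2 b2
      · exact k c (by omega) a1 b1
  -- the smallest one
  have hmin : ∃ a < 3, ∀ b < 3, mi G P {y a} ⊆ mi G P {y b} := by
    have k01 := hcmp' 0 (by omega) 1 (by omega) 2 (by omega) (by omega) (by omega) (by omega)
    have k02 := hcmp' 0 (by omega) 2 (by omega) 1 (by omega) (by omega) (by omega) (by omega)
    have k12 := hcmp' 1 (by omega) 2 (by omega) 0 (by omega) (by omega) (by omega) (by omega)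
    have three : ∀ a : ℕ, mi G P {y a} ⊆ mi G P {y 0} → mi G P {y a} ⊆ mi G P {y 1} →
        mi G P {y a} ⊆ mi G P {y 2} → ∀ b < 3, mi G P {y a} ⊆ mi G P {y b} := by
      intro a h0 h1 h2 b hb
      interval_cases b
      · exact h0
      · exact h1
      · exact h2
    rcases k01 with k01 | k01
    · rcases k02 with k02 | k02
      · exact ⟨0, by omega, three 0 subset_rfl k01 k02⟩
      · exact ⟨2, by omega, three 2 k02 (k02.trans k01) subset_rfl⟩
    · rcases k12 with k12 | k12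
      · exact ⟨1, by omega, three 1 k01 subset_rfl k12⟩
      · exact ⟨2, by omega, three 2 (k12.trans k01) k12 subset_rfl⟩
  obtain ⟨a, ha, hmin⟩ := hmin
  have hadj : ∀ b < 3, G.Adj (y a) (v b) := by
    intro b hb
    by_contra h
    have h1 := hmin b hb (mem_mi_singleton.2 ⟨hvP b (by omega), fun h2 => h h2.symm⟩)
    exact (mem_mi_singleton.1 h1).2 (hy b (by omega)).2
  interval_cases a
  · exact h3 0 (by omega) 1 (by omega) 2 (by omega) (by omega) (by omega) (by omega)
      (hadj 1 (by omega)) (hadj 2 (by omega))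
  · exact h3 1 (by omega) 0 (by omega) 2 (by omega) (by omega) (by omega) (by omega)
      (hadj 0 (by omega)) (hadj 2 (by omega))
  · exact h3 2 (by omega) 0 (by omega) 1 (by omega) (by omega) (by omega) (by omega)
      (hadj 0 (by omega)) (hadj 1 (by omega))

end Pool.Agent.MPd439b2.CR
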