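import Pool.Agent.Lib.MP_d439b2_co.CR.Defs
import Pool.Agent.Lib.MP_d439b2_co.A0.Spec
import Pool.Agent.Lib.MP_d439b2_co.R3.SpecA

/-!
# MP_d439b2_co, CR, Spec A: the lemmas about one graph (note 2828, (1) and (2))

Every `S_...` is a statement to be proved in its own file `CR/<Name>.lean`; the docstring contains the complete
proof.  The used statements are hypotheses of the theorem.  `a ~ b` means `G.Adj a b`; `q ≁ r` means not adjacent.
M1 is `A0.S_M1` (its arguments: four connected sets `A, B, C, D` which touch each other, the pendant `P`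
touches only `A`, the pendant `Q` touches only `B`).
-/

set_option autoImplicit false

namespace Pool.Agent.MPd439b2.CR

open Pool.Agent.MPd439b2 Pool.Agent.MPd439b2.A0

/-- **A1.** Cleaning (uses `A0.S_M1`).

Proof. `N = n + 10`, all indices are `< N`.  (0) `k i ≠ k j`, `s i ≠ s j` for `i ≠ j`, `k i ≠ s j`.
(1) A vertex `v` that sees `s a, s b`, `a ≠ b`, misses at most one of the `s`'s.  Otherwise it misses `s c, s d`,
`c ≠ d`; so `a, b, c, d` are different.  M1: `A = {k c}`, `P = {s d}`; `B = {k d}`, `Q = {s c}`; `C = {v, s a}`,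
`D = {s b}`.  (`v ≠ k c` as `k c ~ s d`; `v ≠ k d`; `v` is not one of the `s`'s since it sees `s a`.)
(2) Let `J` be the set of the indices `i` such that some vertex `z i` sees `s i` and no other `s j`.
(2a) `z i` sees at most one `k a` with `a ≠ i`: otherwise `z i ~ k a, k b`; M1: `A = {k a}`, `P = {s b}`; `B = {k b}`,
`Q = {s a}`; `C = {z i}`, `D = {s i}` (`z i ≠ k a`, as `k a` sees many `s`'s).
(2b) `z i ~ z j` for `i ≠ j` in `J`: otherwise there are three indices `c, d, e ∉ {i, j}` such that `z i, z j` miss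
`k c, k d, k e` (there are at least `8` indices `≠ i, j`, each of `z i`, `z j` sees at most one of these `k`'s).  M1:
`A = {s i}`, `P = {z i}`; `B = {k c, s j}`, `Q = {z j}`; `C = {k d}`, `D = {k e}`.
(2c) `J` has at most three elements: for four, M1: `A = {z 1}`, `P = {s 1}`; `B = {z 2}`, `Q = {s 2}`; `C = {z 3}`,
`D = {z 4}` (with the four indices).
(3) `φ` enumerates `n` elements of `{i | i < N} \ J`.  `one`: let `v ~ s (φ i)`, and suppose that `v` misses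
`s (φ j)`, `s (φ l)`, `φ j ≠ φ l`.  By (1) `v` sees no other `s`, so `φ i ∈ J`: contradiction. -/
def S_Cl : Prop := ∀ (n : ℕ) (V : Type) (G : SimpleGraph V) (k s : ℕ → V), ¬ IMS K401 G Set.univ →
  Spd G (n + 10) k s → ∃ φ : ℕ → ℕ, (∀ i < n, φ i < n + 10) ∧ (∀ i < n, ∀ j < n, φ i = φ j → i = j) ∧
    Cln G n (fun i => k (φ i)) (fun i => s (φ i))

/-- **A2.** Helpers.

Proof. `P = PP G n s`.  A vertex `v ∈ P` sees some `s i`, so it misses at most one of them (`one`).  `s i` has no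
neighbour in `Pᶜ` (a neighbour of `s i` is in `P`) and `s i ∉ P`.  So a connected set `Y j ⊆ Pᶜ` containing `s i` is
`{s i}` (`Conn` with `B = {s i}`), and `Y j` contains at most one `s i`.  At most `4 + 3` of the at least `10` indices
`i < n` are such that `s i` is missed by an element of `F` or contained in one of the `Y j`; the `a i` are three other
`s`'s (`s i ≠ s j` for `i ≠ j`, since `k i ~ s j`, `k i ≁ s i`). -/
def S_Hp : Prop := ∀ (V : Type) (G : SimpleGraph V) (n : ℕ) (k s : ℕ → V), 10 ≤ n → Cln G n k s →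
  Hlp G (PP G n s)

/-- **A3.** Z1 (uses `A0.S_M1`).

Proof. Suppose that all four pairs touch.  (1) We may assume that `A` and `B` touch: let `C₀` be the component
of an element of `A` in `G[C \ B]` (`exists_comp`); `A ⊆ C₀` (`A` is connected and contained in `C \ B`; `Conn.eq_of_nb`
for `A ∩ C₀`); `C₀ ≠ C` and `C` is connected, so there is an edge from `C₀` to `C \ C₀`; its end is a neighbour of
`C₀`, so it is not in `C \ B`: it is in `B`.  Replace `A` by `C₀`.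
(2) Let `x₁, x₂ ∈ mi E` have neighbours in `A`, `B`, and `w₁, w₂ ∈ mi E'` as well.  `Hlp` for
`F = {x₁, x₂, w₁, w₂}` and `![C, E, E']`: `a 0`, `a 1`.  M1 with `X = {x₁, x₂, a 0}`, `W = {w₁, w₂, a 1}`, `A`, `B` and the
pendants `E'` (touches `X`) and `E` (touches `W`).  `X`, `W` are connected (`a 0 ~ x₁, x₂`).  `X`, `W` touch
(`a 0 ~ w₁`); they touch `A` and `B`.  `E'` touches `x₁`: `x₁ ∈ P`, `x₁ ∉ mi E'` (disjoint).  `E'` does not touch `W`
(`w₁, w₂ ∈ mi E'`; the `a i` have no neighbours outside `P`), `A`, `B ⊆ C`, `E`.  The same for `E`.  Disjoint: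
`x_i, w_i ∈ P`, `mi E` and `mi E'` are disjoint, the other sets are outside `P`. -/
def S_Z1 : Prop := ∀ (V : Type) (G : SimpleGraph V) (P : Set V), Hlp G P → ¬ IMS K401 G Set.univ →
  Z1p G P

/-- **A4.** Z2 (uses `A0.S_M1`).

Proof. Otherwise there are `v ∈ mi Y' \ mi Y`, `v' ∈ mi Y \ mi Y'` and `p` in both sets.  `Hlp` for `F = {v, v', p}` and
`![Y, Y', Y']`: `a 0, a 1, a 2`.  M1: `A = {v, a 0}`, `P = Y`; `B = {v'}`, `Q = Y'`; `C = {p, a 1}`; `D = {a 2}`.  (`Y` touches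
`v` since `v ∈ P`, `v ∉ mi Y`; it does not touch `v'`, `p`, `a i`, `Y'`.  All `a i` are adjacent to `v, v', p`.) -/
def S_Z2 : Prop := ∀ (V : Type) (G : SimpleGraph V) (P : Set V), Hlp G P → ¬ IMS K401 G Set.univ →
  Z2p G P

/-- **A5.** Z3 (uses `A0.S_M1`).

Proof. `Hlp` for `F = {u, q₁, q₂, q₃}` and `![R, {z}, {z'}]`: `a 0, a 1`.  M1: `A = R`, `P = {z}`;
`B = {u, a 0, q₁}`, `Q = {z'}`; `C = {q₂, a 1}`; `D = {q₃}`.  (`u ≠ q_i` as `z' ~ u`, `z' ≁ q_i`.  `R` touches `q₁, q₂, q₃`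
and `z`; `a 0 ~ u, q₁, q₂, q₃`; `a 1 ~ q₂, q₃`.) -/
def S_Z3 : Prop := ∀ (V : Type) (G : SimpleGraph V) (P : Set V), Hlp G P → ¬ IMS K401 G Set.univ →
  Z3p G P

/-- **A6.** A builder for models of `J_t`.

Proof. Branch sets (compare `A0/PB.lean`: `lf`, `cas`, and its table of the edges of `JP t`): `inl none ↦ X 0`,
`inl (some ⟨1, 0⟩) ↦ X 1`, `inl (some ⟨2, 0⟩) ↦ X 2`, `inr (q, false) ↦ X (2 q + 3)`, `inr (q, true) ↦ X (2 q + 4)`.  In `JP t`:
`none` is not adjacent to the two leaves, the leaves are adjacent; `(q, false)`, `(q, true)` are not adjacent; all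
others are adjacent. -/
def S_MJ : Prop := ∀ (t : ℕ) (V : Type) (G : SimpleGraph V) (X : ℕ → Set V),
  (∀ i < 2 * t + 3, Conn G (X i)) →
  (∀ i j, i < j → j < 2 * t + 3 → Disjoint (X i) (X j) ∧
    (Tch G (X i) (X j) ↔ ¬ ((i = 0 ∧ j ≤ 2) ∨ (3 ≤ i ∧ i % 2 = 1 ∧ j = i + 1)))) → IMS (JP t) G Set.univ

/-- **A7.** A crown with a stable side (uses A6).

Proof. A6 with `X 0 = {x 1} ∪ C 2`, `X 1 = {x 2}`, `X 2 = C 1`, `X (2 q + 3) = {x (2 q + 3)} ∪ C (2 q + 4)`,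
`X (2 q + 4) = {x (2 q + 4)} ∪ C (2 q + 3)`.  (`x a` touches `C b` iff `a ≠ b`; the `x`'s do not touch each other, the
`C`'s neither; so `{x a} ∪ C b` and `{x a'} ∪ C b'` do not touch iff `a = b'` and `a' = b`.) -/
def S_Cr : Prop := ∀ (t : ℕ) (V : Type) (G : SimpleGraph V) (x : ℕ → V) (C : ℕ → Set V),
  (∀ a < 2 * t + 3, Conn G (C a)) → (∀ a < 2 * t + 3, ∀ b < 2 * t + 3, a ≠ b → Sp G (C a) (C b)) →
  (∀ a < 2 * t + 3, ∀ b < 2 * t + 3, x a ∉ C b) → (∀ a < 2 * t + 3, ∀ b < 2 * t + 3, ¬ G.Adj (x a) (x b)) →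
  (∀ a < 2 * t + 3, ∀ b < 2 * t + 3, ((∃ y ∈ C b, G.Adj (x a) y) ↔ a ≠ b)) → IMS (JP t) G Set.univ

/-- **A8.** A crown with a clique and private non-neighbours `u a` (uses A6).

Proof. A6 with `X 0 = C 0`, `X 1 = {x 0}`, `X 2 = C 1`, `X (2 q + 3) = {x (q + 2)}`,
`X (2 q + 4) = C (q + 2) ∪ {u (q + 2)}`.  (`u a ≠ x b` as `u a` touches `C b`; `u a ∉ C b`.  `X 0` misses `x 0` and `C 1`;
`x 0` touches `C 1`.  `x a` misses `C a` and `u a`; all the other pairs touch: `x a ~ x b`, `x a` touches `C b`,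
`C a` touches `u b`.) -/
def S_JL : Prop := ∀ (t : ℕ) (V : Type) (G : SimpleGraph V) (x u : ℕ → V) (C : ℕ → Set V),
  (∀ a < t + 2, Conn G (C a)) → (∀ a < t + 2, ∀ b < t + 2, a ≠ b → Sp G (C a) (C b)) →
  (∀ a < t + 2, ∀ b < t + 2, x a ∉ C b ∧ u a ∉ C b) → (∀ a < t + 2, ∀ b < t + 2, a ≠ b → G.Adj (x a) (x b)) →
  (∀ a < t + 2, ∀ b < t + 2, ((∃ y ∈ C b, G.Adj (x a) y) ↔ a ≠ b)) →
  (∀ a < t + 2, ∀ b < t + 2, ∃ y ∈ C b, G.Adj (u a) y) → (∀ a < t + 2, ¬ G.Adj (x a) (u a)) →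
  (∀ a < t + 2, ∀ b < t + 2, u a = u b → a = b) → IMS (JP t) G Set.univ

/-- **A9.** Crowns with private non-neighbours (uses `W.S_RamC`, A7, A8).

Proof. `N` = the number of `W.S_RamC` for two colours and `2 * t + 3`; the colour of `a < b` is `x a ~ x b`.  The
sequence `σ` is increasing.  If the `x (σ a)` are pairwise not adjacent: A7 for `x ∘ σ`, `C ∘ σ`; if they are pairwise
adjacent: A8 for `x ∘ σ`, `u ∘ σ`, `C ∘ σ` (`t + 2 ≤ 2 * t + 3`). -/
def S_JX : Prop := ∀ t : ℕ, ∃ N : ℕ, ∀ (V : Type) (G : SimpleGraph V) (x u : ℕ → V) (C : ℕ → Set V),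
  (∀ a < N, Conn G (C a)) → (∀ a < N, ∀ b < N, a ≠ b → Sp G (C a) (C b)) →
  (∀ a < N, ∀ b < N, x a ∉ C b ∧ u a ∉ C b) →
  (∀ a < N, ∀ b < N, ((∃ y ∈ C b, G.Adj (x a) y) ↔ a ≠ b)) →
  (∀ a < N, ∀ b < N, ∃ y ∈ C b, G.Adj (u a) y) → (∀ a < N, ¬ G.Adj (x a) (u a)) →
  (∀ a < N, ∀ b < N, u a = u b → a = b) → IMS (JP t) G Set.univ

/-- **A10.** A matching of two cliques contains `J_t` (uses A6).

Proof. Write `(c, d)` for the index `c * (t + 3) + d`, `c, d < t + 3`.  Let `Z c = {x (c, d) | 2 ≤ d < t + 3, d ≠ c}`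
together with `x (c, 0)` if `c ≥ 2`, and `W d = {y (c, d) | 2 ≤ c < t + 3, c ≠ d}`.  A6 with
`X 0 = W 0`, `X 1 = Z 0`, `X 2 = Z 1`, `X (2 q + 3) = Z (q + 2)`, `X (2 q + 4) = W' (q + 2)` where
`W' d = W d ∪ {y (0, d), y (1, d)}`.  All sets are non-empty subsets of one of the cliques, so they are connected, and
two subsets of the same clique touch.  A subset of the `x`'s and a subset of the `y`'s touch iff they have a common
index.  `W 0`: the indices `(c, 0)`, `c ≥ 2`; `Z 0`: `(0, d)`, `d ≥ 2`; `Z 1`: `(1, d)`, `d ≥ 2`; so `X 0` misses `X 1` and `X 2`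
(`X 1`, `X 2` touch); `X 0` touches `Z c`, `c ≥ 2`, in `(c, 0)`.  `W' d`, `d ≥ 2`: the indices `(c, d)`, `c ≠ d` (`c = 0`, `1` or
`c ≥ 2`); so `Z c` and `W' d` have a common index iff `c ≠ d` (for `d ≥ 2`).  For `X 0` and `W' d`: both are `y`'s. -/
def S_KK : Prop := ∀ (t : ℕ) (V : Type) (G : SimpleGraph V) (x y : ℕ → V),
  (∀ a < (t + 3) ^ 2, ∀ b < (t + 3) ^ 2, x a ≠ y b) →
  (∀ a < (t + 3) ^ 2, ∀ b < (t + 3) ^ 2, a ≠ b → G.Adj (x a) (x b) ∧ G.Adj (y a) (y b)) →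
  (∀ a < (t + 3) ^ 2, ∀ b < (t + 3) ^ 2, (G.Adj (x a) (y b) ↔ a = b)) → IMS (JP t) G Set.univ

/-- **A11.** Transversals in the members (uses A9).

Proof. `N` of A9.  Suppose that `x a ≁ u a` for all `a < N`; A9.  `C a` is connected; `Sp G (C a) (C b)` is
`Sys.sp`.  `x a, u a ∈ P`, `C b ⊆ Pᶜ`.  `x a ∈ mi (C a)` does not touch `C a`; for `b ≠ a`: `x a ∉ mi (C b)` (`dis`), so it
touches `C b` (`not_mi`).  `u a ∉ mi (C b)`: it touches `C b`. -/
def S_TvP : Prop := ∀ t : ℕ, ∃ N : ℕ, ∀ (V : Type) (G : SimpleGraph V) (P : Set V) (C : ℕ → Set V)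
  (x u : ℕ → V), ¬ IMS (JP t) G Set.univ → Sys G P N C → (∀ a < N, x a ∈ mi G P (C a)) →
  (∀ a < N, u a ∈ P) → (∀ a < N, ∀ b < N, u a ∉ mi G P (C b)) → (∀ a < N, ∀ b < N, u a = u b → a = b) →
  ∃ a < N, G.Adj (x a) (u a)

/-- **A12.** Inner transversals, matching.

Proof. Z2 for `{z 0}`, `{z 1}` (contained in different components: `Sys.sp`): `u 2` is missed by both, `u 1` is missed
by `z 0` only, `u 0` by `z 1` only (`mem_mi_singleton`). -/
def S_QM : Prop := ∀ (V : Type) (G : SimpleGraph V) (P : Set V) (C : ℕ → Set V) (z u : ℕ → V),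
  ZZ G P → Sys G P 3 C → (∀ a < 3, z a ∈ C a) → (∀ a < 3, u a ∈ P) →
  ¬ ∀ a < 3, ∀ b < 3, (G.Adj (z a) (u b) ↔ a = b)

/-- **A13.** Inner transversals, co-matching.

Proof. Write `M(Y)` for `mi G P Y`.  Let `q a ∈ M(C a)`.  All indices are `< 5`.
(1) For `a ≠ b`: `{z a}`, `{z b}` are `Sp` (`Sys.sp`), `u a ∈ M({z a}) \ M({z b})`, `u b ∈ M({z b}) \ M({z a})`; so by Z2
`M({z a})` and `M({z b})` are disjoint.  `q b ∈ M(C b) ⊆ M({z b})`, so `z a ~ q b` (`a ≠ b`).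
(2) `u a ∉ M(C a)`: some `y ∈ C a` is adjacent to `u a`, `y ≠ z a`.  Let `R a` be the component of `y` in
`G[C a \ {z a}]` (`exists_comp`).
(3) For `b ≠ c`, both `≠ a`, `R a` does not touch both `q b` and `q c`: Z1 with `C a`, `E = C b`, `E' = C c`, `A = {z a}`,
`B = R a` (`z a ~ q b, q c` by (1)).
(4) There are `a ≠ b` in `{0, 1, 2, 3}` such that `R a` misses `q b` and `R b` misses `q a`: by (3) `R 0` misses `q b`,
`q b'` for two elements `b ≠ b'` of `{1, 2, 3}`.  If `R b` misses `q 0`: `(0, b)`; if `R b'` misses `q 0`: `(0, b')`;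
otherwise by (3) `R b` misses `q b'` and `R b'` misses `q b`: `(b, b')`.
(5) By (3) there is `c < 5`, `c ≠ a, b` such that `R a` and `R b` miss `q c`.
(6) `R a` and `{z b}` are `Sp` (`R a ⊆ C a`), `q b` is missed by both (`q b ∈ M(C b)`); `q c ∈ M(R a)`, `z b ~ q c`; so Z2
gives `M({z b}) ⊆ M(R a)` and `u b ∈ M(R a)`.  In the same way `u a ∈ M(R b)`.
(7) `R a` and `R b` are `Sp`, `q c` is missed by both, `u b ∈ M(R a) \ M(R b)`, `u a ∈ M(R b) \ M(R a)`: contradiction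
to Z2. -/
def S_QC : Prop := ∀ (V : Type) (G : SimpleGraph V) (P : Set V) (C : ℕ → Set V) (z u : ℕ → V),
  ZZ G P → Sys G P 5 C → (∀ a < 5, z a ∈ C a) → (∀ a < 5, u a ∈ P) →
  (∀ a < 5, ∀ b < 5, u a ∉ mi G P (C b)) → ¬ ∀ a < 5, ∀ b < 5, (G.Adj (z a) (u b) ↔ a ≠ b)

/-- **A14.** Inner transversals, half graphs.

Proof. Write `M(Y)` for `mi G P Y`; `q a ∈ M(C a)`; all indices are `< 4`.
(1) Let `a < b`: `u a ∈ M({z a}) \ M({z b})`, and `u 3` is missed by both, so Z2 gives `M({z b}) ⊆ M({z a})`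
(`{z a}`, `{z b}` are `Sp` by `Sys.sp`).  `q b ∈ M(C b) ⊆ M({z b})`.  So `z a ≁ q b` for all `a ≤ b`.
(2) For `a = 1, 2, 3`: `q a ∉ M(C 0)` (`dis`) and `z 0 ≁ q a`, so some `y ∈ C 0 \ {z 0}` is adjacent to `q a`; let
`R a` be the component of `y` in `G[C 0 \ {z 0}]` (`exists_comp`).  Two such components are equal or `Sp`, and both
miss `q 0`; so by Z2 the three sets `M(R a)` are pairwise comparable; let `R` be the one of `R 1, R 2, R 3` with the
smallest `M(R)`: it touches `q 1, q 2, q 3`.  `R` touches `z 0`: `C 0` is connected and `R ≠ C 0`; the end in `C 0 \ R` of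
an edge that leaves `R` is not in `C 0 \ {z 0}`.
(3) Z3 for `R`, `z 0`, `z' = z 1`, `u 0`, `q 1, q 2, q 3`: `z 1 ~ u 0`, `z 0 ≁ u 0`; `z 0, z 1 ≁ q 1, q 2, q 3` by (1);
`z 1 ∉ C 0` and `z 1` does not touch `R ⊆ C 0` (`Sys.sp`); the `q`'s are different (`dis`). -/
def S_QH : Prop := ∀ (V : Type) (G : SimpleGraph V) (P : Set V) (C : ℕ → Set V)
  (z u : ℕ → V), ZZ G P → Sys G P 4 C → (∀ a < 4, z a ∈ C a) → (∀ a < 4, u a ∈ P) →
  ¬ ∀ a < 4, ∀ b < 4, (G.Adj (z a) (u b) ↔ b < a)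

/-- **A15.** Transversals have few rows (uses `R3.S_Rows`, A11, A12, A13, A14).

Proof. `N₁` of A11, `m = max N₁ 5 + 2`, `M'` = the number of `R3.S_Rows` for `m` (at least `1`), `ρ = 2 * M'`.
Suppose that the statement is false.  For `a ≠ b`, `a, b < ρ`, let `y a b ∈ P` be outside all `M l`, `l < ρ`, and adjacent to
exactly one of `x a`, `x b`.  Of the `ρ` indices `M'` have `x a ∈ M a`, or `M'` have `x a ∈ ins G P (M a)`; let `ι` be an
increasing enumeration of `M'` of these.  `R3.S_Rows` for `x ∘ ι` and `(i, j) ↦ y (ι i) (ι j)`: `φ`, `z`, `m` indices.  Put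
`X l = x (ι (φ l))`, `M' l = M (ι (φ l))` (pairwise disjoint).  Every `z k` is one of the `y`'s: it is in `P` and outside all
members.  The `z k` are pairwise different (in each of the four cases two of them see different sets of the `X l`).
Let `C l` be a component with `mi G P (C l) = M' l` in the first case; in the second case let `C l` be the component
containing `X l` with non-empty `mi G P (C l) ⊆ M' l`.  In both cases `Sys G P m C`, and `z k ∉ mi G P (C l)`.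
FIRST CASE (`X l ∈ mi G P (C l)`).  A11 with:  if `z k ~ X l` iff `k = l`: `x' l = X l`, `u l = z (l + 1)`;  iff `k ≠ l`:
`x' l = X l`, `u l = z l`;  iff `l ≤ k`: `x' l = X (l + 1)` (with `C (l + 1)`), `u l = z l`;  iff `k ≤ l`: `x' l = X l`,
`u l = z (l + 1)`; always `x' l ≁ u l` for `l < N₁`: contradiction.
SECOND CASE (`X l ∈ C l`).  `z k ~ X l` iff `k = l`: A12.  Iff `k ≠ l`: A13.  Iff `l ≤ k`: A14 with
`z' a = X (m - 1 - a)`, `C' a = C (m - 1 - a)`, `u b = z (m - 2 - b)`: `z' a ~ u b` iff `m - 1 - a ≤ m - 2 - b` iff `b < a`.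
Iff `k ≤ l`: A14 with `z' a = X a`, `u b = z (b + 1)`: `z' a ~ u b` iff `b + 1 ≤ a`. -/
def S_Tv : Prop := ∀ t : ℕ, ∃ ρ : ℕ, ∀ (V : Type) (G : SimpleGraph V) (P : Set V), ZZ G P →
  ¬ IMS (JP t) G Set.univ → ∀ (M : ℕ → Set V) (x : ℕ → V), (∀ a < ρ, Mem G P (M a)) →
  (∀ a < ρ, ∀ b < ρ, a ≠ b → Disjoint (M a) (M b)) → (∀ a < ρ, x a ∈ cel G P (M a)) →
  ∃ a < ρ, ∃ b < ρ, a ≠ b ∧ ∀ v ∈ P, (∀ l < ρ, v ∉ M l) → (G.Adj (x a) v ↔ G.Adj (x b) v)

end Pool.Agent.MPd439b2.CR
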