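import Pool.Agent.Lib.MP_d439b2_co.CR.SpecA
import Pool.Agent.Lib.MP_d439b2_co.Rep.Pat3
import Pool.Agent.Lib.MP_d439b2_co.Rep.Spec

/-!
# MP_d439b2_co, CR, Spec B: families of members, tangles, one round (note 2828, (3), (4), (5))

Every `S_...` is a statement to be proved in its own file `CR/<Name>.lean`; the docstring contains the complete
proof.  The used statements are hypotheses of the theorem.  `M(Y)` means `mi G P Y`.
-/

set_option autoImplicit false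

namespace Pool.Agent.MPd439b2.CR

open Pool.Agent.MPd439b2 Pool.Agent.MPd439b2.A0 Pool.Agent.MPd439b2.Rep

/-! ### families of members -/

/-- **B1.** One bad member.

Proof. `M = M 0`, `M i = M(C i)` with components `C i`.  `Bad`: `z ∉ P`, `z ∉ ins G P M`, `x, x' ∈ M`, `z ~ x`, `z ≁ x'`.
Let `C'` be the component of `G[Pᶜ]` that contains `z` (`exists_cmp`).
(1) `C' ≠ C 0` (otherwise `z ∈ ins G P M`).  `M(C')` and `M` are disjoint: otherwise (`ZZ.lam`) `M ⊆ M(C')`,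
impossible as `z ~ x`, or `M(C') ⊆ M` and `M(C')` is not empty, so `z ∈ ins G P M`.
(2) Z2 for `{z}`, `C 0` (`Sp`; `x'` is missed by both): `x ∈ M \ M({z})`, so `M({z}) ⊆ M`: `z` is complete to `P \ M`.  So
`C' ≠ C i` for `i ≠ 0` (`z` is complete to the non-empty set `M i`).
(3) `x' ∉ M(C')` by (1): some `y ∈ C'`, `y ≠ z`, is adjacent to `x'`; let `R` be the component of `y` in
`G[C' \ {z}]`.
(4) `M(R)` and `M` are disjoint: otherwise Z2 for `R`, `C 0` and `x' ∈ M \ M(R)` give `M(R) ⊆ M`; so `R` touches `M 1`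
and `M 2`, and `z` too: contradiction to Z1 for `C'`, `C 1`, `C 2`.  So every `v ∈ M` has a neighbour in `R`.
(5) Let `i ≠ 0`.  If `R` touches `M i`: Z1 for `C'`, `E = C 0`, `E' = C i`, `A = {z}` (touches `x` and `M i`), `B = R`
(touches `x'` and `M i`): contradiction. -/
def S_Bd1 : Prop := ∀ (V : Type) (G : SimpleGraph V) (P : Set V), ZZ G P → ∀ M : Fin 4 → Set V,
  (∀ i, Mem G P (M i)) → (∀ i j, i ≠ j → Disjoint (M i) (M j)) → Bad G P (M 0) →
  ∃ (C' R : Set V) (z : V), Cmp G Pᶜ C' ∧ z ∈ C' ∧ R ⊆ C' ∧ z ∉ R ∧ Conn G R ∧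
    (∀ v ∈ P, v ∉ M 0 → G.Adj z v) ∧ (∃ x ∈ M 0, ¬ G.Adj z x) ∧ (∀ v ∈ M 0, ∃ r ∈ R, G.Adj r v) ∧
    ∀ i, i ≠ 0 → ∀ v ∈ M i, ∀ r ∈ R, ¬ G.Adj r v

/-- **B2.** At most one bad member (uses B1).

Proof. Suppose that `M 0` and `M 1` are bad.  B1 for `M` gives `C', R, z`; B1 for `M ∘ swap 0 1` gives
`C'', R', z'`.  Let `M i = M(C i)`; `z`, `z'` are complete to `M 2` and `M 3`, so `C', C'' ≠ C 2, C 3`.
If `C' = C''`: `z ≠ z'` (otherwise `z` is complete to `P \ M 0` and to `P \ M 1 ⊇ M 0`, but it misses an element of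
`M 0`); Z1 for `C'`, `E = C 2`, `E' = C 3`, `A = {z}`, `B = {z'}`: contradiction.
If `C' ≠ C''`: `R`, `R'` are `Sp`; let `v i ∈ M i`; `v 2` is missed by `R` and `R'`; so by Z2 `M(R)` and `M(R')` are
comparable; but `v 1 ∈ M(R) \ M(R')`, `v 0 ∈ M(R') \ M(R)`. -/
def S_Bd : Prop := ∀ (V : Type) (G : SimpleGraph V) (P : Set V), ZZ G P → ∀ M : Fin 4 → Set V,
  (∀ i, Mem G P (M i)) → (∀ i j, i ≠ j → Disjoint (M i) (M j)) → Bad G P (M 0) → ¬ Bad G P (M 1)

/-- **B3.** The members are complete to each other (uses `S_TvP`).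

Proof. `N` of `S_TvP`, `f = 2 * N`.  Let `r` be maximal such that there are `2 * r` different members
`M a, M' a ∈ F` (`a < r`) and `x a ∈ M a`, `x' a ∈ M' a` with `x a ≁ x' a`.  `r < N`: otherwise `S_TvP` for the components
`C a` with `M(C a) = M a`, `x`, `u = x'` (`x' a ∈ P` is not in `M b`; the `x' a` are different, as the `M' a` are disjoint).
`F'` = `F` without these members. -/
def S_Edg : Prop := ∀ t : ℕ, ∃ f : ℕ, ∀ (V : Type) [Finite V] (G : SimpleGraph V) (P : Set V),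
  ¬ IMS (JP t) G Set.univ → ∀ F : Set (Set V), DF G P F → ∃ F' ⊆ F, (F \ F').ncard ≤ f ∧
    ∀ M ∈ F', ∀ M' ∈ F', M ≠ M' → ∀ x ∈ M, ∀ x' ∈ M', G.Adj x x'

/-- **B4.** Few rows outside (uses `X2.S_Ram3`).

Here the members are arbitrary disjoint sets and `Y M` is any set of vertices; the hypothesis says that there is
no transversal of size `ρ` with pairwise different rows over `P` minus its own members.

Proof. `L` = the number of `X2.S_Ram3` for two colours and `ρ + 4`, `f = L * ρ`.  We construct families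
`F = F_0 ⊇ F_1 ⊇ ..`.  Given `F_i`, let `U_i = P \ ⋃₀ F_i`, and let `r` be maximal such that there are different
`M_a ∈ F_i` and `x_a ∈ Y M_a` (`a < r`) with pairwise different rows over `U_i`; `r < ρ` by the hypothesis (for a
transversal of size `ρ` in `F_i` two of the rows agree outside the members of the transversal, in particular on
`U_i`).  Let `T_i` be the set of the rows over `U_i` of the `x_a`.  If `x ∈ Y M`, `M ∈ F_i` not one of the `M_a`, then the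
row of `x` over `U_i` is in `T_i` (maximality).  `B_i` = the set of the `M ∈ F_i` such that `Y M` contains a vertex
whose row over `U_i` is not in `T_i`; `|B_i| ≤ r < ρ`.  If `B_i` is empty then `F' = F_i` has the required property.
Otherwise choose `b_i ∈ B_i`, `x_i ∈ Y b_i` with a row not in `T_i`, and let `F_(i+1) = F_i \ B_i`.
Suppose that this goes on for `L` steps (otherwise `|F \ F'| ≤ L * ρ`).  For `i < j`: `b_j ∈ F_j ⊆ F_i \ B_i`, so the row
of `x_j` over `U_i` is in `T_i`, and there is `y_ij ∈ U_i` adjacent to exactly one of `x_i`, `x_j`.  `y_ij ∈ P` and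
`y_ij ∉ b_l` for `l ≥ i` (`b_l ∈ F_i`).  `X2.S_Ram3` for the colour `y_ij ∈ b_l` of `l < i < j`: `σ`, constant on `ρ + 4`
indices.  It is not `true`: otherwise `y_(σ 2, σ 3)` is in `b_(σ 0)` and in `b_(σ 1)`, which are disjoint (different:
`b_(σ 1) ∈ F_(σ 1)`, `b_(σ 0) ∈ B_(σ 0)` is not).  So `y_(σ a, σ b) ∉ b_(σ l)` for all `a < b`, `l`: the transversal
`b ∘ σ`, `x ∘ σ` of size `ρ` contradicts the hypothesis. -/
def S_RwF : Prop := ∀ ρ : ℕ, ∃ f : ℕ, ∀ (V : Type) [Finite V] (G : SimpleGraph V) (P : Set V)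
  (F : Set (Set V)) (Y : Set V → Set V), (∀ M ∈ F, ∀ M' ∈ F, M ≠ M' → Disjoint M M') →
  (∀ (M : ℕ → Set V) (x : ℕ → V), (∀ a < ρ, M a ∈ F) → (∀ a < ρ, ∀ b < ρ, a ≠ b → M a ≠ M b) →
    (∀ a < ρ, x a ∈ Y (M a)) → ∃ a < ρ, ∃ b < ρ, a ≠ b ∧
      ∀ v ∈ P, (∀ l < ρ, v ∉ M l) → (G.Adj (x a) v ↔ G.Adj (x b) v)) →
  ∃ F' ⊆ F, (F \ F').ncard ≤ f ∧ (Tr G {x | ∃ M ∈ F', x ∈ Y M} (P \ ⋃₀ F')).encard ≤ ρ

/-- **B5.** Inner vertices against members, matching (uses `S_KK`).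

Proof. For `a ≠ b`: `z a ≠ z b` (`z a` sees the non-empty set `M b` iff `a = b`).  If `z a ≁ z b`: Z2 for `{z a}`, `{z b}`
(`Sp`): choose `c ≠ a, b` (`(t + 3) ^ 2 ≥ 3`) and `v l ∈ M l`; `v c` is missed by both, `v b` is missed by `z a` only, `v a`
by `z b` only: contradiction.  So the `z a` form a clique, the `v a` too; `S_KK` (`z a ≠ v b` since `v b ∈ P`). -/
def S_PhM : Prop := ∀ (t : ℕ) (V : Type) (G : SimpleGraph V) (P : Set V), ZZ G P →
  ¬ IMS (JP t) G Set.univ → ∀ (M : ℕ → Set V) (z : ℕ → V), (∀ a < (t + 3) ^ 2, Mem G P (M a)) →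
  (∀ a < (t + 3) ^ 2, ∀ b < (t + 3) ^ 2, a ≠ b → ∀ x ∈ M a, ∀ y ∈ M b, G.Adj x y) →
  (∀ a < (t + 3) ^ 2, z a ∉ P) →
  ¬ ∀ a < (t + 3) ^ 2, ∀ b < (t + 3) ^ 2, ∀ x ∈ M b, (G.Adj (z a) x ↔ a = b)

/-- **B6.** Inner vertices of one cell against members, co-matching.

Proof. `D` = the outer member; `z a ∈ C a`, `∅ ≠ M(C a) ⊆ D`; `M b = M(E b)`, `v b ∈ M b` (`b < 5`).  `C a ≠ E b`: `M(C a)` and
`M b` are disjoint and not empty.
(1) For `a ≠ b`: `C a ≠ C b`; otherwise `z a ≠ z b` (`M a` is seen by `z b` only), and Z1 for `C a`, `E c`, `E d`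
(`c ≠ d`, both `≠ a, b`), `A = {z a}`, `B = {z b}`: contradiction.
(2) `v a ∉ M(C a)` and `z a ≁ v a`: let `R a` be the component of `G[C a \ {z a}]` of a neighbour of `v a`.
(3) For `b ≠ c`, both `≠ a`, `R a` does not touch both `v b` and `v c`: Z1 for `C a`, `E b`, `E c`, `A = {z a}`, `B = R a`.
(4) For `a ≠ b` there is `c ≠ a, b`, `c < 5` such that `R a` and `R b` miss `v c`; by Z2 (`Sp` by (1)) `M(R a)` and `M(R b)`
are comparable.  Let `a ∈ {0, 1, 2}` be such that `M(R a)` is the smallest of the three sets; then `R a` touches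
`v 0, v 1, v 2` (as `R b` touches `v b`): contradiction to (3). -/
def S_PhC : Prop := ∀ (V : Type) (G : SimpleGraph V) (P : Set V), ZZ G P →
  ∀ (D : Set V) (M : ℕ → Set V) (z : ℕ → V), (∀ a < 5, Mem G P (M a)) →
  (∀ a < 5, ∀ b < 5, a ≠ b → Disjoint (M a) (M b)) → (∀ a < 5, Disjoint D (M a)) →
  (∀ a < 5, z a ∈ ins G P D) → ¬ ∀ a < 5, ∀ b < 5, ∀ x ∈ M b, (G.Adj (z a) x ↔ a ≠ b)

/-- **B7.** Inner vertices of one cell against members, half graphs.

Proof. `z a ∈ C a`, `∅ ≠ M(C a) ⊆ D`; `M b = M(E b)`, `v b ∈ M b` (`b < 5`).  `C a ≠ E b` as in B6.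
(1) `C 2 ≠ C 4`: otherwise Z1 for `C 2`, `E 0`, `E 1`, `A = {z 2}`, `B = {z 4}` (`z 2 ≠ z 4`: `M 2` is seen by `z 4` only).
(2) `v 4 ∉ M(C 4)`, `z 4 ≁ v 4`: let `R` be the component of `G[C 4 \ {z 4}]` of a neighbour of `v 4`.  `R` touches at
most one of `v 0, v 1, v 2, v 3`: otherwise Z1 for `C 4`, `E b`, `E c`, `A = {z 4}`, `B = R`.
(3) There is `c ∈ {2, 3}` such that `R` misses `v c`; `z 2` misses `v c`, too.  Z2 for `{z 2}`, `R` (`Sp` by (1)):
`v 4 ∈ M({z 2}) \ M(R)`, so `M(R) ⊆ M({z 2})`.  `R` misses `v 0` or `v 1`, but `z 2` sees both: contradiction. -/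
def S_PhH : Prop := ∀ (V : Type) (G : SimpleGraph V) (P : Set V), ZZ G P →
  ∀ (D : Set V) (M : ℕ → Set V) (z : ℕ → V), (∀ a < 5, Mem G P (M a)) →
  (∀ a < 5, ∀ b < 5, a ≠ b → Disjoint (M a) (M b)) → (∀ a < 5, Disjoint D (M a)) →
  (∀ a < 5, z a ∈ ins G P D) → ¬ ∀ a < 5, ∀ b < 5, ∀ x ∈ M b, (G.Adj (z a) x ↔ b < a)

/-- **B8.** The rank of inner vertices against members (uses `S_Tv`, B5, B6, B7, and `Rep.rk3`).

Proof. `ρ` of `S_Tv`, `m₁ = max (max ρ ((t + 3) ^ 2)) 6`, `m = m₁ * m₁`, `c` of `Rep.rk3 m`.  Suppose that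
`Has3 G A B m`, `A` = the inner vertices of the cells of the members in `I`, `B = ⋃₀ I'`: `a i ∈ ins G P (D i)`, `D i ∈ I`;
`b i ∈ M i ∈ I'`.  In each of the three patterns `b i`, `b j` (`i ≠ j`) are not seen by the same `a`'s, and every
`a l ∉ P`, `a l ∉ ins G P (M i)` (the cells of the disjoint members `D l` and `M i` are disjoint: `cel_disj`), is
constant on `M i` (not `Bad`); so `M i ≠ M j`.  There are `m₁` indices with the same `D i` or `m₁` indices with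
pairwise different `D i` (pigeonhole); pass to these indices (in increasing order; the patterns are preserved).
DIFFERENT `D i`: `S_Tv` for `M := D`, `x := a` (`ρ` indices) gives `i ≠ j` such that `a i`, `a j` agree on all `b l` (`b l ∈ P` is
in none of the `D`'s): contradiction (`a i` and `a j` differ on `b i` or `b j`).
THE SAME `D`: matching (`a i ~ b j` iff `i = j`): B5; `i ≠ j`: B6; `i ≤ j`: B7 with `z i = a (5 - i)`,
`M i := M (4 - i)`: `z i ~ M j` iff `5 - i ≤ 4 - j` iff `j < i`.  (Every `a i` is constant on `M j`, with the value of `b j`.) -/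
def S_Phi : Prop := ∀ t : ℕ, ∃ c : ℕ, ∀ (V : Type) [Finite V] (G : SimpleGraph V) (P : Set V),
  ZZ G P → ¬ IMS (JP t) G Set.univ → ∀ F : Set (Set V), DF G P F →
  (∀ M ∈ F, ∀ M' ∈ F, M ≠ M' → ∀ x ∈ M, ∀ x' ∈ M', G.Adj x x') → (∀ M ∈ F, ¬ Bad G P M) →
  ∀ I ⊆ F, ∀ I' ⊆ F, Disjoint I I' → LK.rk G {z | ∃ M ∈ I, z ∈ ins G P M} (⋃₀ I') ≤ c

/-- a good family of members -/
structure Fam {V : Type} (G : SimpleGraph V) (P : Set V) (c : ℕ) (F : Set (Set V)) : Prop where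
  df : DF G P F
  com : ∀ M ∈ F, ∀ M' ∈ F, M ≠ M' → ∀ x ∈ M, ∀ x' ∈ M', G.Adj x x'
  con : ∀ M ∈ F, ¬ Bad G P M
  row : LK.rk G {z | ∃ M ∈ F, z ∈ cel G P M} (P \ ⋃₀ F) ≤ c
  phi : ∀ I ⊆ F, ∀ I' ⊆ F, Disjoint I I' → LK.rk G {z | ∃ M ∈ I, z ∈ ins G P M} (⋃₀ I') ≤ c

/-- **B9.** Good subfamilies (uses `S_Tv`, B2, B3, B4, B8).

Proof. `ρ` of `S_Tv`, `f₁` of B3, `f₂` of B4 for `ρ`, `c₁` of B8; `f = f₁ + f₂ + 4`, `c = max ρ c₁`.  If `F` has at
most `3` elements: `F' = ∅`.  Otherwise at most one member of `F` is bad (B2 for two bad members and two others);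
`F_1` = `F` without it; `F_2 ⊆ F_1` from B3; `F' ⊆ F_2` from B4 for `Y = cel G P` (the hypothesis is `S_Tv`).  `row`:
`Rep.rk_tr`.  `phi`: B8 for `F'`.  (`F \ F' ⊆ (F \ F_1) ∪ (F_1 \ F_2) ∪ (F_2 \ F')`.) -/
def S_Fam : Prop := ∀ t : ℕ, ∃ f c : ℕ, ∀ (V : Type) [Finite V] (G : SimpleGraph V) (P : Set V),
  ZZ G P → ¬ IMS (JP t) G Set.univ → ∀ F : Set (Set V), DF G P F →
  ∃ F' ⊆ F, (F \ F').ncard ≤ f ∧ Fam G P c F'

/-! ### ranks -/

/-- **B10.** Duplication of rows (linear algebra).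

Proof. `row G C v = row G C r + row G (C ∩ D) v - row G (C ∩ D) r` if `v` and `r` agree on `C \ D`.  So the span of
the rows of `R ∪ N` over `C` is contained in the sum of the span of the rows of `R` over `C` and of the span of the
rows of `N ∪ R'` over `C ∩ D` (`Submodule.finrank_add_le_finrank_add_finrank` or the rules in `L4/A1.lean`). -/
def S_Dup : Prop := ∀ (V : Type) [Finite V] (G : SimpleGraph V) (R R' N C D : Set V), R' ⊆ R →
  (∀ v ∈ N, ∃ r ∈ R', ∀ u ∈ C \ D, (G.Adj v u ↔ G.Adj r u)) →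
  LK.rk G (R ∪ N) C ≤ LK.rk G R C + LK.rk G (N ∪ R') (C ∩ D)

/-- **B11.** The rank in an induced subgraph.

Proof. The linear map `g ↦ g ∘ f` from `V → ZMod 2` to `W → ZMod 2` maps `row G (f '' Y) (f x)` to
`row (G.comap f) Y x`, and it is injective on the functions which vanish outside the range of `f`. -/
def S_Ind : Prop := ∀ (V W : Type) [Finite V] [Finite W] (G : SimpleGraph V) (f : W → V),
  Function.Injective f → ∀ X Y : Set W, LK.rk (G.comap f) X Y = LK.rk G (f '' X) (f '' Y)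

/-- **B12.** The cut-rank after the replacement of cells by vertices (uses B10 and the rules for `LK.rk` in
`Rep/Cut.lean`).

Here `A` is the set of the vertices that are kept: outside the cells, and the vertices `q M`.

Proof. `J = {M ∈ F | q M ∈ X}`, `J' = F \ J`.  For a set `X ⊆ A` let `X⁺ = X ∪ {v | ∃ M ∈ F, q M ∈ X ∧ v ∈ cel G P M}`.
The complement of `X⁺` is `(A \ X)⁺` (the cells are disjoint: `cel_disj`).  Let `P₀ = P \ ⋃₀ F`,
`Q₀ = Pᶜ \ {z | ∃ M ∈ F, z ∈ ins G P M}`, `I_J = {z | ∃ M ∈ J, z ∈ ins G P M}`, `I_J'` in the same way.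
`X⁺ = (X ∩ P₀) ∪ (X ∩ Q₀) ∪ ⋃₀ J ∪ I_J`, and the complement is `(P₀ \ X) ∪ (Q₀ \ X) ∪ ⋃₀ J' ∪ I_J'`.
(1) `rk G I_J (X⁺)ᶜ ≤ 2 c`: over `P₀ \ X` at most `c` (`row`), over `⋃₀ J'` at most `c` (`phi`), over `Q₀ \ X` and over
`I_J'` zero (`ins_not_adj'`, `ins_not_adj`).  In the same way `rk G X⁺ I_J' ≤ 2 c`.
(2) Let `R₁ = (X ∩ P₀) ∪ (X ∩ Q₀) ∪ ⋃₀ J`, `C₁ = (P₀ \ X) ∪ (Q₀ \ X) ∪ ⋃₀ J'`.  Then `rk G X⁺ (X⁺)ᶜ ≤ 4 c + rk G R₁ C₁`
(`rk_union`, `rk_union_right`).
(3) `rk G R₁ C₁ ≤ rk G X C₁ + c`: B10 with `R = X`, `R' = {q M | M ∈ J}`, `N = ⋃₀ J`, `D = P₀`: for `v ∈ M ∈ J` and `r = q M`: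
`v` and `r` agree on `Q₀ \ X` (`con`) and on `M' ∈ J'` (`com`: both are complete to `M'`); `rk G (N ∪ R') (C₁ ∩ P₀) ≤ c`
by `row`.
(4) `rk G C₁ X ≤ rk G (A \ X) X + c`: B10 with `R = A \ X`, `R' = {q M | M ∈ J'}`, `N = ⋃₀ J'`, `D = P₀`, in the same way.
So in total `6 * c`. -/
def S_Cut : Prop := ∀ (c : ℕ) (V : Type) [Finite V] (G : SimpleGraph V) (P : Set V) (F : Set (Set V))
  (q : Set V → V), Fam G P c F → (∀ M ∈ F, q M ∈ M) →
  ∀ X ⊆ {v | ∀ M ∈ F, v ∈ cel G P M → v = q M},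
    LK.cr G (X ∪ {v | ∃ M ∈ F, q M ∈ X ∧ v ∈ cel G P M}) ≤
      LK.rk G X ({v | ∀ M ∈ F, v ∈ cel G P M → v = q M} \ X) + 6 * c

/-! ### tangles -/

/-- **B13.** A tangle after the replacement of sets by vertices (uses B11).

Proof. For `X : Set A` let `X⁺ = {v | π v ∈ Subtype.val '' X}`; `π v ∈ A` for all `v`.
`T' = {X | LK.cr (G.induce A) X ≤ φ - d ∧ X⁺ ∈ T}`.  `ord`: clear.  `dec`: let `cr X ≤ φ - d`; by B11
`cr X = rk G (val '' X) (A \ val '' X)`, so `cr G X⁺ ≤ φ` by the hypothesis, and `X⁺ ∈ T` or `(X⁺)ᶜ = (Xᶜ)⁺ ∈ T`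
(`cr Xᶜ = cr X`).  `cov`: `X ∪ Y ∪ U = univ` gives `X⁺ ∪ Y⁺ ∪ U⁺ = univ`.  `sing`: `{a}⁺ = {v | π v = a} ∈ T`, and
`cr {a} ≤ 1 ≤ φ - d`.  (`G.induce A` is `G.comap Subtype.val`.) -/
def S_TnR : Prop := ∀ (V : Type) [Finite V] (G : SimpleGraph V) (φ d : ℕ) (T : Set (Set V)) (π : V → V)
  (A : Set V), Tan G φ T → d + 1 ≤ φ → (∀ v, π v ∈ A) → (∀ a ∈ A, π a = a) →
  (∀ a ∈ A, {v | π v = a} ∈ T) → (∀ X ⊆ A, LK.cr G {v | π v ∈ X} ≤ LK.rk G X (A \ X) + d) →
  Tan (G.induce A) (φ - d)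
    {X | LK.cr (G.induce A) X ≤ φ - d ∧ {v | π v ∈ Subtype.val '' X} ∈ T}

/-- **B14.** A tangle after the deletion of small sets (uses B11).

Proof. `U = ⋃ i < f, D i`, `A = Uᶜ`.  (1) Let `X ⊆ A`, `rk G X (A \ X) ≤ φ - f * c`, `X_j = X ∪ ⋃ i < j, D i`.  Then
`cr G X_j ≤ φ` for `j ≤ f`: the rows of `X` over `A \ X` have rank at most `φ - f * c`; the rows of `X` over `D i`
have rank at most `rk G (D i)ᶜ (D i) = cr G (D i) ≤ c` (for `i ≥ j`; `X ⊆ A ⊆ (D i)ᶜ`); the rows of `D i` (`i < j`) over the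
complement of `X_j` have rank at most `cr G (D i) ≤ c`.  (2) If moreover `X ∈ T` then `X_j ∈ T` for all `j ≤ f`: by
induction; otherwise `(X_(j+1))ᶜ ∈ T` (`dec`) and `X_j ∪ D j ∪ (X_(j+1))ᶜ = univ`, against `cov`.
`T'` is the set of the `X` with `cr (G.induce A) X ≤ φ - f * c` (`= rk G (val '' X) (A \ val '' X)` by B11) and
`val '' X ∪ U ∈ T`.  `ord`: clear.  `dec`: `cr G (val '' X) ≤ φ` by (1) for `j = 0`; so `val '' X ∈ T`, and
`val '' X ∪ U ∈ T` by (2), or `(val '' X)ᶜ = val '' Xᶜ ∪ U ∈ T`.  `cov`: if `X ∪ Y ∪ Z = univ` then the three sets of `T`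
cover `A ∪ U`.  `sing`: `{v} ∈ T`, `rk G {v} _ ≤ 1 ≤ φ - f * c`, (2). -/
def S_TnD : Prop := ∀ (V : Type) [Finite V] (G : SimpleGraph V) (φ f c : ℕ) (T : Set (Set V))
  (D : ℕ → Set V), Tan G φ T → f * c + 1 ≤ φ → (∀ i < f, D i ∈ T ∧ LK.cr G (D i) ≤ c) →
  ∃ T', Tan (G.induce {v | ∀ i < f, v ∉ D i}) (φ - f * c) T'

/-! ### one round -/

/-- **B15.** The family lemma for small members (uses `S_Fam`, `S_Cut`).

Proof. `f, c` of `S_Fam`, `d = 6 * c`, `c₁ = 6 * c + 1`.  Only `LK.cr G (cel G P M) ≤ c₁` for `M ∈ F'` is to be shown: `S_Cut`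
with any choice of `q` (`M` is not empty) and `X = {q M}`: `X ⊆ A` (the cells are disjoint, so `q M` is in no other
cell), `X⁺ = cel G P M` (`q M ∈ M`; for another member `M'`: `q M' ≠ q M`), `rk G {q M} _ ≤ 1`. -/
def S_Fm2 : Prop := ∀ t : ℕ, ∃ f c₁ d : ℕ, ∀ (V : Type) [Finite V] (G : SimpleGraph V) (P : Set V),
  ZZ G P → ¬ IMS (JP t) G Set.univ → ∀ F : Set (Set V), DF G P F → ∃ F' ⊆ F, (F \ F').ncard ≤ f ∧
    (∀ M ∈ F', LK.cr G (cel G P M) ≤ c₁) ∧
    ∀ q : Set V → V, (∀ M ∈ F', q M ∈ M) → ∀ X ⊆ {v | ∀ M ∈ F', v ∈ cel G P M → v = q M},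
      LK.cr G (X ∪ {v | ∃ M ∈ F', q M ∈ X ∧ v ∈ cel G P M}) ≤
        LK.rk G X ({v | ∀ M ∈ F', v ∈ cel G P M → v = q M} \ X) + d

/-- **B16.** Disjoint members that are not small are few.

Proof. Let `F` have at least `f + 2` elements; `F' ⊆ F` from the hypothesis has at least two elements `M ≠ M'`, with
`cr (cel G P M), cr (cel G P M') ≤ c₁ ≤ φ`.  If neither of the two cells is in `T`, then both complements are, and
their union is everything (`cel_disj`): against `cov`. -/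
def S_Nsm : Prop := ∀ (f c₁ φ : ℕ) (V : Type) [Finite V] (G : SimpleGraph V) (P : Set V)
  (T : Set (Set V)), Tan G φ T → c₁ ≤ φ →
  (∀ F : Set (Set V), DF G P F → ∃ F' ⊆ F, (F \ F').ncard ≤ f ∧ ∀ M ∈ F', LK.cr G (cel G P M) ≤ c₁) →
  ∀ F : Set (Set V), DF G P F → f + 2 ≤ F.ncard →
    ∃ M ∈ F, LK.cr G (cel G P M) ≤ c₁ ∧ cel G P M ∈ T

/-- **B17.** No five free pairs (uses `A0.S_M1`).

Proof. `C i` (`i < 5`) different components, `z i ∈ C i`, `x i ∈ P \ M(C i)`, `(x, z)` a thick spider.  `x i ≁ z i`, so some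
`y ∈ C i`, `y ≠ z i`, is adjacent to `x i`; `R i` = the component of `y` in `G[C i \ {z i}]`; it touches `z i`
(`C i` is connected).
(1) For `k ≠ l`, both `≠ i`, `R i` does not touch both `x k` and `x l`: M1 with `A = {x k}`, `P = {z l}`; `B = {x l}`,
`Q = {z k}`; `C = {z i}`; `D = R i` (`x k ~ x l`; `z i ~ x k, x l`; `z l ~ x k`, `z l ≁ x l, z i`, and `z l ∈ C l` does not touch
`R i ⊆ C i`).
(2) For `i ≠ j` in `{0, 1, 2, 3}`: there is `l < 5`, `l ≠ i, j`, such that `R i` and `R j` miss `x l`; by Z2 `M(R i)` and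
`M(R j)` are comparable; as `R i` touches `x i` and `R j` touches `x j`: `R i` touches `x j` or `R j` touches `x i`.
(3) By (1) `R 0` misses `x b`, `x b'` for two elements `b ≠ b'` of `{1, 2, 3}`; by (2) `R b` and `R b'` touch `x 0`; by (1)
`R b` misses `x b'` and `R b'` misses `x b`: contradiction to (2). -/
def S_Nw5 : Prop := ∀ (V : Type) (G : SimpleGraph V) (P : Set V) (C : ℕ → Set V) (x z : ℕ → V),
  ZZ G P → ¬ IMS K401 G Set.univ → Spd G 5 x z → (∀ i < 5, Cmp G Pᶜ (C i)) →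
  (∀ i < 5, ∀ j < 5, i ≠ j → C i ≠ C j) → (∀ i < 5, z i ∈ C i) → (∀ i < 5, x i ∈ P) →
  ∃ i < 5, x i ∈ mi G P (C i)

/-- **B18.** The components of a new spider.

Here `P = PP G n s`.  Proof. `S_0 = {s 0}` etc. are components of `G[Pᶜ]` (`s l` has no neighbour in `Pᶜ`),
`k l ∈ M({s l})`, and the sets `M({s l})` are pairwise disjoint (`one`).
(1) At most one `x i` is not in `P`: let `x i, x j ∉ P`, `i ≠ j`.  They are adjacent, so they are in one component `C`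
of `G[Pᶜ]`, and they are not among the `k l ∈ P`, so they are complete to the `k l`.  Z1 for `C`, `{s 0}`, `{s 1}`,
`A = {x i}`, `B = {x j}` (`C ≠ {s l}` as it has two elements): contradiction.
(2) No three of the `z i` with `x i ∈ P` are in one component `C`: let `i, j, l` be different.  For two of them,
`{z i}`, `{z j}` are `Sp`, `x i ∈ M({z i}) \ M({z j})`, `x j ∈ M({z j}) \ M({z i})`, so by Z2 `M({z i})`, `M({z j})` are disjoint.
So every `k r` is missed by at most one of `z i, z j, z l`, and seen by two of them.  Among `r = 0, 1, 2, 3` there are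
two with the same pair, say `z i, z j ~ k r, k r'`.  Z1 for `C`, `{s r}`, `{s r'}`, `A = {z i}`, `B = {z j}`
(`k r ∈ M({s r})`; `C ≠ {s r}` as it has two elements): contradiction.
(3) So of the `2 f + 11` indices at least `2 f + 10` have `x i ∈ P`, and among these there are `f + 5` indices with
`z i` in different components `C i` (`z i ∉ P`: it sees no `s l`).  By B17 at most four of them have `x i ∉ M(C i)`; take
`f` with `x i ∈ M(C i)`.  For `i ≠ j`: `x i ∉ M(C j)` (`x i ~ z j`) and `x j ∉ M(C i)`, so by `ZZ.lam` the sets are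
disjoint: `Sys G P f C`. -/
def S_New : Prop := ∀ (f : ℕ) (V : Type) (G : SimpleGraph V) (n : ℕ) (k s x z : ℕ → V), 12 ≤ n →
  Cln G n k s → ZZ G (PP G n s) → ¬ IMS K401 G Set.univ → Spd G (2 * f + 11) x z →
  (∀ i < 2 * f + 11, ∀ j < n, x i = k j ∨ G.Adj (x i) (k j)) →
  (∀ i < 2 * f + 11, ∀ j < n, ¬ G.Adj (z i) (s j)) →
  ∃ (g : ℕ → ℕ) (C : ℕ → Set V), (∀ i < f, g i < 2 * f + 11) ∧ Sys G (PP G n s) f C ∧
    ∀ i < f, z (g i) ∈ C i

/-- **B19. Lemma R, one round** (uses `S_Cl`, `S_Hp`, `S_Z1`, `S_Z2`, `S_Z3`, B11, B13, B14, B15, B16, B18).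

Proof. `f, c₁, d` of B15; `n₀ = 2 * (f + 2) + 30`; `c₀ = d + c₁ + f * c₁ + 1`.
(1) `S_Cl` (restrict the spider to `22` legs) gives a clean spider `(k', s')` with `12` legs, a part of `(k, s)`;
`P = PP G 12 s'`; `ZZ G P` by `S_Hp`, `S_Z1`, `S_Z2`, `S_Z3`.
(2) A member `M` is small if `cr G (cel G P M) ≤ c₁` and `cel G P M ∈ T`.  `F` = the set of the maximal small members:
pairwise disjoint (`ZZ.lam_mem`), `DF G P F`, and every small member is contained in an element of `F` (finite).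
`F' ⊆ F` from B15; `q M ∈ M` for `M ∈ F'`.  `π v = q M` if `v ∈ cel G P M`, `M ∈ F'` (unique by `cel_disj`), `π v = v` if there
is no such `M`.  `A₀ = {v | ∀ M ∈ F', v ∈ cel G P M → v = q M}`.  B13 for `π`, `A₀`, `d`: `{v | π v = a}` is `{a}` or
`cel G P M ∈ T`; `{v | π v ∈ X} = X ∪ {v | ∃ M ∈ F', q M ∈ X ∧ v ∈ cel G P M}`.
(3) Let `D i`, `i < f`, be the sets `{a : A₀ | a ∈ cel G P M}` for the at most `f` elements `M` of `F \ F'` (repeat one of
them, or take `D i = ∅`, which is in every tangle, if there are less).  They are in the tangle of B13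
(`{v | π v ∈ cel G P M} = cel G P M` as the cells of `F` are disjoint), and their cut-rank in `G.induce A₀` is
at most `c₁` (B11 and `rk_mono`).  B14 gives a tangle of order `φ - d - f * c₁`; it is also a tangle of the smaller
order `φ - c₀` for a smaller set `T'` (`{X ∈ T' | cr X ≤ φ - c₀}`; `Tan` for a smaller `c`: `dec` and `sing`, `1 ≤ φ - c₀`).
`W` = the type of the remaining vertices, `g : W → V` the inclusion; the twice induced graph is `G.comap g`.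
(4) Let `(x, z)` be a spider of `G.comap g` with `n₀` legs as in the claim.  In `G` `(g ∘ x, g ∘ z)` is a thick spider,
and B18 (for `f + 2`, `(k', s')`; `2 * (f + 2) + 11 ≤ n₀`) gives `C i`, `i < f + 2`, with `Sys`.  B16 for the family of the
`M(C i)`: some `M(C i)` is small, so `M(C i) ⊆ M ∈ F`, and `g (z _) ∈ C i` is in `ins G P M ⊆ cel G P M`.  If `M ∉ F'` then this
vertex was deleted; if `M ∈ F'` then it is `q M ∈ M ⊆ P`, but it is in `C i ⊆ Pᶜ`: contradiction. -/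
def S_Rnd : Prop := ∀ t : ℕ, ∃ n₀ c₀ : ℕ, ∀ (V : Type) [Finite V] (G : SimpleGraph V) (φ : ℕ)
  (T : Set (Set V)) (k s : ℕ → V), Rep.Fr K401 (JP t) G → Tan G φ T → c₀ + 1 ≤ φ → Spd G n₀ k s →
  ∃ (W : Type) (_ : Finite W) (g : W → V), Function.Injective g ∧ (∃ T', Tan (G.comap g) (φ - c₀) T') ∧
    ∀ x z : ℕ → W, Spd (G.comap g) n₀ x z →
      (∀ i < n₀, ∀ j < n₀, g (x i) = k j ∨ G.Adj (g (x i)) (k j)) →
      (∀ i < n₀, ∀ j < n₀, ¬ G.Adj (g (z i)) (s j)) → False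

end Pool.Agent.MPd439b2.CR
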