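import Pool.Agent.Lib.MP_d439b2_co.CR.SpecB
import Pool.Agent.Lib.MP_d439b2_co.R3.SpecB
import Pool.Agent.Lib.MP_d439b2_co.Rep.RowX

/-!
# MP_d439b2_co, CR, Spec C: Theorem C' (note 2828): for `K4:0,1` thick spiders are harmless

Every `S_...` is a statement to be proved in its own file `CR/<Name>.lean`; the docstring contains the complete
proof.  The used statements are hypotheses of the theorem.  Typed patterns `Rep.TP G m s t e a b` (`Rep/RowX.lean`):
the `a i` form a clique (`s = true`) or a stable set, the `b i` in the same way (`t`), `a i ~ b j` iff `i = j`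
(`e = false`) or iff `i ≠ j` (`e = true`); `Rep.NoTP G m s t e`: there is none; `Rep.typed`: Ramsey.
-/

set_option autoImplicit false

namespace Pool.Agent.MPd439b2.CR

open Pool.Agent.MPd439b2 Pool.Agent.MPd439b2.A0 Pool.Agent.MPd439b2.Rep

/-- **C1.** Excluded patterns (uses `A0.S_M1`, `A0.S_PB`, `S_KK`).

Proof. (1) `TP _ _ true true false`: `S_KK`.  (2) `TP _ _ true false false`: M1 with `A = {a 0}`, `P = {b 0}`;
`B = {a 1}`, `Q = {b 1}`; `C = {a 2}`; `D = {a 3}`.  (3) The same with `a`, `b` exchanged (`Rep.NoTP.swap`).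
(4) `A0.S_PB` (`2 * t + 3 ≤ (t + 3) ^ 2`). -/
def S_Pex : Prop := ∀ (t m : ℕ) (V : Type) (G : SimpleGraph V), Rep.Fr K401 (JP t) G →
  (t + 3) ^ 2 ≤ m → NoTP G m true true false ∧ NoTP G m true false false ∧
    NoTP G m false true false ∧ NoTP G m false false true

/-- **C2.** The split lemma (uses `R3.S_Pairs`, `W.S_RamC`).

Proof. This is `R3.S_Split` with the same proof (`R3/Split.lean`: copy and adapt): the co-matching found there
(step (2)) is between `{x a i}` and `{x b i}` with `E a a`, `E b b` true: both sides are cliques,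
`TP G m true true true`; the matchings found there (step (3)) are between the vertices `p c = x (a c) (2 c)` and
`p' c = x (a c) (2 c + 1)`, and `p c ≁ p d`, `p' c ≁ p' d` for `c < d` for the same reason as `p c ≁ p' d` (`E (a c) (a d)` is
false in the colours `(0, 0)`, `(0, 1)`, `2 c < 2 d`; similarly in the colour `(1, 0)`): both sides are stable,
`TP G m false false false`.  (For `m = 0` the patterns exist, so there is nothing to show.) -/
def S_Spl : Prop := ∀ m : ℕ, ∃ k R : ℕ, ∀ (V : Type) [Finite V] (G : SimpleGraph V),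
  NoTP G m false false false → NoTP G m true true true →
  ∃ B : Finset V, (∀ T ⊆ B, R3.Stb G T → T.card < k) ∧
    ∀ K : Finset V, Disjoint K B → R3.Clq G K → K.card < R

/-- **C3.** The part without large cliques has few stable classes (uses `R3.S_Rows`, `W.S_RamC`).

Proof. This is `R3.S_AClass` with the same proof (`R3/AClass.lean`: copy and adapt): the vertices `x (φ l)` are
stable, and by one more application of `W.S_RamC` (no clique of size `R` in `A`) the `z k` too, in all four cases; so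
one finds `TP G m false false false`, `TP G m false false true`, or a violation of `F1`.  The conclusion of
`R3.S_AClass` implies that `x, y ∈ A` with `c x = c y` are not adjacent (otherwise `G.Adj y y`, with `z = y`). -/
def S_ACl : Prop := ∀ m R : ℕ, ∃ p : ℕ, ∀ (V : Type) [Finite V] (G : SimpleGraph V) (A : Set V),
  NoTP G m false false false → NoTP G m false false true → R3.F1 G m →
  (∀ K : Finset V, (K : Set V) ⊆ A → R3.Clq G K → K.card < R) →
  ∃ c : V → Fin p, ∀ x ∈ A, ∀ y ∈ A, c x = c y → ¬ G.Adj x y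

/-- **C4.** The part without large stable sets is a union of few cliques (uses `S_Pex`, `R3.S_FF`,
`R3.S_BClass`, and the finite facts for `K4:0,1`).

Proof. `m₀ = max (max m k) 49 + 1`, `M` from `Rep.typed m₀`; `m₁` from `R3.S_FF` for `M`; `n` from `R3.S_BClass` for
`max M m₁` and `k`; `w = n + 1`.
Let `G' = G.induce B` on the type of the elements of `B` (finite).  `G'` has neither `K401` nor `JP 4` as induced
minor (images of the branch sets under `Subtype.val`), so `R3.Facts G'` (hypothesis).  `¬ X2.MatP G' M`: otherwise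
`Rep.typed`: `TP G' m₀ s t false a b`; a stable side has at least `k` elements (`m₀ > k`), impossible; so
`s = t = true`, excluded by C1 (`(4 + 3) ^ 2 = 49 ≤ m₀`).  `¬ X2.ComP G' M`: otherwise `TP G' m₀ true true true a b`, and
`TP G m true true true` (`Subtype.val`, `m ≤ m₀`).  `R3.S_FF`: `R3.F2 G' m₁`, so `R3.F2 G' (max M m₁)`.
`R3.S_BClass` for `G'` and `Finset.univ` (no stable sets with `k` elements): `c' : B → Fin n`, and the classes are
cliques (`R3.Rk.cl`).  `c x = c' x` for `x ∈ B`, `c x = n` for `x ∉ B`. -/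
def S_BCl : Prop := (∀ (V : Type) (G : SimpleGraph V), Rep.Fr K401 (JP 4) G → R3.Facts G) →
  ∀ m k : ℕ, ∃ w : ℕ, ∀ (V : Type) [Finite V] (G : SimpleGraph V) (B : Finset V),
  Rep.Fr K401 (JP 4) G → NoTP G m true true true → (∀ T ⊆ B, R3.Stb G T → T.card < k) →
  ∃ c : V → Fin w, ∀ x ∈ B, ∀ y ∈ B, c x = c y → x ≠ y → G.Adj x y

/-- **C5.** Few pairs of a clique and a stable set carry all large thick spiders (uses `S_Spl`, `S_ACl`,
`S_BCl`, `S_Pex`, `A0.S_PA`).

Proof. `m₀ = max m 49`; `k, R` from C2 for `m₀`; `p` from C3 for `m₀`, `R`; `w` from C4 for `m₀`, `k`; `r = w * p`,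
`L = (n + 1) * r + R + k + 1`.  `F1 G 9` by `A0.S_PA` (`x i = b i`, `y j = a (j + 1)`, `i, j < 8`), so `F1 G m₀`.
`NoTP G m₀ false false true` by C1.  Let `B` be the set of C2, `A = Bᶜ`; C3 and C4 give `c_A : V → Fin p`,
`c_B : V → Fin w`.  For `i < r` let `Bs i = {x ∈ B | c_B x = i / p}` and `Zs i = {x ∉ B | c_A x = i % p}` (cliques and
stable sets).  Let `(x, z)` be a thick spider with `L` legs.  Fewer than `R` of the `x i` are not in `B` (they form
a clique), fewer than `k` of the `z i` are in `B` (they are stable); so at least `(n + 1) * r + 1` indices have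
`x i ∈ B`, `z i ∉ B`; by the pigeonhole principle more than `n` of them have the same pair (class of `x i`, class of
`z i`); let `σ` enumerate `n` of them.  (If `r = 0` then `V` is empty, and there is no `x`.) -/
def S_Prs : Prop := (∀ (V : Type) (G : SimpleGraph V), Rep.Fr K401 (JP 4) G → R3.Facts G) →
  ∀ m : ℕ, ∃ r : ℕ, ∀ n : ℕ, ∃ L : ℕ, ∀ (V : Type) [Finite V] (G : SimpleGraph V),
  Rep.Fr K401 (JP 4) G → NoTP G m false false false → NoTP G m true true true →
  ∃ B Z : ℕ → Set V, (∀ i < r, ∀ x ∈ B i, ∀ y ∈ B i, x ≠ y → G.Adj x y) ∧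
    (∀ i < r, ∀ x ∈ Z i, ∀ y ∈ Z i, ¬ G.Adj x y) ∧
    ∀ x z : ℕ → V, Spd G L x z → ∃ i < r, ∃ σ : ℕ → ℕ, (∀ j < n, σ j < L) ∧
      (∀ j < n, ∀ l < n, σ j = σ l → j = l) ∧ ∀ j < n, x (σ j) ∈ B i ∧ z (σ j) ∈ Z i

/-- **C6.** Boundedly many rounds (uses `S_Rnd`).

Proof. `n₀, c₀` of `S_Rnd` for `t`; `n = n₀`, `c = r * c₀ + 1`.  Induction on `r` (with the same `n₀`, the statement
for all `V`, `G`, `φ`).  `r = 0`: `W = V`, `g = id` (`G.comap id = G`; for the order `φ - 1` take the elements of `T` with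
cut-rank at most `φ - 1`).  `r + 1`: if there is a thick spider `(k, s)` of `G` with `n₀` legs, `k j ∈ B r`,
`s j ∈ Z r`, then `S_Rnd` gives `W₁`, `g₁`, `T₁` of order `φ - c₀`, and no thick spider `(x, z)` of `G.comap g₁` with `n₀` legs
has `g₁ (x i) ∈ B r`, `g₁ (z i) ∈ Z r`: such a spider has `g₁ (x i) = k j` or `g₁ (x i) ~ k j` (`B r` is a clique),
`g₁ (z i) ≁ s j` (`Z r` is stable).  If there is none let `W₁ = V`, `g₁ = id`.  The induction hypothesis for
`G.comap g₁` (free: `IMS` of `G.comap g₁` gives `IMS` of `G`, images of the branch sets), the sets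
`g₁ ⁻¹' B i`, `g₁ ⁻¹' Z i` and the order `φ - c₀` (or `φ`, or a smaller one: `Tan` can be restricted to smaller orders):
`W`, `g`; take `g₁ ∘ g`.  A thick spider of `(G.comap g₁).comap g` with images in `B r`, `Z r` gives one of
`G.comap g₁` (`g ∘ x`, `g ∘ z`): contradiction. -/
def S_Rds : Prop := ∀ t : ℕ, ∃ n : ℕ, ∀ r : ℕ, ∃ c : ℕ, ∀ (V : Type) [Finite V] (G : SimpleGraph V)
  (φ : ℕ) (T : Set (Set V)) (B Z : ℕ → Set V), Rep.Fr K401 (JP t) G → Tan G φ T → c + 1 ≤ φ →
  (∀ i < r, ∀ x ∈ B i, ∀ y ∈ B i, x ≠ y → G.Adj x y) → (∀ i < r, ∀ x ∈ Z i, ∀ y ∈ Z i, ¬ G.Adj x y) →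
  ∃ (W : Type) (_ : Finite W) (g : W → V), Function.Injective g ∧ (∃ T', Tan (G.comap g) (φ - c) T') ∧
    ∀ i < r, ∀ x z : ℕ → W, Spd (G.comap g) n x z → ¬ ∀ j < n, g (x j) ∈ B i ∧ g (z j) ∈ Z i

/-- **C7. Theorem C'** (uses `S_Pex`, `S_Prs`, `S_Rds`, `Rep.S_TanE`, `Rep.S_TanL`, the finite facts and
Theorem C for `K4:0,1`).

Proof. `n` of C6 for `t = 4`; `r` of C5 for `m`; `L` of C5 for `n`; `c` of C6 for `r`; `m₀ = max (max m L) 49`; `M` from
`Rep.typed m₀`; `N₁` of Theorem C for `M`; `φ = N₁ + c + 1`, `q = 6 * φ + 1`, `N = 2 ^ q`.  Suppose `¬ Lay G N univ`.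
`Rep.S_TanE`: `Tan G φ T`.  C5 gives `B i`, `Z i`, and C6 gives `g : W → V` and `Tan (G.comap g) (φ - c) T'`.
Let `G' = G.comap g` (free, as in C6).  `¬ X2.MatP G' M`: otherwise `Rep.typed`: `TP G' m₀ s t false a b`; by C1 only
`s = t = false` is possible, and this gives `TP G m false false false` (`g` injective; `m ≤ m₀`): contradiction.
`¬ X2.ComP G' M`: otherwise `TP G' m₀ s t true a b`; `true, true`: `TP G m true true true`, contradiction;
`false, false`: C1; `true, false`: a thick spider `(x, z)` of `G'` with `L` legs (`Spd`; `L ≤ m₀`); `(g ∘ x, g ∘ z)` is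
one of `G`, and C5 gives `i < r` and `σ`; then `(x ∘ σ, z ∘ σ)` is a thick spider of `G'` with `n` legs and images in
`B i`, `Z i`: contradiction to C6; `false, true`: exchange the two sides.  So Theorem C gives
`Lay G' N₁ univ`, and `N₁ ≤ φ - c`: contradiction to `Rep.S_TanL`. -/
def S_ThCp : Prop := (∀ (V : Type) (G : SimpleGraph V), Rep.Fr K401 (JP 4) G → R3.Facts G) →
  TC K401 (JP 4) → ∀ m : ℕ, ∃ N : ℕ, ∀ (V : Type) [Finite V] (G : SimpleGraph V),
    Rep.Fr K401 (JP 4) G → NoTP G m false false false → NoTP G m true true true → Lay G N Set.univ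

end Pool.Agent.MPd439b2.CR
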