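import Pool.Agent.Lib.MP_d439b2_co.CR.SpecC

/-!
# MP_d439b2_co, CR: the split lemma with typed patterns (adapted from R3/Split.lean; helper9)
-/

set_option autoImplicit false

namespace Pool.Agent.MPd439b2.CR

open Pool.Agent.MPd439b2 Pool.Agent.MPd439b2.A0 Pool.Agent.MPd439b2.Rep Pool.Agent.MPd439b2.R3

namespace SplAux

/-- The structure obtained after the first application of Ramsey's theorem. -/
structure Grd {V : Type} (G : SimpleGraph V) (k q : ℕ) (y : ℕ → ℕ → V) : Prop where
  dif : ∀ a < k, ∀ b < k, ∀ i < q, ∀ j < q, (a ≠ b ∨ i ≠ j) → y a i ≠ y b j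
  row : ∀ a < k, ∀ b < k, ∀ i < q, ¬ G.Adj (y a i) (y b i)
  hom : ∀ a < k, ∀ b < k, ∀ i j, i < j → j < q →
    (G.Adj (y a i) (y b j) ↔ G.Adj (y a 0) (y b 1))

/-- Not both `E a b` and `E b a`. -/
theorem noCo {V : Type} {G : SimpleGraph V} {k q m : ℕ} {y : ℕ → ℕ → V} (g : Grd G k q y)
    (hmq : m ≤ q) (hC : NoTP G m true true true) {a b : ℕ} (ha : a < k) (hb : b < k) (hab : a ≠ b)
    (hd : ∀ a < k, G.Adj (y a 0) (y a 1))
    (h1 : G.Adj (y a 0) (y b 1)) (h2 : G.Adj (y b 0) (y a 1)) : False := by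
  have cl : ∀ a < k, ∀ i < q, ∀ j < q, i ≠ j → G.Adj (y a i) (y a j) := by
    intro a ha i hi j hj hij
    rcases lt_or_gt_of_ne hij with h | h
    · exact (g.hom a ha a ha i j h hj).2 (hd a ha)
    · exact ((g.hom a ha a ha j i h hi).2 (hd a ha)).symm
  refine hC (y a) (y b) ⟨?_, ?_, ?_, ?_, ?_, ?_⟩
  · intro i hi j hj
    exact g.dif a ha b hb i (by omega) j (by omega) (Or.inl hab)
  · intro i hi j hj hij
    exact g.dif a ha a ha i (by omega) j (by omega) (Or.inr hij)
  · intro i hi j hj hij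
    exact g.dif b hb b hb i (by omega) j (by omega) (Or.inr hij)
  · intro i hi j hj hij
    exact iff_of_true (cl a ha i (by omega) j (by omega) hij) rfl
  · intro i hi j hj hij
    exact iff_of_true (cl b hb i (by omega) j (by omega) hij) rfl
  · intro i hi j hj
    have hi' : i < q := lt_of_lt_of_le hi hmq
    have hj' : j < q := lt_of_lt_of_le hj hmq
    have key : G.Adj (y a i) (y b j) ↔ i ≠ j := by
      rcases lt_trichotomy i j with h | h | h
      · exact iff_of_true ((g.hom a ha b hb i j h hj').2 h1) (ne_of_lt h)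
      · subst h
        exact iff_of_false (g.row a ha b hb i hi') (fun h => h rfl)
      · exact iff_of_true ((g.hom b hb a ha j i h hi').2 h2).symm (ne_of_gt h)
    rw [key]
    simp

/-- The first matching. -/
theorem mat1 {V : Type} {G : SimpleGraph V} {k q m : ℕ} {y : ℕ → ℕ → V} (g : Grd G k q y)
    (hmq : 2 * m + 2 ≤ q) (τ : ℕ → ℕ) (hτ : ∀ c < m, τ c < k)
    (h1 : ∀ a < k, G.Adj (y a 0) (y a 1))
    (h2 : ∀ c d, c < d → d < m → ¬ G.Adj (y (τ c) 0) (y (τ d) 1)) :
    TP G m false false false (fun c => y (τ c) (2 * c)) (fun c => y (τ c) (2 * c + 1)) := by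
  have no : ∀ c d i j, c < d → d < m → i < j → j < q → ¬ G.Adj (y (τ c) i) (y (τ d) j) := by
    intro c d i j hcd hd hij hj
    rw [g.hom _ (hτ c (by omega)) _ (hτ d hd) i j hij hj]
    exact h2 c d hcd hd
  refine ⟨?_, ?_, ?_, ?_, ?_, ?_⟩
  · intro c hc d hd
    exact g.dif _ (hτ c hc) _ (hτ d hd) _ (by omega) _ (by omega) (Or.inr (by omega))
  · intro c hc d hd hcd
    exact g.dif _ (hτ c hc) _ (hτ d hd) _ (by omega) _ (by omega) (Or.inr (by omega))
  · intro c hc d hd hcd
    exact g.dif _ (hτ c hc) _ (hτ d hd) _ (by omega) _ (by omega) (Or.inr (by omega))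
  · intro c hc d hd hcd
    refine iff_of_false ?_ (by simp)
    rcases lt_or_gt_of_ne hcd with h | h
    · exact no c d _ _ h hd (by omega) (by omega)
    · exact fun h3 => no d c _ _ h hc (by omega) (by omega) h3.symm
  · intro c hc d hd hcd
    refine iff_of_false ?_ (by simp)
    rcases lt_or_gt_of_ne hcd with h | h
    · exact no c d _ _ h hd (by omega) (by omega)
    · exact fun h3 => no d c _ _ h hc (by omega) (by omega) h3.symm
  · intro c hc d hd
    have key : G.Adj (y (τ c) (2 * c)) (y (τ d) (2 * d + 1)) ↔ c = d := by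
      rcases lt_trichotomy c d with h | h | h
      · exact iff_of_false (no c d _ _ h hd (by omega) (by omega)) (ne_of_lt h)
      · subst h
        refine iff_of_true ?_ rfl
        rw [g.hom _ (hτ c hc) _ (hτ c hc) (2 * c) (2 * c + 1) (by omega) (by omega)]
        exact h1 _ (hτ c hc)
      · exact iff_of_false (fun h3 => no d c _ _ h hc (by omega) (by omega) h3.symm) (ne_of_gt h)
    show G.Adj (y (τ c) (2 * c)) (y (τ d) (2 * d + 1)) ↔ _
    rw [key]
    simp

/-- The second matching. -/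
theorem mat2 {V : Type} {G : SimpleGraph V} {k q m : ℕ} {y : ℕ → ℕ → V} (g : Grd G k q y)
    (hmq : 2 * m + 2 ≤ q) (τ : ℕ → ℕ) (hτ : ∀ c < m, τ c < k)
    (h1 : ∀ a < k, G.Adj (y a 0) (y a 1))
    (h2 : ∀ c d, c < d → d < m → ¬ G.Adj (y (τ d) 0) (y (τ c) 1)) :
    TP G m false false false (fun c => y (τ c) (2 * (m - c)))
      (fun c => y (τ c) (2 * (m - c) + 1)) := by
  have no : ∀ c d i j, c < d → d < m → i < j → j < q → ¬ G.Adj (y (τ d) i) (y (τ c) j) := by
    intro c d i j hcd hd hij hj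
    rw [g.hom _ (hτ d hd) _ (hτ c (by omega)) i j hij hj]
    exact h2 c d hcd hd
  refine ⟨?_, ?_, ?_, ?_, ?_, ?_⟩
  · intro c hc d hd
    exact g.dif _ (hτ c hc) _ (hτ d hd) _ (by omega) _ (by omega) (Or.inr (by omega))
  · intro c hc d hd hcd
    exact g.dif _ (hτ c hc) _ (hτ d hd) _ (by omega) _ (by omega) (Or.inr (by omega))
  · intro c hc d hd hcd
    exact g.dif _ (hτ c hc) _ (hτ d hd) _ (by omega) _ (by omega) (Or.inr (by omega))
  · intro c hc d hd hcd
    refine iff_of_false ?_ (by simp)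
    rcases lt_or_gt_of_ne hcd with h | h
    · exact fun h3 => no c d _ _ h hd (by omega) (by omega) h3.symm
    · exact no d c _ _ h hc (by omega) (by omega)
  · intro c hc d hd hcd
    refine iff_of_false ?_ (by simp)
    rcases lt_or_gt_of_ne hcd with h | h
    · exact fun h3 => no c d _ _ h hd (by omega) (by omega) h3.symm
    · exact no d c _ _ h hc (by omega) (by omega)
  · intro c hc d hd
    have key : G.Adj (y (τ c) (2 * (m - c))) (y (τ d) (2 * (m - d) + 1)) ↔ c = d := by
      rcases lt_trichotomy c d with h | h | h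
      · exact iff_of_false (fun h3 => no c d _ _ h hd (by omega) (by omega) h3.symm) (ne_of_lt h)
      · subst h
        refine iff_of_true ?_ rfl
        rw [g.hom _ (hτ c hc) _ (hτ c hc) (2 * (m - c)) (2 * (m - c) + 1) (by omega) (by omega)]
        exact h1 _ (hτ c hc)
      · exact iff_of_false (no d c _ _ h hc (by omega) (by omega)) (ne_of_gt h)
    show G.Adj (y (τ c) (2 * (m - c))) (y (τ d) (2 * (m - d) + 1)) ↔ _
    rw [key]
    simp

end SplAux

open SplAux in
/-- **Spl.** -/
theorem spl (h1 : R3.S_Pairs) (h2 : W.S_RamC) : S_Spl := by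
  intro m
  obtain ⟨K₀, hK₀⟩ := h2 (Prop × Prop) m
  obtain ⟨k, hk⟩ : ∃ k, k = K₀ + m + 2 := ⟨_, rfl⟩
  obtain ⟨q, hq⟩ : ∃ q, q = 2 * k + m + 2 := ⟨_, rfl⟩
  obtain ⟨s, hs⟩ := h2 (Fin k → Fin k → Prop) q
  refine ⟨k, s * k + 1, ?_⟩
  intro V _ G hM hC
  classical
  have hfin : {B : Finset V | ∀ T ⊆ B, Stb G T → T.card < k}.Finite := Set.toFinite _
  have hne : {B : Finset V | ∀ T ⊆ B, Stb G T → T.card < k}.Nonempty := by
    refine ⟨∅, ?_⟩
    intro T hT _
    have : T = ∅ := Finset.subset_empty.1 hT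
    rw [this, Finset.card_empty]
    omega
  obtain ⟨B, hB, hBmax⟩ := Set.exists_max_image _ (fun B : Finset V => B.card) hfin hne
  refine ⟨B, hB, ?_⟩
  intro K hKB hKc
  by_contra hlt
  rw [not_lt] at hlt
  obtain ⟨x, hx0, hx1, hx2, hx3⟩ := h1 V G k s B K (by omega) hB
    (fun B' hB' => hBmax B' hB') hKB hKc (by omega)
  obtain ⟨σ, E, hσ, hσs, hE⟩ := hs
    (fun i j => fun a b : Fin k => G.Adj (x a i) (x b j))
  -- the grid
  have hσ' : ∀ i < q, ∀ j < q, i ≠ j → σ i ≠ σ j := by
    intro i hi j hj hij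
    rcases lt_or_gt_of_ne hij with h | h
    · exact ne_of_lt (hσ i j h hj)
    · exact ne_of_gt (hσ j i h hi)
  have hom : ∀ a < k, ∀ b < k, ∀ i j, i < j → j < q →
      (G.Adj (x a (σ i)) (x b (σ j)) ↔ G.Adj (x a (σ 0)) (x b (σ 1))) := by
    intro a ha b hb i j hij hj
    have e1 := congrFun (congrFun (hE i j hij hj) ⟨a, ha⟩) ⟨b, hb⟩
    have e2 := congrFun (congrFun (hE 0 1 (by omega) (by omega)) ⟨a, ha⟩) ⟨b, hb⟩
    exact Iff.of_eq (e1.trans e2.symm)
  have g : Grd G k q (fun a i => x a (σ i)) := by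
    refine ⟨?_, ?_, hom⟩
    · intro a ha b hb i hi j hj h
      refine hx2 a ha b hb (σ i) (hσs i hi) (σ j) (hσs j hj) ?_
      rcases h with h | h
      · exact Or.inl h
      · exact Or.inr (hσ' i hi j hj h)
    · intro a ha b hb i hi
      exact hx3 a ha b hb (σ i) (hσs i hi)
  have hdiag : ∀ a < k, G.Adj (x a (σ 0)) (x a (σ 1)) := by
    intro a ha
    rcases Nat.eq_zero_or_pos a with h0 | h0
    · subst h0
      refine hKc _ (hx0 _ (hσs 0 (by omega))) _ (hx0 _ (hσs 1 (by omega))) ?_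
      exact g.dif 0 ha 0 ha 0 (by omega) 1 (by omega) (Or.inr (by omega))
    · by_contra hna
      have hT := hB ((Finset.range k).image (fun i => x a (σ i))) ?_ ?_
      · rw [Finset.card_image_of_injOn, Finset.card_range] at hT
        · exact absurd hT (lt_irrefl _)
        · intro i hi j hj hij
          have hi' : i < k := Finset.mem_range.1 hi
          have hj' : j < k := Finset.mem_range.1 hj
          by_contra hne
          exact g.dif a ha a ha i (by omega) j (by omega) (Or.inr hne) hij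
      · intro v hv
        obtain ⟨i, hi, rfl⟩ := Finset.mem_image.1 hv
        have hi' : i < k := Finset.mem_range.1 hi
        exact hx1 a ha h0 _ (hσs i (by omega))
      · intro u hu v hv hadj
        obtain ⟨i, hi, rfl⟩ := Finset.mem_image.1 hu
        obtain ⟨j, hj, rfl⟩ := Finset.mem_image.1 hv
        have hi' : i < k := Finset.mem_range.1 hi
        have hj' : j < k := Finset.mem_range.1 hj
        rcases lt_trichotomy i j with h | h | h
        · exact hna ((hom a ha a ha i j h (by omega)).1 hadj)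
        · subst h
          exact G.loopless.irrefl _ hadj
        · exact hna ((hom a ha a ha j i h (by omega)).1 hadj.symm)
  obtain ⟨τ, c, hτ, hτk, hc⟩ := hK₀
    (fun a b => (G.Adj (x a (σ 0)) (x b (σ 1)), G.Adj (x b (σ 0)) (x a (σ 1))))
  have hτk' : ∀ c < m, τ c < k := fun c hc => lt_of_lt_of_le (hτk c hc) (by omega)
  by_cases hc1 : c.1
  · refine hM _ _ (mat2 g (by omega) τ hτk' hdiag ?_)
    intro i j hij hj hadj
    have e := congrArg Prod.fst (hc i j hij hj)
    have e' : G.Adj (x (τ i) (σ 0)) (x (τ j) (σ 1)) := by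
      have e2 : G.Adj (x (τ i) (σ 0)) (x (τ j) (σ 1)) = c.1 := e
      rw [e2]
      exact hc1
    exact noCo g (by omega) hC (hτk' i (by omega)) (hτk' j hj) (ne_of_lt (hτ i j hij hj)) hdiag e' hadj
  · refine hM _ _ (mat1 g (by omega) τ hτk' hdiag ?_)
    intro i j hij hj hadj
    have e : G.Adj (x (τ i) (σ 0)) (x (τ j) (σ 1)) = c.1 :=
      congrArg Prod.fst (hc i j hij hj)
    apply hc1
    rw [← e]
    exact hadj

end Pool.Agent.MPd439b2.CR
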